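import Mathlib

/-!
Homotopy of invertible elements: a criterion for commutation modulo the identity component,
and polar decomposition of paths.
-/

open scoped ComplexConjugate

set_option linter.unusedSectionVars false

noncomputable section

namespace H584Bu

section Units

variable {A : Type*} [CStarAlgebra A]

/-- A continuous path of invertible elements joins the corresponding units. -/
theorem joined_of_path (f : ℝ → A) (hf : Continuous f) (hu : ∀ t ∈ Set.Icc (0 : ℝ) 1, IsUnit (f t))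
    (a b : Aˣ) (ha : f 0 = a) (hb : f 1 = b) : Joined a b := by
  let F : unitInterval → Aˣ := fun t => (hu t t.2).unit
  have hF : Continuous F := by
    rw [Units.isOpenEmbedding_val.isInducing.continuous_iff]
    have : (Units.val ∘ F) = fun t : unitInterval => f t := by
      funext t; rfl
    rw [this]
    exact hf.comp continuous_subtype_val
  refine ⟨⟨⟨F, hF⟩, ?_, ?_⟩⟩
  · apply Units.ext
    change f (0 : unitInterval) = a
    rw [← ha]; rfl
  · apply Units.ext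
    change f (1 : unitInterval) = b
    rw [← hb]; rfl

/-- The path component of `1` in the group of units. -/
def P0 (A : Type*) [CStarAlgebra A] : Subgroup Aˣ where
  carrier := {g | Joined 1 g}
  mul_mem' := by
    intro a b ha hb
    have := Joined.mul ha hb
    rwa [one_mul] at this
  one_mem' := Joined.refl 1
  inv_mem' := by
    intro a ha
    have := Joined.inv ha
    rwa [inv_one] at this

theorem mem_P0 {g : Aˣ} : g ∈ P0 A ↔ Joined 1 g := Iff.rfl

instance P0_normal : (P0 A).Normal where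
  conj_mem := by
    intro n hn g
    have h1 := Joined.mul (Joined.mul (Joined.refl g) (mem_P0.1 hn)) (Joined.refl g⁻¹)
    have h2 : g * 1 * g⁻¹ = 1 := by group
    rw [h2] at h1
    exact h1

/-- The class of a unit. -/
def cl (g : Aˣ) : Aˣ ⧸ (P0 A) := QuotientGroup.mk g

theorem cl_mul (a b : Aˣ) : cl (a * b) = cl a * cl b := rfl

theorem cl_inv (a : Aˣ) : cl (a⁻¹) = (cl a)⁻¹ := rfl

theorem cl_one : cl (1 : Aˣ) = 1 := rfl

theorem cl_eq {a b : Aˣ} : cl a = cl b ↔ Joined a b := by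
  unfold cl
  rw [QuotientGroup.eq]
  constructor
  · intro h
    have h1 := Joined.mul (Joined.refl a) (mem_P0.1 h)
    rwa [mul_one, mul_inv_cancel_left] at h1
  · intro h
    have h1 := Joined.mul (Joined.refl a⁻¹) h
    rw [inv_mul_cancel] at h1
    exact h1

theorem cl_of_path (f : ℝ → A) (hf : Continuous f) (hu : ∀ t ∈ Set.Icc (0 : ℝ) 1, IsUnit (f t))
    (a b : Aˣ) (ha : f 0 = a) (hb : f 1 = b) : cl a = cl b :=
  cl_eq.2 (joined_of_path f hf hu a b ha hb)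

theorem isUnit_one_add {x : A} (h : ‖x‖ < 1) : IsUnit (1 + x) := by
  have h1 : ‖-x‖ < 1 := by rwa [norm_neg]
  have h2 := (Units.oneSub (-x) h1).isUnit
  rwa [Units.val_oneSub, sub_neg_eq_add] at h2

theorem inv1 (α β : ℂ) (g e : A) (hg : ‖g‖ ≤ 1) (h : ‖β‖ + ‖e‖ < ‖α‖) :
    IsUnit (α • (1 : A) + β • g + e) := by
  have hα : α ≠ 0 := by
    rintro rfl
    rw [norm_zero] at h
    have := norm_nonneg β
    have := norm_nonneg e
    linarith
  have h1 : α • (1 : A) + β • g + e = α • (1 + α⁻¹ • (β • g + e)) := by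
    rw [smul_add, smul_inv_smul₀ hα, add_assoc]
  rw [h1]
  have h2 : ‖α⁻¹ • (β • g + e)‖ < 1 := by
    rw [norm_smul, norm_inv]
    have h3 : ‖β • g + e‖ < ‖α‖ := by
      refine lt_of_le_of_lt (norm_add_le _ _) ?_
      rw [norm_smul]
      have : ‖β‖ * ‖g‖ ≤ ‖β‖ := by
        calc ‖β‖ * ‖g‖ ≤ ‖β‖ * 1 := mul_le_mul_of_nonneg_left hg (norm_nonneg _)
          _ = ‖β‖ := mul_one _
      linarith
    have h4 : 0 < ‖α‖ := norm_pos_iff.2 hα
    rw [inv_mul_lt_iff₀ h4, mul_one]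
    exact h3
  have h5 := (isUnit_one_add h2)
  have h6 : IsUnit (algebraMap ℂ A α) := (IsUnit.mk0 α hα).map (algebraMap ℂ A)
  rw [Algebra.smul_def]
  exact h6.mul h5

theorem inv2 (α β : ℂ) (g : Aˣ) (e : A) (hg : ‖((g⁻¹ : Aˣ) : A)‖ ≤ 1)
    (h : ‖α‖ + ‖e‖ < ‖β‖) : IsUnit (α • (1 : A) + β • (g : A) + e) := by
  have h1 : α • (1 : A) + β • (g : A) + e =
      (g : A) * (β • (1 : A) + α • ((g⁻¹ : Aˣ) : A) + ((g⁻¹ : Aˣ) : A) * e) := by
    rw [mul_add, mul_add, mul_smul_comm, mul_smul_comm, mul_one, Units.mul_inv,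
      Units.mul_inv_cancel_left]
    abel
  rw [h1]
  refine g.isUnit.mul (inv1 β α _ _ hg ?_)
  have h2 : ‖((g⁻¹ : Aˣ) : A) * e‖ ≤ ‖e‖ := by
    refine (norm_mul_le _ _).trans ?_
    calc ‖((g⁻¹ : Aˣ) : A)‖ * ‖e‖ ≤ 1 * ‖e‖ := mul_le_mul_of_nonneg_right hg (norm_nonneg _)
      _ = ‖e‖ := one_mul _
  linarith

/-- `1 + a b` is invertible iff `1 + b a` is. -/
theorem isUnit_one_add_mul_comm {R : Type*} [Ring R] {a b : R} (h : IsUnit (1 + a * b)) :
    IsUnit (1 + b * a) := by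
  obtain ⟨c, hc1, hc2⟩ := isUnit_iff_exists.1 h
  rw [isUnit_iff_exists]
  refine ⟨1 - b * c * a, ?_, ?_⟩
  · have : (1 + b * a) * (1 - b * c * a) = 1 + b * (1 - (1 + a * b) * c) * a := by noncomm_ring
    rw [this, hc1]
    noncomm_ring
  · have : (1 - b * c * a) * (1 + b * a) = 1 + b * (1 - c * (1 + a * b)) * a := by noncomm_ring
    rw [this, hc2]
    noncomm_ring

/-- The main homotopy argument: under two invertibility conditions, the classes of `g` and `h`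
modulo the identity component of the group of units commute. -/
theorem pi0_comm (g h : Aˣ) (hg : ‖(g : A)‖ ≤ 1) (hg' : ‖((g⁻¹ : Aˣ) : A)‖ ≤ 1)
    (hh : ‖(h : A)‖ ≤ 1) (hh' : ‖((h⁻¹ : Aˣ) : A)‖ ≤ 1) (k₁ k₂ : A)
    (hk₁ : ‖k₁‖ ≤ 1 / 4) (hk₂ : ‖k₂‖ ≤ 1 / 4) (e s : Aˣ)
    (he : (e : A) = 1 - g - k₁)
    (hs : (s : A) = e + Complex.I • (1 - (h : A)) -
      ((1 + Complex.I) / 2) • ((1 - (h : A)) * e) - k₂) :
    cl g * cl h = cl h * cl g := by
  set c : ℂ := (1 + Complex.I) / 2 with hc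
  let X : ℂ → A := fun w => 1 + w • (e : A)
  let Y : ℂ → A := fun w => 1 - (c + Complex.I * w) • (1 - (h : A)) + w • k₂
  let L : A := ((-Complex.I) • (1 - (h : A)) + k₂) * ((e⁻¹ : Aˣ) : A)
  let r : Aˣ := s * e⁻¹
  have hX : ∀ w, X w = (1 + w) • (1 : A) + (-w) • (g : A) + (-w) • k₁ := by
    intro w
    simp only [X, he, smul_sub, add_smul, one_smul, neg_smul]
    abel
  have hY : ∀ w, Y w = (1 - (c + Complex.I * w)) • (1 : A) + (c + Complex.I * w) • (h : A) +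
      w • k₂ := by
    intro w
    simp only [Y, smul_sub, sub_smul, one_smul]
    abel
  have hXc : Continuous X := by fun_prop
  have hYc : Continuous Y := by fun_prop
  -- the Euclidean division
  have hdiv : ∀ w, Y w = (r : A) + L * X w := by
    intro w
    have h1 : (r : A) = (s : A) * ((e⁻¹ : Aˣ) : A) := by simp [r]
    have h2 : L * X w = L + w • ((-Complex.I) • (1 - (h : A)) + k₂) := by
      simp only [X, L, mul_add, mul_one, mul_smul_comm]
      rw [mul_assoc, Units.inv_mul, mul_one]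
    have h3 : (s : A) * ((e⁻¹ : Aˣ) : A) = 1 + Complex.I • ((1 - (h : A)) * ((e⁻¹ : Aˣ) : A)) -
        c • (1 - (h : A)) - k₂ * ((e⁻¹ : Aˣ) : A) := by
      rw [hs, sub_mul, sub_mul, add_mul, Units.mul_inv, smul_mul_assoc, smul_mul_assoc, mul_assoc,
        Units.mul_inv, mul_one]
    rw [h1, h2, h3]
    simp only [Y, L, add_mul, smul_mul_assoc, smul_add, smul_smul, add_smul, neg_smul, neg_mul,
      smul_neg, mul_comm w Complex.I]
    abel
  -- M
  let M : ℂ → A := fun w => 1 + X w * ((r⁻¹ : Aˣ) : A) * L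
  have hMc : Continuous M := by fun_prop
  have hMu : ∀ w, IsUnit (Y w) → IsUnit (M w) := by
    intro w hw
    have h1 : IsUnit (1 + L * (X w * ((r⁻¹ : Aˣ) : A))) := by
      have h2 : 1 + L * (X w * ((r⁻¹ : Aˣ) : A)) = Y w * ((r⁻¹ : Aˣ) : A) := by
        rw [hdiv w, add_mul (r : A) (L * X w) _, Units.mul_inv, mul_assoc L]
      rw [h2]
      exact hw.mul (r⁻¹).isUnit
    exact isUnit_one_add_mul_comm h1
  have hM : ∀ (w : ℂ) (x y : Aˣ), (x : A) = X w → (y : A) = Y w →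
      M w = ((x * r⁻¹ * y * x⁻¹ : Aˣ) : A) := by
    intro w x y hx hy
    have h1 : ((x * r⁻¹ * y * x⁻¹ : Aˣ) : A) = X w * ((r⁻¹ : Aˣ) : A) * Y w * ((x⁻¹ : Aˣ) : A) := by
      simp only [Units.val_mul, hx, hy]
    rw [h1, hdiv w, mul_add, mul_assoc (X w) _ (r : A), Units.inv_mul, mul_one, add_mul]
    rw [← hx, Units.mul_inv]
    simp only [M]
    rw [← hx]
    congr 1
    rw [← mul_assoc _ L, mul_assoc (_ * L), Units.mul_inv, mul_one]
  -- corner points
  have hI : ‖Complex.I‖ = 1 := Complex.norm_I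
  -- invertibility of X on vertical edges
  have hXr : ∀ q : ℝ, |q| ≤ 1 / 2 → IsUnit (X (Complex.I * q)) := by
    intro q hq
    rw [hX]
    apply inv1 _ _ _ _ hg
    have h1 : ‖(-(Complex.I * (q : ℂ)))‖ = |q| := by
      rw [norm_neg, norm_mul, hI, one_mul, Complex.norm_real, Real.norm_eq_abs]
    have h2 : ‖(-(Complex.I * (q : ℂ))) • k₁‖ ≤ |q| * (1 / 4) := by
      rw [norm_smul, h1]
      exact mul_le_mul_of_nonneg_left hk₁ (abs_nonneg _)
    have h3 : (1 : ℝ) ≤ ‖(1 : ℂ) + Complex.I * q‖ := by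
      have := Complex.abs_re_le_norm ((1 : ℂ) + Complex.I * q)
      simpa using this
    rw [h1]
    linarith
  have hXl : ∀ q : ℝ, |q| ≤ 1 / 2 → IsUnit (X (-1 + Complex.I * q)) := by
    intro q hq
    rw [hX]
    apply inv2 _ _ _ _ hg'
    have h0 : (1 : ℂ) + (-1 + Complex.I * (q : ℂ)) = Complex.I * q := by ring
    have h1 : ‖(1 : ℂ) + (-1 + Complex.I * (q : ℂ))‖ = |q| := by
      rw [h0, norm_mul, hI, one_mul, Complex.norm_real, Real.norm_eq_abs]
    have h3 : (1 : ℝ) ≤ ‖(-(-1 + Complex.I * (q : ℂ)))‖ := by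
      have := Complex.abs_re_le_norm (-(-1 + Complex.I * (q : ℂ)))
      simpa using this
    have h2 : ‖(-(-1 + Complex.I * (q : ℂ))) • k₁‖ ≤ ‖(-(-1 + Complex.I * (q : ℂ)))‖ * (1 / 4) := by
      rw [norm_smul]
      exact mul_le_mul_of_nonneg_left hk₁ (norm_nonneg _)
    rw [h1]
    linarith
  -- invertibility of Y on horizontal edges: w = -1/2 + p ± i/2
  have hcI : ∀ p : ℝ, c + Complex.I * (-1 / 2 + p + Complex.I / 2) = Complex.I * p := by
    intro p
    rw [hc]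
    linear_combination (1 / 2 : ℂ) * Complex.I_mul_I
  have hcI' : ∀ p : ℝ, c + Complex.I * (-1 / 2 + p - Complex.I / 2) = 1 + Complex.I * p := by
    intro p
    rw [hc]
    linear_combination (-1 / 2 : ℂ) * Complex.I_mul_I
  have hwn : ∀ p : ℝ, |p| ≤ 1 / 2 → ‖(-1 / 2 + (p : ℂ) + Complex.I / 2)‖ ≤ 3 / 2 := by
    intro p hp
    refine (norm_add_le _ _).trans ?_
    have h1 : ‖(-1 / 2 + (p : ℂ))‖ ≤ 1 := by
      refine (norm_add_le _ _).trans ?_
      rw [Complex.norm_real, Real.norm_eq_abs]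
      have : ‖(-1 / 2 : ℂ)‖ = 1 / 2 := by norm_num
      linarith
    have h2 : ‖Complex.I / 2‖ = 1 / 2 := by
      rw [norm_div, hI]; norm_num
    linarith
  have hwn' : ∀ p : ℝ, |p| ≤ 1 / 2 → ‖(-1 / 2 + (p : ℂ) - Complex.I / 2)‖ ≤ 3 / 2 := by
    intro p hp
    refine (norm_sub_le _ _).trans ?_
    have h1 : ‖(-1 / 2 + (p : ℂ))‖ ≤ 1 := by
      refine (norm_add_le _ _).trans ?_
      rw [Complex.norm_real, Real.norm_eq_abs]
      have : ‖(-1 / 2 : ℂ)‖ = 1 / 2 := by norm_num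
      linarith
    have h2 : ‖Complex.I / 2‖ = 1 / 2 := by
      rw [norm_div, hI]; norm_num
    linarith
  have hYt : ∀ p : ℝ, |p| ≤ 1 / 2 → IsUnit (Y (-1 / 2 + p + Complex.I / 2)) := by
    intro p hp
    rw [hY, hcI]
    apply inv1 _ _ _ _ hh
    have h1 : ‖Complex.I * (p : ℂ)‖ = |p| := by
      rw [norm_mul, hI, one_mul, Complex.norm_real, Real.norm_eq_abs]
    have h2 : ‖(-1 / 2 + (p : ℂ) + Complex.I / 2) • k₂‖ ≤ 3 / 2 * (1 / 4) := by
      rw [norm_smul]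
      exact mul_le_mul (hwn p hp) hk₂ (norm_nonneg _) (by norm_num)
    have h3 : (1 : ℝ) ≤ ‖(1 : ℂ) - Complex.I * p‖ := by
      have := Complex.abs_re_le_norm ((1 : ℂ) - Complex.I * p)
      simpa using this
    rw [h1]
    linarith
  have hYb : ∀ p : ℝ, |p| ≤ 1 / 2 → IsUnit (Y (-1 / 2 + p - Complex.I / 2)) := by
    intro p hp
    rw [hY, hcI']
    apply inv2 _ _ _ _ hh'
    have h0 : (1 : ℂ) - (1 + Complex.I * (p : ℂ)) = -(Complex.I * p) := by ring
    have h1 : ‖(1 : ℂ) - (1 + Complex.I * (p : ℂ))‖ = |p| := by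
      rw [h0, norm_neg, norm_mul, hI, one_mul, Complex.norm_real, Real.norm_eq_abs]
    have h2 : ‖(-1 / 2 + (p : ℂ) - Complex.I / 2) • k₂‖ ≤ 3 / 2 * (1 / 4) := by
      rw [norm_smul]
      exact mul_le_mul (hwn' p hp) hk₂ (norm_nonneg _) (by norm_num)
    have h3 : (1 : ℝ) ≤ ‖(1 : ℂ) + Complex.I * p‖ := by
      have := Complex.abs_re_le_norm ((1 : ℂ) + Complex.I * p)
      simpa using this
    rw [h1]
    linarith
  -- corner units
  have habs : |(1 / 2 : ℝ)| ≤ 1 / 2 := by rw [abs_of_pos] <;> norm_num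
  have habs' : |(-(1 / 2) : ℝ)| ≤ 1 / 2 := by rw [abs_neg]; exact habs
  have epp : (-1 / 2 + ((1 / 2 : ℝ) : ℂ) + Complex.I / 2) = Complex.I * ((1 / 2 : ℝ) : ℂ) := by
    push_cast; ring
  have epm : (-1 / 2 + ((1 / 2 : ℝ) : ℂ) - Complex.I / 2) = Complex.I * ((-(1 / 2) : ℝ) : ℂ) := by
    push_cast; ring
  have emp : (-1 / 2 + ((-(1 / 2) : ℝ) : ℂ) + Complex.I / 2) =
      -1 + Complex.I * ((1 / 2 : ℝ) : ℂ) := by
    push_cast; ring
  have emm : (-1 / 2 + ((-(1 / 2) : ℝ) : ℂ) - Complex.I / 2) =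
      -1 + Complex.I * ((-(1 / 2) : ℝ) : ℂ) := by
    push_cast; ring
  obtain ⟨xpp, hxpp⟩ := hXr (1 / 2) habs
  obtain ⟨xpm, hxpm⟩ := hXr (-(1 / 2)) habs'
  obtain ⟨xmp, hxmp⟩ := hXl (1 / 2) habs
  obtain ⟨xmm, hxmm⟩ := hXl (-(1 / 2)) habs'
  obtain ⟨ypp, hypp⟩ := hYt (1 / 2) habs
  obtain ⟨ymp, hymp⟩ := hYt (-(1 / 2)) habs'
  obtain ⟨ypm, hypm⟩ := hYb (1 / 2) habs
  obtain ⟨ymm, hymm⟩ := hYb (-(1 / 2)) habs'
  rw [epp] at hypp
  rw [epm] at hypm
  rw [emp] at hymp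
  rw [emm] at hymm
  have hbd : ∀ t ∈ Set.Icc (0 : ℝ) 1, |t / 2| ≤ 1 / 2 := by
    intro t ht
    rw [abs_of_nonneg (by linarith [ht.1])]
    linarith [ht.2]
  have hbd' : ∀ t ∈ Set.Icc (0 : ℝ) 1, |-(t / 2)| ≤ 1 / 2 := by
    intro t ht
    rw [abs_neg]
    exact hbd t ht
  have hbd2 : ∀ t ∈ Set.Icc (0 : ℝ) 1, |(1 / 2 - t)| ≤ 1 / 2 := by
    intro t ht
    rw [abs_le]
    constructor <;> linarith [ht.1, ht.2]
  -- X at right corners has trivial class
  have cxpp : cl xpp = 1 := by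
    rw [← cl_one]
    symm
    refine cl_of_path (fun t : ℝ => X (Complex.I * ((t / 2 : ℝ) : ℂ))) (by fun_prop)
      (fun t ht => hXr _ (hbd t ht)) 1 xpp ?_ ?_
    · simp [X]
    · simp only [hxpp]
  have cxpm : cl xpm = 1 := by
    rw [← cl_one]
    symm
    refine cl_of_path (fun t : ℝ => X (Complex.I * ((-(t / 2) : ℝ) : ℂ))) (by fun_prop)
      (fun t ht => hXr _ (hbd' t ht)) 1 xpm ?_ ?_
    · simp [X]
    · simp only [hxpm]
  -- the class of X(-1)
  obtain ⟨xm, hxm⟩ := hXl 0 (by simp)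
  have cxm : cl xm = cl g := by
    refine cl_of_path (fun t : ℝ => (0 : ℂ) • (1 : A) + (1 : ℂ) • (g : A) + ((1 - t : ℝ) : ℂ) • k₁)
      (by fun_prop) ?_ xm g ?_ ?_
    · intro t ht
      apply inv2 _ _ _ _ hg'
      have h2 : ‖((1 - t : ℝ) : ℂ) • k₁‖ ≤ 1 * (1 / 4) := by
        rw [norm_smul]
        refine mul_le_mul ?_ hk₁ (norm_nonneg _) (by norm_num)
        rw [Complex.norm_real, Real.norm_eq_abs, abs_le]
        constructor <;> linarith [ht.1, ht.2]
      rw [norm_zero, norm_one]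
      linarith
    · rw [hxm, hX]
      simp
    · simp
  have cxmp : cl xmp = cl g := by
    rw [← cxm]
    symm
    refine cl_of_path (fun t : ℝ => X (-1 + Complex.I * ((t / 2 : ℝ) : ℂ))) (by fun_prop)
      (fun t ht => hXl _ (hbd t ht)) xm xmp ?_ ?_
    · rw [hxm]; simp
    · simp only [hxmp]
  have cxmm : cl xmm = cl g := by
    rw [← cxm]
    symm
    refine cl_of_path (fun t : ℝ => X (-1 + Complex.I * ((-(t / 2) : ℝ) : ℂ))) (by fun_prop)
      (fun t ht => hXl _ (hbd' t ht)) xm xmm ?_ ?_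
    · rw [hxm]; simp
    · simp only [hxmm]
  -- Y on the top edge
  obtain ⟨yt, hyt⟩ := hYt 0 (by simp)
  have cyt : cl yt = 1 := by
    rw [← cl_one]
    refine cl_of_path (fun t : ℝ => (1 : ℂ) • (1 : A) + (0 : ℂ) • (h : A) +
      ((1 - t : ℝ) : ℂ) • ((-1 / 2 + ((0 : ℝ) : ℂ) + Complex.I / 2) • k₂))
      (by fun_prop) ?_ yt 1 ?_ ?_
    · intro t ht
      apply inv1 _ _ _ _ hh
      have h2 : ‖((1 - t : ℝ) : ℂ) • ((-1 / 2 + ((0 : ℝ) : ℂ) + Complex.I / 2) • k₂)‖ ≤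
          1 * (3 / 2 * (1 / 4)) := by
        rw [norm_smul]
        refine mul_le_mul ?_ ?_ (norm_nonneg _) (by norm_num)
        · rw [Complex.norm_real, Real.norm_eq_abs, abs_le]
          constructor <;> linarith [ht.1, ht.2]
        · rw [norm_smul]
          exact mul_le_mul (hwn 0 (by simp)) hk₂ (norm_nonneg _) (by norm_num)
      rw [norm_zero, norm_one]
      linarith
    · rw [hyt, hY, hcI]
      simp
    · simp
  have cypp : cl ypp = 1 := by
    rw [← cyt]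
    symm
    refine cl_of_path (fun t : ℝ => Y (-1 / 2 + ((t / 2 : ℝ) : ℂ) + Complex.I / 2)) (by fun_prop)
      (fun t ht => hYt _ (hbd t ht)) yt ypp ?_ ?_
    · rw [hyt]; simp
    · rw [hypp, ← epp]
  have cymp : cl ymp = 1 := by
    rw [← cyt]
    symm
    refine cl_of_path (fun t : ℝ => Y (-1 / 2 + ((-(t / 2) : ℝ) : ℂ) + Complex.I / 2))
      (by fun_prop) (fun t ht => hYt _ (hbd' t ht)) yt ymp ?_ ?_
    · rw [hyt]; simp
    · rw [hymp, ← emp]
  -- Y on the bottom edge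
  obtain ⟨yb, hyb⟩ := hYb 0 (by simp)
  have cyb : cl yb = cl h := by
    refine cl_of_path (fun t : ℝ => (0 : ℂ) • (1 : A) + (1 : ℂ) • (h : A) +
      ((1 - t : ℝ) : ℂ) • ((-1 / 2 + ((0 : ℝ) : ℂ) - Complex.I / 2) • k₂))
      (by fun_prop) ?_ yb h ?_ ?_
    · intro t ht
      apply inv2 _ _ _ _ hh'
      have h2 : ‖((1 - t : ℝ) : ℂ) • ((-1 / 2 + ((0 : ℝ) : ℂ) - Complex.I / 2) • k₂)‖ ≤
          1 * (3 / 2 * (1 / 4)) := by
        rw [norm_smul]
        refine mul_le_mul ?_ ?_ (norm_nonneg _) (by norm_num)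
        · rw [Complex.norm_real, Real.norm_eq_abs, abs_le]
          constructor <;> linarith [ht.1, ht.2]
        · rw [norm_smul]
          exact mul_le_mul (hwn' 0 (by simp)) hk₂ (norm_nonneg _) (by norm_num)
      rw [norm_zero, norm_one]
      linarith
    · rw [hyb, hY, hcI']
      simp
    · simp
  have cypm : cl ypm = cl h := by
    rw [← cyb]
    symm
    refine cl_of_path (fun t : ℝ => Y (-1 / 2 + ((t / 2 : ℝ) : ℂ) - Complex.I / 2)) (by fun_prop)
      (fun t ht => hYb _ (hbd t ht)) yb ypm ?_ ?_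
    · rw [hyb]; simp
    · rw [hypm, ← epm]
  have cymm : cl ymm = cl h := by
    rw [← cyb]
    symm
    refine cl_of_path (fun t : ℝ => Y (-1 / 2 + ((-(t / 2) : ℝ) : ℂ) - Complex.I / 2))
      (by fun_prop) (fun t ht => hYb _ (hbd' t ht)) yb ymm ?_ ?_
    · rw [hyb]; simp
    · rw [hymm, ← emm]
  -- M along the top edge
  have htop : cl (xpp * r⁻¹ * ypp * xpp⁻¹) = cl (xmp * r⁻¹ * ymp * xmp⁻¹) := by
    refine cl_of_path (fun t : ℝ => M (-1 / 2 + ((1 / 2 - t : ℝ) : ℂ) + Complex.I / 2))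
      (by fun_prop) (fun t ht => hMu _ (hYt _ (hbd2 t ht))) _ _ ?_ ?_
    · rw [← hM _ xpp ypp hxpp hypp, ← epp]
      simp
    · rw [← hM _ xmp ymp hxmp hymp, ← emp]
      norm_num
  have hbot : cl (xpm * r⁻¹ * ypm * xpm⁻¹) = cl (xmm * r⁻¹ * ymm * xmm⁻¹) := by
    refine cl_of_path (fun t : ℝ => M (-1 / 2 + ((1 / 2 - t : ℝ) : ℂ) - Complex.I / 2))
      (by fun_prop) (fun t ht => hMu _ (hYb _ (hbd2 t ht))) _ _ ?_ ?_
    · rw [← hM _ xpm ypm hxpm hypm, ← epm]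
      simp
    · rw [← hM _ xmm ymm hxmm hymm, ← emm]
      norm_num
  simp only [cl_mul, cl_inv, cxpp, cxpm, cxmp, cxmm, cypp, cypm, cymp, cymm, one_mul, mul_one,
    inv_one] at htop hbot
  -- htop : ρ⁻¹ = g ρ⁻¹ g⁻¹,  hbot : ρ⁻¹ h = g ρ⁻¹ h g⁻¹
  have h1 : (cl r)⁻¹ * cl g = cl g * (cl r)⁻¹ := eq_mul_inv_iff_mul_eq.1 htop
  have h2 : (cl r)⁻¹ * cl h * cl g = cl g * (cl r)⁻¹ * cl h := eq_mul_inv_iff_mul_eq.1 hbot
  rw [← h1, mul_assoc, mul_assoc] at h2
  exact (mul_left_cancel h2).symm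

end Units

end H584Bu
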