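import Pool.Agent.H584R3.Bu1

/-!
Blaschke factors of a unitary, and polar decomposition of paths of invertible elements.
-/

open scoped ComplexConjugate

set_option linter.unusedSectionVars false

noncomputable section

namespace H584Bu

section Blaschke

variable {A : Type*} [CStarAlgebra A]

/-- A unitary as a unit. -/
def uu (u : unitary A) : Aˣ := Unitary.toUnits u

theorem uu_val (u : unitary A) : ((uu u : Aˣ) : A) = (u : A) := rfl

theorem uu_inv_val (u : unitary A) : (((uu u)⁻¹ : Aˣ) : A) = star (u : A) := rfl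

theorem norm_uni (u : unitary A) : ‖(u : A)‖ ≤ 1 := by
  rcases subsingleton_or_nontrivial A with h | h
  · rw [Subsingleton.elim (u : A) 0, norm_zero]; exact zero_le_one
  · exact (CStarRing.norm_coe_unitary u).le

theorem norm_uni_inv (u : unitary A) : ‖(((uu u)⁻¹ : Aˣ) : A)‖ ≤ 1 := by
  rw [uu_inv_val, norm_star]
  exact norm_uni u

theorem isUnit_E (a : ℝ) (ha0 : 0 ≤ a) (ha1 : a < 1) (u : unitary A) :
    IsUnit (1 - (a : ℂ) • (u : A)) := by
  have h1 : (1 : A) - (a : ℂ) • (u : A) = (1 : ℂ) • (1 : A) + (-(a : ℂ)) • (u : A) + 0 := by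
    simp [sub_eq_add_neg]
  rw [h1]
  apply inv1 _ _ _ _ (norm_uni u)
  rw [norm_neg, Complex.norm_real, Real.norm_of_nonneg ha0, norm_zero, norm_one]
  linarith

theorem isUnit_N (a : ℝ) (ha0 : 0 ≤ a) (ha1 : a < 1) (u : unitary A) :
    IsUnit ((a : ℂ) • (1 : A) - (u : A)) := by
  have h1 : (a : ℂ) • (1 : A) - (u : A) = (a : ℂ) • (1 : A) + (-1 : ℂ) • ((uu u : Aˣ) : A) + 0 := by
    simp [sub_eq_add_neg, uu_val]
  rw [h1]
  apply inv2 _ _ _ _ (norm_uni_inv u)
  rw [norm_neg, Complex.norm_real, Real.norm_of_nonneg ha0, norm_zero, norm_one]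
  linarith

/-- The denominator as a unit. -/
def EE (a : ℝ) (ha0 : 0 ≤ a) (ha1 : a < 1) (u : unitary A) : Aˣ := (isUnit_E a ha0 ha1 u).unit

/-- The numerator as a unit. -/
def NN (a : ℝ) (ha0 : 0 ≤ a) (ha1 : a < 1) (u : unitary A) : Aˣ := (isUnit_N a ha0 ha1 u).unit

theorem EE_val (a : ℝ) (ha0 : 0 ≤ a) (ha1 : a < 1) (u : unitary A) :
    ((EE a ha0 ha1 u : Aˣ) : A) = 1 - (a : ℂ) • (u : A) := rfl

theorem NN_val (a : ℝ) (ha0 : 0 ≤ a) (ha1 : a < 1) (u : unitary A) :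
    ((NN a ha0 ha1 u : Aˣ) : A) = (a : ℂ) • (1 : A) - (u : A) := rfl

/-- The Blaschke factor. -/
def bl (a : ℝ) (ha0 : 0 ≤ a) (ha1 : a < 1) (u : unitary A) : Aˣ :=
  NN a ha0 ha1 u * (EE a ha0 ha1 u)⁻¹

theorem star_NN_mul (a : ℝ) (ha0 : 0 ≤ a) (ha1 : a < 1) (u : unitary A) :
    star ((NN a ha0 ha1 u : Aˣ) : A) * (NN a ha0 ha1 u : Aˣ) =
      star ((EE a ha0 ha1 u : Aˣ) : A) * (EE a ha0 ha1 u : Aˣ) := by
  rw [NN_val, EE_val]
  have h1 : star (u : A) * (u : A) = 1 := Unitary.coe_star_mul_self u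
  simp only [star_sub, star_smul, star_one, RCLike.star_def, Complex.conj_ofReal, sub_mul, mul_sub,
    smul_mul_assoc, mul_smul_comm, one_mul, mul_one, h1, smul_sub]
  abel

theorem bl_star_mul (a : ℝ) (ha0 : 0 ≤ a) (ha1 : a < 1) (u : unitary A) :
    star ((bl a ha0 ha1 u : Aˣ) : A) * (bl a ha0 ha1 u : Aˣ) = 1 := by
  unfold bl
  rw [Units.val_mul, star_mul, mul_assoc, ← mul_assoc (star _) _ (((EE a ha0 ha1 u)⁻¹ : Aˣ) : A),
    star_NN_mul, mul_assoc, Units.mul_inv, mul_one, ← star_mul, Units.mul_inv, star_one]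

theorem bl_inv (a : ℝ) (ha0 : 0 ≤ a) (ha1 : a < 1) (u : unitary A) :
    (((bl a ha0 ha1 u)⁻¹ : Aˣ) : A) = star ((bl a ha0 ha1 u : Aˣ) : A) := by
  exact Units.inv_eq_of_mul_eq_one_left (bl_star_mul a ha0 ha1 u)

theorem bl_mem (a : ℝ) (ha0 : 0 ≤ a) (ha1 : a < 1) (u : unitary A) :
    ((bl a ha0 ha1 u : Aˣ) : A) ∈ unitary A := by
  rw [Unitary.mem_iff]
  refine ⟨bl_star_mul a ha0 ha1 u, ?_⟩
  rw [← bl_inv, Units.mul_inv]

theorem norm_bl (a : ℝ) (ha0 : 0 ≤ a) (ha1 : a < 1) (u : unitary A) :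
    ‖((bl a ha0 ha1 u : Aˣ) : A)‖ ≤ 1 := norm_uni ⟨_, bl_mem a ha0 ha1 u⟩

theorem norm_bl_inv (a : ℝ) (ha0 : 0 ≤ a) (ha1 : a < 1) (u : unitary A) :
    ‖(((bl a ha0 ha1 u)⁻¹ : Aˣ) : A)‖ ≤ 1 := by
  rw [bl_inv, norm_star]
  exact norm_bl a ha0 ha1 u

theorem cl_bl (a : ℝ) (ha0 : 0 ≤ a) (ha1 : a < 1) (u : unitary A) :
    cl (bl a ha0 ha1 u) = cl (uu u) := by
  unfold bl
  rw [cl_mul, cl_inv]
  have h1 : cl (EE a ha0 ha1 u) = 1 := by
    rw [← cl_one]
    refine cl_of_path (fun t : ℝ => (1 : ℂ) • (1 : A) + (-(((1 - t) * a : ℝ) : ℂ)) • (u : A) + 0)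
      (by fun_prop) ?_ _ _ ?_ ?_
    · intro t ht
      apply inv1 _ _ _ _ (norm_uni u)
      rw [norm_neg, Complex.norm_real, Real.norm_of_nonneg
        (mul_nonneg (by linarith [ht.2]) ha0), norm_zero, norm_one]
      nlinarith [ht.1, ht.2]
    · rw [EE_val]; simp [sub_eq_add_neg]
    · simp
  have h2 : cl (NN a ha0 ha1 u) = cl (-(uu u)) := by
    refine cl_of_path (fun t : ℝ => (((1 - t) * a : ℝ) : ℂ) • (1 : A) +
      (-1 : ℂ) • ((uu u : Aˣ) : A) + 0) (by fun_prop) ?_ _ _ ?_ ?_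
    · intro t ht
      apply inv2 _ _ _ _ (norm_uni_inv u)
      rw [norm_neg, Complex.norm_real, Real.norm_of_nonneg
        (mul_nonneg (by linarith [ht.2]) ha0), norm_zero, norm_one]
      nlinarith [ht.1, ht.2]
    · rw [NN_val]; simp [sub_eq_add_neg, uu_val]
    · simp
  have h3 : cl (-(uu u)) = cl (uu u) := by
    refine cl_of_path (fun t : ℝ => (0 : ℂ) • (1 : A) +
      (Complex.exp (((1 - t) * Real.pi : ℝ) * Complex.I)) • ((uu u : Aˣ) : A) + 0)
      (by fun_prop) ?_ _ _ ?_ ?_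
    · intro t ht
      apply inv2 _ _ _ _ (norm_uni_inv u)
      rw [norm_zero, norm_zero, Complex.norm_exp_ofReal_mul_I]
      norm_num
    · simp
    · simp
  rw [h1, h2, h3, inv_one, mul_one]

end Blaschke

section Polar

variable {A : Type*} [CStarAlgebra A]

/-- The function `x ↦ x^{-1/2}`. -/
def isq (x : ℝ) : ℝ := (Real.sqrt x)⁻¹

theorem isq_cont : ContinuousOn isq (Set.Ioi 0) := by
  intro x hx
  refine ContinuousAt.continuousWithinAt ?_
  exact (Real.continuous_sqrt.continuousAt).inv₀ (Real.sqrt_ne_zero'.2 hx)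

theorem spec_pos (g : Aˣ) : spectrum ℝ (star (g : A) * g) ⊆ Set.Ioi 0 := by
  let _ := CStarAlgebra.spectralOrder A
  have _ := CStarAlgebra.spectralOrderedRing A
  intro x hx
  have h1 : (0 : A) ≤ star (g : A) * g := star_mul_self_nonneg _
  have h2 := spectrum_nonneg_of_nonneg h1 hx
  rcases h2.lt_or_eq with h | h
  · exact h
  · exfalso
    rw [← h] at hx
    rw [spectrum.zero_mem_iff] at hx
    apply hx
    exact (g.isUnit.star).mul g.isUnit

/-- The unitary part. -/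
def pol (g : A) : A := g * cfc isq (star g * g)

theorem pol_star_mul (g : Aˣ) : star (pol (g : A)) * pol (g : A) = 1 := by
  unfold pol
  have hsa : IsSelfAdjoint (star (g : A) * g) := IsSelfAdjoint.star_mul_self _
  have hR : IsSelfAdjoint (cfc isq (star (g : A) * g)) := cfc_predicate _ _
  have hc : ContinuousOn isq (spectrum ℝ (star (g : A) * g)) := isq_cont.mono (spec_pos g)
  rw [star_mul, hR.star_eq, mul_assoc, ← mul_assoc (star (g : A))]
  have h1 : star (g : A) * g = cfc (fun x : ℝ => x) (star (g : A) * g) := (cfc_id' ℝ _).symm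
  have h2 : cfc isq (star (g : A) * g) * (cfc (fun x : ℝ => x) (star (g : A) * g) *
      cfc isq (star (g : A) * g)) = 1 := by
    rw [← cfc_mul (fun x : ℝ => x) isq (star (g : A) * g) (by fun_prop) hc,
      ← cfc_mul isq _ (star (g : A) * g) hc (by fun_prop), ← cfc_one ℝ (star (g : A) * g)]
    refine cfc_congr ?_
    intro x hx
    have hx0 : 0 < x := spec_pos g hx
    simp only [isq, Pi.one_apply]
    have h3 : Real.sqrt x ≠ 0 := Real.sqrt_ne_zero'.2 hx0
    have h4 : Real.sqrt x * Real.sqrt x = x := Real.mul_self_sqrt hx0.le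
    field_simp
    rw [sq, h4]
  rw [← h1] at h2
  exact h2

theorem pol_isUnit (g : Aˣ) : IsUnit (pol (g : A)) := by
  unfold pol
  refine g.isUnit.mul ?_
  have hc : ContinuousOn isq (spectrum ℝ (star (g : A) * g)) := isq_cont.mono (spec_pos g)
  rw [isUnit_cfc_iff _ _ hc (IsSelfAdjoint.star_mul_self _)]
  intro x hx
  have hx0 : 0 < x := spec_pos g hx
  exact inv_ne_zero (Real.sqrt_ne_zero'.2 hx0)

theorem pol_mem (g : Aˣ) : pol (g : A) ∈ unitary A := by
  obtain ⟨p, hp⟩ := pol_isUnit g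
  have h1 := pol_star_mul g
  rw [← hp] at h1 ⊢
  rw [Unitary.mem_iff]
  refine ⟨h1, ?_⟩
  have h2 : star (p : A) = ((p⁻¹ : Aˣ) : A) := by
    rw [Units.inv_eq_of_mul_eq_one_left h1]
  rw [h2, Units.mul_inv]

theorem pol_unitary (u : unitary A) : pol (u : A) = u := by
  unfold pol
  rw [Unitary.coe_star_mul_self]
  have h1 : cfc isq (1 : A) = 1 := by
    rw [show (1 : A) = algebraMap ℝ A 1 by simp, cfc_algebraMap (1 : ℝ) isq]
    simp [isq]
  rw [h1, mul_one]

/-- A unitary in the identity component of the invertible group is joined to `1` by unitaries. -/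
theorem polar_path (z : unitary A) (h : Joined (1 : Aˣ) (uu z)) : Joined (1 : unitary A) z := by
  obtain ⟨γ⟩ := h
  have hcont : Continuous fun t : unitInterval => ((γ t : Aˣ) : A) :=
    Units.continuous_val.comp γ.continuous
  have hcfc : Continuous fun t : unitInterval =>
      cfc isq (star ((γ t : Aˣ) : A) * ((γ t : Aˣ) : A)) := by
    refine Continuous.cfc_of_mem_nhdsSet (s := Set.Ioi (0 : ℝ)) isq ?_ (by fun_prop)
      (fun t => IsSelfAdjoint.star_mul_self _) isq_cont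
    rw [isOpen_Ioi.mem_nhdsSet]
    exact Set.iUnion_subset fun t => spec_pos (γ t)
  have hW : Continuous fun t : unitInterval => pol ((γ t : Aˣ) : A) := hcont.mul hcfc
  refine ⟨⟨⟨fun t => ⟨pol ((γ t : Aˣ) : A), pol_mem (γ t)⟩, hW.subtype_mk _⟩, ?_, ?_⟩⟩
  · apply Subtype.ext
    change pol ((γ 0 : Aˣ) : A) = _
    rw [γ.source]
    exact pol_unitary 1
  · apply Subtype.ext
    change pol ((γ 1 : Aˣ) : A) = _
    rw [γ.target]
    exact pol_unitary z

end Polar

end H584Bu
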