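import Mathlib

/-!
Twisted amplification `a ↦ U (a ⊗ 1) U*` on `ℓ²(ι × κ)`.
-/

open scoped InnerProductSpace ENNReal

set_option linter.unusedSectionVars false

noncomputable section

namespace H584Roe

/-- The Hilbert space `ℓ²(X)`. -/
abbrev L2 (X : Type) : Type := lp (fun _ : X => ℂ) 2

/-- The matrix coefficient `⟪a δ_y, δ_x⟫` (the `x`-th coordinate of `a δ_y`). -/
def entry {X : Type} [DecidableEq X] (a : L2 X →L[ℂ] L2 X) (x y : X) : ℂ :=
  (a (lp.single 2 y (1 : ℂ)) : X → ℂ) x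

section generic

/-- `ℓ²(κ; ℓ²(ι))`. -/
abbrev LL (ι κ : Type) : Type := lp (fun _ : κ => L2 ι) 2

variable {ι κ : Type}

/-- Coordinate evaluation. -/
def ev (x : ι) : L2 ι →L[ℂ] ℂ := lp.evalCLM ℂ (fun _ : ι => ℂ) 2 x

theorem ev_apply (x : ι) (f : L2 ι) : ev x f = f x := rfl

theorem norm_ev_le (x : ι) : ‖ev x‖ ≤ 1 :=
  ContinuousLinearMap.opNorm_le_bound _ zero_le_one fun f => by
    rw [ev_apply, one_mul]
    exact lp.norm_apply_le_norm (by norm_num) f x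

variable [DecidableEq ι] [DecidableEq κ]

/-- `c ↦ c δ_x`. -/
def sg (x : ι) : ℂ →L[ℂ] L2 ι :=
  lp.singleContinuousLinearMap ℂ (fun _ : ι => ℂ) 2 x

theorem sg_apply (x : ι) (c : ℂ) : sg x c = lp.single 2 x c := rfl

theorem norm_sg_le (x : ι) : ‖sg x‖ ≤ 1 :=
  ContinuousLinearMap.opNorm_le_bound _ zero_le_one fun f => by
    rw [sg_apply, one_mul, lp.norm_single (by norm_num)]

/-- The amplification `a ⊗ 1`. -/
def amp (κ : Type) {ι : Type} (a : L2 ι →L[ℂ] L2 ι) : LL ι κ →L[ℂ] LL ι κ :=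
  lp.mapCLM 2 (fun _ => a) (norm_nonneg a) (fun _ => le_rfl)

theorem amp_apply (a : L2 ι →L[ℂ] L2 ι) (f : LL ι κ) (z : κ) : amp κ a f z = a (f z) := rfl

theorem norm_amp_le (a : L2 ι →L[ℂ] L2 ι) : ‖amp κ a‖ ≤ ‖a‖ := lp.norm_mapCLM_le _ _ _ _

/-- `g ↦ δ_x ⊗ g`. -/
def inc (κ : Type) {ι : Type} [DecidableEq ι] (x : ι) : L2 κ →L[ℂ] LL ι κ :=
  lp.mapCLM 2 (fun _ => sg x) zero_le_one (fun _ => norm_sg_le x)

theorem inc_apply (x : ι) (g : L2 κ) (z : κ) : inc κ x g z = lp.single 2 x (g z) := rfl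

/-- the adjoint of `inc`. -/
def prj (κ : Type) {ι : Type} (x : ι) : LL ι κ →L[ℂ] L2 κ :=
  lp.mapCLM 2 (fun _ => ev x) zero_le_one (fun _ => norm_ev_le x)

theorem prj_apply (x : ι) (f : LL ι κ) (z : κ) : prj κ x f z = f z x := rfl

theorem prj_inc (x y : ι) (g : L2 κ) : prj κ x (inc κ y g) = if x = y then g else 0 := by
  ext z
  rw [prj_apply, inc_apply, lp.single_apply]
  by_cases h : x = y
  · subst h; simp
  · simp [h]

theorem inner_inc (x : ι) (g : L2 κ) (f : LL ι κ) : ⟪inc κ x g, f⟫_ℂ = ⟪g, prj κ x f⟫_ℂ := by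
  rw [lp.inner_eq_tsum, lp.inner_eq_tsum]
  refine tsum_congr fun z => ?_
  rw [inc_apply, lp.inner_single_left, prj_apply]

theorem norm_inc (x : ι) (g : L2 κ) : ‖inc κ x g‖ = ‖g‖ := by
  have h : ⟪inc κ x g, inc κ x g⟫_ℂ = ⟪g, g⟫_ℂ := by
    rw [inner_inc, prj_inc, if_pos rfl]
  rw [inner_self_eq_norm_sq_to_K, inner_self_eq_norm_sq_to_K] at h
  have h2 : ‖inc κ x g‖ ^ 2 = ‖g‖ ^ 2 := by exact_mod_cast h
  exact (sq_eq_sq₀ (norm_nonneg _) (norm_nonneg _)).1 h2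

/-- matrix unit. -/
def mu (x y : ι) : L2 ι →L[ℂ] L2 ι := (sg x).comp (ev y)

theorem mu_apply (x y : ι) (f : L2 ι) : mu x y f = lp.single 2 x (f y) := rfl

theorem amp_mu (x y : ι) : amp κ (mu x y) = (inc κ x).comp (prj κ y) := by
  ext1 f; ext1; funext z
  rfl

theorem amp_add (a b : L2 ι →L[ℂ] L2 ι) : amp κ (a + b) = amp κ a + amp κ b := by
  ext1 f; ext1; funext z
  rfl

theorem amp_smul (c : ℂ) (a : L2 ι →L[ℂ] L2 ι) : amp κ (c • a) = c • amp κ a := by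
  ext1 f; ext1; funext z
  rfl

theorem amp_mul (a b : L2 ι →L[ℂ] L2 ι) : amp κ (a * b) = amp κ a * amp κ b := by
  ext1 f; ext1; funext z
  rfl

theorem amp_star (a : L2 ι →L[ℂ] L2 ι) : amp κ (star a) = star (amp κ a) := by
  rw [ContinuousLinearMap.star_eq_adjoint, ContinuousLinearMap.star_eq_adjoint]
  symm
  rw [eq_comm, ContinuousLinearMap.eq_adjoint_iff]
  intro f g
  rw [lp.inner_eq_tsum, lp.inner_eq_tsum]
  refine tsum_congr fun z => ?_
  rw [amp_apply, amp_apply, ContinuousLinearMap.adjoint_inner_left]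

theorem amp_inj [Nonempty κ] {a b : L2 ι →L[ℂ] L2 ι} (h : amp κ a = amp κ b) : a = b := by
  obtain ⟨z⟩ := ‹Nonempty κ›
  ext1 v
  have h1 : amp κ a (lp.single 2 z v) z = amp κ b (lp.single 2 z v) z := by rw [h]
  rw [amp_apply, amp_apply, lp.single_apply_self] at h1
  exact h1

variable (c : ι → HilbertBasis κ ℂ (L2 κ))

/-- The twisted vectors. -/
def tv (p : ι × κ) : LL ι κ := inc κ p.1 (c p.1 p.2)

theorem prj_amp_inc (a : L2 ι →L[ℂ] L2 ι) (x y : ι) (g : L2 κ) :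
    prj κ x (amp κ a (inc κ y g)) = entry a x y • g := by
  ext z
  rw [prj_apply, amp_apply, inc_apply]
  have h1 : (lp.single 2 y (g z) : L2 ι) = g z • lp.single 2 y (1 : ℂ) := by
    rw [← lp.single_smul]; simp
  rw [h1, map_smul]
  simp only [lp.coeFn_smul, Pi.smul_apply, smul_eq_mul, entry]
  ring

theorem inner_tv (x y : ι) (m n : κ) :
    ⟪tv c (x, m), tv c (y, n)⟫_ℂ = if x = y ∧ m = n then 1 else 0 := by
  unfold tv
  rw [inner_inc, prj_inc]
  by_cases h : x = y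
  · subst h
    simp only [if_true, true_and]
    exact orthonormal_iff_ite.1 (c x).orthonormal m n
  · simp [h]

theorem tv_orthonormal : Orthonormal ℂ (tv c) := by
  rw [orthonormal_iff_ite]
  rintro ⟨x, m⟩ ⟨y, n⟩
  rw [inner_tv]
  simp only [Prod.mk.injEq]

theorem eq_zero_of_basis {κ : Type} {E : Type*} [NormedAddCommGroup E] [InnerProductSpace ℂ E]
    (b : HilbertBasis κ ℂ E) {g : E} (h : ∀ m, ⟪b m, g⟫_ℂ = 0) : g = 0 := by
  have h1 : b.repr g = 0 := by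
    ext m
    rw [b.repr_apply_apply, h m]
    rfl
  simpa using h1

theorem tv_complete : (Submodule.span ℂ (Set.range (tv c)))ᗮ = ⊥ := by
  rw [Submodule.eq_bot_iff]
  intro f hf
  rw [Submodule.mem_orthogonal] at hf
  have h1 : ∀ x, prj κ x f = 0 := by
    intro x
    refine eq_zero_of_basis (c x) fun m => ?_
    rw [← inner_inc]
    exact hf _ (Submodule.subset_span ⟨(x, m), rfl⟩)
  ext z x
  have h2 := congrArg (fun g : L2 κ => g z) (h1 x)
  simpa [prj_apply] using h2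

/-- The twisted Hilbert basis of `ℓ²(κ; ℓ²(ι))`. -/
def tb : HilbertBasis (ι × κ) ℂ (LL ι κ) :=
  HilbertBasis.mkOfOrthogonalEqBot (tv_orthonormal c) (tv_complete c)

theorem tb_apply (p : ι × κ) : tb c p = inc κ p.1 (c p.1 p.2) := by
  unfold tb
  rw [HilbertBasis.coe_mkOfOrthogonalEqBot]
  rfl

/-- The unitary `U`. -/
def TT : LL ι κ ≃L[ℂ] L2 (ι × κ) := ((tb c).repr).toContinuousLinearEquiv

theorem TT_apply (f : LL ι κ) : TT c f = (tb c).repr f := rfl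

theorem TT_coord (f : LL ι κ) (x : ι) (m : κ) : TT c f (x, m) = ⟪c x m, prj κ x f⟫_ℂ := by
  rw [TT_apply, HilbertBasis.repr_apply_apply, tb_apply, inner_inc]

theorem TT_inner (f g : LL ι κ) : ⟪TT c f, TT c g⟫_ℂ = ⟪f, g⟫_ℂ :=
  (tb c).repr.inner_map_map f g

theorem TT_norm (f : LL ι κ) : ‖TT c f‖ = ‖f‖ := (tb c).repr.norm_map f

theorem TT_tb (p : ι × κ) : TT c (inc κ p.1 (c p.1 p.2)) = lp.single 2 p (1 : ℂ) := by
  rw [TT_apply, ← tb_apply, HilbertBasis.repr_self]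

theorem TT_symm_single (p : ι × κ) :
    (TT c).symm (lp.single 2 p (1 : ℂ)) = inc κ p.1 (c p.1 p.2) := by
  rw [← TT_tb c, ContinuousLinearEquiv.symm_apply_apply]

/-- The map `Φ(a) = U (a ⊗ 1) U*`. -/
def Phi (a : L2 ι →L[ℂ] L2 ι) : L2 (ι × κ) →L[ℂ] L2 (ι × κ) :=
  ((TT c : LL ι κ →L[ℂ] L2 (ι × κ)).comp (amp κ a)).comp
    ((TT c).symm : L2 (ι × κ) →L[ℂ] LL ι κ)

theorem Phi_apply (a : L2 ι →L[ℂ] L2 ι) (f : L2 (ι × κ)) :
    Phi c a f = TT c (amp κ a ((TT c).symm f)) := rfl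

theorem Phi_TT (a : L2 ι →L[ℂ] L2 ι) (f : LL ι κ) :
    Phi c a (TT c f) = TT c (amp κ a f) := by
  rw [Phi_apply, ContinuousLinearEquiv.symm_apply_apply]

theorem Phi_entry (a : L2 ι →L[ℂ] L2 ι) (x y : ι) (m n : κ) :
    entry (Phi c a) (x, m) (y, n) = entry a x y * ⟪c x m, c y n⟫_ℂ := by
  unfold entry
  rw [Phi_apply, TT_symm_single, TT_coord, prj_amp_inc, inner_smul_right]
  rfl

theorem Phi_add (a b : L2 ι →L[ℂ] L2 ι) : Phi c (a + b) = Phi c a + Phi c b := by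
  ext1 f
  simp only [Phi_apply, amp_add, add_apply, map_add]

theorem Phi_smul (s : ℂ) (a : L2 ι →L[ℂ] L2 ι) : Phi c (s • a) = s • Phi c a := by
  ext1 f
  simp only [Phi_apply, amp_smul, smul_apply, map_smul]

theorem Phi_mul (a b : L2 ι →L[ℂ] L2 ι) : Phi c (a * b) = Phi c a * Phi c b := by
  ext1 f
  simp only [Phi_apply, amp_mul, mul_apply_eq_comp, ContinuousLinearEquiv.symm_apply_apply]

theorem Phi_star (a : L2 ι →L[ℂ] L2 ι) : Phi c (star a) = star (Phi c a) := by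
  rw [ContinuousLinearMap.star_eq_adjoint (Phi c a), ContinuousLinearMap.eq_adjoint_iff]
  intro f g
  obtain ⟨f, rfl⟩ := (TT c).surjective f
  obtain ⟨g, rfl⟩ := (TT c).surjective g
  rw [Phi_TT, Phi_TT, TT_inner, TT_inner, amp_star, ContinuousLinearMap.star_eq_adjoint,
    ContinuousLinearMap.adjoint_inner_left]

theorem Phi_inj [Nonempty κ] {a b : L2 ι →L[ℂ] L2 ι} (h : Phi c a = Phi c b) : a = b := by
  refine amp_inj (κ := κ) ?_
  ext1 f
  have h1 : Phi c a (TT c f) = Phi c b (TT c f) := by rw [h]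
  rw [Phi_TT, Phi_TT] at h1
  exact (TT c).injective h1

theorem norm_Phi_le (a : L2 ι →L[ℂ] L2 ι) : ‖Phi c a‖ ≤ ‖a‖ := by
  refine ContinuousLinearMap.opNorm_le_bound _ (norm_nonneg _) fun f => ?_
  obtain ⟨f, rfl⟩ := (TT c).surjective f
  rw [Phi_TT, TT_norm, TT_norm]
  exact ((amp κ a).le_opNorm f).trans
    (mul_le_mul_of_nonneg_right (norm_amp_le a) (norm_nonneg _))

end generic

end H584Roe
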