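import Pool.Agent.H584R3.Bu2
import Pool.Agent.H584R3.Roe1

/-!
Ping-pong estimates on `ℓ²(I)` graded by a group.
-/

open scoped InnerProductSpace ComplexConjugate Pointwise

set_option linter.unusedSectionVars false

noncomputable section

namespace H584Bu

open H584Roe (L2 entry ev sg)

/-- Bounded operators on `ℓ²(I)`. -/
abbrev Op (I : Type) : Type := L2 I →L[ℂ] L2 I

variable {I : Type} [DecidableEq I]

theorem hasSum_entry (b : Op I) (f : L2 I) (i : I) :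
    HasSum (fun q => entry b i q * (f : I → ℂ) q) ((b f : I → ℂ) i) := by
  have h1 := lp.hasSum_single (E := fun _ : I => ℂ) (p := 2) (by norm_num) f
  have h2 := (((ev i).comp b).hasSum h1)
  have h3 : ∀ q : I, ((ev i).comp b) (lp.single 2 q (f q)) = entry b i q * f q := by
    intro q
    have h4 : (lp.single 2 q (f q) : L2 I) = f q • lp.single 2 q (1 : ℂ) := by
      rw [← lp.single_smul]; simp
    rw [h4, map_smul]
    change f q * ev i (b (lp.single 2 q (1 : ℂ))) = _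
    rw [H584Roe.ev_apply, mul_comm]
    rfl
  simp_rw [h3] at h2
  exact h2

theorem op_ext {a b : Op I} (h : ∀ i j, entry a i j = entry b i j) : a = b := by
  ext1 f
  ext1
  funext i
  have h1 := hasSum_entry a f i
  have h2 := hasSum_entry b f i
  simp_rw [h] at h1
  exact h1.unique h2

theorem entry_add (a b : Op I) (i j : I) : entry (a + b) i j = entry a i j + entry b i j := rfl

theorem entry_sub' (a b : Op I) (i j : I) : entry (a - b) i j = entry a i j - entry b i j := rfl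

theorem entry_smul (c : ℂ) (a : Op I) (i j : I) : entry (c • a) i j = c * entry a i j := rfl

theorem entry_one (i j : I) : entry (1 : Op I) i j = if i = j then 1 else 0 := by
  unfold entry
  rw [one_apply_eq_self, lp.single_apply]
  by_cases h : i = j
  · subst h; simp
  · simp [h]

theorem entry_zero (i j : I) : entry (0 : Op I) i j = 0 := by
  simp [entry]

theorem entry_star (a : Op I) (i j : I) : entry (star a) i j = conj (entry a j i) := by
  unfold entry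
  have h1 : ((star a) (lp.single 2 j (1 : ℂ)) : I → ℂ) i =
      ⟪(lp.single 2 i (1 : ℂ) : L2 I), (star a) (lp.single 2 j (1 : ℂ))⟫_ℂ := by
    rw [lp.inner_single_left]; simp
  rw [h1, ContinuousLinearMap.star_eq_adjoint, ContinuousLinearMap.adjoint_inner_right,
    lp.inner_single_right]
  simp

theorem norm_entry_le (a : Op I) (i j : I) : ‖entry a i j‖ ≤ ‖a‖ := by
  unfold entry
  refine (lp.norm_apply_le_norm (by norm_num) _ i).trans ?_
  refine (a.le_opNorm _).trans ?_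
  rw [lp.norm_single (by norm_num)]
  simp

theorem hasSum_entry_mul (a b : Op I) (i j : I) :
    HasSum (fun q => entry a i q * entry b q j) (entry (a * b) i j) := by
  have h := hasSum_entry a (b (lp.single 2 j (1 : ℂ))) i
  exact h

variable {Γ : Type} [Group Γ] (deg : I → Γ)

/-- Vectors supported over `P ⊆ Γ`. -/
def LP (P : Set Γ) : Set (L2 I) := {ξ | ∀ i, deg i ∉ P → (ξ : I → ℂ) i = 0}

theorem LP_mono {P R : Set Γ} (h : P ⊆ R) {ξ : L2 I} (hξ : ξ ∈ LP deg P) : ξ ∈ LP deg R :=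
  fun i hi => hξ i fun hP => hi (h hP)

theorem LP_add {P : Set Γ} {ξ η : L2 I} (hξ : ξ ∈ LP deg P) (hη : η ∈ LP deg P) :
    ξ + η ∈ LP deg P := fun i hi => by
  rw [lp.coeFn_add, Pi.add_apply, hξ i hi, hη i hi, add_zero]

theorem LP_smul {P : Set Γ} (c : ℂ) {ξ : L2 I} (hξ : ξ ∈ LP deg P) : c • ξ ∈ LP deg P :=
  fun i hi => by
    rw [lp.coeFn_smul, Pi.smul_apply, hξ i hi, smul_zero]

theorem LP_inner {P R : Set Γ} (h : Disjoint P R) {ξ η : L2 I} (hξ : ξ ∈ LP deg P)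
    (hη : η ∈ LP deg R) : ⟪ξ, η⟫_ℂ = 0 := by
  rw [lp.inner_eq_tsum]
  have h1 : ∀ i, ⟪(ξ : I → ℂ) i, (η : I → ℂ) i⟫_ℂ = 0 := by
    intro i
    by_cases hi : deg i ∈ P
    · have h2 : deg i ∉ R := fun hR => Set.disjoint_left.1 h hi hR
      rw [hη i h2, inner_zero_right]
    · rw [hξ i hi, inner_zero_left]
  simp_rw [h1]
  exact tsum_zero

open Classical in
/-- The projection onto vectors supported over `P`. -/
def QP (P : Set Γ) : Op I :=
  lp.mapCLM 2 (fun i => if deg i ∈ P then ContinuousLinearMap.id ℂ ℂ else 0)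
    zero_le_one (fun i => by
      split_ifs
      · exact ContinuousLinearMap.norm_id_le
      · simp)

open Classical in
theorem QP_apply (P : Set Γ) (ξ : L2 I) (i : I) :
    (QP deg P ξ : I → ℂ) i = if deg i ∈ P then (ξ : I → ℂ) i else 0 := by
  change (if deg i ∈ P then ContinuousLinearMap.id ℂ ℂ else 0) ((ξ : I → ℂ) i) = _
  split_ifs <;> rfl

theorem norm_QP (P : Set Γ) : ‖QP (I := I) deg P‖ ≤ 1 := lp.norm_mapCLM_le _ _ _ _

theorem norm_QP_apply (P : Set Γ) (ξ : L2 I) : ‖QP deg P ξ‖ ≤ ‖ξ‖ := by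
  refine ((QP deg P).le_opNorm ξ).trans ?_
  calc ‖QP (I := I) deg P‖ * ‖ξ‖ ≤ 1 * ‖ξ‖ :=
        mul_le_mul_of_nonneg_right (norm_QP deg P) (norm_nonneg _)
    _ = ‖ξ‖ := one_mul _

theorem QP_mem (P : Set Γ) (ξ : L2 I) : QP deg P ξ ∈ LP deg P := by
  intro i hi
  rw [QP_apply, if_neg hi]

theorem QP_of_mem {P : Set Γ} {ξ : L2 I} (h : ξ ∈ LP deg P) : QP deg P ξ = ξ := by
  ext1; funext i
  rw [QP_apply]
  by_cases hi : deg i ∈ P
  · rw [if_pos hi]
  · rw [if_neg hi, h i hi]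

theorem QP_of_disj {P R : Set Γ} (hd : Disjoint P R) {ξ : L2 I} (h : ξ ∈ LP deg R) :
    QP deg P ξ = 0 := by
  ext1; funext i
  rw [QP_apply]
  by_cases hi : deg i ∈ P
  · rw [if_pos hi, h i (fun hR => Set.disjoint_left.1 hd hi hR)]
    rfl
  · rw [if_neg hi]; rfl

theorem one_sub_QP_mem (P : Set Γ) (ξ : L2 I) : ξ - QP deg P ξ ∈ LP deg Pᶜ := by
  intro i hi
  rw [Set.mem_compl_iff, not_not] at hi
  rw [lp.coeFn_sub, Pi.sub_apply, QP_apply, if_pos hi, sub_self]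

theorem star_QP (P : Set Γ) : star (QP (I := I) deg P) = QP deg P := by
  rw [ContinuousLinearMap.star_eq_adjoint, eq_comm, ContinuousLinearMap.eq_adjoint_iff]
  intro f g
  rw [lp.inner_eq_tsum, lp.inner_eq_tsum]
  refine tsum_congr fun i => ?_
  rw [QP_apply, QP_apply]
  split_ifs <;> simp

/-- `x` is homogeneous of degree `γ`. -/
def Homog (γ : Γ) (x : Op I) : Prop := ∀ i j, entry x i j ≠ 0 → deg i = γ * deg j

theorem Homog.mul {γ γ' : Γ} {x y : Op I} (hx : Homog deg γ x) (hy : Homog deg γ' y) :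
    Homog deg (γ * γ') (x * y) := by
  intro i j hne
  have h1 := hasSum_entry_mul x y i j
  by_contra hcon
  apply hne
  have h2 : ∀ q, entry x i q * entry y q j = 0 := by
    intro q
    by_contra h3
    have h4 := hx i q (left_ne_zero_of_mul h3)
    have h5 := hy q j (right_ne_zero_of_mul h3)
    exact hcon (by rw [h4, h5, mul_assoc])
  simp_rw [h2] at h1
  exact h1.unique hasSum_zero

theorem Homog.star {γ : Γ} {x : Op I} (hx : Homog deg γ x) : Homog deg γ⁻¹ (star x) := by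
  intro i j hne
  rw [entry_star] at hne
  have h1 : entry x j i ≠ 0 := fun h => hne (by rw [h, map_zero])
  rw [hx j i h1, inv_mul_cancel_left]

theorem Homog.one : Homog deg 1 (1 : Op I) := by
  intro i j hne
  rw [entry_one] at hne
  by_cases h : i = j
  · rw [h, one_mul]
  · rw [if_neg h] at hne; exact absurd rfl hne

theorem Homog.maps {γ : Γ} {x : Op I} (hx : Homog deg γ x) {P R : Set Γ}
    (h : ∀ g ∈ P, γ * g ∈ R) {ξ : L2 I} (hξ : ξ ∈ LP deg P) : x ξ ∈ LP deg R := by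
  intro i hi
  have h1 := hasSum_entry x ξ i
  have h2 : ∀ q, entry x i q * (ξ : I → ℂ) q = 0 := by
    intro q
    by_contra h3
    have h4 := hx i q (left_ne_zero_of_mul h3)
    have h5 : deg q ∈ P := by
      by_contra h6
      exact right_ne_zero_of_mul h3 (hξ q h6)
    exact hi (h4 ▸ h _ h5)
  simp_rw [h2] at h1
  exact h1.unique hasSum_zero

theorem norm_uni_apply (u : unitary (Op I)) (ξ : L2 I) : ‖(u : Op I) ξ‖ ≤ ‖ξ‖ := by
  refine ((u : Op I).le_opNorm ξ).trans ?_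
  calc ‖(u : Op I)‖ * ‖ξ‖ ≤ 1 * ‖ξ‖ := mul_le_mul_of_nonneg_right (norm_uni u) (norm_nonneg _)
    _ = ‖ξ‖ := one_mul _

theorem unit_inv_apply (u : (Op I)ˣ) (ξ : L2 I) : (u : Op I) (((u⁻¹ : (Op I)ˣ) : Op I) ξ) = ξ := by
  have := congrArg (fun T : Op I => T ξ) (Units.mul_inv u)
  simpa only [mul_apply_eq_comp, one_apply_eq_self] using this

/-- Estimate for `1 - b_a(u)` on vectors supported on a wandering set. -/
theorem blaschke_est (a ε : ℝ) (ha0 : 0 ≤ a) (ha1 : a < 1) (hε : 0 ≤ ε) (haε : 2 * (1 - a) ≤ ε ^ 2)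
    (u : unitary (Op I)) {γ : Γ} (hu : Homog deg γ (u : Op I)) {P R : Set Γ} (hPR : Disjoint P R)
    (hP : ∀ g ∈ P, γ * g ∈ R) (hR : ∀ g ∈ R, γ * g ∈ R) {ξ : L2 I} (hξ : ξ ∈ LP deg P) :
    (1 - ((bl a ha0 ha1 u : (Op I)ˣ) : Op I)) ξ ∈ LP deg (P ∪ R) ∧
      ‖(1 - ((bl a ha0 ha1 u : (Op I)ˣ) : Op I)) ξ‖ ≤ ε * ‖ξ‖ := by
  set ψ : L2 I := (((EE a ha0 ha1 u)⁻¹ : (Op I)ˣ) : Op I) ξ with hψ
  have h1 : ψ - (a : ℂ) • (u : Op I) ψ = ξ := by
    have := unit_inv_apply (EE a ha0 ha1 u) ξ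
    rw [← hψ, EE_val, sub_apply, one_apply_eq_self, smul_apply] at this
    exact this
  have hPR' : ∀ g ∈ P ∪ R, γ * g ∈ R := by
    rintro g (hg | hg)
    · exact hP g hg
    · exact hR g hg
  -- ψ is supported on P ∪ R
  have h2 : ψ - QP deg (P ∪ R) ψ = 0 := by
    set φ := ψ - QP deg (P ∪ R) ψ with hφ
    have h3 : QP deg (P ∪ R) ((u : Op I) (QP deg (P ∪ R) ψ)) =
        (u : Op I) (QP deg (P ∪ R) ψ) :=
      QP_of_mem deg (LP_mono deg Set.subset_union_right (hu.maps deg hPR' (QP_mem deg _ _)))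
    have h4 : φ = (a : ℂ) • ((u : Op I) φ - QP deg (P ∪ R) ((u : Op I) φ)) := by
      have h5 : ψ = ξ + (a : ℂ) • (u : Op I) ψ := by rw [← h1]; abel
      have h6 : (u : Op I) ψ = (u : Op I) (QP deg (P ∪ R) ψ) + (u : Op I) φ := by
        rw [← map_add]; congr 1; rw [hφ]; abel
      have h7 : QP deg (P ∪ R) ξ = ξ := QP_of_mem deg (LP_mono deg Set.subset_union_left hξ)
      have h8 : QP deg (P ∪ R) ψ = ξ + (a : ℂ) • ((u : Op I) (QP deg (P ∪ R) ψ) +
          QP deg (P ∪ R) ((u : Op I) φ)) := by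
        conv_lhs => rw [h5, map_add, map_smul, h7, h6, map_add, h3]
      have h10 : ψ = ξ + (a : ℂ) • ((u : Op I) (QP deg (P ∪ R) ψ) + (u : Op I) φ) := by
        rw [← h6]; exact h5
      calc φ = ψ - QP deg (P ∪ R) ψ := hφ
        _ = (ξ + (a : ℂ) • ((u : Op I) (QP deg (P ∪ R) ψ) + (u : Op I) φ)) -
            (ξ + (a : ℂ) • ((u : Op I) (QP deg (P ∪ R) ψ) +
              QP deg (P ∪ R) ((u : Op I) φ))) := congrArg₂ (fun x y => x - y) h10 h8
        _ = (a : ℂ) • ((u : Op I) φ - QP deg (P ∪ R) ((u : Op I) φ)) := by module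
    have h5 : ‖(u : Op I) φ - QP deg (P ∪ R) ((u : Op I) φ)‖ ≤ ‖φ‖ := by
      have h6 : (u : Op I) φ - QP deg (P ∪ R) ((u : Op I) φ) =
          QP deg (P ∪ R)ᶜ ((u : Op I) φ) := by
        ext1; funext i
        rw [lp.coeFn_sub, Pi.sub_apply, QP_apply, QP_apply]
        by_cases hi : deg i ∈ P ∪ R
        · rw [if_pos hi, if_neg (fun h : deg i ∈ (P ∪ R)ᶜ => h hi), sub_self]
        · rw [if_neg hi, if_pos (show deg i ∈ (P ∪ R)ᶜ from hi), sub_zero]
      rw [h6]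
      exact (norm_QP_apply deg _ _).trans (norm_uni_apply u φ)
    have h6 : ‖φ‖ ≤ a * ‖φ‖ := by
      conv_lhs => rw [h4, norm_smul, Complex.norm_real, Real.norm_of_nonneg ha0]
      exact mul_le_mul_of_nonneg_left h5 ha0
    have h7 : ‖φ‖ = 0 := by nlinarith [norm_nonneg φ]
    exact norm_eq_zero.1 h7
  have h3 : ψ ∈ LP deg (P ∪ R) := by
    rw [sub_eq_zero] at h2
    rw [h2]
    exact QP_mem deg _ _
  have h4 : (u : Op I) ψ ∈ LP deg R := hu.maps deg hPR' h3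
  have h5 : ((bl a ha0 ha1 u : (Op I)ˣ) : Op I) ξ =
      (a : ℂ) • ξ - ((1 - a ^ 2 : ℝ) : ℂ) • (u : Op I) ψ := by
    have h6 : ((bl a ha0 ha1 u : (Op I)ˣ) : Op I) ξ = (a : ℂ) • ψ - (u : Op I) ψ := by
      unfold bl
      rw [Units.val_mul, mul_apply_eq_comp, ← hψ, NN_val, sub_apply, smul_apply,
        one_apply_eq_self]
    rw [h6, ← h1]
    push_cast
    module
  have h6 : (1 - ((bl a ha0 ha1 u : (Op I)ˣ) : Op I)) ξ =
      ξ - ((bl a ha0 ha1 u : (Op I)ˣ) : Op I) ξ := by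
    rw [sub_apply, one_apply_eq_self]
  refine ⟨?_, ?_⟩
  · rw [h6, h5]
    have h7 : ξ - ((a : ℂ) • ξ - ((1 - a ^ 2 : ℝ) : ℂ) • (u : Op I) ψ) =
        (1 - (a : ℂ)) • ξ + ((1 - a ^ 2 : ℝ) : ℂ) • (u : Op I) ψ := by module
    rw [h7]
    exact LP_add deg (LP_smul deg _ (LP_mono deg Set.subset_union_left hξ))
      (LP_smul deg _ (LP_mono deg Set.subset_union_right h4))
  · rw [h6]
    have h7 : ⟪ξ, ((bl a ha0 ha1 u : (Op I)ˣ) : Op I) ξ⟫_ℂ = ((a * ‖ξ‖ ^ 2 : ℝ) : ℂ) := by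
      rw [h5, inner_sub_right, inner_smul_right, inner_smul_right, LP_inner deg hPR hξ h4,
        inner_self_eq_norm_sq_to_K]
      push_cast
      simp
    have h8 : ‖((bl a ha0 ha1 u : (Op I)ˣ) : Op I) ξ‖ ≤ ‖ξ‖ := by
      refine (ContinuousLinearMap.le_opNorm _ ξ).trans ?_
      calc _ ≤ 1 * ‖ξ‖ := mul_le_mul_of_nonneg_right (norm_bl a ha0 ha1 u) (norm_nonneg _)
        _ = ‖ξ‖ := one_mul _
    have h9 := @norm_sub_sq ℂ (L2 I) _ _ _ ξ (((bl a ha0 ha1 u : (Op I)ˣ) : Op I) ξ)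
    rw [h7] at h9
    have h10 : RCLike.re ((a * ‖ξ‖ ^ 2 : ℝ) : ℂ) = a * ‖ξ‖ ^ 2 := Complex.ofReal_re _
    rw [h10] at h9
    have h11 : ‖ξ - ((bl a ha0 ha1 u : (Op I)ˣ) : Op I) ξ‖ ^ 2 ≤ (ε * ‖ξ‖) ^ 2 := by
      rw [h9, mul_pow]
      have h12 : ‖((bl a ha0 ha1 u : (Op I)ˣ) : Op I) ξ‖ ^ 2 ≤ ‖ξ‖ ^ 2 :=
        pow_le_pow_left₀ (norm_nonneg _) h8 2
      nlinarith [sq_nonneg ‖ξ‖]
    exact (sq_le_sq₀ (norm_nonneg _) (mul_nonneg hε (norm_nonneg _))).1 h11

theorem star_bl (a : ℝ) (ha0 : 0 ≤ a) (ha1 : a < 1) {A : Type*} [CStarAlgebra A] (u : unitary A) :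
    star ((bl a ha0 ha1 u : Aˣ) : A) = (bl a ha0 ha1 (star u) : Aˣ) := by
  have hN : star ((NN a ha0 ha1 u : Aˣ) : A) = (NN a ha0 ha1 (star u) : Aˣ) := by
    rw [NN_val, NN_val]
    simp
  have hE : star ((EE a ha0 ha1 u : Aˣ) : A) = (EE a ha0 ha1 (star u) : Aˣ) := by
    rw [EE_val, EE_val]
    simp
  have hcomm : ((EE a ha0 ha1 (star u) : Aˣ) : A) * (NN a ha0 ha1 (star u) : Aˣ) =
      (NN a ha0 ha1 (star u) : Aˣ) * (EE a ha0 ha1 (star u) : Aˣ) := by
    rw [NN_val, EE_val]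
    simp only [sub_mul, mul_sub, one_mul, mul_one, smul_mul_assoc, mul_smul_comm, smul_sub]
    abel
  have hEi : star (((EE a ha0 ha1 u)⁻¹ : Aˣ) : A) = (((EE a ha0 ha1 (star u))⁻¹ : Aˣ) : A) := by
    symm
    apply Units.inv_eq_of_mul_eq_one_left
    rw [← hE, ← star_mul, Units.mul_inv, star_one]
  unfold bl
  rw [Units.val_mul, star_mul, hN, hEi, Units.val_mul]
  rw [Units.inv_mul_eq_iff_eq_mul, ← mul_assoc, hcomm, mul_assoc, Units.mul_inv, mul_one]

/-- The ping-pong invertibility lemma. -/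
theorem pingpong_unit (k : unitary (Op I)) {κ : Γ} (hk : Homog deg κ (k : Op I)) (x : Op I)
    (U V : Set Γ) (hUV : ∀ g, g ∉ U → κ⁻¹ * g ∈ V) (ρ l : ℝ) (hρ : 0 ≤ ρ) (hρl : ρ < l)
    (H1 : ∀ ξ ∈ LP deg V, x ξ ∈ LP deg Uᶜ ∧ ‖x ξ‖ ≤ ρ * ‖ξ‖)
    (H2 : ∀ ξ ∈ LP deg U, ‖(star x) ξ‖ ≤ ρ * ‖ξ‖) :
    IsUnit (x - (l : ℂ) • (k : Op I)) := by
  have hl : (l : ℂ) ≠ 0 := by
    have : l ≠ 0 := by linarith
    exact_mod_cast this
  set Tm : Op I := star (k : Op I) * (QP deg U * x) with hTm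
  set Tp : Op I := star (k : Op I) * ((1 - QP deg U) * x) with hTp
  have hks : (k : Op I) * star (k : Op I) = 1 := Unitary.coe_mul_star_self k
  have hks' : star (k : Op I) * (k : Op I) = 1 := Unitary.coe_star_mul_self k
  have hkn : ‖(k : Op I)‖ ≤ 1 := norm_uni k
  have hT : (l : ℂ) • (1 : Op I) - star (k : Op I) * x = (l : ℂ) • 1 - Tp - Tm := by
    rw [hTm, hTp, sub_mul, one_mul, mul_sub]
    abel
  -- norm of Tm
  have hTmn : ‖Tm‖ ≤ ρ := by
    rw [← norm_star]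
    refine ContinuousLinearMap.opNorm_le_bound _ hρ fun ξ => ?_
    have h1 : (star Tm) ξ = (star x) (QP deg U ((k : Op I) ξ)) := by
      rw [hTm, star_mul, star_mul, star_star, star_QP]
      simp only [mul_apply_eq_comp]
    rw [h1]
    refine (H2 _ (QP_mem deg _ _)).trans ?_
    exact mul_le_mul_of_nonneg_left ((norm_QP_apply deg _ _).trans (norm_uni_apply k ξ)) hρ
  -- Tp lands over V
  have hTpV : ∀ ξ, Tp ξ ∈ LP deg V := by
    intro ξ
    rw [hTp]
    simp only [mul_apply_eq_comp, sub_apply, one_apply_eq_self]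
    have h1 : Homog deg κ⁻¹ (star (k : Op I)) := hk.star deg
    exact h1.maps deg (P := Uᶜ) (fun g hg => hUV g hg) (one_sub_QP_mem deg U _)
  have hTpQ : QP deg V * Tp = Tp := by
    ext1 ξ
    rw [mul_apply_eq_comp]
    exact QP_of_mem deg (hTpV ξ)
  have hTpn : ‖Tp * QP deg V‖ ≤ ρ := by
    refine ContinuousLinearMap.opNorm_le_bound _ hρ fun ξ => ?_
    have h0 := H1 _ (QP_mem deg V ξ)
    have h1 : (Tp * QP deg V) ξ = star (k : Op I) (x (QP deg V ξ)) := by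
      rw [mul_apply_eq_comp, hTp]
      simp only [mul_apply_eq_comp, sub_apply, one_apply_eq_self]
      rw [QP_of_disj deg disjoint_compl_right h0.1, sub_zero]
    rw [h1]
    have h2 : ‖star (k : Op I) (x (QP deg V ξ))‖ ≤ ‖x (QP deg V ξ)‖ := by
      exact norm_uni_apply (star k) (x (QP deg V ξ))
    refine h2.trans (h0.2.trans ?_)
    exact mul_le_mul_of_nonneg_left (norm_QP_apply deg _ _) hρ
  have hzero : Tm * Tp = 0 := by
    ext1 ξ
    rw [mul_apply_eq_comp, hTm]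
    simp only [mul_apply_eq_comp]
    rw [QP_of_disj deg disjoint_compl_right (H1 _ (hTpV ξ)).1, map_zero]
    rfl
  have hscal : ∀ T : Op I, ‖T‖ ≤ ρ → IsUnit ((l : ℂ) • (1 : Op I) - T) := by
    intro T hTn
    have h1 : (l : ℂ) • (1 : Op I) - T = (l : ℂ) • (1 : Op I) + (0 : ℂ) • (1 : Op I) + (-T) := by
      simp [sub_eq_add_neg]
    rw [h1]
    have h1n : ‖(1 : Op I)‖ ≤ 1 := norm_uni (1 : unitary (Op I))
    apply inv1 _ _ _ _ h1n
    rw [norm_zero, norm_neg, Complex.norm_real, Real.norm_of_nonneg (by linarith)]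
    linarith
  have hUm : IsUnit ((l : ℂ) • (1 : Op I) - Tm) := hscal Tm hTmn
  have hUp' : IsUnit ((l : ℂ) • (1 : Op I) - Tp * QP deg V) := hscal _ hTpn
  have hlu : IsUnit (algebraMap ℂ (Op I) (l : ℂ)) := (IsUnit.mk0 (l : ℂ) hl).map _
  have hUp : IsUnit ((l : ℂ) • (1 : Op I) - Tp) := by
    have h1 : IsUnit ((l : ℂ)⁻¹ • ((l : ℂ) • (1 : Op I) - Tp * QP deg V)) := by
      rw [Algebra.smul_def]
      exact ((IsUnit.mk0 ((l : ℂ)⁻¹) (inv_ne_zero hl)).map (algebraMap ℂ (Op I))).mul hUp'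
    have h2 : (l : ℂ)⁻¹ • ((l : ℂ) • (1 : Op I) - Tp * QP deg V) =
        1 + ((-(l : ℂ)⁻¹) • Tp) * QP deg V := by
      rw [smul_sub, inv_smul_smul₀ hl, smul_mul_assoc, neg_smul, sub_eq_add_neg]
    rw [h2] at h1
    have h3 := isUnit_one_add_mul_comm h1
    have h4 : 1 + QP deg V * ((-(l : ℂ)⁻¹) • Tp) = (l : ℂ)⁻¹ • ((l : ℂ) • (1 : Op I) - Tp) := by
      rw [mul_smul_comm, hTpQ, smul_sub, inv_smul_smul₀ hl, neg_smul, sub_eq_add_neg]
    rw [h4] at h3
    have h5 := hlu.mul h3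
    rw [← Algebra.smul_def, smul_inv_smul₀ hl] at h5
    exact h5
  have hprod : ((l : ℂ) • (1 : Op I) - Tm) * ((l : ℂ) • (1 : Op I) - Tp) =
      (l : ℂ) • ((l : ℂ) • (1 : Op I) - star (k : Op I) * x) := by
    rw [hT, sub_mul, mul_sub, mul_sub, hzero]
    simp only [smul_mul_assoc, one_mul, mul_smul_comm, mul_one, smul_sub]
    abel
  have hTu : IsUnit ((l : ℂ) • (1 : Op I) - star (k : Op I) * x) := by
    have h1 := hUm.mul hUp
    rw [hprod] at h1
    have h2 := ((IsUnit.mk0 ((l : ℂ)⁻¹) (inv_ne_zero hl)).map (algebraMap ℂ (Op I))).mul h1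
    rw [← Algebra.smul_def, inv_smul_smul₀ hl] at h2
    exact h2
  have hfin : x - (l : ℂ) • (k : Op I) =
      -(k : Op I) * ((l : ℂ) • (1 : Op I) - star (k : Op I) * x) := by
    rw [neg_mul, mul_sub, mul_smul_comm, mul_one, ← mul_assoc, hks, one_mul]
    abel
  rw [hfin]
  exact (uu k).isUnit.neg.mul hTu

end H584Bu
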