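import Pool.Agent.H584R3.Bu3

/-!
Commutators of homogeneous unitaries in ping-pong position lie in the identity component.
-/

open scoped InnerProductSpace ComplexConjugate Pointwise

set_option linter.unusedSectionVars false

noncomputable section

namespace H584Bu

open H584Roe (L2 entry ev sg)

/-- Ping-pong data for `u, v, k₁, k₂`. -/
structure PP {Γ : Type} [Group Γ] (u v k₁ k₂ : Γ) (U₁ V₁ U₂ V₂ Ru Ru' Rv Rv' : Set Γ) : Prop where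
  K1 : ∀ g, g ∉ U₁ → k₁⁻¹ * g ∈ V₁
  K2 : ∀ g, g ∉ U₂ → k₂⁻¹ * g ∈ V₂
  c1 : Disjoint V₁ Ru
  c2 : ∀ g ∈ V₁, u * g ∈ Ru
  c3 : ∀ g ∈ Ru, u * g ∈ Ru
  c4 : V₁ ∪ Ru ⊆ U₁ᶜ
  c5 : Disjoint U₁ Ru'
  c6 : ∀ g ∈ U₁, u⁻¹ * g ∈ Ru'
  c7 : ∀ g ∈ Ru', u⁻¹ * g ∈ Ru'
  c8 : Disjoint V₂ Ru
  c9 : ∀ g ∈ V₂, u * g ∈ Ru
  c10 : ∀ g ∈ V₂, k₁ * g ∈ U₁
  c11 : (V₂ ∪ Ru ∪ U₁) ⊆ U₂ᶜ
  c12 : Disjoint (V₂ ∪ Ru ∪ U₁) Rv
  c13 : ∀ g ∈ (V₂ ∪ Ru ∪ U₁), v * g ∈ Rv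
  c14 : ∀ g ∈ Rv, v * g ∈ Rv
  c15 : Rv ⊆ U₂ᶜ
  c16 : Disjoint U₂ Rv'
  c17 : ∀ g ∈ U₂, v⁻¹ * g ∈ Rv'
  c18 : ∀ g ∈ Rv', v⁻¹ * g ∈ Rv'
  c19 : Disjoint (U₂ ∪ Rv') Ru'
  c20 : ∀ g ∈ U₂ ∪ Rv', u⁻¹ * g ∈ Ru'

/-- The parameter of the Blaschke factors. -/
def a0 : ℝ := 19999 / 20000

theorem a0_nonneg : 0 ≤ a0 := by norm_num [a0]

theorem a0_lt : a0 < 1 := by norm_num [a0]

theorem a0_est : 2 * (1 - a0) ≤ (1 / 100 : ℝ) ^ 2 := by norm_num [a0]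

/-- `1 - b(u)`. -/
def eta {A : Type*} [CStarAlgebra A] (u : unitary A) : A := 1 - (bl a0 a0_nonneg a0_lt u : Aˣ)

theorem star_eta {A : Type*} [CStarAlgebra A] (u : unitary A) : star (eta u) = eta (star u) := by
  unfold eta
  rw [star_sub, star_one, star_bl]

/-- `e = η(u) - k₁/50`. -/
def e0 {A : Type*} [CStarAlgebra A] (u k₁ : unitary A) : A := eta u - ((1 / 50 : ℝ) : ℂ) • (k₁ : A)

/-- The first three terms of `s`. -/
def s0 {A : Type*} [CStarAlgebra A] (u v k₁ : unitary A) : A :=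
  e0 u k₁ + Complex.I • eta v - ((1 + Complex.I) / 2) • (eta v * e0 u k₁)

variable {I : Type} [DecidableEq I] {Γ : Type} [Group Γ] (deg : I → Γ)

theorem eta_est (u : unitary (Op I)) {γ : Γ} (hu : Homog deg γ (u : Op I)) {P R : Set Γ}
    (hPR : Disjoint P R) (hP : ∀ g ∈ P, γ * g ∈ R) (hR : ∀ g ∈ R, γ * g ∈ R) {ξ : L2 I}
    (hξ : ξ ∈ LP deg P) : eta u ξ ∈ LP deg (P ∪ R) ∧ ‖eta u ξ‖ ≤ 1 / 100 * ‖ξ‖ :=
  blaschke_est deg a0 (1 / 100) a0_nonneg a0_lt (by norm_num) a0_est u hu hPR hP hR hξ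

theorem norm_c : ‖((1 + Complex.I) / 2 : ℂ)‖ ≤ 1 := by
  rw [norm_div]
  have h1 : ‖(1 : ℂ) + Complex.I‖ ≤ 2 := by
    refine (norm_add_le _ _).trans ?_
    rw [Complex.norm_I, norm_one]; norm_num
  have h2 : ‖(2 : ℂ)‖ = 2 := by norm_num
  rw [h2]
  linarith

section

variable {u v k₁ k₂ : Γ} {U₁ V₁ U₂ V₂ Ru Ru' Rv Rv' : Set Γ}
  (h : PP u v k₁ k₂ U₁ V₁ U₂ V₂ Ru Ru' Rv Rv')
  (uh vh κ₁ κ₂ : unitary (Op I)) (hu : Homog deg u (uh : Op I)) (hv : Homog deg v (vh : Op I))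
  (hk₁ : Homog deg k₁ (κ₁ : Op I)) (hk₂ : Homog deg k₂ (κ₂ : Op I))

include h hu hk₁ in
theorem e0_unit : IsUnit (e0 uh κ₁ : Op I) := by
  unfold e0
  refine pingpong_unit deg κ₁ hk₁ (eta uh) U₁ V₁ h.K1 (1 / 100) (1 / 50) (by norm_num)
    (by norm_num) ?_ ?_
  · intro ξ hξ
    have h1 := eta_est deg uh hu h.c1 h.c2 h.c3 hξ
    exact ⟨LP_mono deg h.c4 h1.1, h1.2⟩
  · intro ξ hξ
    have hus : Homog deg u⁻¹ ((star uh : unitary (Op I)) : Op I) := hu.star deg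
    rw [star_eta]
    exact (eta_est deg (star uh) hus h.c5 h.c6 h.c7 hξ).2

include h hu hk₁ in
theorem e0_est1 {ξ : L2 I} (hξ : ξ ∈ LP deg V₂) :
    (e0 uh κ₁ : Op I) ξ ∈ LP deg (V₂ ∪ Ru ∪ U₁) ∧ ‖(e0 uh κ₁ : Op I) ξ‖ ≤ 3 / 100 * ‖ξ‖ := by
  have h1 := eta_est deg uh hu h.c8 h.c9 h.c3 hξ
  have h2 : (κ₁ : Op I) ξ ∈ LP deg U₁ := hk₁.maps deg h.c10 hξ
  have h3 : (e0 uh κ₁ : Op I) ξ = eta uh ξ + (-((1 / 50 : ℝ) : ℂ)) • (κ₁ : Op I) ξ := by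
    unfold e0
    rw [sub_apply, smul_apply, neg_smul, sub_eq_add_neg]
  rw [h3]
  refine ⟨LP_add deg (LP_mono deg Set.subset_union_left h1.1)
    (LP_smul deg _ (LP_mono deg Set.subset_union_right h2)), ?_⟩
  refine (norm_add_le _ _).trans ?_
  rw [norm_smul, norm_neg, Complex.norm_real]
  have h4 := norm_uni_apply κ₁ ξ
  have h5 : ‖(1 / 50 : ℝ)‖ = 1 / 50 := by norm_num
  rw [h5]
  linarith [h1.2]

include h hu hk₁ in
theorem e0_est2 {ξ : L2 I} (hξ : ξ ∈ LP deg (U₂ ∪ Rv')) :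
    ‖star (e0 uh κ₁ : Op I) ξ‖ ≤ 3 / 100 * ‖ξ‖ := by
  have hus : Homog deg u⁻¹ ((star uh : unitary (Op I)) : Op I) := hu.star deg
  have h1 := (eta_est deg (star uh) hus h.c19 h.c20 h.c7 hξ).2
  have h3 : star (e0 uh κ₁ : Op I) ξ =
      eta (star uh) ξ + (-((1 / 50 : ℝ) : ℂ)) • ((star κ₁ : unitary (Op I)) : Op I) ξ := by
    unfold e0
    rw [star_sub, star_eta, star_smul, sub_apply, smul_apply, neg_smul, sub_eq_add_neg]
    simp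
  rw [h3]
  refine (norm_add_le _ _).trans ?_
  rw [norm_smul, norm_neg, Complex.norm_real]
  have h4 := norm_uni_apply (star κ₁) ξ
  have h5 : ‖(1 / 50 : ℝ)‖ = 1 / 50 := by norm_num
  rw [h5]
  linarith

include h hu hv hk₁ hk₂ in
theorem s0_unit : IsUnit (s0 uh vh κ₁ - ((1 / 4 : ℝ) : ℂ) • (κ₂ : Op I)) := by
  refine pingpong_unit deg κ₂ hk₂ (s0 uh vh κ₁) U₂ V₂ h.K2 (1 / 20) (1 / 4) (by norm_num)
    (by norm_num) ?_ ?_
  · intro ξ hξ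
    have h1 := e0_est1 deg h uh κ₁ hu hk₁ hξ
    have hξW : ξ ∈ LP deg (V₂ ∪ Ru ∪ U₁) := LP_mono deg
      (Set.subset_union_left.trans Set.subset_union_left) hξ
    have h2 := eta_est deg vh hv h.c12 h.c13 h.c14 hξW
    have h3 := eta_est deg vh hv h.c12 h.c13 h.c14 h1.1
    have hsub : (V₂ ∪ Ru ∪ U₁) ∪ Rv ⊆ U₂ᶜ := Set.union_subset h.c11 h.c15
    have h4 : (s0 uh vh κ₁ : Op I) ξ = (e0 uh κ₁ : Op I) ξ + Complex.I • eta vh ξ +
        (-((1 + Complex.I) / 2)) • eta vh ((e0 uh κ₁ : Op I) ξ) := by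
      unfold s0
      rw [sub_apply, add_apply, smul_apply, smul_apply, mul_apply_eq_comp, neg_smul,
        sub_eq_add_neg]
    rw [h4]
    refine ⟨LP_add deg (LP_add deg (LP_mono deg h.c11 h1.1)
      (LP_smul deg _ (LP_mono deg hsub h2.1))) (LP_smul deg _ (LP_mono deg hsub h3.1)), ?_⟩
    refine (norm_add_le _ _).trans ?_
    have h5 : ‖(e0 uh κ₁ : Op I) ξ + Complex.I • eta vh ξ‖ ≤ 3 / 100 * ‖ξ‖ + 1 / 100 * ‖ξ‖ := by
      refine (norm_add_le _ _).trans ?_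
      rw [norm_smul, Complex.norm_I, one_mul]
      exact add_le_add h1.2 h2.2
    have h6 : ‖(-((1 + Complex.I) / 2)) • eta vh ((e0 uh κ₁ : Op I) ξ)‖ ≤
        1 * (1 / 100 * (3 / 100 * ‖ξ‖)) := by
      rw [norm_smul, norm_neg]
      refine mul_le_mul norm_c ?_ (norm_nonneg _) zero_le_one
      exact h3.2.trans (mul_le_mul_of_nonneg_left h1.2 (by norm_num))
    linarith [norm_nonneg ξ]
  · intro ξ hξ
    have hvs : Homog deg v⁻¹ ((star vh : unitary (Op I)) : Op I) := hv.star deg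
    have h2 := eta_est deg (star vh) hvs h.c16 h.c17 h.c18 hξ
    have h1 := e0_est2 deg h uh κ₁ hu hk₁ (LP_mono deg Set.subset_union_left hξ)
    have h3 := e0_est2 deg h uh κ₁ hu hk₁ h2.1
    have h4 : star (s0 uh vh κ₁ : Op I) ξ = star (e0 uh κ₁ : Op I) ξ +
        (star Complex.I) • eta (star vh) ξ +
        (-(star ((1 + Complex.I) / 2 : ℂ))) • (star (e0 uh κ₁ : Op I)) (eta (star vh) ξ) := by
      unfold s0
      rw [star_sub, star_add, star_smul, star_smul, star_mul, star_eta, sub_apply, add_apply,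
        smul_apply, smul_apply, mul_apply_eq_comp, neg_smul, sub_eq_add_neg]
    rw [h4]
    refine (norm_add_le _ _).trans ?_
    have h5 : ‖star (e0 uh κ₁ : Op I) ξ + (star Complex.I) • eta (star vh) ξ‖ ≤
        3 / 100 * ‖ξ‖ + 1 / 100 * ‖ξ‖ := by
      refine (norm_add_le _ _).trans ?_
      rw [norm_smul, norm_star, Complex.norm_I, one_mul]
      exact add_le_add h1 h2.2
    have h6 : ‖(-(star ((1 + Complex.I) / 2 : ℂ))) •
        (star (e0 uh κ₁ : Op I)) (eta (star vh) ξ)‖ ≤ 1 * (3 / 100 * (1 / 100 * ‖ξ‖)) := by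
      rw [norm_smul, norm_neg, norm_star]
      refine mul_le_mul norm_c ?_ (norm_nonneg _) zero_le_one
      exact h3.trans (mul_le_mul_of_nonneg_left h2.2 (by norm_num))
    linarith [norm_nonneg ξ]

end

section Transfer

variable {A B : Type*} [CStarAlgebra A] [CStarAlgebra B] (φ : A →⋆ₐ[ℂ] B)

/-- Image of a unitary. -/
def mapU (u : unitary A) : unitary B := ⟨φ u, by
  rw [Unitary.mem_iff, ← map_star, ← map_mul, ← map_mul, Unitary.star_mul_self_of_mem u.2,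
    Unitary.mul_star_self_of_mem u.2, map_one]
  exact ⟨rfl, rfl⟩⟩

theorem mapU_val (u : unitary A) : ((mapU φ u : unitary B) : B) = φ u := rfl

theorem map_bl (a : ℝ) (ha0 : 0 ≤ a) (ha1 : a < 1) (u : unitary A) :
    φ ((bl a ha0 ha1 u : Aˣ) : A) = (bl a ha0 ha1 (mapU φ u) : Bˣ) := by
  have hN : φ ((NN a ha0 ha1 u : Aˣ) : A) = (NN a ha0 ha1 (mapU φ u) : Bˣ) := by
    rw [NN_val, NN_val, map_sub, map_smul, map_one, mapU_val]
  have hE : φ ((EE a ha0 ha1 u : Aˣ) : A) = (EE a ha0 ha1 (mapU φ u) : Bˣ) := by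
    rw [EE_val, EE_val, map_sub, map_smul, map_one, mapU_val]
  have hEi : φ (((EE a ha0 ha1 u)⁻¹ : Aˣ) : A) = (((EE a ha0 ha1 (mapU φ u))⁻¹ : Bˣ) : B) := by
    symm
    apply Units.inv_eq_of_mul_eq_one_left
    rw [← hE, ← map_mul, Units.inv_mul, map_one]
  unfold bl
  rw [Units.val_mul, map_mul, hN, hEi, Units.val_mul]

theorem map_eta (u : unitary A) : φ (eta u) = eta (mapU φ u) := by
  unfold eta
  rw [map_sub, map_one, map_bl]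

theorem map_e0 (u k : unitary A) : φ (e0 u k) = e0 (mapU φ u) (mapU φ k) := by
  unfold e0
  rw [map_sub, map_smul, map_eta, mapU_val]

theorem map_s0 (u v k : unitary A) : φ (s0 u v k) = s0 (mapU φ u) (mapU φ v) (mapU φ k) := by
  unfold s0
  rw [map_sub, map_add, map_smul, map_smul, map_mul, map_eta, map_e0]

end Transfer

/-- In a closed star subalgebra, the classes of homogeneous unitaries in ping-pong position
commute. -/
theorem comm_cl (S : StarSubalgebra ℂ (Op I)) [hS : IsClosed (S : Set (Op I))]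
    {u v k₁ k₂ : Γ} {U₁ V₁ U₂ V₂ Ru Ru' Rv Rv' : Set Γ}
    (h : PP u v k₁ k₂ U₁ V₁ U₂ V₂ Ru Ru' Rv Rv')
    (uh vh κ₁ κ₂ : unitary S) (hu : Homog deg u ((uh : S) : Op I))
    (hv : Homog deg v ((vh : S) : Op I))
    (hk₁ : Homog deg k₁ ((κ₁ : S) : Op I)) (hk₂ : Homog deg k₂ ((κ₂ : S) : Op I)) :
    cl (uu uh) * cl (uu vh) = cl (uu vh) * cl (uu uh) := by
  rw [← cl_bl a0 a0_nonneg a0_lt uh, ← cl_bl a0 a0_nonneg a0_lt vh]
  have h1 : IsUnit (e0 uh κ₁) := by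
    rw [← StarSubalgebra.coe_isUnit S]
    have := e0_unit deg h (mapU S.subtype uh) (mapU S.subtype κ₁) hu hk₁
    rw [← map_e0] at this
    exact this
  have h2 : IsUnit (s0 uh vh κ₁ - ((1 / 4 : ℝ) : ℂ) • (κ₂ : S)) := by
    rw [← StarSubalgebra.coe_isUnit S]
    have := s0_unit deg h (mapU S.subtype uh) (mapU S.subtype vh) (mapU S.subtype κ₁)
      (mapU S.subtype κ₂) hu hv hk₁ hk₂
    rw [← map_s0] at this
    exact this
  obtain ⟨e, he⟩ := h1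
  obtain ⟨s, hs⟩ := h2
  refine pi0_comm _ _ (norm_bl _ _ _ uh) (norm_bl_inv _ _ _ uh) (norm_bl _ _ _ vh)
    (norm_bl_inv _ _ _ vh) (((1 / 50 : ℝ) : ℂ) • (κ₁ : S)) (((1 / 4 : ℝ) : ℂ) • (κ₂ : S))
    ?_ ?_ e s ?_ ?_
  · rw [norm_smul, Complex.norm_real]
    have h3 := norm_uni κ₁
    have h4 : ‖(1 / 50 : ℝ)‖ = 1 / 50 := by norm_num
    rw [h4]
    linarith
  · rw [norm_smul, Complex.norm_real]
    have h3 := norm_uni κ₂
    have h4 : ‖(1 / 4 : ℝ)‖ = 1 / 4 := by norm_num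
    rw [h4]
    linarith
  · rw [he]; rfl
  · rw [hs, he]; rfl

end H584Bu
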