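import Pool.Agent.H584R3.Bu4

/-!
The group `SL(2,ℚ)`: ping-pong data and a normal generation statement.
-/

set_option linter.unusedSectionVars false

namespace H584Bu

/-- `SL(2,ℚ)`. -/
abbrev G2 : Type := Matrix.SpecialLinearGroup (Fin 2) ℚ

/-- Build an element. -/
def mk2 (a b c d : ℚ) (h : a * d - b * c = 1) : G2 :=
  ⟨!![a, b; c, d], by rw [Matrix.det_fin_two_of]; exact h⟩

/-- entries -/
def ea (g : G2) : ℚ := g.1 0 0
/-- entries -/
def eb (g : G2) : ℚ := g.1 0 1
/-- entries -/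
def ec (g : G2) : ℚ := g.1 1 0
/-- entries -/
def ed (g : G2) : ℚ := g.1 1 1

theorem det2 (g : G2) : ea g * ed g - eb g * ec g = 1 := by
  have h := g.2
  rw [Matrix.det_fin_two] at h
  exact h

theorem ext2 {g h : G2} (h1 : ea g = ea h) (h2 : eb g = eb h) (h3 : ec g = ec h)
    (h4 : ed g = ed h) : g = h := by
  apply Matrix.SpecialLinearGroup.ext
  intro i j
  fin_cases i <;> fin_cases j
  · exact h1
  · exact h2
  · exact h3
  · exact h4

theorem mul_a (g h : G2) : ea (g * h) = ea g * ea h + eb g * ec h := by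
  unfold ea eb ec
  rw [Matrix.SpecialLinearGroup.coe_mul, Matrix.mul_apply, Fin.sum_univ_two]

theorem mul_b (g h : G2) : eb (g * h) = ea g * eb h + eb g * ed h := by
  unfold ea eb ed
  rw [Matrix.SpecialLinearGroup.coe_mul, Matrix.mul_apply, Fin.sum_univ_two]

theorem mul_c (g h : G2) : ec (g * h) = ec g * ea h + ed g * ec h := by
  unfold ea ec ed
  rw [Matrix.SpecialLinearGroup.coe_mul, Matrix.mul_apply, Fin.sum_univ_two]

theorem mul_d (g h : G2) : ed (g * h) = ec g * eb h + ed g * ed h := by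
  unfold eb ec ed
  rw [Matrix.SpecialLinearGroup.coe_mul, Matrix.mul_apply, Fin.sum_univ_two]

theorem inv_expl (g : G2) : ea g⁻¹ = ed g ∧ eb g⁻¹ = -eb g ∧ ec g⁻¹ = -ec g ∧ ed g⁻¹ = ea g := by
  unfold ea eb ec ed
  rw [Matrix.SpecialLinearGroup.coe_inv, Matrix.adjugate_fin_two]
  simp

theorem inv_a (g : G2) : ea g⁻¹ = ed g := (inv_expl g).1
theorem inv_b (g : G2) : eb g⁻¹ = -eb g := (inv_expl g).2.1
theorem inv_c (g : G2) : ec g⁻¹ = -ec g := (inv_expl g).2.2.1
theorem inv_d (g : G2) : ed g⁻¹ = ea g := (inv_expl g).2.2.2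

theorem mk_a (a b c d : ℚ) (h) : ea (mk2 a b c d h) = a := rfl
theorem mk_b (a b c d : ℚ) (h) : eb (mk2 a b c d h) = b := rfl
theorem mk_c (a b c d : ℚ) (h) : ec (mk2 a b c d h) = c := rfl
theorem mk_d (a b c d : ℚ) (h) : ed (mk2 a b c d h) = d := rfl

/-- upper unipotent -/
def eu (x : ℚ) : G2 := mk2 1 x 0 1 (by ring)
/-- lower unipotent -/
def fl (y : ℚ) : G2 := mk2 1 0 y 1 (by ring)

/-- first ping-pong element -/
def gu : G2 := eu 40
/-- second ping-pong element -/
def gv : G2 := fl 4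
/-- third ping-pong element -/
def gk1 : G2 := mk2 3 (-19) 1 (-6) (by norm_num)
/-- fourth ping-pong element -/
def gk2 : G2 := mk2 9 (-109) 1 (-12) (by norm_num)

theorem normal_gen (N : Subgroup G2) [hN : N.Normal] (n : G2) (hn : n ∈ N) (hc : ec n ≠ 0) :
    N = ⊤ := by
  -- step 1
  have h1 : eu (-(ea n) / ec n) * n * (eu (-(ea n) / ec n))⁻¹ ∈ N := hN.conj_mem n hn _
  set n' := eu (-(ea n) / ec n) * n * (eu (-(ea n) / ec n))⁻¹ with hn'
  have n'a : ea n' = 0 := by
    rw [hn']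
    simp only [mul_a, mul_b, mul_c, mul_d, inv_a, inv_b, inv_c, inv_d, eu, mk_a, mk_b, mk_c, mk_d]
    field_simp
    ring
  have n'c : ec n' = ec n := by
    rw [hn']
    simp only [mul_a, mul_b, mul_c, mul_d, inv_a, inv_b, inv_c, inv_d, eu, mk_a, mk_b, mk_c, mk_d]
    ring
  have n'b : eb n' * ec n = -1 := by
    have := det2 n'
    rw [n'a, n'c] at this
    linarith
  -- step 2
  let D : G2 := mk2 2 0 0 (1 / 2) (by norm_num)
  have h2 : D * n' * D⁻¹ * n'⁻¹ ∈ N := N.mul_mem (hN.conj_mem n' h1 D) (N.inv_mem h1)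
  set m := D * n' * D⁻¹ * n'⁻¹ with hm
  have ma : ea m = 4 := by
    rw [hm]
    simp only [mul_a, mul_b, mul_c, mul_d, inv_a, inv_b, inv_c, inv_d, D, mk_a, mk_b, mk_c, mk_d,
      n'a, n'c]
    linarith
  have mb : eb m = 0 := by
    rw [hm]
    simp only [mul_a, mul_b, mul_c, mul_d, inv_a, inv_b, inv_c, inv_d, D, mk_a, mk_b, mk_c, mk_d,
      n'a, n'c]
    ring
  have md : ed m = 1 / 4 := by
    have := det2 m
    rw [ma, mb] at this
    linarith
  -- step 3
  have h3 : ∀ z : ℚ, fl z ∈ N := by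
    intro z
    have h4 : m * (fl (-(16 / 15) * z) * m⁻¹ * (fl (-(16 / 15) * z))⁻¹) ∈ N :=
      N.mul_mem h2 (hN.conj_mem _ (N.inv_mem h2) _)
    have h5 : m * (fl (-(16 / 15) * z) * m⁻¹ * (fl (-(16 / 15) * z))⁻¹) = fl z := by
      apply ext2 <;>
      simp only [mul_a, mul_b, mul_c, mul_d, inv_a, inv_b, inv_c, inv_d, fl, mk_a, mk_b, mk_c,
        mk_d, ma, mb, md] <;> ring
    rwa [h5] at h4
  have h6 : ∀ z : ℚ, eu z ∈ N := by
    intro z
    let w : G2 := mk2 0 1 (-1) 0 (by norm_num)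
    have h7 : w * fl (-z) * w⁻¹ ∈ N := hN.conj_mem _ (h3 (-z)) w
    have h8 : w * fl (-z) * w⁻¹ = eu z := by
      apply ext2 <;>
      simp only [mul_a, mul_b, mul_c, mul_d, inv_a, inv_b, inv_c, inv_d, fl, eu, w, mk_a, mk_b,
        mk_c, mk_d] <;> ring
    rwa [h8] at h7
  have h9 : ∀ g : G2, ec g ≠ 0 → g ∈ N := by
    intro g hg
    have h10 : g = eu ((ea g - 1) / ec g) * fl (ec g) * eu ((ed g - 1) / ec g) := by
      have hd := det2 g
      apply ext2 <;>
      simp only [mul_a, mul_b, mul_c, mul_d, fl, eu, mk_a, mk_b, mk_c, mk_d]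
      · field_simp; ring
      · field_simp
        linarith
      · ring
      · field_simp; ring
    rw [h10]
    exact N.mul_mem (N.mul_mem (h6 _) (h3 _)) (h6 _)
  rw [eq_top_iff]
  intro g _
  by_cases hg : ec g = 0
  · have hd : ed g ≠ 0 := by
      intro h0
      have := det2 g
      rw [hg, h0] at this
      norm_num at this
    have h11 : g * fl 1 ∈ N := by
      apply h9
      rw [mul_c]
      simp only [fl, mk_a, mk_c, hg]
      simpa using hd
    have h12 : g = (g * fl 1) * (fl 1)⁻¹ := by group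
    rw [h12]
    exact N.mul_mem h11 (N.inv_mem (h3 1))
  · exact h9 g hg

theorem comm_ec : ec (gu * gv * gu⁻¹ * gv⁻¹) ≠ 0 := by
  simp only [mul_a, mul_b, mul_c, mul_d, inv_a, inv_b, inv_c, inv_d, gu, gv, fl, eu, mk_a, mk_b,
    mk_c, mk_d]
  norm_num

theorem col_ne (g : G2) (h : ec g = 0) : ea g ≠ 0 := by
  intro h0
  have := det2 g
  rw [h, h0] at this
  norm_num at this

theorem ball_ne {g : G2} {p : ℚ} (h : (ea g - p * ec g) ^ 2 ≤ ec g ^ 2) : ec g ≠ 0 := by
  intro h0
  rw [h0] at h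
  have h1 : ea g ^ 2 ≤ 0 := by simpa using h
  exact col_ne g h0 (pow_eq_zero_iff (two_ne_zero) |>.1 (le_antisymm h1 (sq_nonneg _)))

/-- open balls -/
def Uo (p : ℚ) : Set G2 := {g | (ea g - p * ec g) ^ 2 < ec g ^ 2}
/-- closed balls -/
def Vcl (p : ℚ) : Set G2 := {g | (ea g - p * ec g) ^ 2 ≤ ec g ^ 2}
/-- attracting set of `u` -/
def Rup : Set G2 := {g | ec g ≠ 0 ∧ 0 ≤ (ea g - 20 * ec g) * ec g}
/-- attracting set of `u⁻¹` -/
def Rum : Set G2 := {g | ec g ≠ 0 ∧ (ea g + 20 * ec g) * ec g ≤ 0}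
/-- attracting set of `v` -/
def Rvp : Set G2 := {g | ea g ≠ 0 ∧ 0 ≤ (ec g - 2 * ea g) * ea g}
/-- attracting set of `v⁻¹` -/
def Rvm : Set G2 := {g | ea g ≠ 0 ∧ (ec g + 2 * ea g) * ea g ≤ 0}

/-- In a ball around `p ≥ 2` (radius one) one has `a c ≥ (p-1) c² > 0`. -/
theorem ball_fact {a c p : ℚ} (h : (a - p * c) ^ 2 ≤ c ^ 2) :
    (p - 1) * c ^ 2 ≤ a * c ∧ a * c ≤ (p + 1) * c ^ 2 := by
  constructor <;> nlinarith [sq_nonneg (a - p * c + c), sq_nonneg (a - p * c - c)]

theorem pingpong : PP gu gv gk1 gk2 (Uo 3) (Vcl 6) (Uo 9) (Vcl 12) Rup Rum Rvp Rvm where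
  K1 := by
    intro g hg
    simp only [Uo, Vcl, Set.mem_ofPred_eq, not_lt] at hg ⊢
    simp only [mul_a, mul_c, inv_a, inv_b, inv_c, inv_d, gk1, mk_a, mk_b, mk_c, mk_d]
    nlinarith
  K2 := by
    intro g hg
    simp only [Uo, Vcl, Set.mem_ofPred_eq, not_lt] at hg ⊢
    simp only [mul_a, mul_c, inv_a, inv_b, inv_c, inv_d, gk2, mk_a, mk_b, mk_c, mk_d]
    nlinarith
  c1 := by
    rw [Set.disjoint_left]
    intro g hg hg2
    simp only [Vcl, Rup, Set.mem_ofPred_eq] at hg hg2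
    have h1 := ball_fact hg
    have h2 : 0 < ec g ^ 2 := by have := hg2.1; positivity
    nlinarith [hg2.2]
  c2 := by
    intro g hg
    simp only [Vcl, Rup, Set.mem_ofPred_eq] at hg ⊢
    have h1 := ball_fact hg
    have h3 := ball_ne hg
    simp only [mul_a, mul_c, gu, eu, mk_a, mk_b, mk_c, mk_d]
    refine ⟨by simpa using h3, ?_⟩
    nlinarith [sq_nonneg (ec g)]
  c3 := by
    intro g hg
    simp only [Rup, Set.mem_ofPred_eq] at hg ⊢
    simp only [mul_a, mul_c, gu, eu, mk_a, mk_b, mk_c, mk_d]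
    refine ⟨by simpa using hg.1, ?_⟩
    nlinarith [sq_nonneg (ec g), hg.2]
  c4 := by
    rintro g (hg | hg) hg2
    · simp only [Vcl, Uo, Set.mem_ofPred_eq] at hg hg2
      have h1 := ball_fact hg
      have h2 := ball_fact hg2.le
      have h3 := ball_ne hg
      have h4 : 0 < ec g ^ 2 := by positivity
      nlinarith
    · simp only [Rup, Uo, Set.mem_ofPred_eq] at hg hg2
      have h2 := ball_fact hg2.le
      have h4 : 0 < ec g ^ 2 := by have := hg.1; positivity
      nlinarith [hg.2]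
  c5 := by
    rw [Set.disjoint_left]
    intro g hg hg2
    simp only [Uo, Rum, Set.mem_ofPred_eq] at hg hg2
    have h1 := ball_fact hg.le
    have h2 : 0 < ec g ^ 2 := by have := hg2.1; positivity
    nlinarith [hg2.2]
  c6 := by
    intro g hg
    simp only [Uo, Rum, Set.mem_ofPred_eq] at hg ⊢
    have h1 := ball_fact hg.le
    have h3 := ball_ne hg.le
    simp only [mul_a, mul_c, inv_a, inv_b, inv_c, inv_d, gu, eu, mk_a, mk_b, mk_c, mk_d]
    refine ⟨by simpa using h3, ?_⟩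
    nlinarith [sq_nonneg (ec g)]
  c7 := by
    intro g hg
    simp only [Rum, Set.mem_ofPred_eq] at hg ⊢
    simp only [mul_a, mul_c, inv_a, inv_b, inv_c, inv_d, gu, eu, mk_a, mk_b, mk_c, mk_d]
    refine ⟨by simpa using hg.1, ?_⟩
    nlinarith [sq_nonneg (ec g), hg.2]
  c8 := by
    rw [Set.disjoint_left]
    intro g hg hg2
    simp only [Vcl, Rup, Set.mem_ofPred_eq] at hg hg2
    have h1 := ball_fact hg
    have h2 : 0 < ec g ^ 2 := by have := hg2.1; positivity
    nlinarith [hg2.2]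
  c9 := by
    intro g hg
    simp only [Vcl, Rup, Set.mem_ofPred_eq] at hg ⊢
    have h1 := ball_fact hg
    have h3 := ball_ne hg
    simp only [mul_a, mul_c, gu, eu, mk_a, mk_b, mk_c, mk_d]
    refine ⟨by simpa using h3, ?_⟩
    nlinarith [sq_nonneg (ec g)]
  c10 := by
    intro g hg
    simp only [Vcl, Uo, Set.mem_ofPred_eq] at hg ⊢
    have h1 := ball_fact hg
    have h3 := ball_ne hg
    have h4 : 0 < ec g ^ 2 := by positivity
    simp only [mul_a, mul_c, gk1, mk_a, mk_b, mk_c, mk_d]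
    nlinarith
  c11 := by
    rintro g ((hg | hg) | hg) hg2
    · simp only [Vcl, Uo, Set.mem_ofPred_eq] at hg hg2
      have h1 := ball_fact hg
      have h2 := ball_fact hg2.le
      have h3 := ball_ne hg
      have h4 : 0 < ec g ^ 2 := by positivity
      nlinarith
    · simp only [Rup, Uo, Set.mem_ofPred_eq] at hg hg2
      have h2 := ball_fact hg2.le
      have h4 : 0 < ec g ^ 2 := by have := hg.1; positivity
      nlinarith [hg.2]
    · simp only [Uo, Set.mem_ofPred_eq] at hg hg2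
      have h1 := ball_fact hg.le
      have h2 := ball_fact hg2.le
      have h3 := ball_ne hg.le
      have h4 : 0 < ec g ^ 2 := by positivity
      nlinarith
  c12 := by
    rw [Set.disjoint_left]
    rintro g hg hg2
    have h0 : ec g ≠ 0 ∧ 2 * ec g ^ 2 ≤ ea g * ec g := by
      rcases hg with (hg | hg) | hg
      · simp only [Vcl, Set.mem_ofPred_eq] at hg
        exact ⟨ball_ne hg, by nlinarith [ball_fact hg, sq_nonneg (ec g)]⟩
      · simp only [Rup, Set.mem_ofPred_eq] at hg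
        exact ⟨hg.1, by nlinarith [hg.2, sq_nonneg (ec g)]⟩
      · simp only [Uo, Set.mem_ofPred_eq] at hg
        exact ⟨ball_ne hg.le, by nlinarith [ball_fact hg.le, sq_nonneg (ec g)]⟩
    simp only [Rvp, Set.mem_ofPred_eq] at hg2
    have h4 : 0 < ec g ^ 2 := by have := h0.1; positivity
    have h5 : 0 < ea g ^ 2 := by have := hg2.1; positivity
    nlinarith [h0.2, hg2.2, sq_nonneg (ea g - ec g)]
  c13 := by
    intro g hg
    have h0 : ec g ≠ 0 ∧ 2 * ec g ^ 2 ≤ ea g * ec g := by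
      rcases hg with (hg | hg) | hg
      · simp only [Vcl, Set.mem_ofPred_eq] at hg
        exact ⟨ball_ne hg, by nlinarith [ball_fact hg, sq_nonneg (ec g)]⟩
      · simp only [Rup, Set.mem_ofPred_eq] at hg
        exact ⟨hg.1, by nlinarith [hg.2, sq_nonneg (ec g)]⟩
      · simp only [Uo, Set.mem_ofPred_eq] at hg
        exact ⟨ball_ne hg.le, by nlinarith [ball_fact hg.le, sq_nonneg (ec g)]⟩
    have h4 : 0 < ec g ^ 2 := by have := h0.1; positivity
    have h6 : ea g ≠ 0 := by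
      intro h7
      rw [h7] at h0
      nlinarith [h0.2]
    simp only [Rvp, Set.mem_ofPred_eq, mul_a, mul_c, gv, fl, mk_a, mk_b, mk_c, mk_d]
    refine ⟨by simpa using h6, ?_⟩
    nlinarith [h0.2, sq_nonneg (ea g)]
  c14 := by
    intro g hg
    simp only [Rvp, Set.mem_ofPred_eq] at hg ⊢
    simp only [mul_a, mul_c, gv, fl, mk_a, mk_b, mk_c, mk_d]
    refine ⟨by simpa using hg.1, ?_⟩
    nlinarith [sq_nonneg (ea g), hg.2]
  c15 := by
    intro g hg hg2
    simp only [Rvp, Uo, Set.mem_ofPred_eq] at hg hg2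
    have h2 := ball_fact hg2.le
    have h3 := ball_ne hg2.le
    have h4 : 0 < ec g ^ 2 := by positivity
    have h5 : 0 < ea g ^ 2 := by have := hg.1; positivity
    nlinarith [hg.2, sq_nonneg (ea g - ec g)]
  c16 := by
    rw [Set.disjoint_left]
    intro g hg hg2
    simp only [Uo, Rvm, Set.mem_ofPred_eq] at hg hg2
    have h1 := ball_fact hg.le
    have h5 : 0 < ea g ^ 2 := by have := hg2.1; positivity
    nlinarith [hg2.2, sq_nonneg (ec g)]
  c17 := by
    intro g hg
    simp only [Uo, Set.mem_ofPred_eq] at hg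
    have h1 := ball_fact hg.le
    have h3 := ball_ne hg.le
    have h4 : 0 < ec g ^ 2 := by positivity
    have h6 : ea g ≠ 0 := by
      intro h7
      rw [h7] at h1
      nlinarith [h1.1]
    simp only [Rvm, Set.mem_ofPred_eq, mul_a, mul_c, inv_a, inv_b, inv_c, inv_d, gv, fl, mk_a, mk_b,
      mk_c, mk_d]
    refine ⟨by simpa using h6, ?_⟩
    nlinarith [sq_nonneg (ea g), sq_nonneg (ea g - ec g)]
  c18 := by
    intro g hg
    simp only [Rvm, Set.mem_ofPred_eq] at hg ⊢
    simp only [mul_a, mul_c, inv_a, inv_b, inv_c, inv_d, gv, fl, mk_a, mk_b, mk_c, mk_d]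
    refine ⟨by simpa using hg.1, ?_⟩
    nlinarith [sq_nonneg (ea g), hg.2]
  c19 := by
    rw [Set.disjoint_left]
    rintro g (hg | hg) hg2
    · simp only [Uo, Rum, Set.mem_ofPred_eq] at hg hg2
      have h1 := ball_fact hg.le
      have h2 : 0 < ec g ^ 2 := by have := hg2.1; positivity
      nlinarith [hg2.2]
    · simp only [Rvm, Rum, Set.mem_ofPred_eq] at hg hg2
      have h2 : 0 < ec g ^ 2 := by have := hg2.1; positivity
      have h5 : 0 < ea g ^ 2 := by have := hg.1; positivity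
      nlinarith [hg.2, hg2.2, sq_nonneg (ea g + 20 * ec g), sq_nonneg (2 * ea g + ec g)]
  c20 := by
    rintro g (hg | hg)
    · simp only [Uo, Set.mem_ofPred_eq] at hg
      have h1 := ball_fact hg.le
      have h3 := ball_ne hg.le
      simp only [Rum, Set.mem_ofPred_eq, mul_a, mul_c, inv_a, inv_b, inv_c, inv_d, gu, eu, mk_a,
        mk_b, mk_c, mk_d]
      refine ⟨by simpa using h3, ?_⟩
      nlinarith [sq_nonneg (ec g)]
    · simp only [Rvm, Set.mem_ofPred_eq] at hg
      have h5 : 0 < ea g ^ 2 := by have := hg.1; positivity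
      have h6 : ec g ≠ 0 := by
        intro h7
        rw [h7] at hg
        nlinarith [hg.2]
      simp only [Rum, Set.mem_ofPred_eq, mul_a, mul_c, inv_a, inv_b, inv_c, inv_d, gu, eu, mk_a,
        mk_b, mk_c, mk_d]
      refine ⟨by simpa using h6, ?_⟩
      nlinarith [hg.2, sq_nonneg (ec g), sq_nonneg (ea g + ec g)]

end H584Bu
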