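import Mathlib

/-!
Compact quantum groups, (free) coactions and equivariant joins, for unital C*-algebras of operators
on Hilbert spaces `ℓ²(X)`.
-/

open scoped InnerProductSpace ENNReal

noncomputable section

namespace H584BuDefs

/-- The Hilbert space `ℓ²(X)`. -/
abbrev L2 (X : Type) : Type := lp (fun _ : X => ℂ) 2

/-- The bounded operators on `ℓ²(X)`. -/
abbrev Op (X : Type) : Type := L2 X →L[ℂ] L2 X

open Classical in
/-- The standard basis vector `δ_x` of `ℓ²(X)`. -/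
def delta {X : Type} (x : X) : L2 X := lp.single 2 x (1 : ℂ)

/-- The matrix coefficient `⟨δ_x, a δ_y⟩`. -/
def coeff {X : Type} (a : Op X) (x y : X) : ℂ := ⟪delta x, a (delta y)⟫_ℂ

/-- `T` is the operator `a ⊗ b` on `ℓ²(X × Y) = ℓ²(X) ⊗ ℓ²(Y)`. -/
def IsTensor {X Y : Type} (a : Op X) (b : Op Y) (T : Op (X × Y)) : Prop :=
  ∀ x x' y y', coeff T (x, y) (x', y') = coeff a x x' * coeff b y y'

/-- `V` is norm closed. -/
def NormClosed {X : Type} (V : Set (Op X)) : Prop := IsClosed V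

/-- `V` is a norm closed linear subspace. -/
structure IsClosedSubspace {X : Type} (V : Set (Op X)) : Prop where
  zero : (0 : Op X) ∈ V
  add : ∀ a ∈ V, ∀ b ∈ V, a + b ∈ V
  smul : ∀ c : ℂ, ∀ a ∈ V, c • a ∈ V
  closed : NormClosed V

/-- `A` is a unital C*-algebra of operators on `ℓ²(X)`. -/
structure IsCAlg {X : Type} (A : Set (Op X)) : Prop where
  subspace : IsClosedSubspace A
  one : (1 : Op X) ∈ A
  mul : ∀ a ∈ A, ∀ b ∈ A, a * b ∈ A
  adj : ∀ a ∈ A, star a ∈ A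

/-- The closed linear span of `S`, that is the smallest norm closed linear subspace that
contains `S`. -/
def cspan {X : Type} (S : Set (Op X)) : Set (Op X) := {T | ∀ V, IsClosedSubspace V → S ⊆ V → T ∈ V}

/-- The minimal (spatial) tensor product `A ⊗ B`, acting on `ℓ²(X × Y)`. -/
def tens {X Y : Type} (A : Set (Op X)) (B : Set (Op Y)) : Set (Op (X × Y)) :=
  cspan {T | ∃ a ∈ A, ∃ b ∈ B, IsTensor a b T}

/-- `φ` is linear on `A`. -/
structure IsLinOn {X Y : Type} (A : Set (Op X)) (φ : Op X → Op Y) : Prop where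
  add : ∀ a ∈ A, ∀ b ∈ A, φ (a + b) = φ a + φ b
  smul : ∀ c : ℂ, ∀ a ∈ A, φ (c • a) = c • φ a

/-- `φ` is unital, multiplicative and `*`-preserving on `A`. -/
structure IsMulOn {X Y : Type} (A : Set (Op X)) (φ : Op X → Op Y) : Prop where
  one : φ 1 = 1
  mul : ∀ a ∈ A, ∀ b ∈ A, φ (a * b) = φ a * φ b
  adj : ∀ a ∈ A, φ (star a) = star (φ a)

/-- `φ` restricts to a unital `*`-homomorphism `A → B` (values outside `A` are irrelevant). -/
structure IsHom {X Y : Type} (A : Set (Op X)) (B : Set (Op Y)) (φ : Op X → Op Y) : Prop where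
  maps : ∀ a ∈ A, φ a ∈ B
  lin : IsLinOn A φ
  mul : IsMulOn A φ

/-- `Ψ` restricts to the `*`-homomorphism `φ ⊗ ψ : A ⊗ B → A' ⊗ B'`. -/
structure IsTensorHom {X Y X' Y' : Type} (A : Set (Op X)) (B : Set (Op Y)) (A' : Set (Op X'))
    (B' : Set (Op Y')) (φ : Op X → Op X') (ψ : Op Y → Op Y') (Ψ : Op (X × Y) → Op (X' × Y')) :
    Prop where
  hom : IsHom (tens A B) (tens A' B') Ψ
  tensor : ∀ a ∈ A, ∀ b ∈ B, ∀ T, IsTensor a b T → IsTensor (φ a) (ψ b) (Ψ T)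

/-- `S` and `T` agree under the identification `ℓ²((X × Y) × Z) = ℓ²(X × (Y × Z))`. -/
def SameAssoc {X Y Z : Type} (S : Op ((X × Y) × Z)) (T : Op (X × (Y × Z))) : Prop :=
  ∀ x y z x' y' z', coeff S ((x, y), z) ((x', y'), z') = coeff T (x, (y, z)) (x', (y', z'))

/-- The identity `(φ ⊗ id) ∘ δ = (id ⊗ Δ) ∘ ψ` of maps `A → B ⊗ H ⊗ H`, where `φ, ψ : A → B ⊗ H`,
`δ : A → A ⊗ H` and `Δ : H → H ⊗ H`. -/
def Compat {X X' Y : Type} (A : Set (Op X)) (B : Set (Op X')) (H : Set (Op Y))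
    (Δ : Op Y → Op (Y × Y)) (δ : Op X → Op (X × Y)) (φ ψ : Op X → Op (X' × Y)) : Prop :=
  ∃ (Ψ₁ : Op (X × Y) → Op ((X' × Y) × Y)) (Ψ₂ : Op (X' × Y) → Op (X' × (Y × Y))),
    IsTensorHom A H (tens B H) H φ id Ψ₁ ∧ IsTensorHom B H B (tens H H) id Δ Ψ₂ ∧
      ∀ a ∈ A, SameAssoc (Ψ₁ (δ a)) (Ψ₂ (ψ a))

/-- `(H, Δ)` is a compact quantum group. -/
structure IsCQG {Y : Type} (H : Set (Op Y)) (Δ : Op Y → Op (Y × Y)) : Prop where
  calg : IsCAlg H
  hom : IsHom H (tens H H) Δ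
  coassoc : Compat H H H Δ Δ Δ Δ
  dense_right : cspan {T | ∃ h ∈ H, ∃ k ∈ H, ∃ S, IsTensor 1 k S ∧ T = Δ h * S} = tens H H
  dense_left : cspan {T | ∃ h ∈ H, ∃ k ∈ H, ∃ S, IsTensor k 1 S ∧ T = Δ h * S} = tens H H

/-- `H ≠ ℂ 1`. -/
structure IsNontriv {Y : Type} (H : Set (Op Y)) : Prop where
  nonscalar : ∃ h ∈ H, ∀ c : ℂ, h ≠ c • (1 : Op Y)

/-- `δ` is a free coaction of `(H, Δ)` on the unital C*-algebra `A`. -/
structure IsFreeCoaction {X Y : Type} (A : Set (Op X)) (H : Set (Op Y)) (Δ : Op Y → Op (Y × Y))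
    (δ : Op X → Op (X × Y)) : Prop where
  calg : IsCAlg A
  hom : IsHom A (tens A H) δ
  inj : ∀ a ∈ A, ∀ b ∈ A, δ a = δ b → a = b
  coassoc : Compat A A H Δ δ δ δ
  dense : cspan {T | ∃ a ∈ A, ∃ h ∈ H, ∃ S, IsTensor 1 h S ∧ T = δ a * S} = tens A H
  free : cspan {T | ∃ a ∈ A, ∃ b ∈ A, ∃ S, IsTensor a 1 S ∧ T = S * δ b} = tens A H

/-- The underlying set of the equivariant join `A *_δ H`, a C*-algebra of continuous functions
`[0,1] → A ⊗ H` with the pointwise operations. -/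
def join {X Y : Type} (A : Set (Op X)) (H : Set (Op Y)) (δ : Op X → Op (X × Y)) :
    Set (unitInterval → Op (X × Y)) :=
  {f | Continuous f ∧ (∀ t, f t ∈ tens A H) ∧ (∃ h ∈ H, IsTensor 1 h (f 0)) ∧ ∃ a ∈ A, f 1 = δ a}

/-- `Φ` restricts to an `H`-equivariant unital `*`-homomorphism `(A, δ) → (A *_δ H, δ_Δ)`.  The
algebraic operations and the coaction `δ_Δ = id ⊗ Δ` on the join are pointwise in `t ∈ [0,1]`, so
that equivariance means `(Φ_t ⊗ id) ∘ δ = (id ⊗ Δ) ∘ Φ_t` for all `t`, where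
`Φ_t = ev_t ∘ Φ`. -/
structure IsEquivJoinHom {X Y : Type} (A : Set (Op X)) (H : Set (Op Y))
    (Δ : Op Y → Op (Y × Y)) (δ : Op X → Op (X × Y)) (Φ : Op X → unitInterval → Op (X × Y)) :
    Prop where
  maps : ∀ a ∈ A, Φ a ∈ join A H δ
  hom : ∀ t, IsHom A (tens A H) (fun a => Φ a t)
  equivariant : ∀ t, Compat A A H Δ δ (fun a => Φ a t) (fun a => Φ a t)

end H584BuDefs
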