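import Pool.Agent.H584R3.Bu4
import Pool.Agent.H584R3.BuDefs

/-!
Pullbacks of operators along index maps, elementary tensors.
-/

open scoped InnerProductSpace ComplexConjugate

set_option linter.unusedSectionVars false

noncomputable section

namespace H584Bu

open H584Roe (L2 entry LL Phi TT inc prj)
open H584BuDefs (delta coeff IsTensor cspan tens)

section Iso

variable {X Y : Type} [DecidableEq X] [DecidableEq Y]

theorem single_orthonormal (j : X → Y) (hj : Function.Injective j) :
    Orthonormal ℂ (fun x => (lp.single 2 (j x) (1 : ℂ) : L2 Y)) := by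
  rw [orthonormal_iff_ite]
  intro x y
  rw [lp.inner_single_left, lp.single_apply]
  by_cases h : x = y
  · subst h; simp
  · have h2 : j x ≠ j y := fun h3 => h (hj h3)
    simp [h, h2]

/-- The isometry `δ_x ↦ δ_{j x}`. -/
def Vi (j : X → Y) (hj : Function.Injective j) : L2 X →ₗᵢ[ℂ] L2 Y :=
  (single_orthonormal j hj).orthogonalFamily.linearIsometry

theorem Vi_single (j : X → Y) (hj : Function.Injective j) (x : X) :
    Vi j hj (lp.single 2 x (1 : ℂ)) = lp.single 2 (j x) (1 : ℂ) := by
  unfold Vi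
  rw [OrthogonalFamily.linearIsometry_apply_single]
  simp

/-- The isometry as a bounded operator. -/
def Vc (j : X → Y) (hj : Function.Injective j) : L2 X →L[ℂ] L2 Y := (Vi j hj).toContinuousLinearMap

theorem Vc_single (j : X → Y) (hj : Function.Injective j) (x : X) :
    Vc j hj (lp.single 2 x (1 : ℂ)) = lp.single 2 (j x) (1 : ℂ) := Vi_single j hj x

theorem norm_Vc (j : X → Y) (hj : Function.Injective j) : ‖Vc j hj‖ ≤ 1 :=
  ContinuousLinearMap.opNorm_le_bound _ zero_le_one fun f => by
    rw [one_mul]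
    exact ((Vi j hj).norm_map f).le

/-- The adjoint. -/
def Va (j : X → Y) (hj : Function.Injective j) : L2 Y →L[ℂ] L2 X :=
  ContinuousLinearMap.adjoint (Vc j hj)

theorem Va_apply (j : X → Y) (hj : Function.Injective j) (f : L2 Y) (x : X) :
    (Va j hj f : X → ℂ) x = (f : Y → ℂ) (j x) := by
  have h1 : (Va j hj f : X → ℂ) x = ⟪(lp.single 2 x (1 : ℂ) : L2 X), Va j hj f⟫_ℂ := by
    rw [lp.inner_single_left]; simp
  rw [h1]
  unfold Va
  rw [ContinuousLinearMap.adjoint_inner_right, Vc_single, lp.inner_single_left]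
  simp

theorem norm_Va (j : X → Y) (hj : Function.Injective j) : ‖Va j hj‖ ≤ 1 := by
  unfold Va
  rw [LinearIsometryEquiv.norm_map]
  exact norm_Vc j hj

theorem Vc_apply (j : X → Y) (hj : Function.Injective j) (f : L2 X) (x : X) :
    (Vc j hj f : Y → ℂ) (j x) = (f : X → ℂ) x := by
  have h1 : (Vc j hj f : Y → ℂ) (j x) =
      ⟪(lp.single 2 (j x) (1 : ℂ) : L2 Y), Vc j hj f⟫_ℂ := by
    rw [lp.inner_single_left]; simp
  have h2 : ⟪Vc j hj (lp.single 2 x (1 : ℂ)), Vc j hj f⟫_ℂ =
      ⟪(lp.single 2 x (1 : ℂ) : L2 X), f⟫_ℂ := (Vi j hj).inner_map_map _ _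
  rw [h1, ← Vc_single j hj, h2, lp.inner_single_left]
  simp

theorem Vc_apply_ne (j : X → Y) (hj : Function.Injective j) (f : L2 X) (y : Y)
    (hy : ∀ x, j x ≠ y) : (Vc j hj f : Y → ℂ) y = 0 := by
  have h1 : (Vc j hj f : Y → ℂ) y = ⟪(lp.single 2 y (1 : ℂ) : L2 Y), Vc j hj f⟫_ℂ := by
    rw [lp.inner_single_left]; simp
  rw [h1, ← ContinuousLinearMap.adjoint_inner_left]
  have h2 : ContinuousLinearMap.adjoint (Vc j hj) (lp.single 2 y (1 : ℂ)) = 0 := by
    ext1; funext x
    change (Va j hj (lp.single 2 y (1 : ℂ)) : X → ℂ) x = 0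
    rw [Va_apply, lp.single_apply_ne _ _ _ (hy x)]
  rw [h2, inner_zero_left]

end Iso

section Amp

variable {X B : Type} [DecidableEq X] [DecidableEq B]

/-- The standard Hilbert basis. -/
def sb (B : Type) : HilbertBasis B ℂ (L2 B) := HilbertBasis.ofRepr (LinearIsometryEquiv.refl ℂ _)

theorem sb_apply (m : B) : sb B m = lp.single 2 m (1 : ℂ) := by
  have h := (sb B).repr_self m
  exact h

/-- `a ⊗ 1`. -/
def am (B : Type) [DecidableEq B] {X : Type} [DecidableEq X] (a : Op X) : Op (X × B) :=
  Phi (fun _ : X => sb B) a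

theorem am_entry (a : Op X) (x y : X) (m n : B) :
    entry (am B a) (x, m) (y, n) = entry a x y * (if m = n then 1 else 0) := by
  unfold am
  rw [H584Roe.Phi_entry, sb_apply, sb_apply, lp.inner_single_left, lp.single_apply]
  by_cases h : m = n
  · subst h; simp
  · simp [h]

theorem am_add (a b : Op X) : am B (a + b) = am B a + am B b := H584Roe.Phi_add _ a b
theorem am_smul (c : ℂ) (a : Op X) : am B (c • a) = c • am B a := H584Roe.Phi_smul _ c a
theorem am_mul (a b : Op X) : am B (a * b) = am B a * am B b := H584Roe.Phi_mul _ a b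
theorem am_star (a : Op X) : am B (star a) = star (am B a) := H584Roe.Phi_star _ a
theorem norm_am (a : Op X) : ‖am B a‖ ≤ ‖a‖ := H584Roe.norm_Phi_le _ a

end Amp

section Pull

variable {X Y B : Type} [DecidableEq X] [DecidableEq Y] [DecidableEq B]

/-- Pullback of operators: `entry (pull j a) x x' = entry a (j x).1 (j x').1 * [(j x).2 = (j x').2]`. -/
def pullF (j : X → Y × B) (hj : Function.Injective j) (a : Op Y) : Op X :=
  (Va j hj).comp ((am B a).comp (Vc j hj))

/-- Pullback as a bounded linear map. -/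
def pull (j : X → Y × B) (hj : Function.Injective j) : Op Y →L[ℂ] Op X :=
  LinearMap.mkContinuous
    { toFun := pullF j hj
      map_add' := fun a b => by
        unfold pullF
        rw [am_add, ContinuousLinearMap.add_comp, ContinuousLinearMap.comp_add]
      map_smul' := fun c a => by
        unfold pullF
        rw [am_smul, ContinuousLinearMap.smul_comp, ContinuousLinearMap.comp_smul]
        rfl }
    1 (fun a => by
      change ‖pullF j hj a‖ ≤ 1 * ‖a‖
      unfold pullF
      rw [one_mul]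
      refine (ContinuousLinearMap.opNorm_comp_le _ _).trans ?_
      have h1 : ‖(am B a).comp (Vc j hj)‖ ≤ ‖a‖ := by
        refine (ContinuousLinearMap.opNorm_comp_le _ _).trans ?_
        calc ‖am B a‖ * ‖Vc j hj‖ ≤ ‖a‖ * 1 :=
              mul_le_mul (norm_am a) (norm_Vc j hj) (norm_nonneg _) (norm_nonneg _)
          _ = ‖a‖ := mul_one _
      calc ‖Va j hj‖ * ‖(am B a).comp (Vc j hj)‖ ≤ 1 * ‖a‖ :=
            mul_le_mul (norm_Va j hj) h1 (norm_nonneg _) zero_le_one
        _ = ‖a‖ := one_mul _)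

theorem pull_eq (j : X → Y × B) (hj : Function.Injective j) (a : Op Y) :
    pull j hj a = (Va j hj).comp ((am B a).comp (Vc j hj)) := rfl

theorem norm_pull (j : X → Y × B) (hj : Function.Injective j) (a : Op Y) :
    ‖pull j hj a‖ ≤ ‖a‖ := by
  refine ((pull j hj).le_opNorm a).trans ?_
  have h1 : ‖pull j hj‖ ≤ 1 := LinearMap.mkContinuous_norm_le _ zero_le_one _
  calc ‖pull j hj‖ * ‖a‖ ≤ 1 * ‖a‖ := mul_le_mul_of_nonneg_right h1 (norm_nonneg _)
    _ = ‖a‖ := one_mul _

theorem pull_entry (j : X → Y × B) (hj : Function.Injective j) (a : Op Y) (x x' : X) :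
    entry (pull j hj a) x x' =
      entry a (j x).1 (j x').1 * (if (j x).2 = (j x').2 then 1 else 0) := by
  have h1 : entry (pull j hj a) x x' = entry (am B a) (j x) (j x') := by
    unfold entry
    rw [pull_eq]
    change (Va j hj ((am B a) (Vc j hj (lp.single 2 x' (1 : ℂ)))) : X → ℂ) x = _
    rw [Va_apply, Vc_single]
  rw [h1]
  exact am_entry a (j x).1 (j x').1 (j x).2 (j x').2

theorem pull_star (j : X → Y × B) (hj : Function.Injective j) (a : Op Y) :
    pull j hj (star a) = star (pull j hj a) := by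
  apply op_ext
  intro x x'
  rw [pull_entry, entry_star, entry_star, pull_entry, map_mul]
  congr 1
  by_cases h : (j x).2 = (j x').2
  · simp [h]
  · simp [h, Ne.symm h]

theorem pull_one (j : X → Y × B) (hj : Function.Injective j) : pull j hj 1 = 1 := by
  apply op_ext
  intro x x'
  rw [pull_entry, entry_one, entry_one]
  by_cases h : x = x'
  · subst h; simp
  · by_cases h1 : (j x).1 = (j x').1
    · by_cases h2 : (j x).2 = (j x').2
      · exact absurd (hj (Prod.ext h1 h2)) h
      · simp [h, h2]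
    · simp [h, h1]

/-- Multiplicativity of the pullback. -/
theorem pull_mul (j : X → Y × B) (hj : Function.Injective j) (a b : Op Y)
    (hb : ∀ (x' : X) (y : Y), (∀ x, j x ≠ (y, (j x').2)) → entry b y (j x').1 = 0) :
    pull j hj (a * b) = pull j hj a * pull j hj b := by
  have key : ∀ x' : X, Vc j hj (Va j hj ((am B b) (lp.single 2 (j x') (1 : ℂ)))) =
      (am B b) (lp.single 2 (j x') (1 : ℂ)) := by
    intro x'
    ext1; funext q
    by_cases hq : ∃ x, j x = q
    · obtain ⟨x, rfl⟩ := hq
      rw [Vc_apply, Va_apply]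
    · push Not at hq
      rw [Vc_apply_ne j hj _ q hq]
      have h1 : ((am B b) (lp.single 2 (j x') (1 : ℂ)) : Y × B → ℂ) q =
          entry (am B b) (q.1, q.2) ((j x').1, (j x').2) := rfl
      rw [h1, am_entry]
      by_cases h2 : q.2 = (j x').2
      · rw [hb x' q.1 (fun x hx => hq x (by rw [hx, ← h2]))]
        simp
      · simp [h2]
  apply op_ext
  intro x x'
  unfold entry
  rw [mul_apply_eq_comp, pull_eq, pull_eq, pull_eq]
  change (Va j hj ((am B (a * b)) (Vc j hj (lp.single 2 x' (1 : ℂ)))) : X → ℂ) x =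
    (Va j hj ((am B a) (Vc j hj (Va j hj ((am B b) (Vc j hj (lp.single 2 x' (1 : ℂ))))))) :
      X → ℂ) x
  rw [Vc_single, key x', am_mul, mul_apply_eq_comp]

/-- Multiplicativity for surjective index maps. -/
theorem pull_mul_surj (j : X → Y × B) (hj : Function.Injective j) (hs : Function.Surjective j)
    (a b : Op Y) : pull j hj (a * b) = pull j hj a * pull j hj b := by
  refine pull_mul j hj a b fun x' y hx => ?_
  obtain ⟨x, hx2⟩ := hs (y, (j x').2)
  exact absurd hx2 (hx x)

end Pull

section Tensor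

variable {X Y : Type} [DecidableEq X] [DecidableEq Y]

theorem coeff_eq (a : Op X) (x y : X) : coeff a x y = entry a x y := by
  have hd : ∀ z : X, (delta z : L2 X) = lp.single 2 z (1 : ℂ) := by
    intro z
    unfold delta
    congr
    exact Subsingleton.elim _ _
  unfold coeff
  rw [hd, hd, lp.inner_single_left]
  simp [entry]

theorem swap_inj : Function.Injective (fun q : X × Y => (q.2, q.1)) := by
  rintro ⟨a, b⟩ ⟨c, d⟩ h
  simp only [Prod.mk.injEq] at h
  exact Prod.ext h.2 h.1

/-- `1 ⊗ b`. -/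
def tr (X : Type) [DecidableEq X] (b : Op Y) : Op (X × Y) :=
  pull (fun q : X × Y => (q.2, q.1)) swap_inj b

theorem tr_entry (b : Op Y) (x x' : X) (y y' : Y) :
    entry (tr X b) (x, y) (x', y') = entry b y y' * (if x = x' then 1 else 0) := by
  unfold tr
  rw [pull_entry]

/-- `a ⊗ b`. -/
def tn (a : Op X) (b : Op Y) : Op (X × Y) := am Y a * tr X b

theorem tn_entry (a : Op X) (b : Op Y) (x x' : X) (y y' : Y) :
    entry (tn a b) (x, y) (x', y') = entry a x x' * entry b y y' := by
  have h := hasSum_entry_mul (am Y a) (tr X b) (x, y) (x', y')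
  have h2 : HasSum (fun q => entry (am Y a) (x, y) q * entry (tr X b) q (x', y'))
      (entry (am Y a) (x, y) (x', y) * entry (tr X b) (x', y) (x', y')) := by
    refine hasSum_single (x', y) ?_
    rintro ⟨p, q⟩ hpq
    rw [am_entry, tr_entry]
    by_cases h1 : y = q
    · by_cases h2 : p = x'
      · subst h1; subst h2; exact absurd rfl hpq
      · simp [h2]
    · simp [h1]
  rw [show tn a b = am Y a * tr X b from rfl, h.unique h2, am_entry, tr_entry]
  simp

theorem isTensor_iff (a : Op X) (b : Op Y) (T : Op (X × Y)) : IsTensor a b T ↔ T = tn a b := by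
  unfold IsTensor
  simp only [coeff_eq]
  constructor
  · intro h
    apply op_ext
    rintro ⟨x, y⟩ ⟨x', y'⟩
    rw [h, tn_entry]
  · rintro rfl x x' y y'
    rw [tn_entry]

theorem tn_add_left (a a' : Op X) (b : Op Y) : tn (a + a') b = tn a b + tn a' b := by
  unfold tn
  rw [am_add, add_mul]

theorem tn_smul_left (c : ℂ) (a : Op X) (b : Op Y) : tn (c • a) b = c • tn a b := by
  unfold tn
  rw [am_smul, smul_mul_assoc]

theorem tn_add_right (a : Op X) (b b' : Op Y) : tn a (b + b') = tn a b + tn a b' := by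
  unfold tn tr
  rw [map_add, mul_add]

theorem tn_smul_right (c : ℂ) (a : Op X) (b : Op Y) : tn a (c • b) = c • tn a b := by
  unfold tn tr
  rw [map_smul, mul_smul_comm]

theorem norm_tn (a : Op X) (b : Op Y) : ‖tn a b‖ ≤ ‖a‖ * ‖b‖ := by
  unfold tn
  refine (norm_mul_le _ _).trans ?_
  exact mul_le_mul (norm_am a) (norm_pull _ _ b) (norm_nonneg _) (norm_nonneg _)

theorem tn_mul (a a' : Op X) (b b' : Op Y) : tn a b * tn a' b' = tn (a * a') (b * b') := by
  have h1 : tr X b * am Y a' = am Y a' * tr X b := by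
    apply op_ext
    rintro ⟨x, y⟩ ⟨x', y'⟩
    have h3 : entry (am Y a' * tr X b) (x, y) (x', y') = entry a' x x' * entry b y y' :=
      tn_entry a' b x x' y y'
    rw [h3]
    have h := hasSum_entry_mul (tr X b) (am Y a') (x, y) (x', y')
    have h2 : HasSum (fun q => entry (tr X b) (x, y) q * entry (am Y a') q (x', y'))
        (entry (tr X b) (x, y) (x, y') * entry (am Y a') (x, y') (x', y')) := by
      refine hasSum_single (x, y') ?_
      rintro ⟨p, q⟩ hpq
      rw [am_entry, tr_entry]
      by_cases h1 : x = p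
      · by_cases h2 : q = y'
        · subst h1; subst h2; exact absurd rfl hpq
        · simp [h2]
      · simp [h1]
    rw [h.unique h2, am_entry, tr_entry]
    simp [mul_comm]
  have h2 : tr X b * tr X b' = tr X (b * b') := by
    unfold tr
    rw [pull_mul_surj]
    rintro ⟨y, x⟩
    exact ⟨(x, y), rfl⟩
  unfold tn
  rw [am_mul, ← h2, mul_assoc, ← mul_assoc (tr X b), h1]
  simp only [mul_assoc]

theorem tn_one : tn (1 : Op X) (1 : Op Y) = 1 := by
  apply op_ext
  rintro ⟨x, y⟩ ⟨x', y'⟩
  rw [tn_entry, entry_one, entry_one, entry_one]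
  by_cases h1 : x = x' <;> by_cases h2 : y = y' <;> simp [h1, h2]

theorem tn_star (a : Op X) (b : Op Y) : star (tn a b) = tn (star a) (star b) := by
  apply op_ext
  rintro ⟨x, y⟩ ⟨x', y'⟩
  rw [entry_star, tn_entry, tn_entry, entry_star, entry_star, map_mul]

theorem tn_continuous_left (b : Op Y) : Continuous fun a : Op X => tn a b := by
  have h : IsBoundedLinearMap ℂ fun a : Op X => tn a b := by
    refine ⟨⟨fun a a' => tn_add_left a a' b, fun c a => tn_smul_left c a b⟩, ‖b‖ + 1, ?_, ?_⟩
    · positivity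
    · intro a
      refine (norm_tn a b).trans ?_
      rw [mul_comm]
      exact mul_le_mul_of_nonneg_right (by linarith) (norm_nonneg _)
  exact h.continuous

theorem tn_continuous_right (a : Op X) : Continuous fun b : Op Y => tn a b := by
  have h : IsBoundedLinearMap ℂ fun b : Op Y => tn a b := by
    refine ⟨⟨fun b b' => tn_add_right a b b', fun c b => tn_smul_right c a b⟩, ‖a‖ + 1, ?_, ?_⟩
    · positivity
    · intro b
      refine (norm_tn a b).trans ?_
      exact mul_le_mul_of_nonneg_right (by linarith) (norm_nonneg _)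
  exact h.continuous

end Tensor

section Span

variable {X Y : Type} [DecidableEq X] [DecidableEq Y]

/-- Closed linear subspaces. -/
structure CSub (C : Set (Op X)) : Prop where
  zero : (0 : Op X) ∈ C
  add : ∀ a ∈ C, ∀ b ∈ C, a + b ∈ C
  smul : ∀ c : ℂ, ∀ a ∈ C, c • a ∈ C
  closed : IsClosed C

theorem cspan_csub (S : Set (Op X)) : CSub (cspan S) where
  zero := fun V hV _ => hV.zero
  add := fun a ha b hb V hV hS => hV.add _ (ha V hV hS) _ (hb V hV hS)
  smul := fun c a ha V hV hS => hV.smul c _ (ha V hV hS)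
  closed := by
    have : cspan S = ⋂ V ∈ {V : Set (Op X) | H584BuDefs.IsClosedSubspace V ∧ S ⊆ V}, V := by
      ext T
      simp only [Set.mem_iInter]
      exact ⟨fun h V hV => h V hV.1 hV.2, fun h V hV hS => h V ⟨hV, hS⟩⟩
    rw [this]
    exact isClosed_biInter fun V hV => hV.1.closed

theorem subset_cspan (S : Set (Op X)) : S ⊆ cspan S := fun _ ha _ _ hS => hS ha

theorem cspan_le {S C : Set (Op X)} (hC : CSub C) (h : S ⊆ C) : cspan S ⊆ C :=
  fun _ ha => ha C ⟨hC.zero, hC.add, hC.smul, hC.closed⟩ h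

/-- Preimages of closed subspaces. -/
theorem CSub.preimage {C : Set (Op Y)} (hC : CSub C) (F : Op X → Op Y)
    (hadd : ∀ a b, F (a + b) = F a + F b) (hsmul : ∀ (c : ℂ) a, F (c • a) = c • F a)
    (hcont : Continuous F) : CSub {a | F a ∈ C} where
  zero := by
    have : F 0 = 0 := by simpa using hsmul 0 0
    rw [Set.mem_ofPred_eq, this]
    exact hC.zero
  add := fun a ha b hb => by
    rw [Set.mem_ofPred_eq, hadd]
    exact hC.add _ ha _ hb
  smul := fun c a ha => by
    rw [Set.mem_ofPred_eq, hsmul]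
    exact hC.smul c _ ha
  closed := hC.closed.preimage hcont

theorem tens_eq (A : Set (Op X)) (B : Set (Op Y)) :
    tens A B = cspan {T | ∃ a ∈ A, ∃ b ∈ B, T = tn a b} := by
  unfold tens
  simp only [isTensor_iff]

theorem tn_mem_tens {A : Set (Op X)} {B : Set (Op Y)} {a : Op X} {b : Op Y} (ha : a ∈ A)
    (hb : b ∈ B) : tn a b ∈ tens A B := by
  rw [tens_eq]
  exact subset_cspan _ ⟨a, ha, b, hb, rfl⟩

theorem tens_csub (A : Set (Op X)) (B : Set (Op Y)) : CSub (tens A B) := by
  rw [tens_eq]
  exact cspan_csub _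

theorem tens_le {A : Set (Op X)} {B : Set (Op Y)} {C : Set (Op (X × Y))} (hC : CSub C)
    (h : ∀ a ∈ A, ∀ b ∈ B, tn a b ∈ C) : tens A B ⊆ C := by
  rw [tens_eq]
  refine cspan_le hC ?_
  rintro T ⟨a, ha, b, hb, rfl⟩
  exact h a ha b hb

theorem tens_cspan_le {GA : Set (Op X)} {GB : Set (Op Y)} {C : Set (Op (X × Y))} (hC : CSub C)
    (h : ∀ a ∈ GA, ∀ b ∈ GB, tn a b ∈ C) : tens (cspan GA) (cspan GB) ⊆ C := by
  refine tens_le hC fun a ha b hb => ?_
  have h1 : ∀ a ∈ GA, cspan GB ⊆ {b | tn a b ∈ C} := fun a ha =>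
    cspan_le (hC.preimage (fun b => tn a b) (fun b b' => tn_add_right a b b')
      (fun c b => tn_smul_right c a b) (tn_continuous_right a)) fun b hb => h a ha b hb
  have h2 : cspan GA ⊆ {a | tn a b ∈ C} :=
    cspan_le (hC.preimage (fun a => tn a b) (fun a a' => tn_add_left a a' b)
      (fun c a => tn_smul_left c a b) (tn_continuous_left b)) fun a ha => h1 a ha hb
  exact h2 ha

end Span

end H584Bu
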