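import Pool.Agent.H584R3.Bu6

/-!
Coactions of `C*_r(G)` coming from gradings.
-/

open scoped InnerProductSpace ComplexConjugate

set_option linter.unusedSectionVars false

noncomputable section

namespace H584Bu

open H584Roe (L2 entry)
open H584BuDefs

section Lam

variable {G : Type} [Group G] [DecidableEq G]

/-- The left regular representation. -/
def lam (g : G) : Op G := Vc (fun s => g * s) (mul_right_injective g)

theorem lam_entry (g s t : G) : entry (lam g) s t = if s = g * t then 1 else 0 := by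
  unfold entry lam
  rw [Vc_single, lp.single_apply]
  by_cases h : s = g * t
  · subst h; simp
  · simp [h]

theorem lam_mul (g h : G) : lam g * lam h = lam (g * h) := by
  apply op_ext
  intro s t
  rw [lam_entry]
  unfold entry
  rw [mul_apply_eq_comp]
  unfold lam
  rw [Vc_single, Vc_single, lp.single_apply]
  by_cases h1 : s = g * h * t
  · subst h1; simp [mul_assoc]
  · rw [mul_assoc] at h1
    simp [h1, mul_assoc]

theorem lam_one : lam (1 : G) = 1 := by
  apply op_ext
  intro s t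
  rw [lam_entry, entry_one, one_mul]

theorem lam_star (g : G) : star (lam g) = lam g⁻¹ := by
  apply op_ext
  intro s t
  rw [entry_star, lam_entry, lam_entry]
  by_cases h : t = g * s
  · subst h; simp
  · have h2 : ¬ s = g⁻¹ * t := fun h3 => h (by rw [h3, mul_inv_cancel_left])
    simp [h, h2]

theorem lam_homog (g : G) : Homog (id : G → G) g (lam g) := by
  intro s t hne
  rw [lam_entry] at hne
  by_contra h
  change ¬ s = g * t at h
  rw [if_neg h] at hne
  exact hne rfl

/-- `C*_r(G)`. -/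
def HH (G : Type) [Group G] [DecidableEq G] : Set (Op G) := cspan (Set.range lam)

end Lam

/-- A generating set of homogeneous unitaries, closed under products and adjoints. -/
structure Gen {I G : Type} [DecidableEq I] [Group G] (deg : I → G) (W : Set (Op I)) : Prop where
  one : (1 : Op I) ∈ W
  mul : ∀ a ∈ W, ∀ b ∈ W, a * b ∈ W
  adj : ∀ a ∈ W, star a ∈ W
  uni : ∀ a ∈ W, star a * a = 1
  homog : ∀ a ∈ W, ∃ γ, Homog deg γ a
  full : ∀ γ, ∃ a ∈ W, Homog deg γ a

theorem lam_gen {G : Type} [Group G] [DecidableEq G] :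
    Gen (id : G → G) (Set.range (lam : G → Op G)) where
  one := ⟨1, lam_one⟩
  mul := by
    rintro _ ⟨g, rfl⟩ _ ⟨h, rfl⟩
    exact ⟨g * h, (lam_mul g h).symm⟩
  adj := by
    rintro _ ⟨g, rfl⟩
    exact ⟨g⁻¹, (lam_star g).symm⟩
  uni := by
    rintro _ ⟨g, rfl⟩
    rw [lam_star, lam_mul, inv_mul_cancel, lam_one]
  homog := by
    rintro _ ⟨g, rfl⟩
    exact ⟨g, lam_homog g⟩
  full := fun γ => ⟨lam γ, ⟨γ, rfl⟩, lam_homog γ⟩

theorem calg_of_gen {I : Type} [DecidableEq I] {W : Set (Op I)} (h1 : (1 : Op I) ∈ W)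
    (hmul : ∀ a ∈ W, ∀ b ∈ W, a * b ∈ W) (hadj : ∀ a ∈ W, star a ∈ W) : IsCAlg (cspan W) where
  subspace := ⟨(cspan_csub W).zero, (cspan_csub W).add, (cspan_csub W).smul,
    (cspan_csub W).closed⟩
  one := subset_cspan _ h1
  mul := by
    have h2 : ∀ a ∈ W, cspan W ⊆ {b | a * b ∈ cspan W} := fun a ha =>
      cspan_le ((cspan_csub W).preimage (fun b => a * b) (fun b b' => mul_add a b b')
        (fun c b => mul_smul_comm c a b) (continuous_const.mul continuous_id))
        fun b hb => subset_cspan _ (hmul a ha b hb)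
    intro a ha b hb
    have h3 : cspan W ⊆ {a | a * b ∈ cspan W} :=
      cspan_le ((cspan_csub W).preimage (fun a => a * b) (fun a a' => add_mul a a' b)
        (fun c a => smul_mul_assoc c a b) (continuous_id.mul continuous_const))
        fun a ha => h2 a ha hb
    exact h3 ha
  adj := by
    have h2 : CSub {a : Op I | star a ∈ cspan W} := by
      refine ⟨?_, ?_, ?_, ?_⟩
      · rw [Set.mem_ofPred_eq, star_zero]; exact (cspan_csub W).zero
      · intro a ha b hb
        rw [Set.mem_ofPred_eq, star_add]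
        exact (cspan_csub W).add _ ha _ hb
      · intro c a ha
        rw [Set.mem_ofPred_eq, star_smul]
        exact (cspan_csub W).smul _ _ ha
      · exact (cspan_csub W).closed.preimage continuous_star
    have h3 : cspan W ⊆ {a : Op I | star a ∈ cspan W} :=
      cspan_le h2 fun a ha => subset_cspan _ (hadj a ha)
    exact fun a ha => h3 ha

section TensorHom

variable {X Y X' Y' : Type} [DecidableEq X] [DecidableEq Y] [DecidableEq X'] [DecidableEq Y']

theorem tensorHom_of {A : Set (Op X)} {B : Set (Op Y)} {A' : Set (Op X')} {B' : Set (Op Y')}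
    {φ : Op X → Op X'} {ψ : Op Y → Op Y'} (F : Op (X × Y) →L[ℂ] Op (X' × Y'))
    (hF : ∀ a ∈ A, ∀ b ∈ B, F (tn a b) = tn (φ a) (ψ b)) (hφ : ∀ a ∈ A, φ a ∈ A')
    (hψ : ∀ b ∈ B, ψ b ∈ B') (h1 : F 1 = 1)
    (hmul : ∀ S ∈ tens A B, ∀ T ∈ tens A B, F (S * T) = F S * F T)
    (hstar : ∀ T, F (star T) = star (F T)) : IsTensorHom A B A' B' φ ψ F where
  hom :=
    { maps := by
        have h2 : tens A B ⊆ {T | F T ∈ tens A' B'} :=
          tens_le ((tens_csub A' B').preimage F (map_add F) (map_smul F) F.continuous)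
            fun a ha b hb => by
              rw [Set.mem_ofPred_eq, hF a ha b hb]
              exact tn_mem_tens (hφ a ha) (hψ b hb)
        exact fun a ha => h2 ha
      lin := ⟨fun a _ b _ => map_add F a b, fun c a _ => map_smul F c a⟩
      mul := ⟨h1, hmul, fun a _ => hstar a⟩ }
  tensor := by
    intro a ha b hb T hT
    rw [isTensor_iff] at hT ⊢
    rw [hT, hF a ha b hb]

end TensorHom

section Coaction

variable {I G : Type} [DecidableEq I] [Group G] [DecidableEq G] (deg : I → G)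

/-- Index map for `δ`. -/
def jd (p : I × G) : I × G := (p.1, (deg p.1)⁻¹ * p.2)

theorem jd_inj : Function.Injective (jd deg) := by
  rintro ⟨i, t⟩ ⟨i', t'⟩ h
  simp only [jd, Prod.mk.injEq] at h
  obtain ⟨h1, h2⟩ := h
  subst h1
  exact Prod.ext rfl (mul_left_cancel h2)

theorem jd_surj : Function.Surjective (jd deg) := by
  rintro ⟨i, t⟩
  exact ⟨(i, deg i * t), by simp [jd]⟩

/-- The coaction. -/
def dl : Op I →L[ℂ] Op (I × G) := pull (jd deg) (jd_inj deg)

theorem dl_entry (a : Op I) (i i' : I) (t t' : G) : entry (dl deg a) (i, t) (i', t') =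
    entry a i i' * (if (deg i)⁻¹ * t = (deg i')⁻¹ * t' then 1 else 0) := by
  unfold dl
  rw [pull_entry]
  rfl

theorem dl_mul (a b : Op I) : dl deg (a * b) = dl deg a * dl deg b :=
  pull_mul_surj _ _ (jd_surj deg) a b

theorem dl_homog {γ : G} {z : Op I} (hz : Homog deg γ z) : dl deg z = tn z (lam γ) := by
  apply op_ext
  rintro ⟨i, t⟩ ⟨i', t'⟩
  rw [dl_entry, tn_entry, lam_entry]
  by_cases h : entry z i i' = 0
  · simp [h]
  · have h1 := hz i i' h
    congr 1
    rw [h1, mul_inv_rev]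
    have h2 : ((deg i')⁻¹ * γ⁻¹ * t = (deg i')⁻¹ * t') ↔ t = γ * t' := by
      rw [mul_assoc, mul_right_inj, inv_mul_eq_iff_eq_mul]
    simp only [h2]

theorem dl_injective {a b : Op I} (h : dl deg a = dl deg b) : a = b := by
  apply op_ext
  intro i j
  have h1 : entry (dl deg a) (i, deg i) (j, deg j) = entry (dl deg b) (i, deg i) (j, deg j) := by
    rw [h]
  rw [dl_entry, dl_entry] at h1
  simpa using h1

/-- Index map for `δ ⊗ id`. -/
def jdi (p : (I × G) × G) : (I × G) × G := ((p.1.1, p.2), (deg p.1.1)⁻¹ * p.1.2)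

theorem jdi_inj : Function.Injective (jdi deg) := by
  rintro ⟨⟨i, t⟩, r⟩ ⟨⟨i', t'⟩, r'⟩ h
  simp only [jdi, Prod.mk.injEq] at h
  obtain ⟨⟨h1, h2⟩, h3⟩ := h
  subst h1
  rw [mul_left_cancel h3, h2]

theorem jdi_surj : Function.Surjective (jdi deg) := by
  rintro ⟨⟨i, r⟩, t⟩
  exact ⟨((i, deg i * t), r), by simp [jdi]⟩

/-- `δ ⊗ id`. -/
def dli : Op (I × G) →L[ℂ] Op ((I × G) × G) := pull (jdi deg) (jdi_inj deg)

theorem dli_entry (a : Op (I × G)) (i i' : I) (t t' r r' : G) :
    entry (dli deg a) ((i, t), r) ((i', t'), r') =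
    entry a (i, r) (i', r') * (if (deg i)⁻¹ * t = (deg i')⁻¹ * t' then 1 else 0) := by
  unfold dli
  rw [pull_entry]
  rfl

/-- Index map for `id ⊗ Δ`. -/
def jid (p : I × (G × G)) : (I × G) × G := ((p.1, p.2.1), p.2.1⁻¹ * p.2.2)

theorem jid_inj : Function.Injective (jid : I × (G × G) → (I × G) × G) := by
  rintro ⟨i, t, r⟩ ⟨i', t', r'⟩ h
  simp only [jid, Prod.mk.injEq] at h
  obtain ⟨⟨h1, h2⟩, h3⟩ := h
  subst h1; subst h2
  rw [mul_left_cancel h3]

theorem jid_surj : Function.Surjective (jid : I × (G × G) → (I × G) × G) := by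
  rintro ⟨⟨i, t⟩, r⟩
  exact ⟨(i, t, t * r), by simp [jid]⟩

/-- `id ⊗ Δ`. -/
def idl : Op (I × G) →L[ℂ] Op (I × (G × G)) := pull jid jid_inj

theorem idl_entry (a : Op (I × G)) (i i' : I) (t t' r r' : G) :
    entry (idl a) (i, (t, r)) (i', (t', r')) =
    entry a (i, t) (i', t') * (if t⁻¹ * r = t'⁻¹ * r' then 1 else 0) := by
  unfold idl
  rw [pull_entry]
  rfl

theorem dli_hom {A : Set (Op I)} (hA : ∀ a ∈ A, dl deg a ∈ tens A (HH G)) :
    IsTensorHom A (HH G) (tens A (HH G)) (HH G) (dl deg) id (dli deg) := by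
  refine tensorHom_of (dli deg) ?_ hA (fun b hb => hb) (pull_one _ _)
    (fun S _ T _ => pull_mul_surj _ _ (jdi_surj deg) S T) (fun T => pull_star _ _ T)
  intro a _ b _
  apply op_ext
  rintro ⟨⟨i, t⟩, r⟩ ⟨⟨i', t'⟩, r'⟩
  rw [dli_entry, tn_entry, tn_entry, dl_entry]
  simp only [id]
  ring

theorem idl_hom {A : Set (Op I)} (hΔ : ∀ b ∈ HH G, dl (id : G → G) b ∈ tens (HH G) (HH G)) :
    IsTensorHom A (HH G) A (tens (HH G) (HH G)) id (dl (id : G → G)) idl := by
  refine tensorHom_of idl ?_ (fun a ha => ha) hΔ (pull_one _ _)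
    (fun S _ T _ => pull_mul_surj _ _ jid_surj S T) (fun T => pull_star _ _ T)
  intro a _ b _
  apply op_ext
  rintro ⟨i, t, r⟩ ⟨i', t', r'⟩
  rw [idl_entry, tn_entry, tn_entry, dl_entry]
  simp only [id]
  ring

theorem coassoc_entry (a : Op I) : SameAssoc (dli deg (dl deg a)) (idl (dl deg a)) := by
  intro i t r i' t' r'
  rw [coeff_eq, coeff_eq, dli_entry, idl_entry, dl_entry, dl_entry, mul_assoc, mul_assoc]
  congr 1
  by_cases h1 : (deg i)⁻¹ * t = (deg i')⁻¹ * t'
  · by_cases h2 : (deg i)⁻¹ * r = (deg i')⁻¹ * r'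
    · have h3 : t⁻¹ * r = t'⁻¹ * r' := by
        have : t⁻¹ * r = ((deg i)⁻¹ * t)⁻¹ * ((deg i)⁻¹ * r) := by group
        rw [this, h1, h2]; group
      simp [h1, h2, h3]
    · have h3 : ¬ t⁻¹ * r = t'⁻¹ * r' := by
        intro h3
        apply h2
        have : (deg i)⁻¹ * r = ((deg i)⁻¹ * t) * (t⁻¹ * r) := by group
        rw [this, h1, h3]; group
      simp [h2, h3]
  · simp [h1]

variable {W : Set (Op I)} (hW : Gen deg W)

include hW in
theorem dl_maps : ∀ a ∈ cspan W, dl deg a ∈ tens (cspan W) (HH G) := by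
  have h2 : cspan W ⊆ {a | dl deg a ∈ tens (cspan W) (HH G)} :=
    cspan_le ((tens_csub _ _).preimage (dl deg) (map_add _) (map_smul _) (dl deg).continuous)
      fun z hz => by
        obtain ⟨γ, hγ⟩ := hW.homog z hz
        rw [Set.mem_ofPred_eq, dl_homog deg hγ]
        exact tn_mem_tens (subset_cspan _ hz) (subset_cspan _ ⟨γ, rfl⟩)
  exact fun a ha => h2 ha

theorem dl_isHom {A : Set (Op I)} {B : Set (Op (I × G))} (h : ∀ a ∈ A, dl deg a ∈ B) :
    IsHom A B (dl deg) where
  maps := h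
  lin := ⟨fun a _ b _ => map_add _ a b, fun c a _ => map_smul _ c a⟩
  mul := ⟨pull_one _ _, fun a _ b _ => dl_mul deg a b, fun a _ => pull_star _ _ a⟩

include hW in
theorem dense_right : cspan {T | ∃ a ∈ cspan W, ∃ h ∈ HH G, ∃ S, IsTensor 1 h S ∧
    T = dl deg a * S} = tens (cspan W) (HH G) := by
  apply Set.Subset.antisymm
  · refine cspan_le (tens_csub _ _) ?_
    rintro T ⟨a, ha, h, hh, S, hS, rfl⟩
    rw [isTensor_iff] at hS
    subst hS
    have h1 : ∀ z ∈ W, HH G ⊆ {h | dl deg z * tn 1 h ∈ tens (cspan W) (HH G)} := fun z hz =>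
      cspan_le ((tens_csub _ _).preimage (fun h => dl deg z * tn 1 h)
        (fun b b' => by rw [tn_add_right, mul_add])
        (fun c b => by rw [tn_smul_right, mul_smul_comm])
        (continuous_const.mul (tn_continuous_right 1))) fun _ hg => by
          obtain ⟨g, rfl⟩ := hg
          obtain ⟨γ, hγ⟩ := hW.homog z hz
          rw [Set.mem_ofPred_eq, dl_homog deg hγ, tn_mul, mul_one, lam_mul]
          exact tn_mem_tens (subset_cspan _ hz) (subset_cspan _ ⟨_, rfl⟩)
    have h2 : cspan W ⊆ {a | dl deg a * tn 1 h ∈ tens (cspan W) (HH G)} :=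
      cspan_le ((tens_csub _ _).preimage (fun a => dl deg a * tn 1 h)
        (fun a a' => by rw [map_add, add_mul])
        (fun c a => by rw [map_smul, smul_mul_assoc])
        ((dl deg).continuous.mul continuous_const)) fun z hz => h1 z hz hh
    exact h2 ha
  · refine tens_cspan_le (cspan_csub _) ?_
    rintro z hz _ ⟨g, rfl⟩
    obtain ⟨γ, hγ⟩ := hW.homog z hz
    refine subset_cspan _ ⟨z, subset_cspan _ hz, lam (γ⁻¹ * g), subset_cspan _ ⟨_, rfl⟩,
      tn 1 (lam (γ⁻¹ * g)), (isTensor_iff _ _ _).2 rfl, ?_⟩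
    rw [dl_homog deg hγ, tn_mul, mul_one, lam_mul, mul_inv_cancel_left]

include hW in
theorem dense_free : cspan {T | ∃ a ∈ cspan W, ∃ b ∈ cspan W, ∃ S, IsTensor a 1 S ∧
    T = S * dl deg b} = tens (cspan W) (HH G) := by
  have hcalg := calg_of_gen hW.one hW.mul hW.adj
  apply Set.Subset.antisymm
  · refine cspan_le (tens_csub _ _) ?_
    rintro T ⟨a, ha, b, hb, S, hS, rfl⟩
    rw [isTensor_iff] at hS
    subst hS
    have h2 : cspan W ⊆ {b | tn a 1 * dl deg b ∈ tens (cspan W) (HH G)} :=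
      cspan_le ((tens_csub _ _).preimage (fun b => tn a 1 * dl deg b)
        (fun b b' => by rw [map_add, mul_add])
        (fun c b => by rw [map_smul, mul_smul_comm])
        (continuous_const.mul (dl deg).continuous)) fun z hz => by
          obtain ⟨γ, hγ⟩ := hW.homog z hz
          rw [Set.mem_ofPred_eq, dl_homog deg hγ, tn_mul, one_mul]
          exact tn_mem_tens (hcalg.mul a ha z (subset_cspan _ hz)) (subset_cspan _ ⟨_, rfl⟩)
    exact h2 hb
  · refine tens_cspan_le (cspan_csub _) ?_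
    rintro z hz _ ⟨g, rfl⟩
    obtain ⟨z', hz', hg⟩ := hW.full g
    refine subset_cspan _ ⟨z * star z', subset_cspan _ (hW.mul z hz _ (hW.adj z' hz')), z',
      subset_cspan _ hz', tn (z * star z') 1, (isTensor_iff _ _ _).2 rfl, ?_⟩
    rw [dl_homog deg hg, tn_mul, mul_assoc, hW.uni z' hz', mul_one, one_mul]

end Coaction

section Final

variable {G : Type} [Group G] [DecidableEq G]

theorem HH_calg : IsCAlg (HH G) := calg_of_gen lam_gen.one lam_gen.mul lam_gen.adj

theorem Delta_maps : ∀ b ∈ HH G, dl (id : G → G) b ∈ tens (HH G) (HH G) :=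
  dl_maps (id : G → G) lam_gen

theorem dense_left' : cspan {T | ∃ h ∈ HH G, ∃ k ∈ HH G, ∃ S, IsTensor k 1 S ∧
    T = dl (id : G → G) h * S} = tens (HH G) (HH G) := by
  apply Set.Subset.antisymm
  · refine cspan_le (tens_csub _ _) ?_
    rintro T ⟨a, ha, h, hh, S, hS, rfl⟩
    rw [isTensor_iff] at hS
    subst hS
    have h1 : ∀ g : G, HH G ⊆ {k | dl (id : G → G) (lam g) * tn k 1 ∈ tens (HH G) (HH G)} :=
      fun g => cspan_le ((tens_csub _ _).preimage (fun k => dl (id : G → G) (lam g) * tn k 1)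
        (fun b b' => by rw [tn_add_left, mul_add])
        (fun c b => by rw [tn_smul_left, mul_smul_comm])
        (continuous_const.mul (tn_continuous_left 1))) fun _ hg => by
          obtain ⟨k, rfl⟩ := hg
          rw [Set.mem_ofPred_eq, dl_homog _ (lam_homog g), tn_mul, mul_one, lam_mul]
          exact tn_mem_tens (subset_cspan _ ⟨_, rfl⟩) (subset_cspan _ ⟨_, rfl⟩)
    have h2 : HH G ⊆ {a | dl (id : G → G) a * tn h 1 ∈ tens (HH G) (HH G)} :=
      cspan_le ((tens_csub _ _).preimage (fun a => dl (id : G → G) a * tn h 1)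
        (fun a a' => by rw [map_add, add_mul])
        (fun c a => by rw [map_smul, smul_mul_assoc])
        ((dl (id : G → G)).continuous.mul continuous_const)) fun _ hz => by
          obtain ⟨g, rfl⟩ := hz
          exact h1 g hh
    exact h2 ha
  · refine tens_cspan_le (cspan_csub _) ?_
    rintro _ ⟨a, rfl⟩ _ ⟨b, rfl⟩
    refine subset_cspan _ ⟨lam b, subset_cspan _ ⟨b, rfl⟩, lam (b⁻¹ * a),
      subset_cspan _ ⟨_, rfl⟩, tn (lam (b⁻¹ * a)) 1, (isTensor_iff _ _ _).2 rfl, ?_⟩
    rw [dl_homog _ (lam_homog b), tn_mul, mul_one, lam_mul, mul_inv_cancel_left]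

theorem HH_cqg : IsCQG (HH G) (dl (id : G → G)) where
  calg := HH_calg
  hom := dl_isHom _ Delta_maps
  coassoc := ⟨dli (id : G → G), idl, dli_hom _ Delta_maps, idl_hom Delta_maps,
    fun a _ => coassoc_entry _ a⟩
  dense_right := dense_right (id : G → G) lam_gen
  dense_left := dense_left'

theorem freeCoaction {I : Type} [DecidableEq I] (deg : I → G) {W : Set (Op I)}
    (hW : Gen deg W) : IsFreeCoaction (cspan W) (HH G) (dl (id : G → G)) (dl deg) where
  calg := calg_of_gen hW.one hW.mul hW.adj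
  hom := dl_isHom deg (dl_maps deg hW)
  inj := fun _ _ _ _ h => dl_injective deg h
  coassoc := ⟨dli deg, idl, dli_hom deg (dl_maps deg hW), idl_hom Delta_maps,
    fun a _ => coassoc_entry deg a⟩
  dense := dense_right deg hW
  free := dense_free deg hW

end Final

end H584Bu
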