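import Pool.Agent.H584R3.Bu7

/-!
The universal algebra `A`.
-/

open scoped InnerProductSpace ComplexConjugate

set_option linter.unusedSectionVars false

noncomputable section

namespace H584Bu

open H584Roe (L2 entry LL TT inc prj)
open H584BuDefs hiding L2 Op

section Blocks

variable {J O : Type} [DecidableEq J] [DecidableEq O]

/-- Block diagonal operator. -/
def bdg (T : O → Op J) (h : ∀ z, ‖T z‖ ≤ 1) : Op (J × O) :=
  ((TT (fun _ : J => sb O) : LL J O →L[ℂ] L2 (J × O)).comp (lp.mapCLM 2 T zero_le_one h)).comp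
    ((TT (fun _ : J => sb O)).symm : L2 (J × O) →L[ℂ] LL J O)

theorem bdg_entry (T : O → Op J) (h : ∀ z, ‖T z‖ ≤ 1) (x y : J) (m n : O) :
    entry (bdg T h) (x, m) (y, n) = if m = n then entry (T m) x y else 0 := by
  unfold entry bdg
  change (TT (fun _ : J => sb O) (lp.mapCLM 2 T zero_le_one h
    ((TT (fun _ : J => sb O)).symm (lp.single 2 (y, n) (1 : ℂ)))) : J × O → ℂ) (x, m) = _
  rw [H584Roe.TT_symm_single, H584Roe.TT_coord, sb_apply, sb_apply, lp.inner_single_left]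
  simp only [map_one, RCLike.inner_apply, mul_one]
  rw [H584Roe.prj_apply]
  change ((T m) ((inc O y (lp.single 2 n (1 : ℂ)) : O → L2 J) m) : J → ℂ) x = _
  rw [H584Roe.inc_apply]
  by_cases hmn : m = n
  · subst hmn
    rw [if_pos rfl, lp.single_apply_self]
  · rw [if_neg hmn]
    have h1 : ((lp.single 2 n (1 : ℂ) : L2 O) : O → ℂ) m = 0 := lp.single_apply_ne _ _ _ hmn
    rw [h1]
    simp

theorem bdg_mul (T T' : O → Op J) (h : ∀ z, ‖T z‖ ≤ 1) (h' : ∀ z, ‖T' z‖ ≤ 1)
    (h'' : ∀ z, ‖T z * T' z‖ ≤ 1) : bdg T h * bdg T' h' = bdg (fun z => T z * T' z) h'' := by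
  ext1 f
  obtain ⟨f, rfl⟩ := (TT (fun _ : J => sb O)).surjective f
  rw [mul_apply_eq_comp]
  unfold bdg
  simp only [ContinuousLinearMap.comp_apply, ContinuousLinearEquiv.coe_coe,
    ContinuousLinearEquiv.symm_apply_apply]
  rfl

theorem bdg_star (T : O → Op J) (h : ∀ z, ‖T z‖ ≤ 1) (h' : ∀ z, ‖star (T z)‖ ≤ 1) :
    star (bdg T h) = bdg (fun z => star (T z)) h' := by
  apply op_ext
  rintro ⟨x, m⟩ ⟨y, n⟩
  rw [entry_star, bdg_entry, bdg_entry, entry_star]
  by_cases hmn : m = n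
  · subst hmn; simp
  · simp [hmn, Ne.symm hmn]

theorem bdg_one (T : O → Op J) (h : ∀ z, ‖T z‖ ≤ 1) (h1 : ∀ z, T z = 1) : bdg T h = 1 := by
  apply op_ext
  rintro ⟨x, m⟩ ⟨y, n⟩
  rw [bdg_entry, entry_one, h1, entry_one]
  by_cases hmn : m = n
  · subst hmn; simp
  · simp [hmn]

theorem norm_one_le' {J : Type} : ‖(1 : Op J)‖ ≤ 1 := norm_uni (1 : unitary (Op J))

theorem bdg_star_mul (T : O → Op J) (h : ∀ z, ‖T z‖ ≤ 1) (h' : ∀ z, ‖star (T z)‖ ≤ 1)
    (h1 : ∀ z, star (T z) * T z = 1) : star (bdg T h) * bdg T h = 1 := by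
  have h2 : ∀ z, ‖star (T z) * T z‖ ≤ 1 := fun z => by rw [h1]; exact norm_one_le'
  rw [bdg_star T h h', bdg_mul (fun z => star (T z)) T h' h h2]
  exact bdg_one _ _ h1

theorem bdg_mul_star (T : O → Op J) (h : ∀ z, ‖T z‖ ≤ 1) (h' : ∀ z, ‖star (T z)‖ ≤ 1)
    (h1 : ∀ z, T z * star (T z) = 1) : bdg T h * star (bdg T h) = 1 := by
  have h2 : ∀ z, ‖T z * star (T z)‖ ≤ 1 := fun z => by rw [h1]; exact norm_one_le'
  rw [bdg_star T h h', bdg_mul T (fun z => star (T z)) h h' h2]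
  exact bdg_one _ _ h1

/-- Block diagonal with respect to the second coordinate. -/
def BD (a : Op (J × O)) : Prop := ∀ p p' m m', m ≠ m' → entry a (p, m) (p', m') = 0

theorem BD_csub : CSub {a : Op (J × O) | BD a} where
  zero := fun p p' m m' _ => entry_zero _ _
  add := fun a ha b hb p p' m m' h => by rw [entry_add, ha p p' m m' h, hb p p' m m' h, add_zero]
  smul := fun c a ha p p' m m' h => by rw [entry_smul, ha p p' m m' h, mul_zero]
  closed := by
    have h1 : {a : Op (J × O) | BD a} =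
        ⋂ (p : J) (p' : J) (m : O) (m' : O) (_ : m ≠ m'), {a | entry a (p, m) (p', m') = 0} := by
      ext a
      simp only [Set.mem_ofPred_eq, Set.mem_iInter]
      rfl
    rw [h1]
    refine isClosed_iInter fun p => isClosed_iInter fun p' => isClosed_iInter fun m =>
      isClosed_iInter fun m' => isClosed_iInter fun _ => ?_
    have h2 : Continuous fun a : Op (J × O) => entry a (p, m) (p', m') := by
      have h3 : Continuous fun a : Op (J × O) => H584Roe.ev (p, m) (a (lp.single 2 (p', m') 1)) :=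
        (H584Roe.ev (p, m)).continuous.comp (ContinuousLinearMap.apply ℂ _ _).continuous
      exact h3
    exact isClosed_eq h2 continuous_const

theorem BD_mul {a b : Op (J × O)} (ha : BD a) (hb : BD b) : BD (a * b) := by
  intro p p' m m' h
  have h1 := hasSum_entry_mul a b (p, m) (p', m')
  have h2 : ∀ q : J × O, entry a (p, m) q * entry b q (p', m') = 0 := by
    rintro ⟨q, n⟩
    by_cases h3 : m = n
    · subst h3
      rw [hb _ _ _ _ h, mul_zero]
    · rw [ha _ _ _ _ h3, zero_mul]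
  simp_rw [h2] at h1
  exact h1.unique hasSum_zero

theorem BD_star {a : Op (J × O)} (ha : BD a) : BD (star a) := by
  intro p p' m m' h
  rw [entry_star, ha _ _ _ _ (Ne.symm h), map_zero]

theorem BD_one : BD (1 : Op (J × O)) := by
  intro p p' m m' h
  rw [entry_one, if_neg]
  intro h1
  exact h (Prod.mk.inj h1).2

theorem BD_bdg (T : O → Op J) (h : ∀ z, ‖T z‖ ≤ 1) : BD (bdg T h) := by
  intro p p' m m' hm
  rw [bdg_entry, if_neg hm]

end Blocks

section Index

variable (G : Type) [Group G] [DecidableEq G]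

/-- The index set `K` with `K × G ≃ K`. -/
def KK : Type := ℕ → G

instance : DecidableEq (KK G) := Classical.decEq _

/-- The equivalence `K × G ≃ K`. -/
def ee : KK G × G ≃ KK G where
  toFun p := fun n => match n with
    | 0 => p.2
    | n + 1 => p.1 n
  invFun f := (fun n => f (n + 1), f 0)
  left_inv p := rfl
  right_inv f := by
    funext n
    cases n <;> rfl

/-- All families of unitaries on `ℓ²(K)`. -/
def Om : Type := G → unitary (Op (KK G))

instance : DecidableEq (Om G) := Classical.decEq _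

/-- The index set of the Hilbert space on which `A` acts. -/
abbrev II : Type := (KK G × G) × Om G

variable {G}

/-- The degree. -/
def dg (i : II G) : G := i.1.2

theorem norm_tn_uni (u : unitary (Op (KK G))) (g : G) : ‖tn (u : Op (KK G)) (lam g)‖ ≤ 1 := by
  refine (norm_tn _ _).trans ?_
  have h1 := norm_uni u
  have h2 : ‖lam g‖ ≤ 1 := norm_Vc _ _
  calc _ ≤ 1 * 1 := mul_le_mul h1 h2 (norm_nonneg _) zero_le_one
    _ = 1 := one_mul _

theorem norm_star_tn_uni (u : unitary (Op (KK G))) (g : G) :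
    ‖star (tn (u : Op (KK G)) (lam g))‖ ≤ 1 := by
  rw [tn_star, lam_star]
  exact norm_tn_uni (star u) g⁻¹

theorem tn_star_mul_uni (u : unitary (Op (KK G))) (g : G) :
    star (tn (u : Op (KK G)) (lam g)) * tn (u : Op (KK G)) (lam g) = 1 := by
  rw [tn_star, tn_mul, Unitary.star_mul_self_of_mem u.2, lam_star, lam_mul, inv_mul_cancel,
    lam_one, tn_one]

theorem tn_mul_star_uni (u : unitary (Op (KK G))) (g : G) :
    tn (u : Op (KK G)) (lam g) * star (tn (u : Op (KK G)) (lam g)) = 1 := by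
  rw [tn_star, tn_mul, Unitary.mul_star_self_of_mem u.2, lam_star, lam_mul, mul_inv_cancel,
    lam_one, tn_one]

/-- The generators `x_γ`. -/
def xh (γ : G) : Op (II G) :=
  bdg (fun π : Om G => tn ((π γ : unitary (Op (KK G))) : Op (KK G)) (lam γ))
    (fun π => norm_tn_uni (π γ) γ)

theorem xh_entry (γ : G) (k k' : KK G) (g g' : G) (π π' : Om G) :
    entry (xh γ) ((k, g), π) ((k', g'), π') =
      if π = π' then entry ((π γ : unitary (Op (KK G))) : Op (KK G)) k k' *
        (if g = γ * g' then 1 else 0) else 0 := by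
  unfold xh
  rw [bdg_entry, tn_entry, lam_entry]

theorem xh_BD (γ : G) : BD (xh γ) := BD_bdg _ _

theorem xh_homog (γ : G) : Homog dg γ (xh γ) := by
  rintro ⟨⟨k, g⟩, π⟩ ⟨⟨k', g'⟩, π'⟩ hne
  rw [xh_entry] at hne
  change g = γ * g'
  by_contra h
  apply hne
  simp [h]

theorem xh_star_mul (γ : G) : star (xh γ) * xh γ = 1 :=
  bdg_star_mul _ _ (fun π => norm_star_tn_uni (π γ) γ) (fun π => tn_star_mul_uni (π γ) γ)

theorem xh_mul_star (γ : G) : xh γ * star (xh γ) = 1 :=
  bdg_mul_star _ _ (fun π => norm_star_tn_uni (π γ) γ) (fun π => tn_mul_star_uni (π γ) γ)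

/-- The generators as unitaries. -/
def xu (γ : G) : unitary (Op (II G)) := ⟨xh γ, by
  rw [Unitary.mem_iff]
  exact ⟨xh_star_mul γ, xh_mul_star γ⟩⟩

theorem xu_val (γ : G) : ((xu γ : unitary (Op (II G))) : Op (II G)) = xh γ := rfl

/-- The group generated by the `x_γ`. -/
def WG (G : Type) [Group G] [DecidableEq G] : Subgroup (unitary (Op (II G))) :=
  Subgroup.closure (Set.range xu)

/-- The words. -/
def WW (G : Type) [Group G] [DecidableEq G] : Set (Op (II G)) :=
  (fun u : unitary (Op (II G)) => (u : Op (II G))) '' (WG G : Set (unitary (Op (II G))))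

theorem WW_induction {P : Op (II G) → Prop} (hgen : ∀ γ, P (xh γ)) (hone : P 1)
    (hmul : ∀ a ∈ WW G, ∀ b ∈ WW G, P a → P b → P (a * b))
    (hstar : ∀ a ∈ WW G, P a → P (star a)) : ∀ a ∈ WW G, P a := by
  rintro _ ⟨u, hu, rfl⟩
  change P (u : Op (II G))
  have hu' : u ∈ Subgroup.closure (Set.range (xu : G → unitary (Op (II G)))) := hu
  induction hu' using Subgroup.closure_induction with
  | mem x hx =>
    obtain ⟨γ, rfl⟩ := hx
    exact hgen γ
  | one => exact hone
  | mul x y hx hy hPx hPy => exact hmul _ ⟨x, hx, rfl⟩ _ ⟨y, hy, rfl⟩ (hPx hx) (hPy hy)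
  | inv x hx hPx => exact hstar _ ⟨x, hx, rfl⟩ (hPx hx)

theorem WW_gen : Gen dg (WW G) where
  one := ⟨1, (WG G).one_mem, rfl⟩
  mul := by
    rintro _ ⟨u, hu, rfl⟩ _ ⟨v, hv, rfl⟩
    exact ⟨u * v, (WG G).mul_mem hu hv, rfl⟩
  adj := by
    rintro _ ⟨u, hu, rfl⟩
    exact ⟨u⁻¹, (WG G).inv_mem hu, rfl⟩
  uni := by
    rintro _ ⟨u, hu, rfl⟩
    exact Unitary.coe_star_mul_self u
  homog := WW_induction (fun γ => ⟨γ, xh_homog γ⟩) ⟨1, Homog.one dg⟩
    (fun a _ b _ ⟨γ, h⟩ ⟨γ', h'⟩ => ⟨γ * γ', h.mul dg h'⟩)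
    (fun a _ ⟨γ, h⟩ => ⟨γ⁻¹, h.star dg⟩)
  full := fun γ => ⟨xh γ, ⟨xu γ, Subgroup.subset_closure ⟨γ, rfl⟩, rfl⟩, xh_homog γ⟩

theorem WW_BD : ∀ a ∈ WW G, BD a := WW_induction xh_BD BD_one
  (fun _ _ _ _ ha hb => BD_mul ha hb) (fun _ _ ha => BD_star ha)

/-- The algebra `A`. -/
def AA (G : Type) [Group G] [DecidableEq G] : Set (Op (II G)) := cspan (WW G)

theorem AA_BD : ∀ a ∈ AA G, BD a := fun _ ha => cspan_le BD_csub WW_BD ha

theorem AA_calg : IsCAlg (AA G) := calg_of_gen WW_gen.one WW_gen.mul WW_gen.adj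

/-- `A` as a star subalgebra. -/
def SA (G : Type) [Group G] [DecidableEq G] : StarSubalgebra ℂ (Op (II G)) where
  carrier := AA G
  mul_mem' := fun ha hb => AA_calg.mul _ ha _ hb
  one_mem' := AA_calg.one
  add_mem' := fun ha hb => AA_calg.subspace.add _ ha _ hb
  zero_mem' := (cspan_csub (WW G)).zero
  algebraMap_mem' := fun r => by
    rw [Algebra.algebraMap_eq_smul_one]
    exact AA_calg.subspace.smul r 1 AA_calg.one
  star_mem' := fun ha => AA_calg.adj _ ha

instance SA_closed : IsClosed (SA G : Set (Op (II G))) := AA_calg.subspace.closed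

theorem xh_mem (γ : G) : xh γ ∈ SA G :=
  subset_cspan _ ⟨xu γ, Subgroup.subset_closure ⟨γ, rfl⟩, rfl⟩

/-- The generators as unitaries of `A`. -/
def xs (γ : G) : unitary (SA G) := ⟨⟨xh γ, xh_mem γ⟩, by
  rw [Unitary.mem_iff]
  exact ⟨Subtype.ext (xh_star_mul γ), Subtype.ext (xh_mul_star γ)⟩⟩

theorem xs_val (γ : G) : (((xs γ : unitary (SA G)) : SA G) : Op (II G)) = xh γ := rfl

/-- The degrees of homogeneous unitaries connected to `1`. -/
def NG (G : Type) [Group G] [DecidableEq G] : Subgroup G where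
  carrier := {γ | ∃ z : unitary (SA G), Homog dg γ ((z : SA G) : Op (II G)) ∧ Joined 1 z}
  mul_mem' := by
    rintro γ γ' ⟨z, hz, hj⟩ ⟨z', hz', hj'⟩
    refine ⟨z * z', hz.mul dg hz', ?_⟩
    have := Joined.mul hj hj'
    rwa [one_mul] at this
  one_mem' := ⟨1, Homog.one dg, Joined.refl 1⟩
  inv_mem' := by
    rintro γ ⟨z, hz, hj⟩
    refine ⟨z⁻¹, hz.star dg, ?_⟩
    have := Joined.inv hj
    rwa [inv_one] at this

instance NG_normal : (NG G).Normal where
  conj_mem := by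
    rintro γ ⟨z, hz, hj⟩ g
    refine ⟨xs g * z * (xs g)⁻¹, ((xh_homog g).mul dg hz).mul dg ((xh_homog g).star dg), ?_⟩
    have h1 := Joined.mul (Joined.mul (Joined.refl (xs g)) hj) (Joined.refl (xs g)⁻¹)
    rwa [mul_one, mul_inv_cancel] at h1

theorem comm_mem {u v k₁ k₂ : G} {U₁ V₁ U₂ V₂ Ru Ru' Rv Rv' : Set G}
    (h : PP u v k₁ k₂ U₁ V₁ U₂ V₂ Ru Ru' Rv Rv') : u * v * u⁻¹ * v⁻¹ ∈ NG G := by
  refine ⟨xs u * xs v * (xs u)⁻¹ * (xs v)⁻¹, ?_, ?_⟩
  · exact (((xh_homog u).mul dg (xh_homog v)).mul dg ((xh_homog u).star dg)).mul dg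
      ((xh_homog v).star dg)
  · apply polar_path
    rw [← cl_eq]
    have h1 := comm_cl dg (SA G) h (xs u) (xs v) (xs k₁) (xs k₂) (xh_homog u) (xh_homog v)
      (xh_homog k₁) (xh_homog k₂)
    have h2 : uu (xs u * xs v * (xs u)⁻¹ * (xs v)⁻¹) =
        uu (xs u) * uu (xs v) * (uu (xs u))⁻¹ * (uu (xs v))⁻¹ := by
      unfold uu
      simp only [map_mul, map_inv]
    rw [h2, cl_mul, cl_mul, cl_mul, cl_inv, cl_inv, h1, cl_one]
    group

end Index

end H584Bu
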