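import Pool.Agent.H584R3.Bu5
import Pool.Agent.H584R3.Bu8

/-!
The equivariant homomorphism `A → A *_δ H`.
-/

open scoped InnerProductSpace ComplexConjugate

set_option linter.unusedSectionVars false

noncomputable section

namespace H584Bu

open H584Roe (L2 entry)
open H584BuDefs hiding L2 Op

variable {G : Type} [Group G] [DecidableEq G]

/-- Index map for the block `π`. -/
def jb (π : Om G) (k : KK G) : II G × Unit := (((ee G).symm k, π), ())

theorem jb_inj (π : Om G) : Function.Injective (jb π) := by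
  intro k k' h
  simp only [jb, Prod.mk.injEq] at h
  exact (ee G).symm.injective h.1.1

/-- Compression to the block `π`, transported to `ℓ²(K)`. -/
def blk (π : Om G) : Op (II G) →L[ℂ] Op (KK G) := pull (jb π) (jb_inj π)

theorem blk_entry (π : Om G) (a : Op (II G)) (k k' : KK G) :
    entry (blk π a) k k' = entry a ((ee G).symm k, π) ((ee G).symm k', π) := by
  unfold blk
  rw [pull_entry]
  simp [jb]

theorem blk_mul (π : Om G) (a b : Op (II G)) (hb : BD b) :
    blk π (a * b) = blk π a * blk π b := by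
  refine pull_mul _ _ a b ?_
  rintro k' ⟨p, π'⟩ h
  by_cases hπ : π' = π
  · subst hπ
    refine absurd ?_ (h (ee G p))
    simp [jb]
  · exact hb _ _ _ _ hπ

/-- A unitary of `A` transported. -/
def blkU (π : Om G) (z : unitary (SA G)) : unitary (Op (KK G)) :=
  ⟨blk π ((z : SA G) : Op (II G)), by
    have hz : BD ((z : SA G) : Op (II G)) := AA_BD _ (z : SA G).2
    have hz' : BD (star ((z : SA G) : Op (II G))) := BD_star hz
    have h1 : star ((z : SA G) : Op (II G)) * ((z : SA G) : Op (II G)) = 1 :=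
      congrArg Subtype.val (Unitary.star_mul_self_of_mem z.2)
    have h2 : ((z : SA G) : Op (II G)) * star ((z : SA G) : Op (II G)) = 1 :=
      congrArg Subtype.val (Unitary.mul_star_self_of_mem z.2)
    have hs : star (blk π ((z : SA G) : Op (II G))) = blk π (star ((z : SA G) : Op (II G))) :=
      (pull_star _ _ _).symm
    rw [Unitary.mem_iff, hs, ← blk_mul _ _ _ hz, ← blk_mul _ _ _ hz', h1, h2]
    exact ⟨pull_one _ _, pull_one _ _⟩⟩

/-- The map on blocks. -/
def sg (w : G → unitary (SA G)) (π : Om G) : Om G := fun γ => blkU π (w γ)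

theorem sg_entry (w : G → unitary (SA G)) (π : Om G) (γ : G) (k k' : KK G) :
    entry ((sg w π γ : unitary (Op (KK G))) : Op (KK G)) k k' =
      entry (((w γ : unitary (SA G)) : SA G) : Op (II G)) ((ee G).symm k, π)
        ((ee G).symm k', π) := blk_entry π _ k k'

/-- Index map for `Φ_w`. -/
def js (w : G → unitary (SA G)) (p : II G × G) : II G × Om G :=
  (((ee G p.1.1, p.2), sg w p.1.2), p.1.2)

theorem js_inj (w : G → unitary (SA G)) : Function.Injective (js w) := by
  rintro ⟨⟨q, π⟩, h⟩ ⟨⟨q', π'⟩, h'⟩ H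
  simp only [js, Prod.mk.injEq] at H
  obtain ⟨⟨⟨h1, h2⟩, _⟩, h3⟩ := H
  rw [(ee G).injective h1, h2, h3]

/-- The map `Φ_w`. -/
def Ph (w : G → unitary (SA G)) : Op (II G) →L[ℂ] Op (II G × G) := pull (js w) (js_inj w)

theorem Ph_entry (w : G → unitary (SA G)) (a : Op (II G)) (q q' : KK G × G) (π π' : Om G)
    (h h' : G) : entry (Ph w a) ((q, π), h) ((q', π'), h') =
      entry a ((ee G q, h), sg w π) ((ee G q', h'), sg w π') * (if π = π' then 1 else 0) := by
  unfold Ph
  rw [pull_entry]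
  rfl

theorem Ph_mul (w : G → unitary (SA G)) (a b : Op (II G)) (hb : BD b) :
    Ph w (a * b) = Ph w a * Ph w b := by
  refine pull_mul _ _ a b ?_
  rintro ⟨⟨q', π'⟩, h'⟩ ⟨⟨k, g⟩, π''⟩ h
  by_cases hπ : π'' = sg w π'
  · subst hπ
    refine absurd ?_ (h (((ee G).symm k, π'), g))
    simp [js]
  · exact hb _ _ _ _ hπ

theorem Ph_gen (w : G → unitary (SA G)) (γ : G) :
    Ph w (xh γ) = tn (((w γ : unitary (SA G)) : SA G) : Op (II G)) (lam γ) := by
  apply op_ext
  rintro ⟨⟨q, π⟩, h⟩ ⟨⟨q', π'⟩, h'⟩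
  rw [Ph_entry, xh_entry, tn_entry, lam_entry]
  by_cases hπ : π = π'
  · subst hπ
    rw [if_pos rfl, if_pos rfl, mul_one, sg_entry, Equiv.symm_apply_apply,
      Equiv.symm_apply_apply]
  · have hz : BD (((w γ : unitary (SA G)) : SA G) : Op (II G)) := AA_BD _ (w γ : SA G).2
    rw [if_neg hπ, mul_zero, hz _ _ _ _ hπ, zero_mul]

theorem Ph_star (w : G → unitary (SA G)) (a : Op (II G)) : Ph w (star a) = star (Ph w a) :=
  pull_star _ _ a

theorem Ph_one (w : G → unitary (SA G)) : Ph w 1 = 1 := pull_one _ _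

/-- The images of words. -/
theorem Ph_word (w : G → unitary (SA G)) (Q : G → Op (II G) → Prop) (h1 : Q 1 1)
    (hmul : ∀ γ γ' a b, Q γ a → Q γ' b → Q (γ * γ') (a * b))
    (hstar : ∀ γ a, Q γ a → Q γ⁻¹ (star a))
    (hgen : ∀ γ, Q γ (((w γ : unitary (SA G)) : SA G) : Op (II G))) :
    ∀ z ∈ WW G, ∃ γ a, Q γ a ∧ Ph w z = tn a (lam γ) := by
  apply WW_induction
  · intro γ
    exact ⟨γ, _, hgen γ, Ph_gen w γ⟩
  · exact ⟨1, 1, h1, by rw [Ph_one, lam_one, tn_one]⟩
  · rintro z _ z' hz' ⟨γ, a, ha, hza⟩ ⟨γ', a', ha', hza'⟩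
    refine ⟨γ * γ', a * a', hmul _ _ _ _ ha ha', ?_⟩
    rw [Ph_mul w _ _ (WW_BD _ hz'), hza, hza', tn_mul, lam_mul]
  · rintro z _ ⟨γ, a, ha, hza⟩
    refine ⟨γ⁻¹, star a, hstar _ _ ha, ?_⟩
    rw [Ph_star, hza, tn_star, lam_star]

theorem Ph_maps (w : G → unitary (SA G)) : ∀ a ∈ AA G, Ph w a ∈ tens (AA G) (HH G) := by
  have h2 : AA G ⊆ {a | Ph w a ∈ tens (AA G) (HH G)} :=
    cspan_le ((tens_csub _ _).preimage (Ph w) (map_add _) (map_smul _) (Ph w).continuous)
      fun z hz => by
        obtain ⟨γ, a, ha, hza⟩ := Ph_word w (fun _ a => a ∈ AA G) AA_calg.one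
          (fun _ _ a b ha hb => AA_calg.mul a ha b hb) (fun _ a ha => AA_calg.adj a ha)
          (fun γ => (w γ : SA G).2) z hz
        rw [Set.mem_ofPred_eq, hza]
        exact tn_mem_tens ha (subset_cspan _ ⟨γ, rfl⟩)
  exact fun a ha => h2 ha

theorem Ph_isHom (w : G → unitary (SA G)) : IsHom (AA G) (tens (AA G) (HH G)) (Ph w) where
  maps := Ph_maps w
  lin := ⟨fun a _ b _ => map_add _ a b, fun c a _ => map_smul _ c a⟩
  mul := ⟨Ph_one w, fun a _ b hb => Ph_mul w a b (AA_BD b hb), fun a _ => Ph_star w a⟩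

/-- Index map for `Φ_w ⊗ id`. -/
def jsi (w : G → unitary (SA G)) (p : (II G × G) × G) : (II G × G) × Om G :=
  ((((ee G p.1.1.1, p.1.2), sg w p.1.1.2), p.2), p.1.1.2)

theorem jsi_inj (w : G → unitary (SA G)) : Function.Injective (jsi w) := by
  rintro ⟨⟨⟨q, π⟩, h⟩, r⟩ ⟨⟨⟨q', π'⟩, h'⟩, r'⟩ H
  simp only [jsi, Prod.mk.injEq] at H
  obtain ⟨⟨⟨⟨h1, h2⟩, _⟩, h4⟩, h3⟩ := H
  rw [(ee G).injective h1, h2, h3, h4]

/-- `Φ_w ⊗ id`. -/
def Phi2 (w : G → unitary (SA G)) : Op (II G × G) →L[ℂ] Op ((II G × G) × G) :=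
  pull (jsi w) (jsi_inj w)

theorem Phi2_entry (w : G → unitary (SA G)) (a : Op (II G × G)) (q q' : KK G × G)
    (π π' : Om G) (h h' r r' : G) : entry (Phi2 w a) (((q, π), h), r) (((q', π'), h'), r') =
      entry a (((ee G q, h), sg w π), r) (((ee G q', h'), sg w π'), r') *
        (if π = π' then 1 else 0) := by
  unfold Phi2
  rw [pull_entry]
  rfl

/-- Block diagonal operators with an additional leg. -/
def BD2 (a : Op (II G × G)) : Prop :=
  ∀ (p p' : KK G × G) (m m' : Om G) (r r' : G), m ≠ m' → entry a ((p, m), r) ((p', m'), r') = 0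

theorem BD2_csub : CSub {a : Op (II G × G) | BD2 a} where
  zero := fun p p' m m' r r' _ => entry_zero _ _
  add := fun a ha b hb p p' m m' r r' h => by
    rw [entry_add, ha p p' m m' r r' h, hb p p' m m' r r' h, add_zero]
  smul := fun c a ha p p' m m' r r' h => by rw [entry_smul, ha p p' m m' r r' h, mul_zero]
  closed := by
    have h1 : {a : Op (II G × G) | BD2 a} =
        ⋂ (p : KK G × G) (p' : KK G × G) (m : Om G) (m' : Om G) (r : G) (r' : G) (_ : m ≠ m'),
          {a | entry a ((p, m), r) ((p', m'), r') = 0} := by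
      ext a
      simp only [Set.mem_ofPred_eq, Set.mem_iInter]
      rfl
    rw [h1]
    refine isClosed_iInter fun p => isClosed_iInter fun p' => isClosed_iInter fun m =>
      isClosed_iInter fun m' => isClosed_iInter fun r => isClosed_iInter fun r' =>
      isClosed_iInter fun _ => ?_
    have h2 : Continuous fun a : Op (II G × G) => entry a ((p, m), r) ((p', m'), r') := by
      have h3 : Continuous fun a : Op (II G × G) =>
          H584Roe.ev ((p, m), r) (a (lp.single 2 ((p', m'), r') 1)) :=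
        (H584Roe.ev ((p, m), r)).continuous.comp (ContinuousLinearMap.apply ℂ _ _).continuous
      exact h3
    exact isClosed_eq h2 continuous_const

theorem tens_BD2 : ∀ a ∈ tens (AA G) (HH G), BD2 a := by
  have h : tens (AA G) (HH G) ⊆ {a : Op (II G × G) | BD2 a} := by
    refine tens_le BD2_csub ?_
    intro a ha b _ p p' m m' r r' hm
    rw [tn_entry, AA_BD a ha _ _ _ _ hm, zero_mul]
  exact fun a ha => h ha

theorem Phi2_hom (w : G → unitary (SA G)) :
    IsTensorHom (AA G) (HH G) (tens (AA G) (HH G)) (HH G) (Ph w) id (Phi2 w) := by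
  refine tensorHom_of (Phi2 w) ?_ (Ph_maps w) (fun b hb => hb) (pull_one _ _) ?_
    (fun T => pull_star _ _ T)
  · intro a _ b _
    apply op_ext
    rintro ⟨⟨⟨q, π⟩, h⟩, r⟩ ⟨⟨⟨q', π'⟩, h'⟩, r'⟩
    rw [Phi2_entry, tn_entry, tn_entry, Ph_entry]
    simp only [id]
    ring
  · intro S _ T hT
    refine pull_mul _ _ S T ?_
    rintro ⟨⟨⟨q', π'⟩, h'⟩, r'⟩ ⟨⟨⟨k, g⟩, π''⟩, r⟩ h
    by_cases hπ : π'' = sg w π'
    · subst hπ
      refine absurd ?_ (h ((((ee G).symm k, π'), g), r))
      simp [jsi]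
    · exact tens_BD2 T hT _ _ _ _ _ _ hπ

theorem Ph_compat (w : G → unitary (SA G)) :
    Compat (AA G) (AA G) (HH G) (dl (id : G → G)) (dl dg) (Ph w) (Ph w) := by
  refine ⟨Phi2 w, idl, Phi2_hom w, idl_hom Delta_maps, ?_⟩
  rintro a _ ⟨q, π⟩ h r ⟨q', π'⟩ h' r'
  rw [coeff_eq, coeff_eq, Phi2_entry, idl_entry, Ph_entry, dl_entry]
  simp only [dg]
  by_cases h1 : π = π' <;> by_cases h2 : h⁻¹ * r = h'⁻¹ * r' <;> simp [h1, h2]

/-! ### End points -/

/-- Index map for the slice. -/
def jsl (i : II G) (s : G) : (II G × G) × Unit := ((i, s), ())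

theorem jsl_inj (i : II G) : Function.Injective (jsl i) := by
  intro s s' h
  simp only [jsl, Prod.mk.injEq] at h
  exact h.1.2

/-- A slice map. -/
def sl (i : II G) : Op (II G × G) →L[ℂ] Op G := pull (jsl i) (jsl_inj i)

theorem sl_entry (i : II G) (a : Op (II G × G)) (s s' : G) :
    entry (sl i a) s s' = entry a (i, s) (i, s') := by
  unfold sl
  rw [pull_entry]
  simp [jsl]

theorem sl_tn (i : II G) (b : Op G) : sl i (tn 1 b) = b := by
  apply op_ext
  intro s s'
  rw [sl_entry, tn_entry, entry_one, if_pos rfl, one_mul]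

/-- The base index. -/
def i0 (G : Type) [Group G] [DecidableEq G] : II G := ((fun _ => 1, 1), fun _ => 1)

theorem csub_zero {X : Type} [DecidableEq X] : CSub ({0} : Set (Op X)) where
  zero := rfl
  add := fun a ha b hb => by
    rw [Set.mem_singleton_iff] at *
    rw [ha, hb, add_zero]
  smul := fun c a ha => by
    rw [Set.mem_singleton_iff] at *
    rw [ha, smul_zero]
  closed := isClosed_singleton

theorem Ph_start (w : G → unitary (SA G)) (hw : ∀ γ, w γ = 1) :
    ∀ a ∈ AA G, ∃ h ∈ HH G, IsTensor 1 h (Ph w a) := by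
  have hword : ∀ z ∈ WW G, ∃ γ, Ph w z = tn 1 (lam γ) := by
    intro z hz
    obtain ⟨γ, a, ha, hza⟩ := Ph_word w (fun _ a => a = 1) rfl
      (fun _ _ a b ha hb => by rw [ha, hb, one_mul]) (fun _ a ha => by rw [ha, star_one])
      (fun γ => by rw [hw γ]; rfl) z hz
    exact ⟨γ, by rw [hza, ha]⟩
  have h1 : AA G ⊆ {a | Ph w a - tn 1 (sl (i0 G) (Ph w a)) ∈ ({0} : Set (Op (II G × G)))} :=
    cspan_le (csub_zero.preimage (fun a => Ph w a - tn 1 (sl (i0 G) (Ph w a)))
      (fun a b => by
        rw [map_add, map_add, tn_add_right]; abel)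
      (fun c a => by
        rw [map_smul, map_smul, tn_smul_right, smul_sub])
      ((Ph w).continuous.sub ((tn_continuous_right 1).comp
        ((sl (i0 G)).continuous.comp (Ph w).continuous)))) fun z hz => by
          obtain ⟨γ, hγ⟩ := hword z hz
          rw [Set.mem_ofPred_eq, hγ, sl_tn, sub_self]
          exact rfl
  have h2 : AA G ⊆ {a | sl (i0 G) (Ph w a) ∈ HH G} :=
    cspan_le ((cspan_csub _).preimage (fun a => sl (i0 G) (Ph w a))
      (fun a b => by rw [map_add, map_add]) (fun c a => by rw [map_smul, map_smul])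
      ((sl (i0 G)).continuous.comp (Ph w).continuous)) fun z hz => by
          obtain ⟨γ, hγ⟩ := hword z hz
          rw [Set.mem_ofPred_eq, hγ, sl_tn]
          exact subset_cspan _ ⟨γ, rfl⟩
  intro a ha
  refine ⟨sl (i0 G) (Ph w a), h2 ha, ?_⟩
  rw [isTensor_iff]
  exact sub_eq_zero.1 (h1 ha)

/-- Index map for the diagonal slice. -/
def jr (i : II G) : (II G × G) × Unit := ((i, dg i), ())

theorem jr_inj : Function.Injective (jr : II G → (II G × G) × Unit) := by
  intro s s' h
  simp only [jr, Prod.mk.injEq] at h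
  exact h.1.1

/-- The diagonal slice, a left inverse of `δ`. -/
def rh (G : Type) [Group G] [DecidableEq G] : Op (II G × G) →L[ℂ] Op (II G) := pull jr jr_inj

theorem rh_entry (a : Op (II G × G)) (i i' : II G) :
    entry (rh G a) i i' = entry a (i, dg i) (i', dg i') := by
  unfold rh
  rw [pull_entry]
  simp [jr]

theorem rh_dl (a : Op (II G)) : rh G (dl dg a) = a := by
  apply op_ext
  intro i i'
  rw [rh_entry, dl_entry]
  simp

theorem Ph_end (w : G → unitary (SA G))
    (hw : ∀ γ, Homog dg γ (((w γ : unitary (SA G)) : SA G) : Op (II G))) :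
    ∀ a ∈ AA G, ∃ b ∈ AA G, Ph w a = dl dg b := by
  have hword : ∀ z ∈ WW G, ∃ b ∈ AA G, Ph w z = dl dg b := by
    intro z hz
    obtain ⟨γ, a, ⟨ha1, ha2⟩, hza⟩ := Ph_word w (fun γ a => a ∈ AA G ∧ Homog dg γ a)
      ⟨AA_calg.one, Homog.one dg⟩
      (fun _ _ a b ha hb => ⟨AA_calg.mul a ha.1 b hb.1, ha.2.mul dg hb.2⟩)
      (fun _ a ha => ⟨AA_calg.adj a ha.1, ha.2.star dg⟩)
      (fun γ => ⟨(w γ : SA G).2, hw γ⟩) z hz
    exact ⟨a, ha1, by rw [hza, dl_homog dg ha2]⟩
  have h1 : AA G ⊆ {a | Ph w a - dl dg (rh G (Ph w a)) ∈ ({0} : Set (Op (II G × G)))} :=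
    cspan_le (csub_zero.preimage (fun a => Ph w a - dl dg (rh G (Ph w a)))
      (fun a b => by
        rw [map_add, map_add, map_add]; abel)
      (fun c a => by
        rw [map_smul, map_smul, map_smul, smul_sub])
      ((Ph w).continuous.sub ((dl dg).continuous.comp
        ((rh G).continuous.comp (Ph w).continuous)))) fun z hz => by
          obtain ⟨b, _, hb⟩ := hword z hz
          rw [Set.mem_ofPred_eq, hb, rh_dl, sub_self]
          exact rfl
  have h2 : AA G ⊆ {a | rh G (Ph w a) ∈ AA G} :=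
    cspan_le ((cspan_csub _).preimage (fun a => rh G (Ph w a))
      (fun a b => by rw [map_add, map_add]) (fun c a => by rw [map_smul, map_smul])
      ((rh G).continuous.comp (Ph w).continuous)) fun z hz => by
          obtain ⟨b, hb1, hb⟩ := hword z hz
          rw [Set.mem_ofPred_eq, hb, rh_dl]
          exact hb1
  intro a ha
  exact ⟨rh G (Ph w a), h2 ha, sub_eq_zero.1 (h1 ha)⟩

/-! ### Continuity -/

theorem Ph_continuous (w : unitInterval → G → unitary (SA G))
    (hw : ∀ γ, Continuous fun t => w t γ) : ∀ a ∈ AA G, Continuous fun t => Ph (w t) a := by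
  have hword : ∀ z ∈ WW G, Continuous fun t => Ph (w t) z := by
    apply WW_induction
    · intro γ
      simp_rw [Ph_gen]
      have h1 : Continuous fun t => (((w t γ : unitary (SA G)) : SA G) : Op (II G)) :=
        continuous_subtype_val.comp (continuous_subtype_val.comp (hw γ))
      exact (tn_continuous_left (lam γ)).comp h1
    · simp_rw [Ph_one]
      exact continuous_const
    · intro z _ z' hz' h1 h2
      have h3 : (fun t => Ph (w t) (z * z')) = fun t => Ph (w t) z * Ph (w t) z' := by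
        funext t
        exact Ph_mul _ _ _ (WW_BD _ hz')
      rw [h3]
      exact h1.mul h2
    · intro z _ h1
      have h3 : (fun t => Ph (w t) (star z)) = fun t => star (Ph (w t) z) := by
        funext t
        exact Ph_star _ _
      rw [h3]
      exact continuous_star.comp h1
  have h : CSub {a : Op (II G) | Continuous fun t => Ph (w t) a} := by
    refine ⟨?_, ?_, ?_, ?_⟩
    · rw [Set.mem_ofPred_eq]
      simp_rw [map_zero]
      exact continuous_const
    · intro a ha b hb
      rw [Set.mem_ofPred_eq] at *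
      simp_rw [map_add]
      exact ha.add hb
    · intro c a ha
      rw [Set.mem_ofPred_eq] at *
      simp_rw [map_smul]
      exact ha.const_smul c
    · rw [← closure_eq_iff_isClosed]
      apply Set.Subset.antisymm _ subset_closure
      intro a ha
      rw [Set.mem_ofPred_eq]
      apply continuous_of_uniform_approx_of_continuous
      intro u hu
      obtain ⟨ε, hε, hεu⟩ := Metric.mem_uniformity_dist.1 hu
      obtain ⟨b, hb, hab⟩ := Metric.mem_closure_iff.1 ha ε hε
      refine ⟨fun t => Ph (w t) b, hb, fun t => hεu ?_⟩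
      rw [dist_eq_norm, ← map_sub]
      refine lt_of_le_of_lt (norm_pull _ _ _) ?_
      rwa [← dist_eq_norm]
  exact fun a ha => cspan_le h hword ha

/-! ### The final construction -/

theorem main_exists (hN : NG G = ⊤) :
    ∃ Φ : Op (II G) → unitInterval → Op (II G × G),
      IsEquivJoinHom (AA G) (HH G) (dl (id : G → G)) (dl dg) Φ := by
  have h1 : ∀ γ : G, ∃ z : unitary (SA G), Homog dg γ ((z : SA G) : Op (II G)) ∧ Joined 1 z := by
    intro γ
    have : γ ∈ NG G := by rw [hN]; trivial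
    exact this
  choose z hz hj using h1
  let P : ∀ γ, Path (1 : unitary (SA G)) (z γ) := fun γ => (hj γ).some
  let w : unitInterval → G → unitary (SA G) := fun t γ => P γ t
  refine ⟨fun a t => Ph (w t) a, ?_, ?_, ?_⟩
  · intro a ha
    refine ⟨?_, ?_, ?_, ?_⟩
    · exact Ph_continuous w (fun γ => (P γ).continuous) a ha
    · exact fun t => Ph_maps (w t) a ha
    · exact Ph_start (w 0) (fun γ => (P γ).source) a ha
    · obtain ⟨b, hb, hab⟩ := Ph_end (w 1) (fun γ => by
        change Homog dg γ (((P γ 1 : unitary (SA G)) : SA G) : Op (II G))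
        rw [(P γ).target]
        exact hz γ) a ha
      exact ⟨b, hb, hab⟩
  · exact fun t => Ph_isHom (w t)
  · exact fun t => Ph_compat (w t)

theorem NG_top : NG G2 = ⊤ :=
  normal_gen (NG G2) _ (comm_mem pingpong) comm_ec

theorem nontriv : IsNontriv (HH G2) := by
  refine ⟨lam gu, subset_cspan _ ⟨gu, rfl⟩, fun c h => ?_⟩
  have h1 : gu ≠ 1 := by
    intro h2
    have h3 : eb gu = eb 1 := by rw [h2]
    have h4 : eb (1 : G2) = 0 := by simp [eb]
    rw [h4] at h3
    simp only [gu, eu, mk_b] at h3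
    norm_num at h3
  have h2 : entry (lam gu) gu 1 = entry (c • (1 : Op G2)) gu 1 := by rw [h]
  rw [lam_entry, entry_smul, entry_one, if_neg h1, mul_one, if_pos rfl, mul_zero] at h2
  exact one_ne_zero h2

end H584Bu
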