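import Mathlib

/-! Core algebra for the dilation obstruction (MP_0a86e9_an). -/

namespace Pool.Agent.H584R3.DilCore

open Matrix

abbrev M6 := Matrix (Fin 6) (Fin 6) ℂ

/-- matrix unit -/
noncomputable def e (a b : Fin 6) : M6 := Matrix.single a b 1

noncomputable def M1 : M6 := e 1 0 + e 4 1 + e 4 2
noncomputable def M2 : M6 := e 2 0 + e 3 1 - e 3 2
noncomputable def P : M6 := e 1 0 + e 3 1 + e 4 2
noncomputable def Q : M6 := e 2 0 + e 4 1 + e 3 2
/-- projection on the first five coordinates -/
noncomputable def q : M6 := e 0 0 + e 1 1 + e 2 2 + e 3 3 + e 4 4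
/-- projection on the last coordinate -/
noncomputable def r : M6 := e 5 5

lemma e_mul (a b c d : Fin 6) : e a b * e c d = if b = c then e a d else 0 := by
  unfold e
  split_ifs with h
  · subst h; simp
  · simp [Matrix.single_mul_single_of_ne, h]

lemma star_e (a b : Fin 6) : star (e a b) = e b a := by
  simp [e, star_eq_conjTranspose]

lemma q_add_r : q + r = 1 := by
  ext i j
  fin_cases i <;> fin_cases j <;> simp [q, r, e, Matrix.single]

variable {R : Type*} [NonUnitalRing R] [StarRing R] 

/-- Kraus-kernel lemma -/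
lemma kraus_kernel {ι κ : Type*} [Fintype ι] [Fintype κ]
    (hproper : ∀ x : R, star x * x = 0 → x = 0)
    (j : M6 →ₙ+* R) (hj : ∀ a, j (star a) = star (j a))
    (θ : R →ₙ+* R) (hθ : ∀ a, θ (star a) = star (θ a))
    (K : ι → M6)
    (hdil : ∀ A B C : M6, j A * θ (j B) * j C = j (A * (∑ k, star (K k) * B * K k) * C))
    (B C : κ → M6) (h : ∀ k, ∑ t, B t * K k * C t = 0) :
    ∑ t, θ (j (B t)) * j (C t) = 0 := by
  apply hproper
  have h1 : star (∑ t, θ (j (B t)) * j (C t)) * (∑ t, θ (j (B t)) * j (C t))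
      = ∑ t, ∑ u, j (star (C t)) * θ (j (star (B t) * B u)) * j (C u) := by
    rw [star_sum, Finset.sum_mul_sum]
    refine Finset.sum_congr rfl fun t _ => Finset.sum_congr rfl fun u _ => ?_
    rw [star_mul, ← hθ, ← hj, ← hj, map_mul, map_mul]
    noncomm_ring
  rw [h1]
  simp_rw [hdil]
  simp_rw [← map_sum]
  have h2 : ∑ t, ∑ u, star (C t) * (∑ k, star (K k) * (star (B t) * B u) * K k) * C u
      = ∑ k, star (∑ t, B t * K k * C t) * (∑ u, B u * K k * C u) := by
    have : ∀ k, star (∑ t, B t * K k * C t) * (∑ u, B u * K k * C u)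
        = ∑ t, ∑ u, star (C t) * (star (K k) * (star (B t) * B u) * K k) * C u := by
      intro k
      rw [star_sum, Finset.sum_mul_sum]
      refine Finset.sum_congr rfl fun t _ => Finset.sum_congr rfl fun u _ => ?_
      rw [star_mul, star_mul]
      noncomm_ring
    simp_rw [this, Finset.mul_sum, Finset.sum_mul]
    rw [Finset.sum_comm (s := Finset.univ (α := ι))]
    refine Finset.sum_congr rfl fun t _ => ?_
    rw [Finset.sum_comm (s := Finset.univ (α := ι))]
  rw [h2]
  simp [h]

end Pool.Agent.H584R3.DilCore
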