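import Pool.Agent.H584R3.DilCore

set_option linter.unusedSimpArgs false

namespace Pool.Agent.H584R3.DilCore

open Matrix

/-- `1/√2` -/
noncomputable def c : ℂ := ((Real.sqrt 2)⁻¹ : ℝ)

lemma c_mul : c * c = 1/2 := by
  unfold c
  rw [← Complex.ofReal_mul]
  have : (Real.sqrt 2)⁻¹ * (Real.sqrt 2)⁻¹ = 1/2 := by
    rw [← mul_inv]; simp
  rw [this]; norm_num

lemma star_c : star c = c := by
  simp [c]

/-- The Kraus operators. -/
noncomputable def K : Fin 3 → Fin 5 → M6 :=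
  ![![c • M1, c • M2, e 5 3, e 5 4, e 5 5],
    ![P, 0, e 5 3, e 5 4, e 5 5],
    ![Q, 0, e 5 3, e 5 4, e 5 5]]

/-- The three CP maps on matrices. -/
noncomputable def Tm (i : Fin 3) (a : M6) : M6 := ∑ k, star (K i k) * a * K i k

lemma Tm0 (a : M6) : Tm 0 a = (1/2 : ℂ) • (star M1 * a * M1) + (1/2 : ℂ) • (star M2 * a * M2) +
    (e 3 5 * a * e 5 3 + e 4 5 * a * e 5 4 + e 5 5 * a * e 5 5) := by
  simp only [Tm, K, Fin.sum_univ_five]
  simp only [Fin.zero_eta, cons_val_zero, cons_val_one, cons_val, star_smul, star_c,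
    smul_mul_assoc, mul_smul_comm, smul_smul, c_mul, star_e]
  abel

lemma Tm1 (a : M6) : Tm 1 a = star P * a * P +
    (e 3 5 * a * e 5 3 + e 4 5 * a * e 5 4 + e 5 5 * a * e 5 5) := by
  simp only [Tm, K, Fin.sum_univ_five]
  simp only [Fin.mk_one, cons_val_zero, cons_val_one, cons_val, star_e, star_zero, zero_mul, add_zero]
  abel

lemma Tm2 (a : M6) : Tm 2 a = star Q * a * Q +
    (e 3 5 * a * e 5 3 + e 4 5 * a * e 5 4 + e 5 5 * a * e 5 5) := by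
  simp only [Tm, K, Fin.sum_univ_five]
  simp only [Fin.reduceFinMk, cons_val_zero, cons_val_one, cons_val, star_e, star_zero, zero_mul, add_zero]
  abel

lemma e_mul_mul_e (a : M6) (i j k l : Fin 6) : e i j * a * e k l = Matrix.single i l (a j k) := by
  simp [e, Matrix.single_mul_mul_single]

/-- entries -/
lemma Tm0_apply (a : M6) : Tm 0 a = Matrix.of
    ![![(1/2)*a 1 1 + (1/2)*a 2 2, (1/2)*a 1 4 + (1/2) * a 2 3, (1/2)*a 1 4 - (1/2)*a 2 3, 0, 0, 0],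
      ![(1/2)*a 4 1 + (1/2)*a 3 2, (1/2)*a 4 4 + (1/2)*a 3 3, (1/2)*a 4 4 - (1/2)*a 3 3, 0, 0, 0],
      ![(1/2)*a 4 1 - (1/2)*a 3 2, (1/2)*a 4 4 - (1/2)*a 3 3, (1/2)*a 4 4 + (1/2)*a 3 3, 0, 0, 0],
      ![0, 0, 0, a 5 5, 0, 0], ![0, 0, 0, 0, a 5 5, 0], ![0, 0, 0, 0, 0, a 5 5]] := by
  rw [Tm0]
  simp only [M1, M2, star_add, star_sub, star_e, mul_add, add_mul, mul_sub, sub_mul, e_mul_mul_e]
  ext i j
  fin_cases i <;> fin_cases j <;> simp [Matrix.single] <;> ring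

lemma Tm1_apply (a : M6) : Tm 1 a = Matrix.of
    ![![a 1 1, a 1 3, a 1 4, 0, 0, 0],
      ![a 3 1, a 3 3, a 3 4, 0, 0, 0],
      ![a 4 1, a 4 3, a 4 4, 0, 0, 0],
      ![0, 0, 0, a 5 5, 0, 0], ![0, 0, 0, 0, a 5 5, 0], ![0, 0, 0, 0, 0, a 5 5]] := by
  rw [Tm1]
  simp only [P, star_add, star_sub, star_e, mul_add, add_mul, mul_sub, sub_mul, e_mul_mul_e]
  ext i j
  fin_cases i <;> fin_cases j <;> simp [Matrix.single] 

lemma Tm2_apply (a : M6) : Tm 2 a = Matrix.of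
    ![![a 2 2, a 2 4, a 2 3, 0, 0, 0],
      ![a 4 2, a 4 4, a 4 3, 0, 0, 0],
      ![a 3 2, a 3 4, a 3 3, 0, 0, 0],
      ![0, 0, 0, a 5 5, 0, 0], ![0, 0, 0, 0, a 5 5, 0], ![0, 0, 0, 0, 0, a 5 5]] := by
  rw [Tm2]
  simp only [Q, star_add, star_sub, star_e, mul_add, add_mul, mul_sub, sub_mul, e_mul_mul_e]
  ext i j
  fin_cases i <;> fin_cases j <;> simp [Matrix.single] 

lemma Tm_one (i : Fin 3) : Tm i 1 = 1 := by
  fin_cases i
  · change Tm 0 1 = 1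
    rw [Tm0_apply]
    ext i j
    fin_cases i <;> fin_cases j <;> simp [Matrix.one_apply] <;> norm_num
  · change Tm 1 1 = 1
    rw [Tm1_apply]
    ext i j
    fin_cases i <;> fin_cases j <;> simp [Matrix.one_apply]
  · change Tm 2 1 = 1
    rw [Tm2_apply]
    ext i j
    fin_cases i <;> fin_cases j <;> simp [Matrix.one_apply]

lemma Tm01 (a : M6) : Tm 0 (Tm 1 a) = Tm 1 (Tm 0 a) := by
  rw [Tm0_apply, Tm1_apply, Tm1_apply, Tm0_apply]
  ext i j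
  fin_cases i <;> fin_cases j <;> simp <;> ring

lemma Tm02 (a : M6) : Tm 0 (Tm 2 a) = Tm 2 (Tm 0 a) := by
  rw [Tm0_apply, Tm2_apply, Tm2_apply, Tm0_apply]
  ext i j
  fin_cases i <;> fin_cases j <;> simp <;> ring

lemma Tm12 (a : M6) : Tm 1 (Tm 2 a) = Tm 2 (Tm 1 a) := by
  rw [Tm1_apply, Tm2_apply, Tm2_apply, Tm1_apply]
  ext i j
  fin_cases i <;> fin_cases j <;> simp 

lemma Tm_comm (i j : Fin 3) (a : M6) : Tm i (Tm j a) = Tm j (Tm i a) := by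
  fin_cases i <;> fin_cases j
  · rfl
  · exact Tm01 a
  · exact Tm02 a
  · exact (Tm01 a).symm
  · rfl
  · exact Tm12 a
  · exact (Tm02 a).symm
  · exact (Tm12 a).symm
  · rfl

end Pool.Agent.H584R3.DilCore
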