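import Pool.Agent.H584R3.DilCore2

set_option linter.unusedSimpArgs false

namespace Pool.Agent.H584R3.DilCore

open Matrix

variable {R : Type*} [NonUnitalRing R] [StarRing R]

/-- the canonical intertwiners -/
noncomputable def X (j : M6 →ₙ+* R) (θ : R →ₙ+* R) (r s : Fin 6) : R :=
  ∑ m : Fin 5, θ (j (e m.castSucc r)) * j (e s m.castSucc)

lemma q_eq : q = ∑ m : Fin 5, e m.castSucc m.castSucc := by
  simp [q, Fin.sum_univ_five]

lemma X_intertw_e (j : M6 →ₙ+* R) (θ : R →ₙ+* R) (r s : Fin 6) (u v : Fin 5) :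
    θ (j (e u.castSucc v.castSucc)) * X j θ r s = X j θ r s * j (e u.castSucc v.castSucc) := by
  unfold X
  rw [Finset.mul_sum, Finset.sum_mul]
  rw [Finset.sum_eq_single v, Finset.sum_eq_single u]
  · rw [← mul_assoc, ← map_mul, ← map_mul, e_mul, if_pos rfl, mul_assoc, ← map_mul, e_mul, if_pos rfl]
  · intro m _ hm
    rw [mul_assoc, ← map_mul, e_mul, if_neg, map_zero, mul_zero]
    simpa using hm
  · simp
  · intro m _ hm
    rw [← mul_assoc, ← map_mul, ← map_mul, e_mul, if_neg, map_zero, map_zero, zero_mul]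
    simpa using fun h => hm h.symm
  · simp

lemma X_intertw {a : M6} (ha : a ∈ AddSubgroup.closure {x | ∃ u v : Fin 5, x = e u.castSucc v.castSucc})
    (j : M6 →ₙ+* R) (θ : R →ₙ+* R) (r s : Fin 6) :
    θ (j a) * X j θ r s = X j θ r s * j a := by
  induction ha using AddSubgroup.closure_induction with
  | mem x hx => obtain ⟨u, v, rfl⟩ := hx; exact X_intertw_e j θ r s u v
  | zero => simp
  | add x y _ _ hx hy => rw [map_add, map_add, add_mul, hx, hy, mul_add]
  | neg x _ hx => rw [map_neg, map_neg, neg_mul, hx, mul_neg]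

lemma mem_cl (u v : Fin 5) : e u.castSucc v.castSucc ∈
    AddSubgroup.closure {x | ∃ u v : Fin 5, x = e u.castSucc v.castSucc} :=
  AddSubgroup.subset_closure ⟨u, v, rfl⟩

lemma M1_mem : M1 ∈ AddSubgroup.closure {x | ∃ u v : Fin 5, x = e u.castSucc v.castSucc} := by
  unfold M1
  exact add_mem (add_mem (mem_cl 1 0) (mem_cl 4 1)) (mem_cl 4 2)

lemma M2_mem : M2 ∈ AddSubgroup.closure {x | ∃ u v : Fin 5, x = e u.castSucc v.castSucc} := by
  unfold M2
  exact sub_mem (add_mem (mem_cl 2 0) (mem_cl 3 1)) (mem_cl 3 2)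

lemma P_mem : P ∈ AddSubgroup.closure {x | ∃ u v : Fin 5, x = e u.castSucc v.castSucc} := by
  unfold P
  exact add_mem (add_mem (mem_cl 1 0) (mem_cl 3 1)) (mem_cl 4 2)

lemma Q_mem : Q ∈ AddSubgroup.closure {x | ∃ u v : Fin 5, x = e u.castSucc v.castSucc} := by
  unfold Q
  exact add_mem (add_mem (mem_cl 2 0) (mem_cl 4 1)) (mem_cl 3 2)

lemma q_mem : q ∈ AddSubgroup.closure {x | ∃ u v : Fin 5, x = e u.castSucc v.castSucc} := by
  rw [q_eq]
  exact sum_mem fun m _ => mem_cl m m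

lemma e_mul_q (s : Fin 6) (m : Fin 5) : e s m.castSucc * q = e s m.castSucc := by
  rw [q_eq, Finset.mul_sum, Finset.sum_eq_single m]
  · rw [e_mul, if_pos rfl]
  · intro b _ hb
    rw [e_mul, if_neg]
    simpa using fun h => hb h.symm
  · simp

lemma X_mul_q (j : M6 →ₙ+* R) (θ : R →ₙ+* R) (r s : Fin 6) : X j θ r s * j q = X j θ r s := by
  unfold X
  rw [Finset.sum_mul]
  refine Finset.sum_congr rfl fun m _ => ?_
  rw [mul_assoc, ← map_mul, e_mul_q]

lemma q_mul_X (j : M6 →ₙ+* R) (θ : R →ₙ+* R) (r s : Fin 6) : θ (j q) * X j θ r s = X j θ r s := by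
  rw [X_intertw q_mem, X_mul_q]

/-- `X * j a` in sum form. -/
lemma X_mul (j : M6 →ₙ+* R) (θ : R →ₙ+* R) (r s : Fin 6) (a : M6) :
    X j θ r s * j a = ∑ m : Fin 5, θ (j (e m.castSucc r)) * j (e s m.castSucc * a) := by
  unfold X
  rw [Finset.sum_mul]
  refine Finset.sum_congr rfl fun m _ => ?_
  rw [mul_assoc, ← map_mul]

/-- inner products of canonical intertwiners -/
lemma star_X_mul_X (j : M6 →ₙ+* R) (hj : ∀ a, j (star a) = star (j a))
    (θ : R →ₙ+* R) (hθ : ∀ a, θ (star a) = star (θ a)) (T : M6 → M6)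
    (hdil : ∀ A B C : M6, j A * θ (j B) * j C = j (A * T B * C)) (r s : Fin 6) :
    star (X j θ r s) * X j θ r s = j (∑ m : Fin 5, e m.castSucc s * T (e r r) * e s m.castSucc) := by
  rw [X, star_sum, Finset.sum_mul_sum, map_sum]
  refine Finset.sum_congr rfl fun m _ => ?_
  rw [Finset.sum_eq_single m]
  · rw [star_mul, ← hθ, ← hj, ← hj, star_e, star_e, mul_assoc, ← mul_assoc (θ _) (θ _), ← map_mul,
      ← map_mul, e_mul, if_pos rfl, ← mul_assoc, hdil]
  · intro n _ hn
    rw [star_mul, ← hθ, ← hj, ← hj, star_e, star_e, mul_assoc, ← mul_assoc (θ _) (θ _), ← map_mul,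
      ← map_mul, e_mul, if_neg, map_zero, map_zero, zero_mul, mul_zero]
    simpa using fun h => hn h.symm
  · simp

end Pool.Agent.H584R3.DilCore
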