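import Pool.Agent.H584R3.DilCore3

set_option linter.unusedSimpArgs false
set_option linter.unusedSectionVars false

namespace Pool.Agent.H584R3.DilCore

open Matrix

variable {R : Type*} [NonUnitalRing R] [StarRing R]

lemma sum_e_mul_e (a : M6) (r s : Fin 6) :
    ∑ m : Fin 5, e m.castSucc r * a * e s m.castSucc = a r s • q := by
  rw [q_eq, Finset.smul_sum]
  refine Finset.sum_congr rfl fun m _ => ?_
  rw [e_mul_mul_e]
  simp [e]

/-- decomposition of `θ(q) q` along the canonical intertwiners -/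
lemma decomp {ι : Type*} [Fintype ι]
    (hproper : ∀ x : R, star x * x = 0 → x = 0)
    (j : M6 →ₙ+* R) (hj : ∀ a, j (star a) = star (j a))
    (θ : R →ₙ+* R) (hθ : ∀ a, θ (star a) = star (θ a))
    (L : ι → M6)
    (hdil : ∀ A B C : M6, j A * θ (j B) * j C = j (A * (∑ k, star (L k) * B * L k) * C))
    (r1 s1 r2 s2 : Fin 6) (N1 N2 : M6)
    (h : ∀ k, q * L k * q = (L k r1 s1) • (q * N1) + (L k r2 s2) • (q * N2)) :
    θ (j q) * j q = X j θ r1 s1 * j N1 + X j θ r2 s2 * j N2 := by
  have := kraus_kernel hproper j hj θ hθ L hdil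
    (κ := Unit ⊕ (Fin 5 ⊕ Fin 5))
    (Sum.elim (fun _ => q) (Sum.elim (fun m => - e m.castSucc r1) (fun m => - e m.castSucc r2)))
    (Sum.elim (fun _ => q) (Sum.elim (fun m => e s1 m.castSucc * N1) (fun m => e s2 m.castSucc * N2)))
    (by
      intro k
      rw [Fintype.sum_sum_type, Fintype.sum_sum_type]
      simp only [Finset.univ_unique, Sum.elim_inl, Finset.sum_const, Finset.card_singleton,
        one_smul, Sum.elim_inr, neg_mul, Finset.sum_neg_distrib]
      have h1 : ∑ m : Fin 5, e m.castSucc r1 * L k * (e s1 m.castSucc * N1) = (L k r1 s1) • (q * N1) := by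
        rw [← smul_mul_assoc, ← sum_e_mul_e, Finset.sum_mul]
        refine Finset.sum_congr rfl fun m _ => ?_
        rw [mul_assoc, mul_assoc, mul_assoc]
      have h2 : ∑ m : Fin 5, e m.castSucc r2 * L k * (e s2 m.castSucc * N2) = (L k r2 s2) • (q * N2) := by
        rw [← smul_mul_assoc, ← sum_e_mul_e, Finset.sum_mul]
        refine Finset.sum_congr rfl fun m _ => ?_
        rw [mul_assoc, mul_assoc, mul_assoc]
      rw [h1, h2, h k]
      abel)
  rw [Fintype.sum_sum_type, Fintype.sum_sum_type] at this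
  simp only [Finset.univ_unique, Sum.elim_inl, Finset.sum_const, Finset.card_singleton,
        one_smul, Sum.elim_inr, neg_mul, Finset.sum_neg_distrib, map_neg] at this
  rw [X_mul, X_mul]
  rw [← sub_eq_zero]
  rw [← this]
  abel

lemma theta_q_r {ι : Type*} [Fintype ι]
    (hproper : ∀ x : R, star x * x = 0 → x = 0)
    (j : M6 →ₙ+* R) (hj : ∀ a, j (star a) = star (j a))
    (θ : R →ₙ+* R) (hθ : ∀ a, θ (star a) = star (θ a))
    (L : ι → M6)
    (hdil : ∀ A B C : M6, j A * θ (j B) * j C = j (A * (∑ k, star (L k) * B * L k) * C))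
    (h : ∀ k, q * L k * r = 0) :
    θ (j q) * j r = 0 := by
  have := kraus_kernel hproper j hj θ hθ L hdil (κ := Unit) (fun _ => q) (fun _ => r)
    (by intro k; simpa using h k)
  simpa using this

/-- cancelling a rank one coefficient -/
lemma cancel (j : M6 →ₙ+* R) (Θ : R →ₙ+* R) (α β : R)
    (hα : ∀ u v : Fin 5, Θ (j (e u.castSucc v.castSucc)) * α = α * j (e u.castSucc v.castSucc))
    (hβ : ∀ u v : Fin 5, Θ (j (e u.castSucc v.castSucc)) * β = β * j (e u.castSucc v.castSucc))
    (hαq : α * j q = α) (A B : M6) (h : α * j A + β * j B = 0) (u v : Fin 5)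
    (hA : A u.castSucc v.castSucc = 1) (hB : B u.castSucc v.castSucc = 0) : α = 0 := by
  have h1 : ∀ m : Fin 5, α * j (e m.castSucc u.castSucc * A * e v.castSucc m.castSucc)
      + β * j (e m.castSucc u.castSucc * B * e v.castSucc m.castSucc) = 0 := by
    intro m
    have : Θ (j (e m.castSucc u.castSucc)) * (α * j A + β * j B) * j (e v.castSucc m.castSucc) = 0 := by
      rw [h]; simp
    rw [← this]
    rw [mul_add, ← mul_assoc, ← mul_assoc, hα, hβ, add_mul]
    simp only [map_mul]
    noncomm_ring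
  have h2 : ∑ m : Fin 5, (α * j (e m.castSucc u.castSucc * A * e v.castSucc m.castSucc)
      + β * j (e m.castSucc u.castSucc * B * e v.castSucc m.castSucc)) = 0 :=
    Finset.sum_eq_zero fun m _ => h1 m
  rw [Finset.sum_add_distrib, ← Finset.mul_sum, ← Finset.mul_sum, ← map_sum, ← map_sum,
    sum_e_mul_e, sum_e_mul_e, hA, hB] at h2
  simpa [hαq] using h2

end Pool.Agent.H584R3.DilCore
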