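import Pool.Agent.H584R3.DilCore4

set_option linter.unusedSimpArgs false
set_option linter.unusedSectionVars false

namespace Pool.Agent.H584R3.DilCore

open Matrix

variable {R : Type*} [NonUnitalRing R] [StarRing R]

lemma q_mul_q : q * q = q := by
  rw [q_eq, Finset.sum_mul_sum]
  refine Finset.sum_congr rfl fun m _ => ?_
  rw [Finset.sum_eq_single m]
  · rw [e_mul, if_pos rfl]
  · intro b _ hb; rw [e_mul, if_neg]; simpa using fun h => hb h.symm
  · simp

lemma qM1 : q * M1 = M1 := by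
  simp only [q, M1, add_mul, mul_add, e_mul]; simp
lemma qM2 : q * M2 = M2 := by
  simp only [q, M2, add_mul, mul_add, mul_sub, e_mul]; simp
lemma qP : q * P = P := by
  simp only [q, P, add_mul, mul_add, e_mul]; simp
lemma qQ : q * Q = Q := by
  simp only [q, Q, add_mul, mul_add, e_mul]; simp
lemma M1q : M1 * q = M1 := by
  simp only [q, M1, add_mul, mul_add, e_mul]; simp
lemma M2q : M2 * q = M2 := by
  simp only [q, M2, add_mul, mul_add, sub_mul, e_mul]; simp [sub_eq_add_neg]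
lemma P_mul_q : P * q = P := by
  simp only [q, P, add_mul, mul_add, e_mul]; simp
lemma Q_mul_q : Q * q = Q := by
  simp only [q, Q, add_mul, mul_add, e_mul]; simp
lemma M1r : M1 * r = 0 := by
  simp only [r, M1, add_mul, mul_add, e_mul]; simp
lemma M2r : M2 * r = 0 := by
  simp only [r, M2, add_mul, mul_add, sub_mul, e_mul]; simp
lemma Pr : P * r = 0 := by
  simp only [r, P, add_mul, mul_add, e_mul]; simp
lemma Qr : Q * r = 0 := by
  simp only [r, Q, add_mul, mul_add, e_mul]; simp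
lemma qe5 (x : Fin 6) : q * e 5 x = 0 := by
  simp only [q, add_mul, e_mul]; simp

lemma e_apply (a b x y : Fin 6) : e a b x y = if a = x ∧ b = y then 1 else 0 := by
  simp [e, Matrix.single_apply]

lemma qKr (i : Fin 3) (k : Fin 5) : q * K i k * r = 0 := by
  fin_cases i <;> fin_cases k
  · change q * (c • M1) * r = 0; rw [mul_smul_comm, smul_mul_assoc, qM1, M1r, smul_zero]
  · change q * (c • M2) * r = 0; rw [mul_smul_comm, smul_mul_assoc, qM2, M2r, smul_zero]
  · change q * (e 5 3) * r = 0; rw [qe5, zero_mul]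
  · change q * (e 5 4) * r = 0; rw [qe5, zero_mul]
  · change q * (e 5 5) * r = 0; rw [qe5, zero_mul]
  · change q * P * r = 0; rw [qP, Pr]
  · change q * (0 : M6) * r = 0; rw [mul_zero, zero_mul]
  · change q * (e 5 3) * r = 0; rw [qe5, zero_mul]
  · change q * (e 5 4) * r = 0; rw [qe5, zero_mul]
  · change q * (e 5 5) * r = 0; rw [qe5, zero_mul]
  · change q * Q * r = 0; rw [qQ, Qr]
  · change q * (0 : M6) * r = 0; rw [mul_zero, zero_mul]
  · change q * (e 5 3) * r = 0; rw [qe5, zero_mul]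
  · change q * (e 5 4) * r = 0; rw [qe5, zero_mul]
  · change q * (e 5 5) * r = 0; rw [qe5, zero_mul]

lemma dec0 (k : Fin 5) : q * K 0 k * q = (K 0 k 4 1) • (q * M1) + (K 0 k 3 1) • (q * M2) := by
  fin_cases k
  · change q * (c • M1) * q = ((c • M1) 4 1) • (q * M1) + ((c • M1) 3 1) • (q * M2)
    rw [mul_smul_comm, smul_mul_assoc, qM1, qM2, M1q]
    have h1 : (c • M1) 4 1 = c := by
      simp only [Matrix.smul_apply, M1, Matrix.add_apply, e_apply]; simp
    have h2 : (c • M1) 3 1 = 0 := by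
      simp only [Matrix.smul_apply, M1, Matrix.add_apply, e_apply]; simp
    rw [h1, h2, zero_smul, add_zero]
  · change q * (c • M2) * q = ((c • M2) 4 1) • (q * M1) + ((c • M2) 3 1) • (q * M2)
    rw [mul_smul_comm, smul_mul_assoc, qM1, qM2, M2q]
    have h1 : (c • M2) 4 1 = 0 := by
      simp only [Matrix.smul_apply, M2, Matrix.add_apply, Matrix.sub_apply, e_apply]; simp
    have h2 : (c • M2) 3 1 = c := by
      simp only [Matrix.smul_apply, M2, Matrix.add_apply, Matrix.sub_apply, e_apply]; simp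
    rw [h1, h2, zero_smul, zero_add]
  · change q * (e 5 3) * q = ((e 5 3) 4 1) • (q * M1) + ((e 5 3) 3 1) • (q * M2)
    rw [qe5, zero_mul, e_apply, e_apply]; simp
  · change q * (e 5 4) * q = ((e 5 4) 4 1) • (q * M1) + ((e 5 4) 3 1) • (q * M2)
    rw [qe5, zero_mul, e_apply, e_apply]; simp
  · change q * (e 5 5) * q = ((e 5 5) 4 1) • (q * M1) + ((e 5 5) 3 1) • (q * M2)
    rw [qe5, zero_mul, e_apply, e_apply]; simp

lemma dec1 (k : Fin 5) : q * K 1 k * q = (K 1 k 1 0) • (q * P) + (K 1 k 0 0) • (q * 0) := by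
  fin_cases k
  · change q * P * q = (P 1 0) • (q * P) + (P 0 0) • (q * 0)
    have h1 : P 1 0 = 1 := by
      simp only [P, Matrix.add_apply, e_apply]; simp
    rw [qP, P_mul_q, mul_zero, smul_zero, add_zero, h1, one_smul]
  · change q * 0 * q = ((0 : M6) 1 0) • (q * P) + ((0 : M6) 0 0) • (q * 0)
    simp
  · change q * (e 5 3) * q = ((e 5 3) 1 0) • (q * P) + ((e 5 3) 0 0) • (q * 0)
    rw [qe5, zero_mul, e_apply, e_apply]; simp
  · change q * (e 5 4) * q = ((e 5 4) 1 0) • (q * P) + ((e 5 4) 0 0) • (q * 0)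
    rw [qe5, zero_mul, e_apply, e_apply]; simp
  · change q * (e 5 5) * q = ((e 5 5) 1 0) • (q * P) + ((e 5 5) 0 0) • (q * 0)
    rw [qe5, zero_mul, e_apply, e_apply]; simp

lemma dec2 (k : Fin 5) : q * K 2 k * q = (K 2 k 2 0) • (q * Q) + (K 2 k 0 0) • (q * 0) := by
  fin_cases k
  · change q * Q * q = (Q 2 0) • (q * Q) + (Q 0 0) • (q * 0)
    have h1 : Q 2 0 = 1 := by
      simp only [Q, Matrix.add_apply, e_apply]; simp
    rw [qQ, Q_mul_q, mul_zero, smul_zero, add_zero, h1, one_smul]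
  · change q * 0 * q = ((0 : M6) 2 0) • (q * Q) + ((0 : M6) 0 0) • (q * 0)
    simp
  · change q * (e 5 3) * q = ((e 5 3) 2 0) • (q * Q) + ((e 5 3) 0 0) • (q * 0)
    rw [qe5, zero_mul, e_apply, e_apply]; simp
  · change q * (e 5 4) * q = ((e 5 4) 2 0) • (q * Q) + ((e 5 4) 0 0) • (q * 0)
    rw [qe5, zero_mul, e_apply, e_apply]; simp
  · change q * (e 5 5) * q = ((e 5 5) 2 0) • (q * Q) + ((e 5 5) 0 0) • (q * 0)
    rw [qe5, zero_mul, e_apply, e_apply]; simp

lemma PM2 : P * M2 = M1 * P := by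
  simp only [M1, M2, P, Q, add_mul, mul_add, sub_mul, mul_sub, e_mul]; simp
lemma PM1 : P * M1 = M2 * P := by
  simp only [M1, M2, P, Q, add_mul, mul_add, sub_mul, mul_sub, e_mul]; simp
lemma QM1 : Q * M1 = M1 * Q := by
  simp only [M1, M2, P, Q, add_mul, mul_add, sub_mul, mul_sub, e_mul]; simp
lemma QM2 : Q * M2 = - (M2 * Q) := by
  simp only [M1, M2, P, Q, add_mul, mul_add, sub_mul, mul_sub, e_mul]; simp
lemma PQ : P * Q = e 4 0 := by
  simp only [M1, M2, P, Q, add_mul, mul_add, sub_mul, mul_sub, e_mul]; simp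
lemma QP : Q * P = e 4 0 := by
  simp only [M1, M2, P, Q, add_mul, mul_add, sub_mul, mul_sub, e_mul]; simp
lemma M1P : M1 * P = e 4 0 := by
  simp only [M1, M2, P, Q, add_mul, mul_add, sub_mul, mul_sub, e_mul]; simp
lemma M2P : M2 * P = e 3 0 := by
  simp only [M1, M2, P, Q, add_mul, mul_add, sub_mul, mul_sub, e_mul]; simp
lemma M1Q : M1 * Q = e 4 0 := by
  simp only [M1, M2, P, Q, add_mul, mul_add, sub_mul, mul_sub, e_mul]; simp
lemma M2Q : M2 * Q = - e 3 0 := by
  simp only [M1, M2, P, Q, add_mul, mul_add, sub_mul, mul_sub, e_mul]; simp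

lemma sum_T (s : Fin 6) (T : M6) :
    ∑ m : Fin 5, e m.castSucc s * T * e s m.castSucc = T s s • q := sum_e_mul_e T s s

/-- **Core obstruction.** -/
theorem core
    (hproper : ∀ x : R, star x * x = 0 → x = 0)
    (j : M6 →ₙ+* R) (hj : ∀ a, j (star a) = star (j a))
    (θ : Fin 3 → (R →ₙ+* R)) (hθ : ∀ i a, θ i (star a) = star (θ i a))
    (hcomm : ∀ i k x, θ i (θ k x) = θ k (θ i x))
    (hdil : ∀ i, ∀ A B C : M6, j A * θ i (j B) * j C = j (A * Tm i B * C)) : j q = 0 := by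
  have hqq : j q * j q = j q := by rw [← map_mul, q_mul_q]
  have hdil' : ∀ i, ∀ A B C : M6,
      j A * θ i (j B) * j C = j (A * (∑ k, star (K i k) * B * K i k) * C) := hdil
  -- step 1
  have hp : ∀ i, θ i (j 1) * j 1 = j 1 := by
    intro i
    rw [← sub_eq_zero]
    apply hproper
    have h1 : star (θ i (j 1) * j 1 - j 1) = j 1 * θ i (j 1) - j 1 := by
      rw [star_sub, star_mul, ← hθ, ← hj, star_one]
    rw [h1, sub_mul, mul_sub, mul_sub]
    have h2 : j 1 * θ i (j 1) * (θ i (j 1) * j 1) = j 1 := by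
      rw [mul_assoc, ← mul_assoc (θ i (j 1)), ← map_mul, ← map_mul, one_mul, ← mul_assoc, hdil,
        Tm_one]; simp
    have h3 : j 1 * θ i (j 1) * j 1 = j 1 := by
      rw [hdil, Tm_one]; simp
    have h4 : j 1 * (θ i (j 1) * j 1) = j 1 := by rw [← mul_assoc, h3]
    have h5 : j 1 * j 1 = j 1 := by rw [← map_mul, one_mul]
    rw [h2, h3, h4, h5]; abel
  have hpq : ∀ i, θ i (j 1) * j q = j q := by
    intro i
    have : j q = j 1 * j q := by rw [← map_mul, one_mul]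
    rw [this, ← mul_assoc, hp]
  have hqr : ∀ i, θ i (j q) * j r = 0 := fun i =>
    theta_q_r hproper j hj (θ i) (hθ i) (K i) (hdil' i) (fun k => qKr i k)
  have hF : ∀ i k, θ k (θ i (j q)) * (θ k (j q) * j q) = θ k (θ i (j q)) * j q := by
    intro i k
    have h1 : θ k (j q) * j q = j q - θ k (j r) * j q := by
      have : q = 1 - r := by rw [← q_add_r]; abel
      have h2 : θ k (j q) = θ k (j 1) - θ k (j r) := by
        rw [← map_sub, ← map_sub, ← this]
      rw [h2, sub_mul, hpq]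
    rw [h1, mul_sub, ← mul_assoc, ← map_mul, hqr, map_zero, zero_mul, sub_zero]
  have hC : ∀ i k, θ k (θ i (j q) * j q) * (θ k (j q) * j q)
      = θ i (θ k (j q) * j q) * (θ i (j q) * j q) := by
    have h1 : ∀ i k, θ k (θ i (j q) * j q) * (θ k (j q) * j q) = θ k (θ i (j q)) * j q := by
      intro i k
      rw [← hF, map_mul, mul_assoc, ← mul_assoc (θ k (j q)) (θ k (j q)), ← map_mul, hqq]
    intro i k
    rw [h1, h1, hcomm]
  -- intertwiners
  set x1 := X j (θ 0) 4 1 with hx1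
  set x2 := X j (θ 0) 3 1 with hx2
  set y := X j (θ 1) 1 0 with hy
  set z := X j (θ 2) 2 0 with hz
  have F0 : θ 0 (j q) * j q = x1 * j M1 + x2 * j M2 :=
    decomp hproper j hj (θ 0) (hθ 0) (K 0) (hdil' 0) 4 1 3 1 M1 M2 dec0
  have F1 : θ 1 (j q) * j q = y * j P := by
    have := decomp hproper j hj (θ 1) (hθ 1) (K 1) (hdil' 1) 1 0 0 0 P 0 dec1
    simpa using this
  have F2 : θ 2 (j q) * j q = z * j Q := by
    have := decomp hproper j hj (θ 2) (hθ 2) (K 2) (hdil' 2) 2 0 0 0 Q 0 dec2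
    simpa using this
  -- intertwining relations
  have ix1 : ∀ u v : Fin 5, θ 0 (j (e u.castSucc v.castSucc)) * x1 = x1 * j (e u.castSucc v.castSucc) :=
    X_intertw_e j (θ 0) 4 1
  have ix2 : ∀ u v : Fin 5, θ 0 (j (e u.castSucc v.castSucc)) * x2 = x2 * j (e u.castSucc v.castSucc) :=
    X_intertw_e j (θ 0) 3 1
  have iy : ∀ u v : Fin 5, θ 1 (j (e u.castSucc v.castSucc)) * y = y * j (e u.castSucc v.castSucc) :=
    X_intertw_e j (θ 1) 1 0
  have iz : ∀ u v : Fin 5, θ 2 (j (e u.castSucc v.castSucc)) * z = z * j (e u.castSucc v.castSucc) :=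
    X_intertw_e j (θ 2) 2 0
  -- relation between θ₀ and θ₁
  have R01 : (θ 1 x1 * y - θ 0 y * x2) * j (e 4 0) + (θ 1 x2 * y - θ 0 y * x1) * j (e 3 0) = 0 := by
    have h := hC 0 1
    rw [F0, F1] at h
    have e1 : θ 1 (x1 * j M1 + x2 * j M2) * (y * j P)
        = θ 1 x1 * y * j (e 4 0) + θ 1 x2 * y * j (e 3 0) := by
      rw [map_add, map_mul, map_mul, add_mul, mul_assoc, mul_assoc, ← mul_assoc (θ 1 (j M1)),
        ← mul_assoc (θ 1 (j M2)), X_intertw M1_mem, X_intertw M2_mem, mul_assoc, mul_assoc,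
        ← map_mul, ← map_mul, M1P, M2P, ← mul_assoc, ← mul_assoc]
    have e2 : θ 0 (y * j P) * (x1 * j M1 + x2 * j M2)
        = θ 0 y * x1 * j (e 3 0) + θ 0 y * x2 * j (e 4 0) := by
      rw [map_mul, mul_add, mul_assoc, mul_assoc, ← mul_assoc (θ 0 (j P)), ← mul_assoc (θ 0 (j P)),
        X_intertw P_mem, X_intertw P_mem, mul_assoc, mul_assoc, ← map_mul, ← map_mul, PM1, PM2,
        M1P, M2P, ← mul_assoc, ← mul_assoc]
    rw [e1, e2] at h
    rw [sub_mul, sub_mul]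
    rw [← sub_eq_zero] at h
    rw [← h]; abel
  have R02 : (θ 2 x1 * z - θ 0 z * x1) * j (e 4 0) + (- (θ 2 x2 * z) - θ 0 z * x2) * j (e 3 0) = 0 := by
    have h := hC 0 2
    rw [F0, F2] at h
    have e1 : θ 2 (x1 * j M1 + x2 * j M2) * (z * j Q)
        = θ 2 x1 * z * j (e 4 0) - θ 2 x2 * z * j (e 3 0) := by
      rw [map_add, map_mul, map_mul, add_mul, mul_assoc, mul_assoc, ← mul_assoc (θ 2 (j M1)),
        ← mul_assoc (θ 2 (j M2)), X_intertw M1_mem, X_intertw M2_mem, mul_assoc, mul_assoc,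
        ← map_mul, ← map_mul, M1Q, M2Q, ← mul_assoc, ← mul_assoc, map_neg, mul_neg, sub_eq_add_neg]
    have e2 : θ 0 (z * j Q) * (x1 * j M1 + x2 * j M2)
        = θ 0 z * x1 * j (e 4 0) + θ 0 z * x2 * j (e 3 0) := by
      rw [map_mul, mul_add, mul_assoc, mul_assoc, ← mul_assoc (θ 0 (j Q)), ← mul_assoc (θ 0 (j Q)),
        X_intertw Q_mem, X_intertw Q_mem, mul_assoc, mul_assoc, ← map_mul, ← map_mul, QM1, QM2,
        M1Q, M2Q, neg_neg, ← mul_assoc, ← mul_assoc]
    rw [e1, e2] at h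
    rw [sub_mul, sub_mul, neg_mul]
    rw [← sub_eq_zero] at h
    rw [← h]; abel
  have R12 : (θ 2 y * z - θ 1 z * y) * j (e 4 0) + 0 * j (e 3 0) = 0 := by
    have h := hC 1 2
    rw [F1, F2] at h
    have e1 : θ 2 (y * j P) * (z * j Q) = θ 2 y * z * j (e 4 0) := by
      rw [map_mul, mul_assoc, ← mul_assoc (θ 2 (j P)), X_intertw P_mem, mul_assoc, ← map_mul, PQ,
        ← mul_assoc]
    have e2 : θ 1 (z * j Q) * (y * j P) = θ 1 z * y * j (e 4 0) := by
      rw [map_mul, mul_assoc, ← mul_assoc (θ 1 (j Q)), X_intertw Q_mem, mul_assoc, ← map_mul, QP,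
        ← mul_assoc]
    rw [e1, e2] at h
    rw [sub_mul, zero_mul, add_zero, h, sub_self]
  -- intertwining property of the composites
  have comp : ∀ (i k : Fin 3) (a b : R),
      (∀ u v : Fin 5, θ i (j (e u.castSucc v.castSucc)) * a = a * j (e u.castSucc v.castSucc)) →
      (∀ u v : Fin 5, θ k (j (e u.castSucc v.castSucc)) * b = b * j (e u.castSucc v.castSucc)) →
      ∀ u v : Fin 5, ((θ k).comp (θ i)) (j (e u.castSucc v.castSucc)) * (θ k a * b)
        = (θ k a * b) * j (e u.castSucc v.castSucc) := by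
    intro i k a b ha hb u v
    rw [NonUnitalRingHom.comp_apply, ← mul_assoc, ← map_mul, ha, map_mul, mul_assoc, hb, mul_assoc]
  have comp' : ∀ (i k : Fin 3) (a b : R),
      (∀ u v : Fin 5, θ i (j (e u.castSucc v.castSucc)) * a = a * j (e u.castSucc v.castSucc)) →
      (∀ u v : Fin 5, θ k (j (e u.castSucc v.castSucc)) * b = b * j (e u.castSucc v.castSucc)) →
      ∀ u v : Fin 5, ((θ i).comp (θ k)) (j (e u.castSucc v.castSucc)) * (θ k a * b)
        = (θ k a * b) * j (e u.castSucc v.castSucc) := by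
    intro i k a b ha hb u v
    rw [NonUnitalRingHom.comp_apply, hcomm, ← NonUnitalRingHom.comp_apply]
    exact comp i k a b ha hb u v
  have absq : ∀ (i : Fin 3) (rr ss : Fin 6) (a : R), θ i a * X j (θ i) rr ss * j q = θ i a * X j (θ i) rr ss := by
    intro i rr ss a; rw [mul_assoc, X_mul_q]
  have sub_int : ∀ (Θ : R →ₙ+* R) (a b : R),
      (∀ u v : Fin 5, Θ (j (e u.castSucc v.castSucc)) * a = a * j (e u.castSucc v.castSucc)) →
      (∀ u v : Fin 5, Θ (j (e u.castSucc v.castSucc)) * b = b * j (e u.castSucc v.castSucc)) →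
      ∀ u v : Fin 5, Θ (j (e u.castSucc v.castSucc)) * (a - b) = (a - b) * j (e u.castSucc v.castSucc) := by
    intro Θ a b ha hb u v
    rw [mul_sub, ha, hb, sub_mul]
  have neg_int : ∀ (Θ : R →ₙ+* R) (a : R),
      (∀ u v : Fin 5, Θ (j (e u.castSucc v.castSucc)) * a = a * j (e u.castSucc v.castSucc)) →
      ∀ u v : Fin 5, Θ (j (e u.castSucc v.castSucc)) * (-a) = (-a) * j (e u.castSucc v.castSucc) := by
    intro Θ a ha u v
    rw [mul_neg, ha, neg_mul]
  have hE1 : (e 4 0 : M6) (Fin.castSucc 4) (Fin.castSucc 0) = 1 := by simp [e, Matrix.single_apply]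
  have hE2 : (e 3 0 : M6) (Fin.castSucc 4) (Fin.castSucc 0) = 0 := by simp [e, Matrix.single_apply]
  have hE3 : (e 3 0 : M6) (Fin.castSucc 3) (Fin.castSucc 0) = 1 := by simp [e, Matrix.single_apply]
  have hE4 : (e 4 0 : M6) (Fin.castSucc 3) (Fin.castSucc 0) = 0 := by simp [e, Matrix.single_apply]
  -- θ₁(x1) y = θ₀(y) x2,   θ₂(x1) z = θ₀(z) x1,   θ₂(x2) z = - θ₀(z) x2,   θ₂(y) z = θ₁(z) y
  have A1 : θ 1 x1 * y = θ 0 y * x2 := by
    rw [← sub_eq_zero]
    refine cancel j ((θ 1).comp (θ 0)) _ _ ?_ ?_ ?_ _ _ R01 4 0 hE1 hE2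
    · exact sub_int _ _ _ (comp 0 1 _ _ ix1 iy) (comp' 1 0 _ _ iy ix2)
    · exact sub_int _ _ _ (comp 0 1 _ _ ix2 iy) (comp' 1 0 _ _ iy ix1)
    · rw [sub_mul, absq, absq]
  have A2 : θ 2 x1 * z = θ 0 z * x1 := by
    rw [← sub_eq_zero]
    refine cancel j ((θ 2).comp (θ 0)) _ _ ?_ ?_ ?_ _ _ R02 4 0 hE1 hE2
    · exact sub_int _ _ _ (comp 0 2 _ _ ix1 iz) (comp' 2 0 _ _ iz ix1)
    · exact sub_int _ _ _ (neg_int _ _ (comp 0 2 _ _ ix2 iz)) (comp' 2 0 _ _ iz ix2)
    · rw [sub_mul, absq, absq]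
  have A3 : - (θ 2 x2 * z) = θ 0 z * x2 := by
    rw [← sub_eq_zero]
    rw [add_comm] at R02
    refine cancel j ((θ 2).comp (θ 0)) _ _ ?_ ?_ ?_ _ _ R02 3 0 hE3 hE4
    · exact sub_int _ _ _ (neg_int _ _ (comp 0 2 _ _ ix2 iz)) (comp' 2 0 _ _ iz ix2)
    · exact sub_int _ _ _ (comp 0 2 _ _ ix1 iz) (comp' 2 0 _ _ iz ix1)
    · rw [sub_mul, absq, neg_mul, absq]
  have A4 : θ 2 y * z = θ 1 z * y := by
    rw [← sub_eq_zero]
    refine cancel j ((θ 2).comp (θ 1)) _ _ ?_ ?_ ?_ _ _ R12 4 0 hE1 hE2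
    · exact sub_int _ _ _ (comp 1 2 _ _ iy iz) (comp' 2 1 _ _ iz iy)
    · intro u v; simp
    · rw [sub_mul, absq, absq]
  -- the hexagon
  have hex1 : θ 2 (θ 1 x1 * y) * z = - (θ 0 (θ 2 y * z) * x2) := by
    rw [A1, map_mul, mul_assoc, ← neg_neg (θ 2 x2 * z), A3, mul_neg, hcomm, ← mul_assoc, ← map_mul]
  have hex2 : θ 2 (θ 1 x1 * y) * z = θ 0 (θ 2 y * z) * x2 := by
    rw [map_mul, mul_assoc, A4, hcomm, ← mul_assoc, ← map_mul, A2, map_mul, mul_assoc, A1,
      ← mul_assoc, hcomm, ← map_mul]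
  have hzero : θ 0 (θ 2 y * z) * x2 = 0 := by
    have h : θ 0 (θ 2 y * z) * x2 = - (θ 0 (θ 2 y * z) * x2) := by rw [← hex1, hex2]
    have h2 : θ 0 (θ 2 y * z) * x2 + θ 0 (θ 2 y * z) * x2 = 0 := by
      nth_rewrite 1 [h]; abel
    -- use properness-free division by 2 : x2 is a multiple of `(1/2)`
    have h3 : x2 = x2 * j ((1/2 : ℂ) • q) + x2 * j ((1/2 : ℂ) • q) := by
      rw [← mul_add, ← map_add, ← add_smul]
      norm_num
      rw [hx2, X_mul_q]
    calc θ 0 (θ 2 y * z) * x2 = (θ 0 (θ 2 y * z) * x2 + θ 0 (θ 2 y * z) * x2) * j ((1/2 : ℂ) • q) := by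
          conv_lhs => rw [h3]
          noncomm_ring
      _ = 0 := by rw [h2, zero_mul]
  -- norms
  have ny : star y * y = j q := by
    rw [hy, star_X_mul_X j hj (θ 1) (hθ 1) (Tm 1) (hdil 1), sum_T, Tm1_apply]
    simp [e, Matrix.single_apply]
  have nz : star z * z = j q := by
    rw [hz, star_X_mul_X j hj (θ 2) (hθ 2) (Tm 2) (hdil 2), sum_T, Tm2_apply]
    simp [e, Matrix.single_apply]
  have nx : star x2 * x2 = j ((1/2 : ℂ) • q) := by
    rw [hx2, star_X_mul_X j hj (θ 0) (hθ 0) (Tm 0) (hdil 0), sum_T, Tm0_apply]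
    simp [e, Matrix.single_apply]
  have nw : star (θ 2 y * z) * (θ 2 y * z) = j q := by
    rw [star_mul, ← hθ, mul_assoc, ← mul_assoc (θ 2 (star y)), ← map_mul, ny, hz, q_mul_X, ← hz, nz]
  have fin0 : j ((1/2 : ℂ) • q) = 0 := by
    have h : star (θ 0 (θ 2 y * z) * x2) * (θ 0 (θ 2 y * z) * x2) = 0 := by rw [hzero]; simp
    rw [star_mul, ← hθ, mul_assoc, ← mul_assoc (θ 0 _) (θ 0 _), ← map_mul, nw, hx2, q_mul_X, ← hx2,
      nx] at h
    exact h
  have : j q = j ((1/2 : ℂ) • q) + j ((1/2 : ℂ) • q) := by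
    rw [← map_add, ← add_smul]; norm_num
  rw [this, fin0, add_zero]

end Pool.Agent.H584R3.DilCore
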