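import Pool.Agent.H584R3.Roe1

/-!
The family of spread orthonormal bases of `ℓ²(ℕ)`: discrete Fourier basis on `{0,…,x}` and the
standard basis elsewhere.
-/

open scoped InnerProductSpace ENNReal ComplexConjugate

set_option linter.unusedSectionVars false

noncomputable section

namespace H584Roe

/-- Primitive root of unity of order `x+1`. -/
def zt (x : ℕ) : ℂ := Complex.exp (2 * Real.pi * Complex.I / ((x + 1 : ℕ) : ℂ))

theorem zt_prim (x : ℕ) : IsPrimitiveRoot (zt x) (x + 1) :=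
  Complex.isPrimitiveRoot_exp (x + 1) (Nat.succ_ne_zero x)

theorem norm_zt (x : ℕ) : ‖zt x‖ = 1 :=
  (zt_prim x).norm'_eq_one (Nat.succ_ne_zero x)

theorem zt_conj (x : ℕ) : conj (zt x) = (zt x)⁻¹ := by
  rw [Complex.inv_def, Complex.normSq_eq_norm_sq, norm_zt]
  simp

theorem zt_sum (x j k : ℕ) (hj : j ≤ x) (hk : k ≤ x) :
    ∑ m ∈ Finset.range (x + 1), conj (zt x ^ (j * m)) * zt x ^ (k * m) =
      if j = k then ((x + 1 : ℕ) : ℂ) else 0 := by
  have h0 : zt x ≠ 0 := (zt_prim x).ne_zero (Nat.succ_ne_zero x)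
  have h1 : ∀ m, conj (zt x ^ (j * m)) * zt x ^ (k * m) = ((zt x ^ j)⁻¹ * zt x ^ k) ^ m := by
    intro m
    rw [map_pow, zt_conj, mul_pow, pow_mul, pow_mul, inv_pow]
  rw [Finset.sum_congr rfl fun m _ => h1 m]
  by_cases h : j = k
  · subst h
    rw [inv_mul_cancel₀ (pow_ne_zero _ h0)]
    simp
  · rw [if_neg h]
    have hne : (zt x ^ j)⁻¹ * zt x ^ k ≠ 1 := by
      intro h2
      have h3 : zt x ^ k = zt x ^ j := by
        have := congrArg (fun t => zt x ^ j * t) h2
        simp only [mul_one] at this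
        rwa [mul_inv_cancel_left₀ (pow_ne_zero _ h0)] at this
      exact h ((zt_prim x).pow_inj (by omega) (by omega) h3.symm)
    have h4 := mul_geom_sum ((zt x ^ j)⁻¹ * zt x ^ k) (x + 1)
    have h5 : ((zt x ^ j)⁻¹ * zt x ^ k) ^ (x + 1) = 1 := by
      rw [mul_pow, inv_pow, ← pow_mul, ← pow_mul, mul_comm j, mul_comm k, pow_mul, pow_mul,
        (zt_prim x).pow_eq_one]
      simp
    rw [h5, sub_self] at h4
    exact (mul_eq_zero.1 h4).resolve_left (sub_ne_zero.2 hne)

/-- DFT coefficient. -/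
def dft (x k m : ℕ) : ℂ := ((Real.sqrt ((x + 1 : ℕ) : ℝ) : ℝ) : ℂ)⁻¹ * zt x ^ (k * m)

theorem dft_symm (x k m : ℕ) : dft x k m = dft x m k := by
  unfold dft
  rw [mul_comm k m]

theorem norm_dft (x k m : ℕ) : ‖dft x k m‖ = (Real.sqrt ((x + 1 : ℕ) : ℝ))⁻¹ := by
  unfold dft
  rw [norm_mul, norm_pow, norm_zt, one_pow, mul_one, norm_inv, Complex.norm_real,
    Real.norm_of_nonneg (Real.sqrt_nonneg _)]

theorem dft_sum (x j k : ℕ) (hj : j ≤ x) (hk : k ≤ x) :
    ∑ m ∈ Finset.range (x + 1), conj (dft x j m) * dft x k m = if j = k then 1 else 0 := by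
  have hs : ((Real.sqrt ((x + 1 : ℕ) : ℝ) : ℝ) : ℂ) * ((Real.sqrt ((x + 1 : ℕ) : ℝ) : ℝ) : ℂ) =
      ((x + 1 : ℕ) : ℂ) := by
    rw [← Complex.ofReal_mul, Real.mul_self_sqrt (by positivity)]
    push_cast
    ring
  have hn : ((x + 1 : ℕ) : ℂ) ≠ 0 := by exact_mod_cast Nat.succ_ne_zero x
  have h1 : ∀ m, conj (dft x j m) * dft x k m =
      ((x + 1 : ℕ) : ℂ)⁻¹ * (conj (zt x ^ (j * m)) * zt x ^ (k * m)) := by
    intro m
    unfold dft
    rw [map_mul, map_inv₀, Complex.conj_ofReal, ← hs]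
    rw [mul_inv]
    ring
  rw [Finset.sum_congr rfl fun m _ => h1 m, ← Finset.mul_sum, zt_sum x j k hj hk]
  by_cases h : j = k
  · simp only [h, if_true]
    exact inv_mul_cancel₀ hn
  · simp [h]

/-- Coordinates of the spread basis. -/
def cf (x m k : ℕ) : ℂ :=
  if m ≤ x then (if k ≤ x then dft x k m else 0) else (if k = m then 1 else 0)

/-- The vectors of the spread basis. -/
def cv (x m : ℕ) : L2 ℕ := ∑ k ∈ Finset.range (max x m + 1), lp.single 2 k (cf x m k)

theorem cf_zero (x m k : ℕ) (h : max x m < k) : cf x m k = 0 := by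
  unfold cf
  have h1 : ¬ k ≤ x := by omega
  have h2 : ¬ k = m := by omega
  simp [h1, h2]

theorem sum_single_apply {X : Type} [DecidableEq X] (s : Finset X) (f : X → ℂ) (k : X) :
    ((∑ j ∈ s, lp.single 2 j (f j) : L2 X) : X → ℂ) k = if k ∈ s then f k else 0 := by
  rw [lp.coeFn_sum, Finset.sum_apply]
  by_cases h : k ∈ s
  · rw [if_pos h, Finset.sum_eq_single k]
    · rw [lp.single_apply_self]
    · intro b _ hb
      rw [lp.single_apply_ne _ _ _ (Ne.symm hb)]
    · intro h'; exact absurd h h'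
  · rw [if_neg h]
    refine Finset.sum_eq_zero fun b hb => ?_
    rw [lp.single_apply_ne]
    rintro rfl
    exact h hb

theorem cv_apply (x m k : ℕ) : (cv x m : ℕ → ℂ) k = cf x m k := by
  unfold cv
  rw [sum_single_apply]
  by_cases h : k ∈ Finset.range (max x m + 1)
  · rw [if_pos h]
  · rw [if_neg h, cf_zero]
    rw [Finset.mem_range] at h
    omega

theorem cv_large (x m : ℕ) (h : x < m) : cv x m = lp.single 2 m (1 : ℂ) := by
  ext k
  rw [cv_apply, lp.single_apply]
  unfold cf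
  rw [if_neg (by omega)]
  by_cases hk : k = m
  · subst hk; simp
  · simp [hk]

theorem cv_small (x m : ℕ) (h : m ≤ x) :
    cv x m = ∑ k ∈ Finset.range (x + 1), lp.single 2 k (dft x k m) := by
  ext k
  rw [cv_apply, sum_single_apply]
  unfold cf
  rw [if_pos h]
  simp [Nat.lt_succ_iff]

theorem inner_cv (x m : ℕ) (f : L2 ℕ) :
    ⟪cv x m, f⟫_ℂ = if m ≤ x then ∑ k ∈ Finset.range (x + 1), conj (dft x k m) * f k
      else f m := by
  by_cases h : m ≤ x
  · rw [if_pos h, cv_small x m h, sum_inner]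
    refine Finset.sum_congr rfl fun k _ => ?_
    rw [lp.inner_single_left]
    simp only [RCLike.inner_apply]
    ring
  · rw [if_neg h, cv_large x m (by omega), lp.inner_single_left]
    simp

theorem cv_orthonormal (x : ℕ) : Orthonormal ℂ (cv x) := by
  rw [orthonormal_iff_ite]
  intro m n
  rw [inner_cv]
  by_cases hm : m ≤ x
  · rw [if_pos hm]
    by_cases hn : n ≤ x
    · have h1 : ∀ k ∈ Finset.range (x + 1),
          conj (dft x k m) * (cv x n : ℕ → ℂ) k = conj (dft x m k) * dft x n k := by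
        intro k hk
        rw [Finset.mem_range] at hk
        rw [cv_apply, cf, if_pos hn, if_pos (by omega), dft_symm x k m, dft_symm x k n]
      rw [Finset.sum_congr rfl h1, dft_sum x m n hm hn]
    · rw [if_neg (by omega)]
      refine Finset.sum_eq_zero fun k hk => ?_
      rw [Finset.mem_range] at hk
      rw [cv_apply, cf, if_neg hn, if_neg (by omega), mul_zero]
  · rw [if_neg hm, cv_apply, cf]
    by_cases hn : n ≤ x
    · rw [if_pos hn, if_neg hm, if_neg (by omega)]
    · rw [if_neg hn]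

theorem cv_complete (x : ℕ) : (Submodule.span ℂ (Set.range (cv x)))ᗮ = ⊥ := by
  rw [Submodule.eq_bot_iff]
  intro f hf
  rw [Submodule.mem_orthogonal] at hf
  have h1 : ∀ m, ⟪cv x m, f⟫_ℂ = 0 := fun m => hf _ (Submodule.subset_span ⟨m, rfl⟩)
  ext k
  change (f : ℕ → ℂ) k = 0
  by_cases hk : k ≤ x
  · have h2 : ∀ m ∈ Finset.range (x + 1),
        ∑ j ∈ Finset.range (x + 1), conj (dft x j m) * f j = 0 := by
      intro m hm
      rw [Finset.mem_range] at hm
      have := h1 m
      rwa [inner_cv, if_pos (by omega)] at this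
    have h3 : ∑ m ∈ Finset.range (x + 1), dft x k m *
        ∑ j ∈ Finset.range (x + 1), conj (dft x j m) * f j = 0 :=
      Finset.sum_eq_zero fun m hm => by rw [h2 m hm, mul_zero]
    have h4 : ∑ m ∈ Finset.range (x + 1), dft x k m *
        ∑ j ∈ Finset.range (x + 1), conj (dft x j m) * f j =
        ∑ j ∈ Finset.range (x + 1), (if j = k then 1 else 0) * f j := by
      simp_rw [Finset.mul_sum]
      rw [Finset.sum_comm]
      refine Finset.sum_congr rfl fun j hj => ?_
      rw [Finset.mem_range] at hj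
      rw [← dft_sum x j k (by omega) hk, Finset.sum_mul]
      refine Finset.sum_congr rfl fun m _ => ?_
      ring
    rw [h4] at h3
    simp only [ite_mul, one_mul, zero_mul] at h3
    rw [Finset.sum_ite_eq' (Finset.range (x + 1)) k] at h3
    rwa [if_pos (Finset.mem_range.2 (by omega))] at h3
  · have := h1 k
    rwa [inner_cv, if_neg hk] at this

/-- The spread basis. -/
def cb (x : ℕ) : HilbertBasis ℕ ℂ (L2 ℕ) :=
  HilbertBasis.mkOfOrthogonalEqBot (cv_orthonormal x) (cv_complete x)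

theorem cb_apply (x m : ℕ) : cb x m = cv x m := by
  unfold cb
  rw [HilbertBasis.coe_mkOfOrthogonalEqBot]

theorem inner_cb_eq_zero (x y m n : ℕ) (hmn : m ≠ n) (h : (x < m ∧ y < m) ∨ (x < n ∧ y < n)) :
    ⟪cb x m, cb y n⟫_ℂ = 0 := by
  rw [cb_apply, cb_apply]
  rcases h with h | h
  · rw [inner_cv, if_neg (by omega), cv_apply, cf]
    by_cases hn : n ≤ y
    · rw [if_pos hn, if_neg (by omega)]
    · rw [if_neg hn, if_neg hmn]
  · rw [← inner_conj_symm, inner_cv, if_neg (by omega), cv_apply, cf]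
    by_cases hm : m ≤ x
    · rw [if_pos hm, if_neg (by omega), map_zero]
    · rw [if_neg hm, if_neg (Ne.symm hmn), map_zero]

/-- Spreading: the coordinates of a fixed vector in the basis `cb x` tend to zero uniformly. -/
def Spread (f : L2 ℕ) : Prop :=
  ∀ ε : ℝ, 0 < ε → ∃ x0 : ℕ, ∀ x, x0 ≤ x → ∀ m, ‖⟪cb x m, f⟫_ℂ‖ ≤ ε

theorem spread_single (k : ℕ) : Spread (lp.single 2 k (1 : ℂ)) := by
  intro ε hε
  obtain ⟨N, hN⟩ := exists_nat_gt (1 / ε ^ 2)
  refine ⟨max N k, fun x hx m => ?_⟩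
  have hxk : k ≤ x := le_trans (le_max_right _ _) hx
  have hxN : N ≤ x := le_trans (le_max_left _ _) hx
  rw [cb_apply, ← inner_conj_symm, RCLike.norm_conj, lp.inner_single_left]
  simp only [RCLike.inner_apply, map_one, mul_one]
  rw [cv_apply, cf]
  by_cases hm : m ≤ x
  · rw [if_pos hm, if_pos hxk, norm_dft]
    have h1 : 1 / ε ^ 2 ≤ ((x + 1 : ℕ) : ℝ) := by
      refine le_trans hN.le ?_
      exact_mod_cast le_trans hxN (Nat.le_succ x)
    have h2 : 1 / ε ≤ Real.sqrt ((x + 1 : ℕ) : ℝ) := by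
      apply Real.le_sqrt_of_sq_le
      rw [div_pow, one_pow]
      exact h1
    have h3 : (Real.sqrt ((x + 1 : ℕ) : ℝ))⁻¹ ≤ (1 / ε)⁻¹ :=
      inv_anti₀ (by positivity) h2
    simpa using h3
  · rw [if_neg hm, if_neg (by omega)]
    simpa using hε.le

theorem spread_zero : Spread 0 := by
  intro ε hε
  refine ⟨0, fun x _ m => ?_⟩
  simpa using hε.le

theorem Spread.add {f g : L2 ℕ} (hf : Spread f) (hg : Spread g) : Spread (f + g) := by
  intro ε hε
  obtain ⟨a, ha⟩ := hf (ε / 2) (by positivity)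
  obtain ⟨b, hb⟩ := hg (ε / 2) (by positivity)
  refine ⟨max a b, fun x hx m => ?_⟩
  rw [inner_add_right]
  refine (norm_add_le _ _).trans ?_
  have h1 := ha x (le_trans (le_max_left _ _) hx) m
  have h2 := hb x (le_trans (le_max_right _ _) hx) m
  linarith

theorem Spread.smul (s : ℂ) {f : L2 ℕ} (hf : Spread f) : Spread (s • f) := by
  intro ε hε
  obtain ⟨a, ha⟩ := hf (ε / (‖s‖ + 1)) (by positivity)
  refine ⟨a, fun x hx m => ?_⟩
  rw [inner_smul_right, norm_mul]
  have h1 := ha x hx m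
  have h2 : ‖s‖ * ‖⟪cb x m, f⟫_ℂ‖ ≤ ‖s‖ * (ε / (‖s‖ + 1)) :=
    mul_le_mul_of_nonneg_left h1 (norm_nonneg _)
  refine h2.trans ?_
  rw [mul_div_assoc', div_le_iff₀ (by positivity)]
  nlinarith [norm_nonneg s]

theorem cb_norm (x m : ℕ) : ‖cb x m‖ = 1 := (cb x).orthonormal.1 m

/-- The submodule of spread vectors. -/
def SpreadSub : Submodule ℂ (L2 ℕ) where
  carrier := {f | Spread f}
  add_mem' := fun hf hg => Spread.add hf hg
  zero_mem' := spread_zero
  smul_mem' := fun s _ hf => Spread.smul s hf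

theorem spread_closed : IsClosed (SpreadSub : Set (L2 ℕ)) := by
  rw [← isSeqClosed_iff_isClosed]
  intro u f hu hlim ε hε
  rw [Metric.tendsto_atTop] at hlim
  obtain ⟨n, hn⟩ := hlim (ε / 2) (by positivity)
  have h1 := hn n le_rfl
  obtain ⟨a, ha⟩ := hu n (ε / 2) (by positivity)
  refine ⟨a, fun x hx m => ?_⟩
  have h2 : ⟪cb x m, f⟫_ℂ = ⟪cb x m, u n⟫_ℂ - ⟪cb x m, u n - f⟫_ℂ := by
    rw [inner_sub_right]; ring
  rw [h2]
  refine (norm_sub_le _ _).trans ?_
  have h3 : ‖⟪cb x m, u n - f⟫_ℂ‖ ≤ ε / 2 := by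
    refine (norm_inner_le_norm _ _).trans ?_
    rw [cb_norm, one_mul, ← dist_eq_norm]
    exact h1.le
  have h4 := ha x hx m
  linarith

theorem spread_all (f : L2 ℕ) : Spread f := by
  have h1 : f ∈ SpreadSub := by
    have h2 := lp.hasSum_single (E := fun _ : ℕ => ℂ) (p := 2) (by norm_num) f
    refine spread_closed.mem_of_tendsto h2 (Filter.Eventually.of_forall fun s => ?_)
    refine Submodule.sum_mem _ fun k _ => ?_
    have h3 : (lp.single 2 k (f k) : L2 ℕ) = f k • lp.single 2 k (1 : ℂ) := by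
      rw [← lp.single_smul]; simp
    rw [h3]
    exact Submodule.smul_mem _ _ (spread_single k)
  exact h1

end H584Roe
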