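import Mathlib

/-!
Uniform Roe algebras, embeddings, property A.
-/

open scoped InnerProductSpace ENNReal

noncomputable section

namespace H584RoeDefs

/-- The Hilbert space `ℓ²(X)`. -/
abbrev L2 (X : Type) : Type := lp (fun _ : X => ℂ) 2

/-- The bounded operators on `ℓ²(X)`. -/
abbrev Op (X : Type) : Type := L2 X →L[ℂ] L2 X

open Classical in
/-- The standard basis vector `δ_x` of `ℓ²(X)`. -/
def delta {X : Type} (x : X) : L2 X := lp.single 2 x (1 : ℂ)

/-- `X` is uniformly locally finite. -/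
def ULF (X : Type) [MetricSpace X] : Prop :=
  ∀ r : ℝ, ∃ N : ℕ, ∀ x : X, (Metric.closedBall x r).encard ≤ N

/-- The operator `a` on `ℓ²(X)` has finite propagation. -/
def FinProp {X : Type} [MetricSpace X] (a : Op X) : Prop :=
  ∃ R : ℝ, ∀ x y : X, ⟪a (delta y), delta x⟫_ℂ ≠ 0 → dist x y ≤ R

/-- The uniform Roe algebra of `X`: the norm closure of the set of bounded operators on `ℓ²(X)`
of finite propagation. -/
def uRoe (X : Type) [MetricSpace X] : Set (Op X) :=
  closure {a : Op X | FinProp a}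

/-- `X` has property A. -/
def PropertyA (X : Type) [MetricSpace X] : Prop :=
  ∀ R ε : ℝ, 0 < R → 0 < ε → ∃ S : ℝ, 0 < S ∧ ∃ ξ : X → lp (fun _ : X => ℝ) 1,
    (∀ x y, 0 ≤ ξ x y) ∧ (∀ x, ‖ξ x‖ = 1) ∧ (∀ x y, ξ x y ≠ 0 → dist x y ≤ S) ∧
      ∀ x y, dist x y ≤ R → ‖ξ x - ξ y‖ ≤ ε

section

variable {X Y : Type} [MetricSpace X] [MetricSpace Y]

/-- `Φ` is linear on the uniform Roe algebra of `X`. -/
structure IsLin (Φ : Op X → Op Y) : Prop where
  add : ∀ a ∈ uRoe X, ∀ b ∈ uRoe X, Φ (a + b) = Φ a + Φ b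
  smul : ∀ s : ℂ, ∀ a ∈ uRoe X, Φ (s • a) = s • Φ a

/-- `Φ` is multiplicative and `*`-preserving on the uniform Roe algebra of `X`. -/
structure IsMul (Φ : Op X → Op Y) : Prop where
  mul : ∀ a ∈ uRoe X, ∀ b ∈ uRoe X, Φ (a * b) = Φ a * Φ b
  adj : ∀ a ∈ uRoe X, Φ (star a) = star (Φ a)

/-- `Φ` restricts to an embedding (an injective `*`-homomorphism) of the uniform Roe algebra of
`X` into the uniform Roe algebra of `Y`.  Values of `Φ` outside the uniform Roe algebra of `X` are
irrelevant. -/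
structure IsEmb (Φ : Op X → Op Y) : Prop where
  maps : ∀ a ∈ uRoe X, Φ a ∈ uRoe Y
  lin : IsLin Φ
  mul : IsMul Φ
  inj : ∀ a ∈ uRoe X, ∀ b ∈ uRoe X, Φ a = Φ b → a = b

end

/-- `a` is a compact operator. -/
def IsCpt {X : Type} (a : Op X) : Prop := IsCompactOperator a

/-- `p` is a (self-adjoint) projection. -/
def IsProj {X : Type} (p : Op X) : Prop := p * p = p ∧ star p = p

/-- `q` is a (self-adjoint) projection of rank one. -/
def RankOneProj {X : Type} (q : Op X) : Prop :=
  IsProj q ∧ Module.finrank ℂ (LinearMap.range (q : L2 X →ₗ[ℂ] L2 X)) = 1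

/-- `a` and `b` commute. -/
def Comm {X : Type} (a b : Op X) : Prop := a * b = b * a

/-- The cut-down `a ↦ p Φ(a) p`. -/
def cut {X Y : Type} (p : Op Y) (Φ : Op X → Op Y) : Op X → Op Y :=
  fun a => p * Φ a * p

section

variable {X Y : Type} [MetricSpace X] [MetricSpace Y]

/-- `p` is a projection in the relative commutant of the image of the uniform Roe algebra of `X`
in the uniform Roe algebra of `Y`. -/
structure IsCutProj (Φ : Op X → Op Y) (p : Op Y) : Prop where
  mem : p ∈ uRoe Y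
  proj : IsProj p
  comm : ∀ a ∈ uRoe X, Comm p (Φ a)

/-- `Φ` is compact preserving. -/
def CompactPres (Φ : Op X → Op Y) : Prop :=
  ∀ a ∈ uRoe X, IsCpt a → IsCpt (Φ a)

/-- `Φ` is rank preserving: it maps rank-one projections to rank-one projections. -/
def RankPres (Φ : Op X → Op Y) : Prop :=
  ∀ q ∈ uRoe X, RankOneProj q → RankOneProj (Φ q)

end

end H584RoeDefs
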