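import Pool.Agent.H584R3.Roe2
import Pool.Agent.H584R3.RoeDefs

/-!
The sparse space `Sp` and the embedding without cut-downs.
-/

open scoped InnerProductSpace ENNReal ComplexConjugate
open H584RoeDefs (delta ULF FinProp uRoe PropertyA IsEmb CompactPres RankPres RankOneProj cut)

set_option linter.unusedSectionVars false

noncomputable section

namespace H584Roe

theorem delta_eq {X : Type} [DecidableEq X] (x : X) : (delta x : L2 X) = lp.single 2 x (1 : ℂ) := by
  unfold delta
  congr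
  exact Subsingleton.elim _ _

theorem inner_entry {X : Type} [DecidableEq X] (a : L2 X →L[ℂ] L2 X) (x y : X) :
    ⟪a (delta y), delta x⟫_ℂ = conj (entry a x y) := by
  rw [delta_eq, delta_eq, lp.inner_single_right]
  simp [entry]

theorem finProp_iff {X : Type} [DecidableEq X] [MetricSpace X] (a : L2 X →L[ℂ] L2 X) :
    FinProp a ↔ ∃ R : ℝ, ∀ x y : X, entry a x y ≠ 0 → dist x y ≤ R := by
  unfold FinProp
  simp only [inner_entry, ne_eq, map_eq_zero]

/-- The underlying set of the sparse space. -/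
def Sp : Type := ℕ

/-- The natural number behind a point. -/
def Sp.v (x : Sp) : ℕ := x

instance : DecidableEq Sp := inferInstanceAs (DecidableEq ℕ)

theorem Sp.v_inj {x y : Sp} (h : x.v = y.v) : x = y := h

/-- The distance on the sparse space. -/
def spd (x y : Sp) : ℝ := if x = y then 0 else ((max x.v y.v : ℕ) : ℝ)

theorem spd_self (x : Sp) : spd x x = 0 := by simp [spd]

theorem spd_comm (x y : Sp) : spd x y = spd y x := by
  unfold spd
  by_cases h : x = y
  · simp [h]
  · rw [if_neg h, if_neg (Ne.symm h), max_comm]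

theorem spd_triangle (x y z : Sp) : spd x z ≤ spd x y + spd y z := by
  unfold spd
  by_cases hxz : x = z
  · subst hxz
    rw [if_pos rfl]
    split_ifs <;> positivity
  · rw [if_neg hxz]
    by_cases hxy : x = y
    · subst hxy
      rw [if_pos rfl, if_neg hxz, zero_add]
    · rw [if_neg hxy]
      by_cases hyz : y = z
      · subst hyz
        rw [if_pos rfl, add_zero]
      · rw [if_neg hyz]
        have : max x.v z.v ≤ max x.v y.v + max y.v z.v := by omega
        exact_mod_cast this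

theorem spd_eq (x y : Sp) (h : spd x y = 0) : x = y := by
  unfold spd at h
  by_contra hne
  rw [if_neg hne] at h
  have h1 : max x.v y.v = 0 := by exact_mod_cast h
  exact hne (Sp.v_inj (by omega))

instance : MetricSpace Sp where
  dist := spd
  dist_self := spd_self
  dist_comm := spd_comm
  dist_triangle := spd_triangle
  eq_of_dist_eq_zero := fun {x y} h => spd_eq x y h

theorem dist_sp (x y : Sp) : dist x y = if x = y then 0 else ((max x.v y.v : ℕ) : ℝ) := rfl

theorem dist_le_cases {x y : Sp} {R : ℝ} (h : dist x y ≤ R) :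
    x = y ∨ ((x.v : ℝ) ≤ R ∧ (y.v : ℝ) ≤ R) := by
  by_cases hxy : x = y
  · exact Or.inl hxy
  · right
    rw [dist_sp, if_neg hxy] at h
    push_cast at h
    exact ⟨le_trans (le_max_left _ _) h, le_trans (le_max_right _ _) h⟩

theorem dist_le_of {x y : Sp} {R : ℝ} (hx : (x.v : ℝ) ≤ R) (hy : (y.v : ℝ) ≤ R) : dist x y ≤ R := by
  rw [dist_sp]
  split_ifs
  · exact le_trans (Nat.cast_nonneg _) hx
  · push_cast
    exact max_le hx hy

/-- The closed balls of `Sp` are small. -/
theorem sp_ball (x : Sp) (r : ℝ) :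
    Metric.closedBall x r ⊆ ({x} : Set Sp) ∪ {y : Sp | y.v ≤ ⌊r⌋₊} := by
  intro y hy
  rw [Metric.mem_closedBall] at hy
  rcases dist_le_cases hy with h | h
  · left; exact h
  · right
    exact Nat.le_floor h.1

theorem sp_small_encard (n : ℕ) : ({y : Sp | y.v ≤ n} : Set Sp).encard ≤ ((n + 1 : ℕ) : ℕ∞) := by
  change ({y : ℕ | y ≤ n} : Set ℕ).encard ≤ ((n + 1 : ℕ) : ℕ∞)
  have h1 : ({y : ℕ | y ≤ n} : Set ℕ) ⊆ ((Finset.range (n + 1) : Finset ℕ) : Set ℕ) := by
    intro y hy
    rw [Finset.coe_range]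
    exact Nat.lt_succ_of_le hy
  refine (Set.encard_le_encard h1).trans ?_
  rw [Set.encard_coe_eq_coe_finsetCard, Finset.card_range]

theorem sp_ball_encard (x : Sp) (r : ℝ) :
    (Metric.closedBall x r).encard ≤ ((⌊r⌋₊ + 2 : ℕ) : ℕ∞) := by
  refine (Set.encard_le_encard (sp_ball x r)).trans ?_
  refine (Set.encard_union_le _ _).trans ?_
  rw [Set.encard_singleton]
  refine (add_le_add le_rfl (sp_small_encard ⌊r⌋₊)).trans ?_
  push_cast
  rw [show (1 : ℕ∞) + ((⌊r⌋₊ : ℕ∞) + 1) = (⌊r⌋₊ : ℕ∞) + 2 by ring]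

theorem sp_ulf : ULF Sp := fun r => ⟨⌊r⌋₊ + 2, fun x => sp_ball_encard x r⟩

theorem sp2_ulf : ULF (Sp × Sp) := by
  intro r
  refine ⟨(⌊r⌋₊ + 2) * (⌊r⌋₊ + 2), fun x => ?_⟩
  rw [← closedBall_prod_same]
  rw [Set.encard_prod]
  push_cast
  exact mul_le_mul' (by exact_mod_cast sp_ball_encard x.1 r) (by exact_mod_cast sp_ball_encard x.2 r)

/-- The point zero. -/
def Sp.z : Sp := (0 : ℕ)

theorem Sp.z_v : Sp.z.v = 0 := rfl

/-- Collapse the points of size at most `R` to `0`. -/
def coll (R : ℝ) (x : Sp) : Sp := if (x.v : ℝ) ≤ R then Sp.z else x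

theorem coll_eq {R : ℝ} {x y : Sp} (h : dist x y ≤ R) : coll R x = coll R y := by
  rcases dist_le_cases h with h | h
  · rw [h]
  · unfold coll
    rw [if_pos h.1, if_pos h.2]

theorem dist_coll {R : ℝ} (hR : 0 < R) (x : Sp) : dist x (coll R x) ≤ R := by
  unfold coll
  split_ifs with h
  · refine dist_le_of h ?_
    rw [Sp.z_v]
    simpa using hR.le
  · rw [dist_self]
    exact hR.le

theorem sp2_propA : PropertyA (Sp × Sp) := by
  intro R ε hR hε
  refine ⟨R, hR, fun x => lp.single 1 (coll R x.1, coll R x.2) (1 : ℝ), ?_, ?_, ?_, ?_⟩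
  · intro x y
    rw [lp.single_apply]
    by_cases h : y = (coll R x.1, coll R x.2)
    · subst h; simp
    · simp [h]
  · intro x
    rw [lp.norm_single (by norm_num)]
    simp
  · intro x y hxy
    have h1 : y = (coll R x.1, coll R x.2) := by
      by_contra hne
      exact hxy (lp.single_apply_ne _ _ _ hne)
    rw [h1, Prod.dist_eq]
    exact max_le (dist_coll hR _) (dist_coll hR _)
  · intro x y hxy
    rw [Prod.dist_eq] at hxy
    have h1 := coll_eq (le_trans (le_max_left _ _) hxy)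
    have h2 := coll_eq (le_trans (le_max_right _ _) hxy)
    simp only [h1, h2, sub_self, norm_zero]
    exact hε.le

/-- The spread bases, indexed by the sparse space. -/
def cs : Sp → HilbertBasis Sp ℂ (L2 Sp) := cb

theorem cs_spread (f : L2 Sp) (ε : ℝ) (hε : 0 < ε) :
    ∃ x0 : ℕ, ∀ x : Sp, x0 ≤ x.v → ∀ m, ‖⟪cs x m, f⟫_ℂ‖ ≤ ε :=
  spread_all f ε hε

theorem cs_inner_eq_zero (x y m n : Sp) (hmn : m ≠ n)
    (h : (x.v < m.v ∧ y.v < m.v) ∨ (x.v < n.v ∧ y.v < n.v)) : ⟪cs x m, cs y n⟫_ℂ = 0 :=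
  inner_cb_eq_zero x y m n hmn h

theorem cs_norm (x m : Sp) : ‖cs x m‖ = 1 := cb_norm x m

/-- The embedding. -/
def PH : (L2 Sp →L[ℂ] L2 Sp) → (L2 (Sp × Sp) →L[ℂ] L2 (Sp × Sp)) := Phi cs

theorem PH_finProp {a : L2 Sp →L[ℂ] L2 Sp} (h : FinProp a) : FinProp (PH a) := by
  rw [finProp_iff] at h ⊢
  obtain ⟨R, hR⟩ := h
  refine ⟨max R 0, ?_⟩
  rintro ⟨x, m⟩ ⟨y, n⟩ hne
  unfold PH at hne
  rw [Phi_entry] at hne
  have h1 : entry a x y ≠ 0 := left_ne_zero_of_mul hne
  have h2 : ⟪cs x m, cs y n⟫_ℂ ≠ 0 := right_ne_zero_of_mul hne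
  have h3 := hR x y h1
  rw [Prod.dist_eq]
  refine max_le (h3.trans (le_max_left _ _)) ?_
  change dist m n ≤ max R 0
  rcases dist_le_cases h3 with h4 | h4
  · subst h4
    have h5 : m = n := by
      by_contra hmn
      exact h2 ((cs x).orthonormal.2 hmn)
    rw [h5, dist_self]
    exact le_max_right _ _
  · by_cases hmn : m = n
    · rw [hmn, dist_self]
      exact le_max_right _ _
    · have hm : (m.v : ℝ) ≤ R := by
        by_contra hlt
        push Not at hlt
        refine h2 (cs_inner_eq_zero x y m n hmn (Or.inl ⟨?_, ?_⟩))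
        · exact_mod_cast lt_of_le_of_lt h4.1 hlt
        · exact_mod_cast lt_of_le_of_lt h4.2 hlt
      have hn : (n.v : ℝ) ≤ R := by
        by_contra hlt
        push Not at hlt
        refine h2 (cs_inner_eq_zero x y m n hmn (Or.inr ⟨?_, ?_⟩))
        · exact_mod_cast lt_of_le_of_lt h4.1 hlt
        · exact_mod_cast lt_of_le_of_lt h4.2 hlt
      exact (dist_le_of hm hn).trans (le_max_left _ _)

theorem PH_sub (a b : L2 Sp →L[ℂ] L2 Sp) : PH a - PH b = PH (a - b) := by
  unfold PH
  have h1 : a - b = a + (-1 : ℂ) • b := by simp [sub_eq_add_neg]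
  rw [h1, Phi_add, Phi_smul]
  simp [sub_eq_add_neg]

theorem PH_mem {a : L2 Sp →L[ℂ] L2 Sp} (h : a ∈ uRoe Sp) : PH a ∈ uRoe (Sp × Sp) := by
  unfold uRoe at h ⊢
  rw [Metric.mem_closure_iff] at h ⊢
  intro ε hε
  obtain ⟨b, hb, hab⟩ := h ε hε
  refine ⟨PH b, PH_finProp hb, ?_⟩
  rw [dist_eq_norm, PH_sub]
  refine lt_of_le_of_lt (norm_Phi_le cs (a - b)) ?_
  rwa [← dist_eq_norm]

instance : Nonempty Sp := ⟨(0 : ℕ)⟩

theorem PH_emb : IsEmb PH where
  maps := fun _ ha => PH_mem ha
  lin :=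
    { add := fun a _ b _ => Phi_add cs a b
      smul := fun s a _ => Phi_smul cs s a }
  mul :=
    { mul := fun a _ b _ => Phi_mul cs a b
      adj := fun a _ => Phi_star cs a }
  inj := fun _ _ _ _ h => Phi_inj cs h

theorem mu_entry (x y a b : Sp) (h : entry (mu x y) a b ≠ 0) : a = x ∧ b = y := by
  unfold entry at h
  rw [mu_apply] at h
  by_contra hne
  apply h
  by_cases hax : a = x
  · have hby : b ≠ y := fun hby => hne ⟨hax, hby⟩
    have h2 : ((lp.single 2 b (1 : ℂ) : L2 Sp) : Sp → ℂ) y = 0 :=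
      lp.single_apply_ne _ _ _ (Ne.symm hby)
    rw [h2]
    simp
  · rw [lp.single_apply_ne _ _ _ hax]

theorem mu_mem (x y : Sp) : mu x y ∈ uRoe Sp := by
  refine subset_closure ?_
  change FinProp (mu x y)
  rw [finProp_iff]
  refine ⟨dist x y, fun a b h => ?_⟩
  obtain ⟨rfl, rfl⟩ := mu_entry x y a b h
  exact le_rfl

theorem zero_mem : (0 : L2 Sp →L[ℂ] L2 Sp) ∈ uRoe Sp := by
  refine subset_closure ?_
  change FinProp (0 : L2 Sp →L[ℂ] L2 Sp)
  rw [finProp_iff]
  refine ⟨0, fun a b h => ?_⟩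
  exact absurd (by simp [entry]) h

/-- Far away, an operator of finite propagation is diagonal. -/
theorem far_diag (b : L2 (Sp × Sp) →L[ℂ] L2 (Sp × Sp)) (R : ℝ)
    (hR : ∀ p q : Sp × Sp, entry b p q ≠ 0 → dist p q ≤ R) (x m : Sp) (hx : R < x.v)
    (hm : R < m.v) (f : L2 (Sp × Sp)) :
    (b f : Sp × Sp → ℂ) (x, m) = entry b (x, m) (x, m) * f (x, m) := by
  have h1 := lp.hasSum_single (E := fun _ : Sp × Sp => ℂ) (p := 2) (by norm_num) f
  have h2 := (((ev (x, m)).comp b).hasSum h1)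
  have h3 : ∀ q : Sp × Sp, ((ev (x, m)).comp b) (lp.single 2 q (f q)) =
      entry b (x, m) q * f q := by
    intro q
    have h4 : (lp.single 2 q (f q) : L2 (Sp × Sp)) = f q • lp.single 2 q (1 : ℂ) := by
      rw [← lp.single_smul]; simp
    rw [h4, map_smul]
    change f q * ev (x, m) (b (lp.single 2 q (1 : ℂ))) = _
    rw [ev_apply, mul_comm]
    rfl
  have h5 : ∀ q : Sp × Sp, q ≠ (x, m) → ((ev (x, m)).comp b) (lp.single 2 q (f q)) = 0 := by
    intro q hq
    rw [h3 q]
    have h6 : entry b (x, m) q = 0 := by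
      by_contra hne
      have h7 := hR _ _ hne
      rw [Prod.dist_eq] at h7
      have h8 : x = q.1 := by
        rcases dist_le_cases (le_trans (le_max_left _ _) h7) with h | h
        · exact h
        · exact absurd h.1 (not_le.2 hx)
      have h9 : m = q.2 := by
        rcases dist_le_cases (le_trans (le_max_right _ _) h7) with h | h
        · exact h
        · exact absurd h.1 (not_le.2 hm)
      exact hq (by rw [h8, h9])
    rw [h6, zero_mul]
  have h10 := h2.unique (hasSum_single (x, m) h5)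
  rw [h3] at h10
  exact h10

end H584Roe
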