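import Pool.Agent.H584R3.Roe3

/-!
No projection in the relative commutant of the range of the embedding cuts it down to an
embedding sending the matrix unit at the origin to a compact operator.
-/

open scoped InnerProductSpace ENNReal ComplexConjugate
open H584RoeDefs (delta ULF FinProp uRoe PropertyA IsEmb CompactPres RankPres RankOneProj cut)

set_option linter.unusedSectionVars false

noncomputable section

namespace H584Roe

variable (p : L2 (Sp × Sp) →L[ℂ] L2 (Sp × Sp))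

/-- `p` transported to `ℓ²(Z; ℓ²(X))`. -/
def PP (f : LL Sp Sp) : LL Sp Sp := (TT cs).symm (p (TT cs f))

theorem TT_PP (f : LL Sp Sp) : TT cs (PP p f) = p (TT cs f) := by
  unfold PP
  rw [ContinuousLinearEquiv.apply_symm_apply]

/-- The compression of `p` to the copy of `ℓ²(Z)` at the origin. -/
def rr : L2 Sp →L[ℂ] L2 Sp :=
  (prj Sp Sp.z).comp (((TT cs).symm : L2 (Sp × Sp) →L[ℂ] LL Sp Sp).comp
    (p.comp ((TT cs : LL Sp Sp →L[ℂ] L2 (Sp × Sp)).comp (inc Sp Sp.z))))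

theorem rr_apply (g : L2 Sp) : rr p g = prj Sp Sp.z (PP p (inc Sp Sp.z g)) := rfl

variable {p}

theorem PP_amp (hc : ∀ a ∈ uRoe Sp, p * PH a = PH a * p) (x y : Sp) (f : LL Sp Sp) :
    PP p (amp Sp (mu x y) f) = amp Sp (mu x y) (PP p f) := by
  apply (TT cs).injective
  rw [TT_PP]
  have h1 := congrArg (fun T : L2 (Sp × Sp) →L[ℂ] L2 (Sp × Sp) => T (TT cs f))
    (hc _ (mu_mem x y))
  simp only [mul_apply_eq_comp] at h1
  unfold PH at h1
  rw [Phi_TT] at h1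
  rw [h1, ← TT_PP, Phi_TT]

theorem PP_inc (hc : ∀ a ∈ uRoe Sp, p * PH a = PH a * p) (x : Sp) (g : L2 Sp) :
    PP p (inc Sp x g) = inc Sp x (rr p g) := by
  have h1 : inc Sp x g = amp Sp (mu x Sp.z) (inc Sp Sp.z g) := by
    rw [amp_mu]
    change _ = inc Sp x (prj Sp Sp.z (inc Sp Sp.z g))
    rw [prj_inc, if_pos rfl]
  rw [h1, PP_amp hc, amp_mu]
  rfl

theorem PP_PP (hp : p * p = p) (f : LL Sp Sp) : PP p (PP p f) = PP p f := by
  apply (TT cs).injective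
  rw [TT_PP, TT_PP]
  have h1 := congrArg (fun T : L2 (Sp × Sp) →L[ℂ] L2 (Sp × Sp) => T (TT cs f)) hp
  simpa only [mul_apply_eq_comp] using h1

theorem inc_inj (x : Sp) {g h : L2 Sp} (H : inc Sp x g = inc Sp x h) : g = h := by
  have h1 := congrArg (prj Sp x) H
  simpa only [prj_inc, if_true] using h1

theorem rr_rr (hp : p * p = p) (hc : ∀ a ∈ uRoe Sp, p * PH a = PH a * p) (g : L2 Sp) :
    rr p (rr p g) = rr p g := by
  apply inc_inj Sp.z
  rw [← PP_inc hc, ← PP_inc hc, PP_PP hp]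

theorem cut_apply (hp : p * p = p) (hc : ∀ a ∈ uRoe Sp, p * PH a = PH a * p) (f : LL Sp Sp) :
    cut p PH (mu Sp.z Sp.z) (TT cs f) = TT cs (inc Sp Sp.z (rr p (prj Sp Sp.z f))) := by
  unfold cut PH
  simp only [mul_apply_eq_comp]
  rw [← TT_PP, Phi_TT, ← PP_amp hc, ← TT_PP, PP_PP hp, amp_mu]
  change TT cs (PP p (inc Sp Sp.z (prj Sp Sp.z f))) = _
  rw [PP_inc hc]

theorem rr_ne_zero (hp : p * p = p) (hc : ∀ a ∈ uRoe Sp, p * PH a = PH a * p)
    (hi : Set.InjOn (cut p PH) (uRoe Sp)) : ∃ g, rr p g ≠ 0 := by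
  by_contra hne
  push Not at hne
  have h1 : cut p PH (mu Sp.z Sp.z) = cut p PH 0 := by
    ext1 f
    obtain ⟨f, rfl⟩ := (TT cs).surjective f
    rw [cut_apply hp hc, hne]
    have h0 : PH 0 = 0 := by
      have := PH_sub 0 0
      rw [sub_self, sub_self] at this
      exact this.symm
    unfold cut
    rw [h0]
    simp
  have h2 := hi (mu_mem Sp.z Sp.z) zero_mem h1
  have h3 := congrArg (fun T : L2 Sp →L[ℂ] L2 Sp => (T (lp.single 2 Sp.z (1 : ℂ)) : Sp → ℂ) Sp.z) h2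
  simp only [mu_apply] at h3
  simp at h3

theorem rr_compact (hp : p * p = p) (hc : ∀ a ∈ uRoe Sp, p * PH a = PH a * p)
    (hK : IsCompactOperator (cut p PH (mu Sp.z Sp.z))) : IsCompactOperator (rr p) := by
  have h1 : rr p = (prj Sp Sp.z).comp (((TT cs).symm : L2 (Sp × Sp) →L[ℂ] LL Sp Sp).comp
    ((cut p PH (mu Sp.z Sp.z)).comp
      ((TT cs : LL Sp Sp →L[ℂ] L2 (Sp × Sp)).comp (inc Sp Sp.z)))) := by
    ext1 g
    change rr p g = prj Sp Sp.z ((TT cs).symm (cut p PH (mu Sp.z Sp.z) (TT cs (inc Sp Sp.z g))))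
    rw [cut_apply hp hc, ContinuousLinearEquiv.symm_apply_apply, prj_inc, prj_inc, if_pos rfl]
    simp
  rw [h1]
  have h2 := hK.comp_clm ((TT cs : LL Sp Sp →L[ℂ] L2 (Sp × Sp)).comp (inc Sp Sp.z))
  exact (h2.clm_comp ((TT cs).symm : L2 (Sp × Sp) →L[ℂ] LL Sp Sp)).clm_comp (prj Sp Sp.z)

theorem rr_unit (hp : p * p = p) (hc : ∀ a ∈ uRoe Sp, p * PH a = PH a * p)
    (hi : Set.InjOn (cut p PH) (uRoe Sp)) : ∃ v, ‖v‖ = 1 ∧ rr p v = v := by
  obtain ⟨g, hg⟩ := rr_ne_zero hp hc hi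
  refine ⟨((‖rr p g‖⁻¹ : ℝ) : ℂ) • rr p g, ?_, ?_⟩
  · rw [norm_smul, Complex.norm_real, norm_inv, norm_norm]
    exact inv_mul_cancel₀ (norm_ne_zero_iff.2 hg)
  · rw [map_smul, rr_rr hp hc]

/-- Uniform decay of the diagonal. -/
theorem diag_small (hK : IsCompactOperator (rr p)) (ε : ℝ) (hε : 0 < ε) :
    ∃ x0 : ℕ, ∀ x : Sp, x0 ≤ x.v → ∀ m, ‖⟪cs x m, rr p (cs x m)⟫_ℂ‖ ≤ ε := by
  have h1 : IsCompact (closure (rr p '' Metric.closedBall 0 1)) :=
    hK.isCompact_closure_image_closedBall 1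
  have h2 : TotallyBounded (rr p '' Metric.closedBall 0 1) :=
    h1.totallyBounded.subset subset_closure
  rw [Metric.totallyBounded_iff] at h2
  obtain ⟨t, ht, hcov⟩ := h2 (ε / 2) (by positivity)
  have h3 : ∀ y ∈ t, ∃ x0 : ℕ, ∀ x : Sp, x0 ≤ x.v → ∀ m, ‖⟪cs x m, y⟫_ℂ‖ ≤ ε / 2 :=
    fun y _ => cs_spread y (ε / 2) (by positivity)
  choose! N hN using h3
  refine ⟨ht.toFinset.sup N, fun x hx m => ?_⟩
  have h4 : rr p (cs x m) ∈ rr p '' Metric.closedBall 0 1 :=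
    ⟨cs x m, by rw [mem_closedBall_zero_iff, cs_norm], rfl⟩
  obtain ⟨y, hy, hd⟩ := Set.mem_iUnion₂.1 (hcov h4)
  have h5 := hN y hy x (le_trans (Finset.le_sup (f := N) (ht.mem_toFinset.2 hy)) hx) m
  have h6 : ⟪cs x m, rr p (cs x m)⟫_ℂ = ⟪cs x m, y⟫_ℂ + ⟪cs x m, rr p (cs x m) - y⟫_ℂ := by
    rw [inner_sub_right]; ring
  rw [h6]
  refine (norm_add_le _ _).trans ?_
  have h7 : ‖⟪cs x m, rr p (cs x m) - y⟫_ℂ‖ ≤ ε / 2 := by
    refine (norm_inner_le_norm _ _).trans ?_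
    rw [cs_norm, one_mul, ← dist_eq_norm]
    exact (Metric.mem_ball.1 hd).le
  linarith

theorem entry_p (hc : ∀ a ∈ uRoe Sp, p * PH a = PH a * p) (x m : Sp) :
    entry p (x, m) (x, m) = ⟪cs x m, rr p (cs x m)⟫_ℂ := by
  unfold entry
  rw [← TT_tb cs (x, m), ← TT_PP, PP_inc hc, TT_coord, prj_inc, if_pos rfl]

theorem norm_entry_le {X : Type} [DecidableEq X] (a : L2 X →L[ℂ] L2 X) (x y : X) :
    ‖entry a x y‖ ≤ ‖a‖ := by
  unfold entry
  refine (lp.norm_apply_le_norm (by norm_num) _ x).trans ?_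
  refine (a.le_opNorm _).trans ?_
  rw [lp.norm_single (by norm_num)]
  simp

theorem entry_sub {X : Type} [DecidableEq X] (a b : L2 X →L[ℂ] L2 X) (x y : X) :
    entry (a - b) x y = entry a x y - entry b x y := rfl

theorem hasSum_norm_sq {X : Type} (f : L2 X) : HasSum (fun i => ‖f i‖ ^ 2) (‖f‖ ^ 2) := by
  have := lp.hasSum_norm (p := 2) (by norm_num) f
  simpa using this

/-- The contradiction. -/
theorem no_cut (hp : p * p = p) (hmem : p ∈ uRoe (Sp × Sp))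
    (hc : ∀ a ∈ uRoe Sp, p * PH a = PH a * p) (hi : Set.InjOn (cut p PH) (uRoe Sp))
    (hK : IsCompactOperator (cut p PH (mu Sp.z Sp.z))) : False := by
  have hKr := rr_compact hp hc hK
  obtain ⟨v, hv1, hv2⟩ := rr_unit hp hc hi
  unfold uRoe at hmem
  rw [Metric.mem_closure_iff] at hmem
  obtain ⟨b, hb, hpb⟩ := hmem (1 / 4) (by norm_num)
  rw [dist_eq_norm] at hpb
  change FinProp b at hb
  rw [finProp_iff] at hb
  obtain ⟨R, hR⟩ := hb
  obtain ⟨N, hN⟩ := exists_nat_gt R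
  -- smallness parameter
  set ε : ℝ := 1 / (2 * ((N : ℝ) + 1)) with hεdef
  have hN0 : (0 : ℝ) < (N : ℝ) + 1 := by positivity
  have hε : 0 < ε := by positivity
  have hε1 : ((N : ℝ) + 1) * ε ^ 2 ≤ 1 / 4 := by
    rw [hεdef, div_pow, mul_pow, one_pow]
    rw [mul_one_div, div_le_iff₀ (by positivity)]
    nlinarith [(Nat.cast_nonneg N : (0 : ℝ) ≤ (N : ℝ))]
  obtain ⟨x1, hx1⟩ := diag_small hKr (1 / 4) (by norm_num)
  obtain ⟨x2, hx2⟩ := cs_spread v ε hε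
  -- choose x
  obtain ⟨x, hxv⟩ : ∃ x : Sp, x.v = max N (max x1 x2) := ⟨(max N (max x1 x2) : ℕ), rfl⟩
  have hxN : N ≤ x.v := by omega
  have hxx1 : x1 ≤ x.v := by omega
  have hxx2 : x2 ≤ x.v := by omega
  have hxR : R < x.v := lt_of_lt_of_le hN (by exact_mod_cast hxN)
  -- the test vector
  set W : L2 (Sp × Sp) := TT cs (inc Sp x v) with hW
  have hWn : ‖W‖ = 1 := by rw [hW, TT_norm, norm_inc, hv1]
  have hpW : p W = W := by rw [hW, ← TT_PP, PP_inc hc, hv2]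
  have hWc : ∀ y m : Sp, (W : Sp × Sp → ℂ) (y, m) = if y = x then ⟪cs x m, v⟫_ℂ else 0 := by
    intro y m
    rw [hW, TT_coord, prj_inc]
    by_cases h : y = x
    · subst h; simp
    · simp [h]
  set D : L2 (Sp × Sp) := W - b W with hD
  have hDn : ‖D‖ ≤ 1 / 4 := by
    have h1 : D = (p - b) W := by
      rw [hD, sub_apply, hpW]
    rw [h1]
    refine ((p - b).le_opNorm W).trans ?_
    rw [hWn, mul_one]
    exact hpb.le
  have hbd : ∀ m : Sp, ‖entry b (x, m) (x, m)‖ ≤ 1 / 2 := by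
    intro m
    have h1 : entry b (x, m) (x, m) = entry p (x, m) (x, m) - entry (p - b) (x, m) (x, m) := by
      rw [entry_sub]; ring
    rw [h1]
    refine (norm_sub_le _ _).trans ?_
    have h2 : ‖entry p (x, m) (x, m)‖ ≤ 1 / 4 := by
      rw [entry_p hc]
      exact hx1 x hxx1 m
    have h3 := (norm_entry_le (p - b) (x, m) (x, m)).trans hpb.le
    linarith
  have hfar : ∀ m : Sp, N < m.v → ‖(W : Sp × Sp → ℂ) (x, m)‖ ≤ 2 * ‖(D : Sp × Sp → ℂ) (x, m)‖ := by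
    intro m hm
    have hmR : R < m.v := lt_trans hN (by exact_mod_cast hm)
    have h1 := far_diag b R hR x m hxR hmR W
    have h2 : (D : Sp × Sp → ℂ) (x, m) = (W : Sp × Sp → ℂ) (x, m) - (b W : Sp × Sp → ℂ) (x, m) := by
      rw [hD]; rfl
    have h3 : ‖(W : Sp × Sp → ℂ) (x, m)‖ ≤ ‖(D : Sp × Sp → ℂ) (x, m)‖ +
        ‖(b W : Sp × Sp → ℂ) (x, m)‖ := by
      have : (W : Sp × Sp → ℂ) (x, m) =
          (D : Sp × Sp → ℂ) (x, m) + (b W : Sp × Sp → ℂ) (x, m) := by rw [h2]; ring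
      rw [this]
      exact norm_add_le _ _
    have h4 : ‖(b W : Sp × Sp → ℂ) (x, m)‖ ≤ 1 / 2 * ‖(W : Sp × Sp → ℂ) (x, m)‖ := by
      rw [h1, norm_mul]
      exact mul_le_mul_of_nonneg_right (hbd m) (norm_nonneg _)
    linarith
  -- the finite set
  let F : Finset (Sp × Sp) := (Finset.range (N + 1)).map
    ⟨fun n : ℕ => ((x, (n : Sp)) : Sp × Sp), fun a b h => (Prod.mk.inj h).2⟩
  have hFcard : F.card = N + 1 := by
    simp [F]
  have hFmem : ∀ m : Sp, m.v ≤ N → (x, m) ∈ F := by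
    intro m hm
    rw [Finset.mem_map]
    exact ⟨m.v, Finset.mem_range.2 (Nat.lt_succ_of_le hm), rfl⟩
  have hpt : ∀ q : Sp × Sp, ‖(W : Sp × Sp → ℂ) q‖ ^ 2 ≤
      (if q ∈ F then ε ^ 2 else 0) + 4 * ‖(D : Sp × Sp → ℂ) q‖ ^ 2 := by
    rintro ⟨y, m⟩
    have hnn : 0 ≤ (if (y, m) ∈ F then ε ^ 2 else 0) := by split_ifs <;> positivity
    have hnn2 : 0 ≤ 4 * ‖(D : Sp × Sp → ℂ) (y, m)‖ ^ 2 := by positivity
    by_cases hy : y = x
    · subst hy
      by_cases hm : N < m.v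
      · have h1 := hfar m hm
        have h2 : ‖(W : Sp × Sp → ℂ) (y, m)‖ ^ 2 ≤ (2 * ‖(D : Sp × Sp → ℂ) (y, m)‖) ^ 2 :=
          pow_le_pow_left₀ (norm_nonneg _) h1 2
        have h3 : (2 * ‖(D : Sp × Sp → ℂ) (y, m)‖) ^ 2 = 4 * ‖(D : Sp × Sp → ℂ) (y, m)‖ ^ 2 := by
          ring
        rw [h3] at h2
        linarith
      · rw [if_pos (hFmem m (not_lt.1 hm))]
        have h1 : ‖(W : Sp × Sp → ℂ) (y, m)‖ ≤ ε := by
          rw [hWc, if_pos rfl]
          exact hx2 y hxx2 m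
        have h2 : ‖(W : Sp × Sp → ℂ) (y, m)‖ ^ 2 ≤ ε ^ 2 :=
          pow_le_pow_left₀ (norm_nonneg _) h1 2
        linarith
    · rw [hWc, if_neg hy]
      simp only [norm_zero]
      have : (0 : ℝ) ^ 2 = 0 := by norm_num
      rw [this]
      linarith
  have hs1 := hasSum_norm_sq W
  have hs2 : HasSum (fun q : Sp × Sp => (if q ∈ F then ε ^ 2 else 0 : ℝ)) ((N + 1 : ℕ) * ε ^ 2) := by
    have h1 : HasSum (fun q : Sp × Sp => (if q ∈ F then ε ^ 2 else 0 : ℝ))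
        (∑ q ∈ F, (if q ∈ F then ε ^ 2 else 0 : ℝ)) :=
      hasSum_sum_of_ne_finset_zero (fun q hq => if_neg hq)
    have h2 : ∑ q ∈ F, (if q ∈ F then ε ^ 2 else 0 : ℝ) = (N + 1 : ℕ) * ε ^ 2 := by
      rw [Finset.sum_congr rfl (fun q hq => if_pos hq), Finset.sum_const, hFcard, nsmul_eq_mul]
    rwa [h2] at h1
  have hs3 := (hasSum_norm_sq D).mul_left 4
  have h10 := hasSum_le hpt hs1 (hs2.add hs3)
  rw [hWn] at h10
  have h11 : ‖D‖ ^ 2 ≤ (1 / 4) ^ 2 := pow_le_pow_left₀ (norm_nonneg _) hDn 2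
  push_cast at h10
  nlinarith

end H584Roe
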