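import Pool.Agent.H584R3.Roe4

/-!
Rank one operators are compact; the matrix unit at the origin is a rank one projection.
-/

open scoped InnerProductSpace
open H584RoeDefs (L2 RankOneProj)

namespace H584Roe5

theorem compact_of_rank_one {X : Type} (q : L2 X →L[ℂ] L2 X)
    (h : Module.finrank ℂ (LinearMap.range (q : L2 X →ₗ[ℂ] L2 X)) = 1) : IsCompactOperator q := by
  have : FiniteDimensional ℂ (LinearMap.range (q : L2 X →ₗ[ℂ] L2 X)) :=
    Module.finite_of_finrank_eq_succ h
  let q' : L2 X →L[ℂ] LinearMap.range (q : L2 X →ₗ[ℂ] L2 X) :=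
    q.codRestrict _ (fun x => LinearMap.mem_range_self _ x)
  have : ProperSpace (LinearMap.range (q : L2 X →ₗ[ℂ] L2 X)) := FiniteDimensional.proper ℂ _
  have h1 : IsCompactOperator q' := isCompactOperator_of_locallyCompactSpace_dom q'
  exact h1.clm_comp (Submodule.subtypeL _)

theorem mu_compact : IsCompactOperator (H584Roe.mu H584Roe.Sp.z H584Roe.Sp.z) := by
  have h1 : IsCompactOperator (H584Roe.ev H584Roe.Sp.z) :=
    isCompactOperator_of_locallyCompactSpace_dom _
  exact h1.clm_comp (H584Roe.sg H584Roe.Sp.z)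

theorem mu_rankOne : RankOneProj (H584Roe.mu H584Roe.Sp.z H584Roe.Sp.z) := by
  refine ⟨⟨?_, ?_⟩, ?_⟩
  · ext1 f
    rw [mul_apply_eq_comp, H584Roe.mu_apply, H584Roe.mu_apply, lp.single_apply_self]
  · rw [ContinuousLinearMap.star_eq_adjoint, eq_comm, ContinuousLinearMap.eq_adjoint_iff]
    intro f g
    rw [H584Roe.mu_apply, H584Roe.mu_apply, lp.inner_single_left, lp.inner_single_right]
  · have h1 : LinearMap.range (H584Roe.mu H584Roe.Sp.z H584Roe.Sp.z : L2 H584Roe.Sp →ₗ[ℂ] _) =
        Submodule.span ℂ {(lp.single 2 H584Roe.Sp.z (1 : ℂ) : L2 H584Roe.Sp)} := by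
      apply le_antisymm
      · rintro _ ⟨f, rfl⟩
        rw [Submodule.mem_span_singleton]
        refine ⟨f H584Roe.Sp.z, ?_⟩
        change _ = H584Roe.mu H584Roe.Sp.z H584Roe.Sp.z f
        rw [H584Roe.mu_apply, ← lp.single_smul]
        simp
      · rw [Submodule.span_singleton_le_iff_mem]
        refine ⟨lp.single 2 H584Roe.Sp.z (1 : ℂ), ?_⟩
        change H584Roe.mu H584Roe.Sp.z H584Roe.Sp.z _ = _
        rw [H584Roe.mu_apply, lp.single_apply_self]
    rw [h1]
    refine finrank_span_singleton ?_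
    intro h2
    have h3 := congrArg (fun f : L2 H584Roe.Sp => f H584Roe.Sp.z) h2
    simp at h3

end H584Roe5
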