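import Mathlib
import Pool.Agent.H584R3.BuDefs

/-!
Strongly self-absorbing C*-algebras, the Jiang–Su algebra, the Cuntz algebra on infinitely many
isometries, simple and purely infinite C*-algebras, for unital C*-algebras of operators on Hilbert
spaces `ℓ²(X)`.
-/

open scoped InnerProductSpace

noncomputable section

namespace H584ZDefs

open H584BuDefs

/-- `φ` restricts to an isomorphism of C*-algebras `A → B`. -/
structure IsIso {X Y : Type} (A : Set (Op X)) (B : Set (Op Y)) (φ : Op X → Op Y) : Prop where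
  hom : IsHom A B φ
  inj : ∀ a ∈ A, ∀ b ∈ A, φ a = φ b → a = b
  surj : ∀ b ∈ B, ∃ a ∈ A, φ a = b

/-- `A ≅ B`. -/
def Isom {X Y : Type} (A : Set (Op X)) (B : Set (Op Y)) : Prop := ∃ φ, IsIso A B φ

/-- `u` is a unitary element of `A`. -/
structure IsUni {X : Type} (A : Set (Op X)) (u : Op X) : Prop where
  mem : u ∈ A
  left : star u * u = 1
  right : u * star u = 1

/-- The maps `φ, ψ : A → B` are approximately unitarily equivalent. -/
structure AppUniEq {X Y : Type} (A : Set (Op X)) (B : Set (Op Y)) (φ ψ : Op X → Op Y) : Prop where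
  approx : ∀ F : Finset (Op X), (∀ a ∈ F, a ∈ A) → ∀ ε : ℝ, 0 < ε →
    ∃ u, IsUni B u ∧ ∀ a ∈ F, ‖u * φ a * star u - ψ a‖ < ε

/-- `φ` restricts to the embedding `a ↦ a ⊗ 1` of `A` into `A ⊗ A`. -/
def IsFirst {X : Type} (A : Set (Op X)) (φ : Op X → Op (X × X)) : Prop :=
  ∀ a ∈ A, IsTensor a 1 (φ a)

/-- `φ` restricts to the embedding `a ↦ 1 ⊗ a` of `A` into `A ⊗ A`. -/
def IsSecond {X : Type} (A : Set (Op X)) (φ : Op X → Op (X × X)) : Prop :=
  ∀ a ∈ A, IsTensor 1 a (φ a)

/-- There is an isomorphism `A → A ⊗ A` that is approximately unitarily equivalent to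
`a ↦ a ⊗ 1`. -/
def SelfAbsorbs {X : Type} (A : Set (Op X)) : Prop :=
  ∃ φ φ₁ : Op X → Op (X × X), IsIso A (tens A A) φ ∧ IsFirst A φ₁ ∧ AppUniEq A (tens A A) φ φ₁

/-- `A` is strongly self-absorbing (Toms–Winter). -/
structure IsSSA {X : Type} (A : Set (Op X)) : Prop where
  calg : IsCAlg A
  nontriv : IsNontriv A
  separable : ∃ S : Set (Op X), S.Countable ∧ A = cspan S
  absorbs : SelfAbsorbs A

/-- `A` has approximately inner half flip. -/
def HalfFlip {X : Type} (A : Set (Op X)) : Prop :=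
  ∃ φ₁ φ₂ : Op X → Op (X × X), IsFirst A φ₁ ∧ IsSecond A φ₂ ∧ AppUniEq A (tens A A) φ₁ φ₂

/-- `Z` is the Jiang–Su algebra, by Winter's characterisation: `Z` is strongly self-absorbing and
embeds unitally into every strongly self-absorbing C*-algebra.  (Strongly self-absorbing
C*-algebras have approximately inner half flip, so the clause `flip` is automatic.) -/
structure IsJiangSu {X : Type} (Z : Set (Op X)) : Prop where
  ssa : IsSSA Z
  flip : HalfFlip Z
  initial : ∀ (Y : Type) (D : Set (Op Y)), IsSSA D → ∃ φ, IsHom Z D φ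

/-- The vector state of `δ_x` is a tracial state of `A`. -/
def IsTraceVec {X : Type} (A : Set (Op X)) (x : X) : Prop :=
  ∀ a ∈ A, ∀ b ∈ A, coeff (a * b) x x = coeff (b * a) x x

/-- The unital C*-algebra generated by `S`. -/
def gen {X : Type} (S : Set (Op X)) : Set (Op X) := {T | ∀ V, IsCAlg V → S ⊆ V → T ∈ V}

/-- `s` is a sequence of isometries with mutually orthogonal ranges. -/
structure IsCuntzSeq {X : Type} (s : ℕ → Op X) : Prop where
  isom : ∀ n, star (s n) * s n = 1
  orth : ∀ m n, m ≠ n → star (s m) * s n = 0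

/-- `O` is the Cuntz algebra `𝒪_∞`: the C*-algebra generated by a sequence of isometries with
mutually orthogonal ranges. -/
def IsCuntzInf {X : Type} (O : Set (Op X)) : Prop :=
  ∃ s : ℕ → Op X, IsCuntzSeq s ∧ O = gen (Set.range s)

/-- `J` is a closed two-sided ideal of `B`. -/
structure IsIdeal {X : Type} (B J : Set (Op X)) : Prop where
  subspace : IsClosedSubspace J
  sub : J ⊆ B
  left : ∀ b ∈ B, ∀ a ∈ J, b * a ∈ J
  right : ∀ b ∈ B, ∀ a ∈ J, a * b ∈ J

/-- `B` is simple. -/
def IsSimpleAlg {X : Type} (B : Set (Op X)) : Prop := ∀ J, IsIdeal B J → J ⊆ {0} ∨ J = B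

/-- `a` is positive. -/
structure IsPos {X : Type} (a : Op X) : Prop where
  adj : star a = a
  nonneg : ∀ ξ : L2 X, 0 ≤ (⟪ξ, a ξ⟫_ℂ).re

/-- `A` is a hereditary C*-subalgebra of `B`. -/
structure IsHereditary {X : Type} (B A : Set (Op X)) : Prop where
  subspace : IsClosedSubspace A
  sub : A ⊆ B
  mul : ∀ a ∈ A, ∀ b ∈ A, a * b ∈ A
  adj : ∀ a ∈ A, star a ∈ A
  her : ∀ a ∈ A, ∀ b ∈ B, IsPos b → IsPos (a - b) → b ∈ A

/-- `p` is an infinite projection of `B`. -/
structure IsInfProj {X : Type} (B : Set (Op X)) (p : Op X) : Prop where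
  idem : p * p = p
  adj : star p = p
  infinite : ∃ v ∈ B, star v * v = p ∧ IsPos (p - v * star v) ∧ v * star v ≠ p

/-- `B` is purely infinite: every non-zero hereditary C*-subalgebra of `B` contains an infinite
projection. -/
def IsPurelyInf {X : Type} (B : Set (Op X)) : Prop :=
  ∀ A, IsHereditary B A → ¬ A ⊆ {0} → ∃ p ∈ A, IsInfProj B p

end H584ZDefs
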