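import Pool.Agent.H584R3.Bu7
import Pool.Agent.H584R3.ZDefs

/-!
Reindexing, creation operators, shift of tensor factors.
-/

open scoped InnerProductSpace ComplexConjugate

set_option linter.unusedSectionVars false

noncomputable section

namespace H584Z

open H584Bu
open H584Roe (L2 entry)
open H584BuDefs (cspan tens IsCAlg IsTensor)

section Re

variable {P Q : Type} [DecidableEq P] [DecidableEq Q]

theorem re_inj (e : P ≃ Q) : Function.Injective (fun q : Q => ((e.symm q, ()) : P × Unit)) := by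
  intro a b h
  simp only [Prod.mk.injEq, and_true] at h
  exact e.symm.injective h

/-- Reindexing of operators. -/
def re (e : P ≃ Q) : Op P →L[ℂ] Op Q := pull (fun q => (e.symm q, ())) (re_inj e)

theorem re_entry (e : P ≃ Q) (T : Op P) (q q' : Q) :
    entry (re e T) q q' = entry T (e.symm q) (e.symm q') := by
  unfold re
  rw [pull_entry]
  simp

theorem re_mul (e : P ≃ Q) (a b : Op P) : re e (a * b) = re e a * re e b := by
  unfold re
  rw [pull_mul_surj]
  rintro ⟨p, ⟨⟩⟩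
  exact ⟨e p, by simp⟩

theorem re_one (e : P ≃ Q) : re e (1 : Op P) = 1 := by
  unfold re
  rw [pull_one]

theorem re_star (e : P ≃ Q) (a : Op P) : re e (star a) = star (re e a) := by
  unfold re
  rw [pull_star]

theorem re_symm_re (e : P ≃ Q) (a : Op P) : re e.symm (re e a) = a := by
  apply op_ext
  intro i j
  rw [re_entry, re_entry]
  simp

theorem re_re_symm (e : P ≃ Q) (a : Op Q) : re e (re e.symm a) = a := by
  apply op_ext
  intro i j
  rw [re_entry, re_entry]
  simp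

theorem norm_re_le (e : P ≃ Q) (a : Op P) : ‖re e a‖ ≤ ‖a‖ := norm_pull _ _ a

theorem norm_re (e : P ≃ Q) (a : Op P) : ‖re e a‖ = ‖a‖ := by
  apply le_antisymm (norm_re_le e a)
  have h := norm_re_le e.symm (re e a)
  rwa [re_symm_re] at h

end Re

section Isometries

variable {P Q : Type} [DecidableEq P] [DecidableEq Q]

theorem Va_Vc (j : P → Q) (hj : Function.Injective j) (f : L2 P) : Va j hj (Vc j hj f) = f := by
  ext1; funext x
  rw [Va_apply, Vc_apply]

theorem op_ext_single {A B : L2 P →L[ℂ] L2 Q}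
    (h : ∀ p, A (lp.single 2 p (1 : ℂ)) = B (lp.single 2 p (1 : ℂ))) : A = B := by
  ext1 f
  have h1 := (lp.hasSum_single (E := fun _ : P => ℂ) (p := 2) (by norm_num) f)
  have h2 := A.hasSum h1
  have h3 := B.hasSum h1
  have h4 : ∀ p : P, A (lp.single 2 p (f p)) = B (lp.single 2 p (f p)) := by
    intro p
    have h4 : (lp.single 2 p (f p) : L2 P) = f p • lp.single 2 p (1 : ℂ) := by
      rw [← lp.single_smul]; simp
    rw [h4, map_smul, map_smul, h p]
  simp_rw [h4] at h2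
  exact h2.unique h3

theorem Vc_isom (j : P → P) (hj : Function.Injective j) : star (Vc j hj) * Vc j hj = 1 := by
  ext1 f
  have h1 : (star (Vc j hj) * Vc j hj) f = star (Vc j hj) (Vc j hj f) := rfl
  have h2 : star (Vc j hj) = Va j hj := rfl
  rw [h1, h2, Va_Vc, one_apply_eq_self]

end Isometries

section Seq

variable {X : Type} (x₀ : X)

/-- Sequences that are eventually `x₀`. -/
def YY : Type := {f : ℕ → X // {n | f n ≠ x₀}.Finite}

/-- First entry. -/
def yhd (f : YY x₀) : X := f.1 0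

/-- Tail. -/
def ytl (f : YY x₀) : YY x₀ := ⟨fun n => f.1 (n + 1), by
  have h : {n | f.1 (n + 1) ≠ x₀} = (fun n => n + 1) ⁻¹' {n | f.1 n ≠ x₀} := rfl
  rw [h]
  exact f.2.preimage (fun a _ b _ h => Nat.succ_injective h)⟩

/-- Cons. -/
def yco (x : X) (f : YY x₀) : YY x₀ := ⟨fun n => Nat.casesOn n x f.1, by
  have h : {n : ℕ | (Nat.casesOn n x f.1 : X) ≠ x₀} ⊆ {0} ∪ (fun n => n + 1) '' {n | f.1 n ≠ x₀} := by
    intro n hn
    cases n with
    | zero => left; rfl
    | succ n => right; exact ⟨n, hn, rfl⟩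
  exact (((Set.finite_singleton 0).union (f.2.image _))).subset h⟩

theorem yhd_yco (x : X) (f : YY x₀) : yhd x₀ (yco x₀ x f) = x := rfl
theorem ytl_yco (x : X) (f : YY x₀) : ytl x₀ (yco x₀ x f) = f := rfl
theorem yco_eta (f : YY x₀) : yco x₀ (yhd x₀ f) (ytl x₀ f) = f := by
  apply Subtype.ext
  funext n
  cases n <;> rfl

/-- The constant sequence. -/
def y0 : YY x₀ := ⟨fun _ => x₀, by simp⟩

theorem yco_y0 : yco x₀ x₀ (y0 x₀) = y0 x₀ := by
  apply Subtype.ext
  funext n
  cases n <;> rfl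

/-- The index set. -/
abbrev MM (I : Type) {X : Type} (x₀ : X) : Type := List I × YY x₀

noncomputable instance : DecidableEq (YY x₀) := Classical.decEq _

/-- The reindexing bijection. -/
def ee (I : Type) {X : Type} (x₀ : X) : MM I x₀ × X ≃ MM I x₀ where
  toFun p := (p.1.1, yco x₀ p.2 p.1.2)
  invFun m := ((m.1, ytl x₀ m.2), yhd x₀ m.2)
  left_inv p := rfl
  right_inv m := by
    change (m.1, yco x₀ (yhd x₀ m.2) (ytl x₀ m.2)) = m
    rw [yco_eta]

end Seq

section Main

variable {I X : Type} [DecidableEq I] [DecidableEq X] (x₀ : X)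

theorem Li_inj (i : I) : Function.Injective (fun m : MM I x₀ => ((i :: m.1, m.2) : MM I x₀)) := by
  rintro ⟨a, b⟩ ⟨c, d⟩ h
  simp only [Prod.mk.injEq, List.cons.injEq, true_and] at h
  exact Prod.ext h.1 h.2

/-- Creation operators. -/
def Li (i : I) : Op (MM I x₀) := Vc (fun m => (i :: m.1, m.2)) (Li_inj x₀ i)

theorem Li_single (i : I) (m : MM I x₀) :
    Li x₀ i (lp.single 2 m (1 : ℂ)) = lp.single 2 ((i :: m.1, m.2) : MM I x₀) (1 : ℂ) :=
  Vc_single _ _ m

theorem star_Li_apply (i : I) (f : L2 (MM I x₀)) (m : MM I x₀) :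
    (star (Li x₀ i) f : MM I x₀ → ℂ) m = (f : MM I x₀ → ℂ) (i :: m.1, m.2) := by
  exact Va_apply (fun m : MM I x₀ => (i :: m.1, m.2)) (Li_inj x₀ i) f m

theorem Li_isom (i : I) : star (Li x₀ i) * Li x₀ i = 1 :=
  Vc_isom (fun m : MM I x₀ => (i :: m.1, m.2)) (Li_inj x₀ i)

theorem Li_orth {i k : I} (h : i ≠ k) : star (Li x₀ i) * Li x₀ k = 0 := by
  apply op_ext
  intro m m'
  rw [entry_zero]
  change (star (Li x₀ i) (Li x₀ k (lp.single 2 m' (1 : ℂ))) : MM I x₀ → ℂ) m = 0
  rw [Li_single, star_Li_apply]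
  apply lp.single_apply_ne
  intro h2
  simp only [Prod.mk.injEq, List.cons.injEq] at h2
  exact h h2.1.1

theorem Li_entry (i : I) (m m' : MM I x₀) :
    entry (Li x₀ i) m m' = if m = (i :: m'.1, m'.2) then 1 else 0 := by
  unfold entry
  rw [Li_single, lp.single_apply]
  by_cases h : m = (i :: m'.1, m'.2)
  · rw [if_pos h]; subst h; simp
  · rw [if_neg h]; simp [h]

/-- The shift of the tensor factors. -/
def th (T : Op (MM I x₀)) : Op (MM I x₀) := re (ee I x₀) (tn T 1)

/-- The first tensor factor. -/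
def ka (a : Op X) : Op (MM I x₀) := re (ee I x₀) (tn 1 a)

/-- `T ⊗ a` reindexed. -/
def rt (T : Op (MM I x₀)) (a : Op X) : Op (MM I x₀) := re (ee I x₀) (tn T a)

theorem rt_mul (T T' : Op (MM I x₀)) (a a' : Op X) :
    rt x₀ T a * rt x₀ T' a' = rt x₀ (T * T') (a * a') := by
  unfold rt
  rw [← re_mul, tn_mul]

theorem rt_star (T : Op (MM I x₀)) (a : Op X) : star (rt x₀ T a) = rt x₀ (star T) (star a) := by
  unfold rt
  rw [← re_star, tn_star]

theorem rt_one : rt x₀ (1 : Op (MM I x₀)) 1 = 1 := by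
  unfold rt
  rw [tn_one, re_one]

theorem rt_add_left (T T' : Op (MM I x₀)) (a : Op X) :
    rt x₀ (T + T') a = rt x₀ T a + rt x₀ T' a := by
  unfold rt
  rw [tn_add_left, map_add]

theorem rt_smul_left (c : ℂ) (T : Op (MM I x₀)) (a : Op X) :
    rt x₀ (c • T) a = c • rt x₀ T a := by
  unfold rt
  rw [tn_smul_left, map_smul]

theorem rt_add_right (T : Op (MM I x₀)) (a a' : Op X) :
    rt x₀ T (a + a') = rt x₀ T a + rt x₀ T a' := by
  unfold rt
  rw [tn_add_right, map_add]

theorem rt_smul_right (c : ℂ) (T : Op (MM I x₀)) (a : Op X) :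
    rt x₀ T (c • a) = c • rt x₀ T a := by
  unfold rt
  rw [tn_smul_right, map_smul]

theorem norm_rt (T : Op (MM I x₀)) (a : Op X) : ‖rt x₀ T a‖ ≤ ‖T‖ * ‖a‖ := by
  unfold rt
  exact (norm_re_le _ _).trans (norm_tn T a)

theorem rt_entry (T : Op (MM I x₀)) (a : Op X) (m m' : MM I x₀) :
    entry (rt x₀ T a) m m' = entry T (m.1, ytl x₀ m.2) (m'.1, ytl x₀ m'.2) *
      entry a (yhd x₀ m.2) (yhd x₀ m'.2) := by
  unfold rt
  rw [re_entry]
  exact tn_entry T a (m.1, ytl x₀ m.2) (m'.1, ytl x₀ m'.2) (yhd x₀ m.2) (yhd x₀ m'.2)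

theorem ext_YY {f g : YY x₀} (h1 : yhd x₀ f = yhd x₀ g) (h2 : ytl x₀ f = ytl x₀ g) : f = g := by
  rw [← yco_eta x₀ f, ← yco_eta x₀ g, h1, h2]

theorem rt_Li (i : I) : rt x₀ (Li x₀ i) 1 = Li x₀ i := by
  apply op_ext
  rintro ⟨w, f⟩ ⟨w', f'⟩
  rw [rt_entry, Li_entry, Li_entry, entry_one]
  by_cases h1 : w = i :: w'
  · by_cases h2 : ytl x₀ f = ytl x₀ f'
    · by_cases h3 : yhd x₀ f = yhd x₀ f'
      · have h4 := ext_YY x₀ h3 h2
        subst h4; subst h1
        simp
      · have h4 : f ≠ f' := fun h => h3 (by rw [h])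
        simp [h3, h4]
    · have h4 : f ≠ f' := fun h => h2 (by rw [h])
      simp [h2, h4]
  · simp [h1]

theorem rt_ka (a : Op X) : rt x₀ (1 : Op (MM I x₀)) a = ka x₀ a := rfl

end Main

end H584Z
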