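import Pool.Agent.H584R3.Z1

/-!
The algebra `𝒪_I ⊗ Z^{⊗ ∞}`: spanning words, support, slices.
-/

open scoped InnerProductSpace ComplexConjugate

set_option linter.unusedSectionVars false

noncomputable section

namespace H584Z

open H584Bu
open H584Roe (L2 entry)
open H584BuDefs (cspan tens IsCAlg IsTensor)
open H584ZDefs (gen)

section Words

variable {I X : Type} [DecidableEq I] [DecidableEq X] (x₀ : X)

/-- Products over the tensor factors. -/
def pw (I : Type) [DecidableEq I] {X : Type} [DecidableEq X] (x₀ : X) :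
    List (Op X) → Op (MM I x₀)
  | [] => 1
  | a :: l => rt x₀ (pw I x₀ l) a

theorem pw_nil : pw I x₀ [] = 1 := rfl
theorem pw_cons (a : Op X) (l : List (Op X)) : pw I x₀ (a :: l) = rt x₀ (pw I x₀ l) a := rfl

/-- The set of products. -/
def DW (I : Type) [DecidableEq I] {X : Type} [DecidableEq X] (x₀ : X) (Z : Set (Op X)) :
    Set (Op (MM I x₀)) := {T | ∃ l : List (Op X), (∀ a ∈ l, a ∈ Z) ∧ T = pw I x₀ l}

variable {Z : Set (Op X)} (hZ : IsCAlg Z)

theorem DW_one : (1 : Op (MM I x₀)) ∈ DW I x₀ Z := ⟨[], by simp, rfl⟩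

include hZ in
theorem DW_zero : (0 : Op (MM I x₀)) ∈ DW I x₀ Z := by
  refine ⟨[0], ?_, ?_⟩
  · intro a ha
    rw [List.mem_singleton] at ha
    subst ha
    exact hZ.subspace.zero
  · rw [pw_cons]
    have h : rt x₀ (pw I x₀ []) (0 : Op X) = rt x₀ (pw I x₀ []) ((0 : ℂ) • (0 : Op X)) := by
      rw [zero_smul]
    rw [h, rt_smul_right, zero_smul]

include hZ in
theorem DW_mul : ∀ a ∈ DW I x₀ Z, ∀ b ∈ DW I x₀ Z, a * b ∈ DW I x₀ Z := by
  rintro _ ⟨l, hl, rfl⟩ _ ⟨l', hl', rfl⟩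
  induction l generalizing l' with
  | nil => rw [pw_nil, one_mul]; exact ⟨l', hl', rfl⟩
  | cons a l ih =>
    cases l' with
    | nil => rw [pw_nil, mul_one]; exact ⟨a :: l, hl, rfl⟩
    | cons b l' =>
      obtain ⟨l2, hl2, h2⟩ := ih (fun x hx => hl x (List.mem_cons_of_mem _ hx)) l'
        (fun x hx => hl' x (List.mem_cons_of_mem _ hx))
      refine ⟨a * b :: l2, ?_, ?_⟩
      · intro x hx
        rcases List.mem_cons.1 hx with rfl | hx
        · exact hZ.mul _ (hl a (List.mem_cons_self)) _ (hl' b (List.mem_cons_self))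
        · exact hl2 x hx
      · rw [pw_cons, pw_cons, pw_cons, rt_mul, h2]

include hZ in
theorem DW_star : ∀ a ∈ DW I x₀ Z, star a ∈ DW I x₀ Z := by
  rintro _ ⟨l, hl, rfl⟩
  refine ⟨l.map star, ?_, ?_⟩
  · intro a ha
    obtain ⟨b, hb, rfl⟩ := List.mem_map.1 ha
    exact hZ.adj _ (hl b hb)
  · clear hl
    induction l with
    | nil => rw [List.map_nil, pw_nil, star_one]
    | cons a l ih => rw [List.map_cons, pw_cons, pw_cons, rt_star, ih]

theorem Li_comm_pw (i : I) (l : List (Op X)) :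
    Li x₀ i * pw I x₀ l = pw I x₀ l * Li x₀ i := by
  induction l with
  | nil => rw [pw_nil, mul_one, one_mul]
  | cons a l ih =>
    rw [pw_cons]
    conv_lhs => rw [← rt_Li x₀ i]
    conv_rhs => rw [← rt_Li x₀ i]
    rw [rt_mul, rt_mul, ih, one_mul, mul_one]

theorem Li_comm {T : Op (MM I x₀)} (hT : T ∈ DW I x₀ Z) (i : I) :
    Li x₀ i * T = T * Li x₀ i := by
  obtain ⟨l, _, rfl⟩ := hT
  exact Li_comm_pw x₀ i l

include hZ in
theorem star_Li_comm {T : Op (MM I x₀)} (hT : T ∈ DW I x₀ Z) (i : I) :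
    star (Li x₀ i) * T = T * star (Li x₀ i) := by
  have h := Li_comm x₀ (DW_star x₀ hZ T hT) i
  have h2 := congrArg star h
  rw [star_mul, star_mul, star_star] at h2
  exact h2.symm

/-- Words in the creation operators. -/
def Lw : List I → Op (MM I x₀)
  | [] => 1
  | i :: μ => Li x₀ i * Lw μ

theorem Lw_nil : Lw x₀ ([] : List I) = 1 := rfl
theorem Lw_cons (i : I) (μ : List I) : Lw x₀ (i :: μ) = Li x₀ i * Lw x₀ μ := rfl

theorem Lw_append (μ ν : List I) : Lw x₀ (μ ++ ν) = Lw x₀ μ * Lw x₀ ν := by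
  induction μ with
  | nil => rw [List.nil_append, Lw_nil, one_mul]
  | cons i μ ih => rw [List.cons_append, Lw_cons, Lw_cons, ih, mul_assoc]

theorem Lw_comm {T : Op (MM I x₀)} (hT : T ∈ DW I x₀ Z) (μ : List I) :
    Lw x₀ μ * T = T * Lw x₀ μ := by
  induction μ with
  | nil => rw [Lw_nil, mul_one, one_mul]
  | cons i μ ih => rw [Lw_cons, mul_assoc, ih, ← mul_assoc, Li_comm x₀ hT, mul_assoc]

include hZ in
theorem star_Lw_comm {T : Op (MM I x₀)} (hT : T ∈ DW I x₀ Z) (μ : List I) :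
    star (Lw x₀ μ) * T = T * star (Lw x₀ μ) := by
  have h := Lw_comm x₀ (DW_star x₀ hZ T hT) μ
  have h2 := congrArg star h
  rw [star_mul, star_mul, star_star] at h2
  exact h2.symm

theorem Lw_isom (μ : List I) : star (Lw x₀ μ) * Lw x₀ μ = 1 := by
  induction μ with
  | nil => rw [Lw_nil, star_one, one_mul]
  | cons i μ ih =>
    rw [Lw_cons, star_mul, mul_assoc, ← mul_assoc (star (Li x₀ i)), Li_isom, one_mul, ih]

/-- Reduction of `L_ν^* L_μ`. -/
theorem star_Lw_Lw (J : Set I) (ν μ : List I) (hν : ∀ i ∈ ν, i ∈ J) (hμ : ∀ i ∈ μ, i ∈ J) :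
    star (Lw x₀ ν) * Lw x₀ μ = 0 ∨
      (∃ σ : List I, (∀ i ∈ σ, i ∈ J) ∧ star (Lw x₀ ν) * Lw x₀ μ = Lw x₀ σ) ∨
      ∃ σ : List I, (∀ i ∈ σ, i ∈ J) ∧ star (Lw x₀ ν) * Lw x₀ μ = star (Lw x₀ σ) := by
  induction ν generalizing μ with
  | nil => right; left; exact ⟨μ, hμ, by rw [Lw_nil, star_one, one_mul]⟩
  | cons i ν ih =>
    cases μ with
    | nil => right; right; exact ⟨i :: ν, hν, by rw [Lw_nil, mul_one]⟩
    | cons k μ =>
      have h1 : star (Lw x₀ (i :: ν)) * Lw x₀ (k :: μ) =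
          star (Lw x₀ ν) * (star (Li x₀ i) * Li x₀ k) * Lw x₀ μ := by
        rw [Lw_cons, Lw_cons, star_mul]; simp only [mul_assoc]
      by_cases h : i = k
      · subst h
        rw [h1, Li_isom, mul_one]
        exact ih μ (fun x hx => hν x (List.mem_cons_of_mem _ hx))
          (fun x hx => hμ x (List.mem_cons_of_mem _ hx))
      · left
        rw [h1, Li_orth x₀ h, mul_zero, zero_mul]

/-- Spanning words with letters in `J`. -/
def BW (x₀ : X) (Z : Set (Op X)) (J : Set I) : Set (Op (MM I x₀)) :=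
  {S | ∃ μ ν : List I, (∀ i ∈ μ, i ∈ J) ∧ (∀ i ∈ ν, i ∈ J) ∧ ∃ T ∈ DW I x₀ Z,
    S = Lw x₀ μ * star (Lw x₀ ν) * T}

theorem BW_one (J : Set I) : (1 : Op (MM I x₀)) ∈ BW x₀ Z J :=
  ⟨[], [], by simp, by simp, 1, DW_one x₀, by rw [Lw_nil, star_one, one_mul, one_mul]⟩

theorem append_mem {J : Set I} {μ ν : List I} (hμ : ∀ i ∈ μ, i ∈ J) (hν : ∀ i ∈ ν, i ∈ J) :
    ∀ i ∈ μ ++ ν, i ∈ J := by
  intro i hi
  rcases List.mem_append.1 hi with h | h
  · exact hμ i h
  · exact hν i h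

include hZ in
theorem BW_mul (J : Set I) : ∀ a ∈ BW x₀ Z J, ∀ b ∈ BW x₀ Z J, a * b ∈ BW x₀ Z J := by
  rintro _ ⟨μ, ν, hμ, hν, T, hT, rfl⟩ _ ⟨μ', ν', hμ', hν', T', hT', rfl⟩
  have h1 : Lw x₀ μ * star (Lw x₀ ν) * T * (Lw x₀ μ' * star (Lw x₀ ν') * T') =
      Lw x₀ μ * (star (Lw x₀ ν) * Lw x₀ μ') * star (Lw x₀ ν') * (T * T') := by
    have h2 : T * (Lw x₀ μ' * star (Lw x₀ ν') * T') = Lw x₀ μ' * star (Lw x₀ ν') * (T * T') := by
      rw [← mul_assoc, ← mul_assoc, ← Lw_comm x₀ hT, mul_assoc (Lw x₀ μ') T,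
        ← star_Lw_comm x₀ hZ hT]
      simp only [mul_assoc]
    rw [mul_assoc, h2]
    simp only [mul_assoc]
  rw [h1]
  rcases star_Lw_Lw x₀ J ν μ' hν hμ' with h | ⟨σ, hσ, h⟩ | ⟨σ, hσ, h⟩
  · rw [h, mul_zero, zero_mul, zero_mul]
    exact ⟨[], [], by simp, by simp, 0, DW_zero x₀ hZ, by rw [mul_zero]⟩
  · rw [h]
    refine ⟨μ ++ σ, ν', append_mem hμ hσ, hν', T * T', DW_mul x₀ hZ _ hT _ hT', ?_⟩
    rw [Lw_append]
  · rw [h]
    refine ⟨μ, ν' ++ σ, hμ, append_mem hν' hσ, T * T', DW_mul x₀ hZ _ hT _ hT', ?_⟩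
    rw [Lw_append, star_mul]
    simp only [mul_assoc]

include hZ in
theorem BW_star (J : Set I) : ∀ a ∈ BW x₀ Z J, star a ∈ BW x₀ Z J := by
  rintro _ ⟨μ, ν, hμ, hν, T, hT, rfl⟩
  refine ⟨ν, μ, hν, hμ, star T, DW_star x₀ hZ _ hT, ?_⟩
  rw [star_mul, star_mul, star_star, ← mul_assoc, ← Lw_comm x₀ (DW_star x₀ hZ _ hT), mul_assoc,
    ← star_Lw_comm x₀ hZ (DW_star x₀ hZ _ hT), mul_assoc]

/-- The algebra with letters in `J`. -/
def BJ (x₀ : X) (Z : Set (Op X)) (J : Set I) : Set (Op (MM I x₀)) := cspan (BW x₀ Z J)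

/-- The algebra of the tensor factors. -/
def DD (I : Type) [DecidableEq I] (x₀ : X) (Z : Set (Op X)) : Set (Op (MM I x₀)) :=
  cspan (DW I x₀ Z)

include hZ in
theorem BJ_calg (J : Set I) : IsCAlg (BJ x₀ Z J) :=
  calg_of_gen (BW_one x₀ J) (BW_mul x₀ hZ J) (BW_star x₀ hZ J)

include hZ in
theorem DD_calg : IsCAlg (DD I x₀ Z) :=
  calg_of_gen (DW_one x₀) (DW_mul x₀ hZ) (DW_star x₀ hZ)

theorem DD_sub_BJ (J : Set I) : DD I x₀ Z ⊆ BJ x₀ Z J :=
  cspan_le (cspan_csub _) fun T hT => subset_cspan _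
    ⟨[], [], by simp, by simp, T, hT, by rw [Lw_nil, star_one, one_mul, one_mul]⟩

theorem BJ_mono {J K : Set I} (h : J ⊆ K) : BJ x₀ Z J ⊆ BJ x₀ Z K :=
  cspan_le (cspan_csub _) fun T hT => by
    obtain ⟨μ, ν, hμ, hν, T, hT, rfl⟩ := hT
    exact subset_cspan _ ⟨μ, ν, fun i hi => h (hμ i hi), fun i hi => h (hν i hi), T, hT, rfl⟩

theorem Li_mem {J : Set I} {i : I} (h : i ∈ J) : Li x₀ i ∈ BJ x₀ Z J :=
  subset_cspan _ ⟨[i], [], by simpa using h, by simp, 1, DW_one x₀, by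
    rw [Lw_cons, Lw_nil, star_one, mul_one, mul_one, mul_one]⟩

theorem Lw_mem {J : Set I} {μ : List I} (h : ∀ i ∈ μ, i ∈ J) : Lw x₀ μ ∈ BJ x₀ Z J :=
  subset_cspan _ ⟨μ, [], h, by simp, 1, DW_one x₀, by
    rw [Lw_nil, star_one, mul_one, mul_one]⟩

/-- Elements of the algebra have countable support. -/
theorem exists_support {b : Op (MM I x₀)} (hb : b ∈ BJ x₀ Z Set.univ) :
    ∃ J : Set I, J.Countable ∧ b ∈ BJ x₀ Z J := by
  have h1 : CSub {b : Op (MM I x₀) | ∃ J : Set I, J.Countable ∧ b ∈ BJ x₀ Z J} := by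
    refine ⟨⟨∅, Set.countable_empty, (cspan_csub _).zero⟩, ?_, ?_, ?_⟩
    · rintro a ⟨J, hJ, ha⟩ b ⟨K, hK, hb⟩
      exact ⟨J ∪ K, hJ.union hK, (cspan_csub _).add _ (BJ_mono x₀ Set.subset_union_left ha) _
        (BJ_mono x₀ Set.subset_union_right hb)⟩
    · rintro c a ⟨J, hJ, ha⟩
      exact ⟨J, hJ, (cspan_csub _).smul c _ ha⟩
    · apply isClosed_of_closure_subset
      intro b hb
      obtain ⟨s, hs, hlim⟩ := mem_closure_iff_seq_limit.1 hb
      choose J hJ hJs using hs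
      refine ⟨⋃ n, J n, Set.countable_iUnion hJ, ?_⟩
      exact (cspan_csub _).closed.mem_of_tendsto hlim (Filter.Eventually.of_forall fun n =>
        BJ_mono x₀ (Set.subset_iUnion J n) (hJs n))
  refine cspan_le h1 ?_ hb
  rintro _ ⟨μ, ν, hμ, hν, T, hT, rfl⟩
  refine ⟨{i | i ∈ μ} ∪ {i | i ∈ ν}, ?_, ?_⟩
  · exact (List.finite_toSet μ).countable.union (List.finite_toSet ν).countable
  · exact subset_cspan _ ⟨μ, ν, fun i hi => Or.inl hi, fun i hi => Or.inr hi, T, hT, rfl⟩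

theorem star_Li_Lw {j : I} {μ : List I} (hμ : ∀ i ∈ μ, i ≠ j) (hne : μ ≠ []) :
    star (Li x₀ j) * Lw x₀ μ = 0 := by
  cases μ with
  | nil => exact absurd rfl hne
  | cons i μ =>
    rw [Lw_cons, ← mul_assoc, Li_orth x₀ (hμ i (List.mem_cons_self)).symm, zero_mul]

theorem entry_Li_mul (i : I) (S : Op (MM I x₀)) (f : YY x₀) (m : MM I x₀) :
    entry (Li x₀ i * S) ([], f) m = 0 := by
  have h : entry (Li x₀ i * S) ([], f) m =
      (Li x₀ i (S (lp.single 2 m (1 : ℂ))) : MM I x₀ → ℂ) ([], f) := rfl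
  rw [h]
  apply Vc_apply_ne
  intro x hx
  simp at hx

theorem entry_Lw_mul {μ : List I} (hμ : μ ≠ []) (S : Op (MM I x₀)) (f : YY x₀) (m : MM I x₀) :
    entry (Lw x₀ μ * S) ([], f) m = 0 := by
  cases μ with
  | nil => exact absurd rfl hμ
  | cons i μ => rw [Lw_cons, mul_assoc, entry_Li_mul]

theorem entry_mul_star_Lw {μ : List I} (hμ : μ ≠ []) (S : Op (MM I x₀)) (f : YY x₀)
    (m : MM I x₀) : entry (S * star (Lw x₀ μ)) m ([], f) = 0 := by
  have h : entry (S * star (Lw x₀ μ)) m ([], f) =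
      conj (entry (star (S * star (Lw x₀ μ))) ([], f) m) := by
    rw [entry_star]; simp
  rw [h, star_mul, star_star, entry_Lw_mul x₀ hμ, map_zero]

/-- A fresh creation operator implements the slice map. -/
theorem slice {J : Set I} {j : I} (hj : j ∉ J) {b : Op (MM I x₀)} (hb : b ∈ BJ x₀ Z J)
    (hZ : IsCAlg Z) :
    star (Li x₀ j) * b * Li x₀ j ∈ DD I x₀ Z ∧ ∀ f f' : YY x₀,
      entry (star (Li x₀ j) * b * Li x₀ j) ([], f) ([], f') = entry b ([], f) ([], f') := by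
  have hcont : Continuous fun b : Op (MM I x₀) => star (Li x₀ j) * b * Li x₀ j :=
    (continuous_const.mul continuous_id).mul continuous_const
  have hentry : ∀ f f' : YY x₀, Continuous fun b : Op (MM I x₀) => entry b ([], f) ([], f') := by
    intro f f'
    have h : LipschitzWith 1 fun b : Op (MM I x₀) => entry b ([], f) ([], f') := by
      apply LipschitzWith.of_dist_le_mul
      intro a b
      rw [dist_eq_norm, dist_eq_norm, ← entry_sub']
      simpa using norm_entry_le (a - b) ([], f) ([], f')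
    exact h.continuous
  have h1 : CSub {b : Op (MM I x₀) | star (Li x₀ j) * b * Li x₀ j ∈ DD I x₀ Z ∧
      ∀ f f' : YY x₀, entry (star (Li x₀ j) * b * Li x₀ j) ([], f) ([], f') =
        entry b ([], f) ([], f')} := by
    refine ⟨?_, ?_, ?_, ?_⟩
    · refine ⟨?_, ?_⟩
      · rw [mul_zero, zero_mul]; exact (cspan_csub _).zero
      · intro f f'; rw [mul_zero, zero_mul]
    · rintro a ⟨ha, ha'⟩ b ⟨hb, hb'⟩
      have e : star (Li x₀ j) * (a + b) * Li x₀ j =
          star (Li x₀ j) * a * Li x₀ j + star (Li x₀ j) * b * Li x₀ j := by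
        rw [mul_add, add_mul]
      refine ⟨?_, ?_⟩
      · rw [e]; exact (cspan_csub _).add _ ha _ hb
      · intro f f'; rw [e, entry_add, entry_add, ha', hb']
    · rintro c a ⟨ha, ha'⟩
      have e : star (Li x₀ j) * (c • a) * Li x₀ j = c • (star (Li x₀ j) * a * Li x₀ j) := by
        rw [mul_smul_comm, smul_mul_assoc]
      refine ⟨?_, ?_⟩
      · rw [e]; exact (cspan_csub _).smul _ _ ha
      · intro f f'; rw [e, entry_smul, entry_smul, ha']
    · apply IsClosed.inter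
      · exact (cspan_csub _).closed.preimage hcont
      · have e : {b : Op (MM I x₀) | ∀ f f' : YY x₀,
            entry (star (Li x₀ j) * b * Li x₀ j) ([], f) ([], f') = entry b ([], f) ([], f')} =
            ⋂ f : YY x₀, ⋂ f' : YY x₀, {b : Op (MM I x₀) |
              entry (star (Li x₀ j) * b * Li x₀ j) ([], f) ([], f') =
                entry b ([], f) ([], f')} := by
          ext b; simp
        have h2 : IsClosed {b : Op (MM I x₀) | ∀ f f' : YY x₀,
            entry (star (Li x₀ j) * b * Li x₀ j) ([], f) ([], f') =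
              entry b ([], f) ([], f')} := by
          rw [e]
          exact isClosed_iInter fun f => isClosed_iInter fun f' =>
            isClosed_eq ((hentry f f').comp hcont) (hentry f f')
        exact h2
  refine cspan_le h1 ?_ hb
  rintro _ ⟨μ, ν, hμ, hν, T, hT, rfl⟩
  have hμ' : ∀ i ∈ μ, i ≠ j := fun i hi h => hj (h ▸ hμ i hi)
  have hν' : ∀ i ∈ ν, i ≠ j := fun i hi h => hj (h ▸ hν i hi)
  have e1 : star (Li x₀ j) * (Lw x₀ μ * star (Lw x₀ ν) * T) * Li x₀ j =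
      (star (Li x₀ j) * Lw x₀ μ) * (star (Lw x₀ ν) * Li x₀ j) * T := by
    rw [mul_assoc, mul_assoc _ T, ← Li_comm x₀ hT]
    simp only [mul_assoc]
  by_cases hμ0 : μ = []
  · by_cases hν0 : ν = []
    · subst hμ0; subst hν0
      have e2 : star (Li x₀ j) * (Lw x₀ [] * star (Lw x₀ []) * T) * Li x₀ j = T := by
        rw [e1, Lw_nil, star_one, mul_one, one_mul, Li_isom, one_mul]
      refine ⟨?_, ?_⟩
      · rw [e2]; exact subset_cspan _ hT
      · intro f f'
        rw [e2, Lw_nil, star_one, one_mul, one_mul]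
    · have e3 : star (Lw x₀ ν) * Li x₀ j = 0 := by
        have h := congrArg star (star_Li_Lw x₀ hν' hν0)
        rwa [star_mul, star_star, star_zero] at h
      have e2 : star (Li x₀ j) * (Lw x₀ μ * star (Lw x₀ ν) * T) * Li x₀ j = 0 := by
        rw [e1, e3, mul_zero, zero_mul]
      refine ⟨?_, ?_⟩
      · rw [e2]; exact (cspan_csub _).zero
      · intro f f'
        rw [e2, entry_zero, mul_assoc, star_Lw_comm x₀ hZ hT, ← mul_assoc,
          entry_mul_star_Lw x₀ hν0]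
  · have e2 : star (Li x₀ j) * (Lw x₀ μ * star (Lw x₀ ν) * T) * Li x₀ j = 0 := by
      rw [e1, star_Li_Lw x₀ hμ' hμ0, zero_mul, zero_mul]
    refine ⟨?_, ?_⟩
    · rw [e2]; exact (cspan_csub _).zero
    · intro f f'
      rw [e2, entry_zero, mul_assoc, entry_Lw_mul x₀ hμ0]

end Words

end H584Z
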