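import Pool.Agent.H584R3.Z2

/-!
Averaging: approximately inner half flip implies that vector states are excised by finite sums.
-/

open scoped InnerProductSpace ComplexConjugate

set_option linter.unusedSectionVars false

noncomputable section

namespace H584Z

open H584Bu
open H584Roe (L2 entry)
open H584BuDefs (cspan tens IsCAlg IsTensor)
open H584ZDefs

section Approx

variable {P Q : Type} [DecidableEq P] [DecidableEq Q]

theorem cspan_sub_closure (S : Set (Op P)) :
    cspan S ⊆ closure (Submodule.span ℂ S : Set (Op P)) := by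
  have h : CSub (closure (Submodule.span ℂ S : Set (Op P))) :=
    { zero := subset_closure (Submodule.zero_mem _)
      add := fun a ha b hb =>
        (Submodule.span ℂ S).topologicalClosure.add_mem (x := a) (y := b) ha hb
      smul := fun c a ha => (Submodule.span ℂ S).topologicalClosure.smul_mem c (x := a) ha
      closed := isClosed_closure }
  exact cspan_le h (Submodule.subset_span.trans subset_closure)

/-- Finite sums of elementary tensors. -/
def FS (A : Set (Op P)) (B : Set (Op Q)) : Set (Op (P × Q)) :=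
  {T | ∃ (n : ℕ) (α : Fin n → Op P) (β : Fin n → Op Q), (∀ i, α i ∈ A) ∧ (∀ i, β i ∈ B) ∧
    T = ∑ i, tn (α i) (β i)}

theorem tens_sub_closure {A : Set (Op P)} {B : Set (Op Q)} (hA : IsCAlg A) :
    tens A B ⊆ closure (FS A B) := by
  rw [tens_eq]
  refine (cspan_sub_closure _).trans (closure_mono ?_)
  intro T hT
  induction hT using Submodule.span_induction with
  | mem x hx =>
    obtain ⟨a, ha, b, hb, rfl⟩ := hx
    exact ⟨1, fun _ => a, fun _ => b, fun _ => ha, fun _ => hb, by simp⟩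
  | zero => exact ⟨0, Fin.elim0, Fin.elim0, fun i => i.elim0, fun i => i.elim0, by simp⟩
  | add x y _ _ hx hy =>
    obtain ⟨n, α, β, hα, hβ, rfl⟩ := hx
    obtain ⟨m, γ, δ, hγ, hδ, rfl⟩ := hy
    refine ⟨n + m, Fin.append α γ, Fin.append β δ, ?_, ?_, ?_⟩
    · intro i
      refine Fin.addCases (fun i => ?_) (fun i => ?_) i
      · rw [Fin.append_left]; exact hα i
      · rw [Fin.append_right]; exact hγ i
    · intro i
      refine Fin.addCases (fun i => ?_) (fun i => ?_) i
      · rw [Fin.append_left]; exact hβ i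
      · rw [Fin.append_right]; exact hδ i
    · rw [Fin.sum_univ_add]
      simp
  | smul c x _ hx =>
    obtain ⟨n, α, β, hα, hβ, rfl⟩ := hx
    refine ⟨n, fun i => c • α i, β, fun i => hA.subspace.smul c _ (hα i), hβ, ?_⟩
    rw [Finset.smul_sum]
    simp only [tn_smul_left]

end Approx

section Norm

variable {P : Type} [DecidableEq P]

/-- The sum `∑ Aᵢ^* y Aᵢ` is bounded by `‖∑ Aᵢ^* Aᵢ‖ ‖y‖`. -/
theorem norm_sum_conj {ι : Type} [Fintype ι] (A : ι → Op P) (y : Op P) :
    ‖∑ i, star (A i) * y * A i‖ ≤ ‖∑ i, star (A i) * A i‖ * ‖y‖ := by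
  have hsq : ∀ ξ : L2 P, ∑ i, ‖A i ξ‖ ^ 2 ≤ ‖∑ i, star (A i) * A i‖ * ‖ξ‖ ^ 2 := by
    intro ξ
    have h1 : ((∑ i, ‖A i ξ‖ ^ 2 : ℝ) : ℂ) = ⟪ξ, (∑ i, star (A i) * A i) ξ⟫_ℂ := by
      have h2 : (∑ i, star (A i) * A i) ξ = ∑ i, (star (A i)) (A i ξ) := by
        rw [sum_apply]; rfl
      rw [h2, inner_sum]
      push_cast
      refine Finset.sum_congr rfl fun i _ => ?_
      rw [ContinuousLinearMap.star_eq_adjoint, ContinuousLinearMap.adjoint_inner_right,
        inner_self_eq_norm_sq_to_K]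
      rfl
    have h3 : |∑ i, ‖A i ξ‖ ^ 2| ≤ ‖∑ i, star (A i) * A i‖ * ‖ξ‖ ^ 2 := by
      have h4 : |∑ i, ‖A i ξ‖ ^ 2| = ‖((∑ i, ‖A i ξ‖ ^ 2 : ℝ) : ℂ)‖ := by
        rw [Complex.norm_real]; rfl
      rw [h4, h1]
      refine (norm_inner_le_norm _ _).trans ?_
      calc ‖ξ‖ * ‖(∑ i, star (A i) * A i) ξ‖ ≤ ‖ξ‖ * (‖∑ i, star (A i) * A i‖ * ‖ξ‖) :=
            mul_le_mul_of_nonneg_left (ContinuousLinearMap.le_opNorm _ _) (norm_nonneg _)
        _ = ‖∑ i, star (A i) * A i‖ * ‖ξ‖ ^ 2 := by ring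
    exact (le_abs_self _).trans h3
  set K := ‖∑ i, star (A i) * A i‖ with hK
  refine ContinuousLinearMap.opNorm_le_bound _ (by positivity) fun ξ => ?_
  -- bound the norm by testing against a vector
  set η := (∑ i, star (A i) * y * A i) ξ with hη
  have h1 : ‖η‖ ^ 2 ≤ K * ‖y‖ * ‖ξ‖ * ‖η‖ := by
    have h2 : ((‖η‖ ^ 2 : ℝ) : ℂ) = ∑ i, ⟪A i η, y (A i ξ)⟫_ℂ := by
      have h3 : ((‖η‖ ^ 2 : ℝ) : ℂ) = ⟪η, η⟫_ℂ := by
        rw [inner_self_eq_norm_sq_to_K]; push_cast; rfl
      rw [h3]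
      change ⟪η, (∑ i, star (A i) * y * A i) ξ⟫_ℂ = _
      rw [sum_apply, inner_sum]
      refine Finset.sum_congr rfl fun i _ => ?_
      have h4 : (star (A i) * y * A i) ξ = star (A i) (y (A i ξ)) := rfl
      rw [h4, ContinuousLinearMap.star_eq_adjoint, ContinuousLinearMap.adjoint_inner_right]
    have h5 : ‖η‖ ^ 2 ≤ ∑ i, ‖A i η‖ * (‖y‖ * ‖A i ξ‖) := by
      have h6 : ‖η‖ ^ 2 = ‖((‖η‖ ^ 2 : ℝ) : ℂ)‖ := by
        rw [Complex.norm_real, Real.norm_of_nonneg (by positivity)]
      rw [h6, h2]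
      refine (norm_sum_le _ _).trans (Finset.sum_le_sum fun i _ => ?_)
      refine (norm_inner_le_norm _ _).trans ?_
      exact mul_le_mul_of_nonneg_left (y.le_opNorm _) (norm_nonneg _)
    refine h5.trans ?_
    have h7 : ∑ i, ‖A i η‖ * (‖y‖ * ‖A i ξ‖) = ‖y‖ * ∑ i, ‖A i η‖ * ‖A i ξ‖ := by
      rw [Finset.mul_sum]
      exact Finset.sum_congr rfl fun i _ => by ring
    have h8 : ∑ i, ‖A i η‖ * ‖A i ξ‖ ≤ Real.sqrt (∑ i, ‖A i η‖ ^ 2) *
        Real.sqrt (∑ i, ‖A i ξ‖ ^ 2) := Real.sum_mul_le_sqrt_mul_sqrt _ _ _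
    have h9 : Real.sqrt (∑ i, ‖A i η‖ ^ 2) * Real.sqrt (∑ i, ‖A i ξ‖ ^ 2) ≤
        Real.sqrt (K * ‖η‖ ^ 2) * Real.sqrt (K * ‖ξ‖ ^ 2) :=
      mul_le_mul (Real.sqrt_le_sqrt (hsq η)) (Real.sqrt_le_sqrt (hsq ξ)) (Real.sqrt_nonneg _)
        (Real.sqrt_nonneg _)
    have hK0 : 0 ≤ K := norm_nonneg _
    have h10 : Real.sqrt (K * ‖η‖ ^ 2) * Real.sqrt (K * ‖ξ‖ ^ 2) = K * (‖η‖ * ‖ξ‖) := by
      rw [Real.sqrt_mul hK0, Real.sqrt_mul hK0, Real.sqrt_sq (norm_nonneg _),
        Real.sqrt_sq (norm_nonneg _)]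
      have := Real.mul_self_sqrt hK0
      linear_combination (‖η‖ * ‖ξ‖) * this
    rw [h7]
    calc ‖y‖ * ∑ i, ‖A i η‖ * ‖A i ξ‖ ≤ ‖y‖ * (K * (‖η‖ * ‖ξ‖)) := by
          rw [← h10]
          exact mul_le_mul_of_nonneg_left (h8.trans h9) (norm_nonneg _)
      _ = K * ‖y‖ * ‖ξ‖ * ‖η‖ := by ring
  rcases (norm_nonneg η).lt_or_eq with h | h
  · have h2 : ‖η‖ * ‖η‖ ≤ (K * ‖y‖ * ‖ξ‖) * ‖η‖ := by rw [← sq]; exact h1
    exact le_of_mul_le_mul_right h2 h
  · rw [← h]; positivity

end Norm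

section Slice

variable {X : Type} [DecidableEq X]

theorem col_inj (x : X) : Function.Injective (fun p : X => (p, x)) := fun a b h => by
  simpa using h

/-- Compression to the column `x` of the second factor. -/
def sl (x : X) (T : Op (X × X)) : Op X :=
  (Va (fun p : X => (p, x)) (col_inj x)).comp (T.comp (Vc (fun p : X => (p, x)) (col_inj x)))

theorem sl_entry (x : X) (T : Op (X × X)) (p q : X) :
    entry (sl x T) p q = entry T (p, x) (q, x) := by
  unfold entry sl
  change (Va (fun p : X => (p, x)) (col_inj x) (T (Vc (fun p : X => (p, x)) (col_inj x)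
    (lp.single 2 q (1 : ℂ)))) : X → ℂ) p = _
  rw [Va_apply, Vc_single]

theorem sl_sub (x : X) (S T : Op (X × X)) : sl x (S - T) = sl x S - sl x T := by
  apply op_ext
  intro p q
  rw [entry_sub', sl_entry, sl_entry, sl_entry, entry_sub']

theorem norm_sl (x : X) (T : Op (X × X)) : ‖sl x T‖ ≤ ‖T‖ := by
  unfold sl
  refine (ContinuousLinearMap.opNorm_comp_le _ _).trans ?_
  have h1 : ‖T.comp (Vc (fun p : X => (p, x)) (col_inj x))‖ ≤ ‖T‖ := by
    refine (ContinuousLinearMap.opNorm_comp_le _ _).trans ?_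
    calc ‖T‖ * _ ≤ ‖T‖ * 1 := mul_le_mul_of_nonneg_left (norm_Vc _ _) (norm_nonneg _)
      _ = ‖T‖ := mul_one _
  calc _ ≤ 1 * ‖T‖ := mul_le_mul (norm_Va _ _) h1 (norm_nonneg _) zero_le_one
    _ = ‖T‖ := one_mul _

variable {Z : Set (Op X)} (hZ : IsCAlg Z)

include hZ in
theorem sum_mem {P : Type} {A : Set (Op P)} (hA : IsCAlg A) {ι : Type} (s : Finset ι)
    (f : ι → Op P) (hf : ∀ i ∈ s, f i ∈ A) : ∑ i ∈ s, f i ∈ A := by
  classical
  induction s using Finset.induction_on with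
  | empty => rw [Finset.sum_empty]; exact hA.subspace.zero
  | insert a s ha ih =>
    rw [Finset.sum_insert ha]
    exact hA.subspace.add _ (hf a (Finset.mem_insert_self _ _)) _
      (ih fun i hi => hf i (Finset.mem_insert_of_mem hi))

include hZ in
/-- Vector states are excised by finite sums. -/
theorem flip_avg (hflip : HalfFlip Z) (x : X) (F : Finset (Op X)) (hF : ∀ a ∈ F, a ∈ Z) (ε : ℝ)
    (hε : 0 < ε) : ∃ (ι : Type) (_ : Fintype ι) (A : ι → Op X), (∀ i, A i ∈ Z) ∧
      ∀ a ∈ F, ‖∑ i, star (A i) * a * A i - entry a x x • (1 : Op X)‖ < ε := by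
  obtain ⟨φ₁, φ₂, h1, h2, h3⟩ := hflip
  obtain ⟨u, hu, hu2⟩ := h3.approx F hF (ε / 3) (by positivity)
  have hT1 : ∀ a ∈ Z, φ₁ a = tn a 1 := fun a ha => (isTensor_iff _ _ _).1 (h1 a ha)
  have hT2 : ∀ a ∈ Z, φ₂ a = tn 1 a := fun a ha => (isTensor_iff _ _ _).1 (h2 a ha)
  have hcl : u ∈ closure {T : Op (X × X) | star T ∈ FS Z Z} := by
    have h4 : star u ∈ closure (FS Z Z) := by
      have h5 : star u ∈ tens Z Z := by
        have h6 : IsCAlg (tens Z Z) := by
          rw [tens_eq]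
          refine calg_of_gen ⟨1, hZ.one, 1, hZ.one, tn_one.symm⟩ ?_ ?_
          · rintro _ ⟨a, ha, b, hb, rfl⟩ _ ⟨c, hc, d, hd, rfl⟩
            exact ⟨a * c, hZ.mul _ ha _ hc, b * d, hZ.mul _ hb _ hd, tn_mul _ _ _ _⟩
          · rintro _ ⟨a, ha, b, hb, rfl⟩
            exact ⟨star a, hZ.adj _ ha, star b, hZ.adj _ hb, tn_star _ _⟩
        exact h6.adj _ hu.mem
      exact tens_sub_closure hZ h5
    have h7 : {T : Op (X × X) | star T ∈ FS Z Z} = star ⁻¹' FS Z Z := rfl
    have h8 := map_mem_closure (f := (star : Op (X × X) → Op (X × X))) continuous_star h4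
      (t := {T : Op (X × X) | star T ∈ FS Z Z}) (fun T hT => by
        rw [Set.mem_ofPred_eq, star_star]; exact hT)
    rwa [star_star] at h8
  have hopen : IsOpen {T : Op (X × X) | ∀ a ∈ F,
      ‖T * tn a 1 * star T - u * tn a 1 * star u‖ < ε / 3} := by
    have e : {T : Op (X × X) | ∀ a ∈ F, ‖T * tn a 1 * star T - u * tn a 1 * star u‖ < ε / 3} =
        ⋂ a ∈ F, {T : Op (X × X) | ‖T * tn a 1 * star T - u * tn a 1 * star u‖ < ε / 3} := by
      ext T; simp
    rw [e]
    refine isOpen_biInter_finset fun a _ => ?_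
    refine isOpen_lt ?_ continuous_const
    exact (((continuous_id.mul continuous_const).mul continuous_star).sub continuous_const).norm
  obtain ⟨T, hT, hTF⟩ := mem_closure_iff.1 hcl _ hopen (by
    intro a _
    simpa using (by positivity : (0 : ℝ) < ε / 3))
  obtain ⟨n, α, β, hα, hβ, hsum⟩ := hTF
  have hT0 : T = ∑ k, tn (star (α k)) (star (β k)) := by
    have h := congrArg star hsum
    rw [star_star, star_sum] at h
    simpa only [tn_star] using h
  -- the averaging operators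
  let Y : X → Op X := fun p => ∑ k, entry (β k) p x • α k
  have hY : ∀ p, Y p ∈ Z := fun p =>
    sum_mem hZ hZ _ _ fun k _ => hZ.subspace.smul _ _ (hα k)
  have hexp : ∀ a : Op X, sl x (T * tn a 1 * star T) =
      ∑ k, ∑ l, entry (star (β k) * β l) x x • (star (α k) * a * α l) := by
    intro a
    have e1 : T * tn a 1 * star T = ∑ k, ∑ l, tn (star (α k) * a * α l) (star (β k) * β l) := by
      rw [hsum, hT0, Finset.sum_mul, Finset.sum_mul]
      refine Finset.sum_congr rfl fun k _ => ?_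
      rw [Finset.mul_sum]
      refine Finset.sum_congr rfl fun l _ => ?_
      rw [tn_mul, tn_mul, mul_one]
    rw [e1]
    apply op_ext
    intro p q
    rw [sl_entry]
    have hes : ∀ {ι R : Type} [DecidableEq R] (s : Finset ι) (f : ι → Op R) (i j : R),
        entry (∑ k ∈ s, f k) i j = ∑ k ∈ s, entry (f k) i j := by
      intro ι R _ s f i j
      classical
      induction s using Finset.induction_on with
      | empty => rw [Finset.sum_empty, Finset.sum_empty, entry_zero]
      | insert a s ha ih => rw [Finset.sum_insert ha, Finset.sum_insert ha, entry_add, ih]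
    rw [hes, hes]
    refine Finset.sum_congr rfl fun k _ => ?_
    rw [hes, hes]
    refine Finset.sum_congr rfl fun l _ => ?_
    rw [tn_entry, entry_smul]
    ring
  have hfin : ∀ (a : Op X) (s : Finset X), ∑ p ∈ s, star (Y p) * a * Y p =
      ∑ k, ∑ l, (∑ p ∈ s, conj (entry (β k) p x) * entry (β l) p x) •
        (star (α k) * a * α l) := by
    intro a s
    have e1 : ∀ p, star (Y p) * a * Y p = ∑ k, ∑ l, (conj (entry (β k) p x) *
        entry (β l) p x) • (star (α k) * a * α l) := by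
      intro p
      change star (∑ k, entry (β k) p x • α k) * a * (∑ k, entry (β k) p x • α k) = _
      rw [star_sum, Finset.sum_mul, Finset.sum_mul]
      refine Finset.sum_congr rfl fun k _ => ?_
      rw [Finset.mul_sum]
      refine Finset.sum_congr rfl fun l _ => ?_
      rw [star_smul, smul_mul_assoc, smul_mul_assoc, mul_smul_comm, smul_smul]
      rfl
    simp_rw [e1]
    rw [Finset.sum_comm]
    refine Finset.sum_congr rfl fun k _ => ?_
    rw [Finset.sum_comm]
    refine Finset.sum_congr rfl fun l _ => ?_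
    rw [Finset.sum_smul]
  have htend : ∀ a : Op X, Filter.Tendsto (fun s : Finset X => ∑ p ∈ s, star (Y p) * a * Y p)
      Filter.atTop (nhds (sl x (T * tn a 1 * star T))) := by
    intro a
    simp_rw [hfin a]
    rw [hexp a]
    refine tendsto_finsetSum _ fun k _ => tendsto_finsetSum _ fun l _ => ?_
    refine Filter.Tendsto.smul_const ?_ _
    have h := hasSum_entry_mul (star (β k)) (β l) x x
    simp_rw [entry_star] at h
    exact h
  have hev : ∀ᶠ s : Finset X in Filter.atTop, ∀ a ∈ F,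
      ‖∑ p ∈ s, star (Y p) * a * Y p - sl x (T * tn a 1 * star T)‖ < ε / 3 := by
    rw [Filter.eventually_all_finset]
    intro a _
    have h := (tendsto_iff_norm_sub_tendsto_zero.1 (htend a)).eventually
      (gt_mem_nhds (by positivity : (0 : ℝ) < ε / 3))
    exact h
  obtain ⟨s, hs⟩ := hev.exists
  refine ⟨s, inferInstance, fun p => Y p, fun p => hY p, fun a ha => ?_⟩
  have e1 : ∑ i : s, star (Y i) * a * Y i = ∑ p ∈ s, star (Y p) * a * Y p :=
    Finset.sum_coe_sort s (fun p => star (Y p) * a * Y p)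
  have e2 : sl x (tn (1 : Op X) a) = entry a x x • (1 : Op X) := by
    apply op_ext
    intro p q
    rw [sl_entry, tn_entry, entry_smul]
    ring
  have hu3 := hu2 a ha
  rw [hT1 a (hF a ha), hT2 a (hF a ha)] at hu3
  have e3 : ∑ p ∈ s, star (Y p) * a * Y p - entry a x x • (1 : Op X) =
      (∑ p ∈ s, star (Y p) * a * Y p - sl x (T * tn a 1 * star T)) +
      (sl x (T * tn a 1 * star T - u * tn a 1 * star u) +
        sl x (u * tn a 1 * star u - tn 1 a)) := by
    rw [sl_sub, sl_sub, e2]; abel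
  rw [e1, e3]
  calc _ ≤ ‖∑ p ∈ s, star (Y p) * a * Y p - sl x (T * tn a 1 * star T)‖ +
        (‖sl x (T * tn a 1 * star T - u * tn a 1 * star u)‖ +
          ‖sl x (u * tn a 1 * star u - tn 1 a)‖) :=
        (norm_add_le _ _).trans (add_le_add le_rfl (norm_add_le _ _))
    _ < ε / 3 + (ε / 3 + ε / 3) := by
        refine add_lt_add (hs a ha) (add_lt_add ?_ ?_)
        · exact (norm_sl _ _).trans_lt (hT a ha)
        · exact (norm_sl _ _).trans_lt hu3
    _ = ε := by ring

end Slice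

section Normalise

theorem exists_normalise {A : Type*} [CStarAlgebra A] (w : A) (hw : IsUnit (star w * w)) :
    ∃ k : A, star (w * k) * (w * k) = 1 := by
  have hsp : spectrum ℝ (star w * w) ⊆ Set.Ioi 0 := by
    let _ := CStarAlgebra.spectralOrder A
    have _ := CStarAlgebra.spectralOrderedRing A
    intro x hx
    have h1 : (0 : A) ≤ star w * w := star_mul_self_nonneg _
    have h2 := spectrum_nonneg_of_nonneg h1 hx
    rcases h2.lt_or_eq with h | h
    · exact h
    · exfalso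
      rw [← h] at hx
      rw [spectrum.zero_mem_iff] at hx
      exact hx hw
  refine ⟨cfc isq (star w * w), ?_⟩
  have hsa : IsSelfAdjoint (star w * w) := IsSelfAdjoint.star_mul_self _
  have hR : IsSelfAdjoint (cfc isq (star w * w)) := cfc_predicate _ _
  have hc : ContinuousOn isq (spectrum ℝ (star w * w)) := isq_cont.mono hsp
  rw [star_mul, hR.star_eq, mul_assoc, ← mul_assoc (star w)]
  have h1 : star w * w = cfc (fun x : ℝ => x) (star w * w) := (cfc_id' ℝ _).symm
  have h2 : cfc isq (star w * w) * (cfc (fun x : ℝ => x) (star w * w) *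
      cfc isq (star w * w)) = 1 := by
    rw [← cfc_mul (fun x : ℝ => x) isq (star w * w) (by fun_prop) hc,
      ← cfc_mul isq _ (star w * w) hc (by fun_prop), ← cfc_one ℝ (star w * w)]
    refine cfc_congr ?_
    intro x hx
    have hx0 : 0 < x := hsp hx
    simp only [isq, Pi.one_apply]
    have h3 : Real.sqrt x ≠ 0 := Real.sqrt_ne_zero'.2 hx0
    have h4 : Real.sqrt x * Real.sqrt x = x := Real.mul_self_sqrt hx0.le
    field_simp
    rw [sq, h4]
  rw [← h1] at h2
  exact h2

variable {P : Type} [DecidableEq P]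

/-- A C*-algebra of operators as a star subalgebra. -/
def SS {B : Set (Op P)} (hB : IsCAlg B) : StarSubalgebra ℂ (Op P) where
  carrier := B
  mul_mem' := fun ha hb => hB.mul _ ha _ hb
  one_mem' := hB.one
  add_mem' := fun ha hb => hB.subspace.add _ ha _ hb
  zero_mem' := hB.subspace.zero
  algebraMap_mem' := fun r => by
    rw [Algebra.algebraMap_eq_smul_one]
    exact hB.subspace.smul r 1 hB.one
  star_mem' := fun ha => hB.adj _ ha

instance SS_closed {B : Set (Op P)} (hB : IsCAlg B) : IsClosed (SS hB : Set (Op P)) :=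
  hB.subspace.closed

theorem normalise_mem {B : Set (Op P)} (hB : IsCAlg B) (w : Op P) (hw : w ∈ B) (r : ℝ)
    (hr : ‖star w * w - (r : ℂ) • (1 : Op P)‖ < r) :
    ∃ k ∈ B, star (w * k) * (w * k) = 1 := by
  have hr0 : 0 < r := (norm_nonneg _).trans_lt hr
  let w' : SS hB := ⟨w, hw⟩
  have hu : IsUnit (star w' * w') := by
    have h1 : ‖((r : ℂ)⁻¹) • (star w' * w') - 1‖ < 1 := by
      have h2 : ‖star w' * w' - (r : ℂ) • (1 : SS hB)‖ < r := hr
      have hrc : (r : ℂ) ≠ 0 := by exact_mod_cast hr0.ne'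
      have h3 : ((r : ℂ)⁻¹) • (star w' * w') - 1 =
          ((r : ℂ)⁻¹) • (star w' * w' - (r : ℂ) • (1 : SS hB)) := by
        rw [smul_sub, smul_smul, inv_mul_cancel₀ hrc, one_smul]
      rw [h3, norm_smul, norm_inv, Complex.norm_real, Real.norm_of_nonneg hr0.le]
      rw [inv_mul_lt_iff₀ hr0, mul_one]
      exact h2
    have h4 : IsUnit (((r : ℂ)⁻¹) • (star w' * w')) := by
      have h5 : ((r : ℂ)⁻¹) • (star w' * w') = 1 + (((r : ℂ)⁻¹) • (star w' * w') - 1) := by abel
      rw [h5]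
      exact isUnit_one_add h1
    have hrc : (r : ℂ) ≠ 0 := by exact_mod_cast hr0.ne'
    have h6 : star w' * w' = (r : ℂ) • (((r : ℂ)⁻¹) • (star w' * w')) := by
      rw [smul_smul, mul_inv_cancel₀ hrc, one_smul]
    rw [h6]
    rw [Algebra.smul_def]
    exact ((IsUnit.mk0 _ hrc).map (algebraMap ℂ (SS hB))).mul h4
  obtain ⟨k, hk⟩ := exists_normalise w' hu
  exact ⟨k, k.2, congrArg Subtype.val hk⟩

end Normalise

end H584Z
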