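import Pool.Agent.H584R3.Z3

/-!
The algebra `𝒪_I ⊗ Z^{⊗ ∞}` is simple and purely infinite.
-/

open scoped InnerProductSpace ComplexConjugate

set_option linter.unusedSectionVars false

noncomputable section

namespace H584Z

open H584Bu
open H584Roe (L2 entry)
open H584BuDefs (cspan tens IsCAlg IsTensor)
open H584ZDefs

section

variable {I X : Type} [DecidableEq I] [DecidableEq X] (x₀ : X) {Z : Set (Op X)} (hZ : IsCAlg Z)

theorem norm_one_le {P : Type} : ‖(1 : Op P)‖ ≤ 1 :=
  ContinuousLinearMap.opNorm_le_bound _ zero_le_one fun f => by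
    rw [one_apply_eq_self, one_mul]

theorem rt_zero_left (a : Op X) : rt x₀ (0 : Op (MM I x₀)) a = 0 := by
  have h : rt x₀ (0 : Op (MM I x₀)) a = rt x₀ ((0 : ℂ) • (0 : Op (MM I x₀))) a := by
    rw [zero_smul]
  rw [h, rt_smul_left, zero_smul]

theorem rt_zero_right (T : Op (MM I x₀)) : rt x₀ T (0 : Op X) = 0 := by
  have h : rt x₀ T (0 : Op X) = rt x₀ T ((0 : ℂ) • (0 : Op X)) := by rw [zero_smul]
  rw [h, rt_smul_right, zero_smul]

theorem rt_sum_left {ι : Type} (s : Finset ι) (f : ι → Op (MM I x₀)) (a : Op X) :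
    rt x₀ (∑ i ∈ s, f i) a = ∑ i ∈ s, rt x₀ (f i) a := by
  classical
  induction s using Finset.induction_on with
  | empty => rw [Finset.sum_empty, Finset.sum_empty, rt_zero_left]
  | insert a s ha ih => rw [Finset.sum_insert ha, Finset.sum_insert ha, rt_add_left, ih]

theorem rt_sum_right {ι : Type} (s : Finset ι) (T : Op (MM I x₀)) (f : ι → Op X) :
    rt x₀ T (∑ i ∈ s, f i) = ∑ i ∈ s, rt x₀ T (f i) := by
  classical
  induction s using Finset.induction_on with
  | empty => rw [Finset.sum_empty, Finset.sum_empty, rt_zero_right]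
  | insert a s ha ih => rw [Finset.sum_insert ha, Finset.sum_insert ha, rt_add_right, ih]

theorem rt_continuous_left (a : Op X) : Continuous fun T : Op (MM I x₀) => rt x₀ T a :=
  (re (ee I x₀)).continuous.comp (tn_continuous_left a)

/-- `T ↦ T ⊗ a` preserves the algebra of tensor factors. -/
theorem rt_mem_DD {T : Op (MM I x₀)} (hT : T ∈ DD I x₀ Z) {a : Op X} (ha : a ∈ Z) :
    rt x₀ T a ∈ DD I x₀ Z := by
  have h : DD I x₀ Z ⊆ {T | rt x₀ T a ∈ DD I x₀ Z} :=
    cspan_le ((cspan_csub _).preimage (fun T => rt x₀ T a) (fun S T => rt_add_left x₀ S T a)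
      (fun c T => rt_smul_left x₀ c T a) (rt_continuous_left x₀ a)) (by
        rintro _ ⟨l, hl, rfl⟩
        refine subset_cspan _ ⟨a :: l, ?_, rfl⟩
        intro b hb
        rcases List.mem_cons.1 hb with rfl | hb
        · exact ha
        · exact hl b hb)
  exact h hT

theorem Li_comm_DD {T : Op (MM I x₀)} (hT : T ∈ DD I x₀ Z) (i : I) :
    Li x₀ i * T = T * Li x₀ i := by
  have h1 : CSub {T : Op (MM I x₀) | Li x₀ i * T = T * Li x₀ i} := by
    refine ⟨?_, ?_, ?_, ?_⟩
    · rw [Set.mem_ofPred_eq, mul_zero, zero_mul]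
    · intro a ha b hb
      rw [Set.mem_ofPred_eq] at ha hb ⊢
      rw [mul_add, add_mul, ha, hb]
    · intro c a ha
      rw [Set.mem_ofPred_eq] at ha ⊢
      rw [mul_smul_comm, smul_mul_assoc, ha]
    · exact isClosed_eq (continuous_const.mul continuous_id) (continuous_id.mul continuous_const)
  exact cspan_le h1 (fun T hT => Li_comm x₀ hT i) hT

include hZ in
theorem star_Li_comm_DD {T : Op (MM I x₀)} (hT : T ∈ DD I x₀ Z) (i : I) :
    star (Li x₀ i) * T = T * star (Li x₀ i) := by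
  have h := Li_comm_DD x₀ ((DD_calg x₀ hZ).adj _ hT) i
  have h2 := congrArg star h
  rw [star_mul, star_mul, star_star] at h2
  exact h2.symm

include hZ in
/-- Excision of vector states for finitely many products of the same length. -/
theorem DW_avg (hflip : HalfFlip Z) (N : ℕ) : ∀ (L : Finset (List (Op X))),
    (∀ l ∈ L, l.length = N ∧ ∀ a ∈ l, a ∈ Z) → ∀ (m : MM I x₀) (ε : ℝ), 0 < ε →
    ∃ (ι : Type) (_ : Fintype ι) (A : ι → Op (MM I x₀)), (∀ i, A i ∈ DD I x₀ Z) ∧
      ∀ l ∈ L, ‖∑ i, star (A i) * pw I x₀ l * A i -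
        entry (pw I x₀ l) m m • (1 : Op (MM I x₀))‖ < ε := by
  classical
  induction N with
  | zero =>
    intro L hL m ε hε
    refine ⟨Unit, inferInstance, fun _ => 1, fun _ => (DD_calg x₀ hZ).one, fun l hl => ?_⟩
    have h := List.length_eq_zero_iff.1 (hL l hl).1
    subst h
    rw [pw_nil, entry_one]
    simpa using hε
  | succ N ih =>
    intro L hL m ε hε
    obtain ⟨C, hC⟩ := (L.image fun l => ‖l.headD 0‖ + ‖pw I x₀ l.tail‖ + 1).exists_le
    set C' := max C 1 with hC'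
    have hC0 : 0 < C' := lt_of_lt_of_le one_pos (le_max_right _ _)
    set δ := min 1 (ε / (2 * C')) with hδ
    have hδ0 : 0 < δ := lt_min one_pos (by positivity)
    have hδ1 : δ ≤ 1 := min_le_left _ _
    have hδ2 : δ * C' ≤ ε / 2 := by
      have h : δ ≤ ε / (2 * C') := min_le_right _ _
      calc δ * C' ≤ ε / (2 * C') * C' := mul_le_mul_of_nonneg_right h hC0.le
        _ = ε / 2 := by field_simp
    obtain ⟨κ, hκ, B, hB, hB2⟩ := flip_avg hZ hflip (yhd x₀ m.2) (L.image fun l => l.headD 0)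
      (by
        intro a ha
        obtain ⟨l, hl, rfl⟩ := Finset.mem_image.1 ha
        obtain ⟨h1, h2⟩ := hL l hl
        cases l with
        | nil => simp at h1
        | cons a l => exact h2 a (List.mem_cons_self)) δ hδ0
    obtain ⟨ι, hι, A, hA, hA2⟩ := ih (L.image fun l => l.tail)
      (by
        intro l' hl'
        obtain ⟨l, hl, rfl⟩ := Finset.mem_image.1 hl'
        obtain ⟨h1, h2⟩ := hL l hl
        cases l with
        | nil => simp at h1
        | cons a l =>
          refine ⟨?_, fun b hb => h2 b (List.mem_cons_of_mem _ hb)⟩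
          simpa using h1) (m.1, ytl x₀ m.2) δ hδ0
    refine ⟨ι × κ, inferInstance, fun q => rt x₀ (A q.1) (B q.2),
      fun q => rt_mem_DD x₀ (hA q.1) (hB q.2), fun l hl => ?_⟩
    obtain ⟨h1, h2⟩ := hL l hl
    cases l with
    | nil => simp at h1
    | cons a l =>
      have hb1 := hB2 a (Finset.mem_image.2 ⟨a :: l, hl, rfl⟩)
      have ha1 := hA2 l (Finset.mem_image.2 ⟨a :: l, hl, rfl⟩)
      have hc1 : ‖a‖ + ‖pw I x₀ l‖ + 1 ≤ C' :=
        (hC _ (Finset.mem_image.2 ⟨a :: l, hl, rfl⟩)).trans (le_max_left _ _)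
      set P := ∑ i, star (A i) * pw I x₀ l * A i with hP
      set Q := ∑ k, star (B k) * a * B k with hQ
      set p := entry (pw I x₀ l) (m.1, ytl x₀ m.2) (m.1, ytl x₀ m.2) with hp
      set q := entry a (yhd x₀ m.2) (yhd x₀ m.2) with hq
      have e1 : ∑ i : ι × κ, star (rt x₀ (A i.1) (B i.2)) * pw I x₀ (a :: l) *
          rt x₀ (A i.1) (B i.2) = rt x₀ P Q := by
        rw [hP, hQ, rt_sum_left]
        simp_rw [rt_sum_right]
        rw [Fintype.sum_prod_type]
        refine Finset.sum_congr rfl fun i _ => Finset.sum_congr rfl fun k _ => ?_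
        rw [pw_cons, rt_star, rt_mul, rt_mul]
      have e2 : entry (pw I x₀ (a :: l)) m m = p * q := by
        rw [pw_cons, rt_entry]
      have e3 : rt x₀ P Q - (p * q) • (1 : Op (MM I x₀)) =
          rt x₀ (P - p • 1) Q + p • rt x₀ 1 (Q - q • 1) := by
        have h3 : rt x₀ (P - p • (1 : Op (MM I x₀))) Q = rt x₀ P Q - p • rt x₀ 1 Q := by
          have h4 : P - p • (1 : Op (MM I x₀)) = P + (-p) • 1 := by rw [neg_smul, sub_eq_add_neg]
          rw [h4, rt_add_left, rt_smul_left, neg_smul, sub_eq_add_neg]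
        have h5 : rt x₀ (1 : Op (MM I x₀)) (Q - q • 1) = rt x₀ 1 Q - q • 1 := by
          have h4 : Q - q • (1 : Op X) = Q + (-q) • 1 := by rw [neg_smul, sub_eq_add_neg]
          rw [h4, rt_add_right, rt_smul_right, rt_one, neg_smul, sub_eq_add_neg]
        rw [h3, h5, smul_sub, smul_smul]
        abel
      rw [e1, e2, e3]
      have hq1 : ‖q‖ ≤ ‖a‖ := norm_entry_le _ _ _
      have hp1 : ‖p‖ ≤ ‖pw I x₀ l‖ := norm_entry_le _ _ _
      have hQ1 : ‖Q‖ ≤ ‖a‖ + 1 := by
        have h3 : Q = (Q - q • 1) + q • 1 := by abel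
        rw [h3]
        refine (norm_add_le _ _).trans ?_
        have h4 : ‖q • (1 : Op X)‖ ≤ ‖a‖ := by
          rw [norm_smul]
          calc ‖q‖ * ‖(1 : Op X)‖ ≤ ‖a‖ * 1 := mul_le_mul hq1 norm_one_le (norm_nonneg _)
                (norm_nonneg _)
            _ = ‖a‖ := mul_one _
        linarith
      have h6 : ‖rt x₀ (P - p • 1) Q‖ ≤ δ * (‖a‖ + 1) := by
        refine (norm_rt x₀ _ _).trans ?_
        exact mul_le_mul ha1.le hQ1 (norm_nonneg _) hδ0.le
      have h7 : ‖p • rt x₀ (1 : Op (MM I x₀)) (Q - q • 1)‖ ≤ ‖pw I x₀ l‖ * δ := by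
        rw [norm_smul]
        refine mul_le_mul hp1 ?_ (norm_nonneg _) (norm_nonneg _)
        refine (norm_rt x₀ _ _).trans ?_
        calc ‖(1 : Op (MM I x₀))‖ * ‖Q - q • 1‖ ≤ 1 * δ :=
              mul_le_mul norm_one_le hb1.le (norm_nonneg _) zero_le_one
          _ = δ := one_mul _
      calc _ ≤ δ * (‖a‖ + 1) + ‖pw I x₀ l‖ * δ := (norm_add_le _ _).trans (add_le_add h6 h7)
        _ = δ * (‖a‖ + ‖pw I x₀ l‖ + 1) := by ring
        _ ≤ δ * C' := mul_le_mul_of_nonneg_left hc1 hδ0.le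
        _ ≤ ε / 2 := hδ2
        _ < ε := by linarith

theorem pw_replicate (k : ℕ) : pw I x₀ (List.replicate k 1) = 1 := by
  induction k with
  | zero => rfl
  | succ k ih => rw [List.replicate_succ, pw_cons, ih, rt_one]

theorem pw_pad (l : List (Op X)) (k : ℕ) : pw I x₀ (l ++ List.replicate k 1) = pw I x₀ l := by
  induction l with
  | nil => rw [List.nil_append, pw_replicate, pw_nil]
  | cons a l ih => rw [List.cons_append, pw_cons, pw_cons, ih]

include hZ in
theorem DW_avg' (hflip : HalfFlip Z) (T : Finset (Op (MM I x₀))) (hT : ∀ t ∈ T, t ∈ DW I x₀ Z)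
    (m : MM I x₀) (ε : ℝ) (hε : 0 < ε) :
    ∃ (ι : Type) (_ : Fintype ι) (A : ι → Op (MM I x₀)), (∀ i, A i ∈ DD I x₀ Z) ∧
      ∀ t ∈ T, ‖∑ i, star (A i) * t * A i - entry t m m • (1 : Op (MM I x₀))‖ < ε := by
  classical
  choose! g hg hg2 using hT
  set N := T.sup fun t => (g t).length with hN
  obtain ⟨ι, hι, A, hA, hA2⟩ := DW_avg (I := I) x₀ hZ hflip N
    (T.image fun t => g t ++ List.replicate (N - (g t).length) 1) (by
      intro l hl
      obtain ⟨t, ht, rfl⟩ := Finset.mem_image.1 hl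
      refine ⟨?_, ?_⟩
      · rw [List.length_append, List.length_replicate]
        have : (g t).length ≤ N := Finset.le_sup (f := fun t => (g t).length) ht
        omega
      · intro a ha
        rcases List.mem_append.1 ha with h | h
        · exact hg t ht a h
        · rw [List.eq_of_mem_replicate h]; exact hZ.one) m ε hε
  refine ⟨ι, hι, A, hA, fun t ht => ?_⟩
  have h := hA2 _ (Finset.mem_image.2 ⟨t, ht, rfl⟩)
  rw [pw_pad, ← hg2 t ht] at h
  exact h

include hZ in
theorem DD_avg (hflip : HalfFlip Z) (d : Op (MM I x₀)) (hd : d ∈ DD I x₀ Z)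
    (m : MM I x₀) (ε : ℝ) (hε : 0 < ε) :
    ∃ (ι : Type) (_ : Fintype ι) (A : ι → Op (MM I x₀)), (∀ i, A i ∈ DD I x₀ Z) ∧
      ‖∑ i, star (A i) * d * A i - entry d m m • (1 : Op (MM I x₀))‖ < ε := by
  classical
  obtain ⟨d₀, hd₀, hdist⟩ := Metric.mem_closure_iff.1 (cspan_sub_closure _ hd) (ε / 4)
    (by positivity)
  rw [dist_eq_norm] at hdist
  obtain ⟨T, hT, hdT⟩ := Submodule.mem_span_finite_of_mem_span hd₀
  obtain ⟨f, _, hf⟩ := Submodule.mem_span_finset.1 hdT
  set K := (∑ a ∈ T, ‖f a‖) + 1 with hK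
  have hK0 : 0 < K := by positivity
  obtain ⟨ι, hι, A, hA, hA2⟩ := DW_avg' (I := I) x₀ hZ hflip (insert 1 T) (by
    intro t ht
    rcases Finset.mem_insert.1 ht with rfl | ht
    · exact DW_one x₀
    · exact hT ht) m (min 1 (ε / (4 * K))) (lt_min one_pos (by positivity))
  refine ⟨ι, hι, A, hA, ?_⟩
  have h1 : ‖∑ i, star (A i) * A i‖ ≤ 2 := by
    have h2 := hA2 1 (Finset.mem_insert_self _ _)
    simp only [mul_one, entry_one, if_true, one_smul] at h2
    have h3 : ∑ i, star (A i) * A i = (∑ i, star (A i) * A i - 1) + 1 := by abel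
    rw [h3]
    refine (norm_add_le _ _).trans ?_
    have h4 := h2.le.trans (min_le_left _ _)
    have h5 : ‖(1 : Op (MM I x₀))‖ ≤ 1 := norm_one_le
    linarith
  have h2 : ‖∑ i, star (A i) * d₀ * A i - entry d₀ m m • (1 : Op (MM I x₀))‖ ≤ ε / 4 := by
    have hes : ∀ (s : Finset (Op (MM I x₀))) (g : Op (MM I x₀) → Op (MM I x₀))
        (i j : MM I x₀), entry (∑ k ∈ s, g k) i j = ∑ k ∈ s, entry (g k) i j := by
      intro s g i j
      induction s using Finset.induction_on with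
      | empty => rw [Finset.sum_empty, Finset.sum_empty, entry_zero]
      | insert a s ha ih => rw [Finset.sum_insert ha, Finset.sum_insert ha, entry_add, ih]
    have e1 : ∑ i, star (A i) * d₀ * A i - entry d₀ m m • (1 : Op (MM I x₀)) =
        ∑ a ∈ T, f a • (∑ i, star (A i) * a * A i - entry a m m • (1 : Op (MM I x₀))) := by
      rw [← hf, hes]
      simp_rw [smul_sub, Finset.sum_sub_distrib, Finset.mul_sum, Finset.sum_mul,
        entry_smul, Finset.sum_smul, Finset.smul_sum, smul_smul]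
      congr 1
      rw [Finset.sum_comm]
      refine Finset.sum_congr rfl fun a _ => Finset.sum_congr rfl fun i _ => ?_
      rw [mul_smul_comm, smul_mul_assoc]
    rw [e1]
    refine (norm_sum_le _ _).trans ?_
    have h3 : ∀ a ∈ T, ‖f a • (∑ i, star (A i) * a * A i -
        entry a m m • (1 : Op (MM I x₀)))‖ ≤ ‖f a‖ * (ε / (4 * K)) := by
      intro a ha
      rw [norm_smul]
      exact mul_le_mul_of_nonneg_left ((hA2 a (Finset.mem_insert_of_mem ha)).le.trans
        (min_le_right _ _)) (norm_nonneg _)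
    refine (Finset.sum_le_sum h3).trans ?_
    rw [← Finset.sum_mul]
    calc (∑ a ∈ T, ‖f a‖) * (ε / (4 * K)) ≤ K * (ε / (4 * K)) :=
          mul_le_mul_of_nonneg_right (by rw [hK]; linarith) (by positivity)
      _ = ε / 4 := by field_simp
  have h3 : ‖∑ i, star (A i) * (d - d₀) * A i‖ ≤ 2 * (ε / 4) := by
    refine (norm_sum_conj A (d - d₀)).trans ?_
    exact mul_le_mul h1 hdist.le (norm_nonneg _) (by norm_num)
  have h4 : ‖(entry d₀ m m - entry d m m) • (1 : Op (MM I x₀))‖ < ε / 4 := by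
    rw [norm_smul, ← entry_sub']
    have h5 : ‖entry (d₀ - d) m m‖ ≤ ‖d - d₀‖ := by
      rw [← norm_neg (d - d₀), neg_sub]
      exact norm_entry_le _ _ _
    calc ‖entry (d₀ - d) m m‖ * ‖(1 : Op (MM I x₀))‖ ≤ ‖d - d₀‖ * 1 :=
          mul_le_mul h5 norm_one_le (norm_nonneg _) (norm_nonneg _)
      _ < ε / 4 := by rw [mul_one]; exact hdist
  have e : ∑ i, star (A i) * d * A i - entry d m m • (1 : Op (MM I x₀)) =
      ∑ i, star (A i) * (d - d₀) * A i +
      ((∑ i, star (A i) * d₀ * A i - entry d₀ m m • (1 : Op (MM I x₀))) +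
        (entry d₀ m m - entry d m m) • (1 : Op (MM I x₀))) := by
    rw [sub_smul]
    simp_rw [mul_sub, sub_mul, Finset.sum_sub_distrib]
    abel
  rw [e]
  calc _ ≤ ‖∑ i, star (A i) * (d - d₀) * A i‖ +
        (‖∑ i, star (A i) * d₀ * A i - entry d₀ m m • (1 : Op (MM I x₀))‖ +
          ‖(entry d₀ m m - entry d m m) • (1 : Op (MM I x₀))‖) :=
        (norm_add_le _ _).trans (add_le_add le_rfl (norm_add_le _ _))
    _ < ε := by linarith

theorem Lw_single (μ : List I) (m : MM I x₀) :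
    Lw x₀ μ (lp.single 2 m (1 : ℂ)) = lp.single 2 ((μ ++ m.1, m.2) : MM I x₀) (1 : ℂ) := by
  induction μ with
  | nil => rfl
  | cons i μ ih =>
    have h : Lw x₀ (i :: μ) (lp.single 2 m (1 : ℂ)) =
        Li x₀ i (Lw x₀ μ (lp.single 2 m (1 : ℂ))) := rfl
    rw [h, ih, Li_single]
    rfl

theorem entry_eq_inner {P : Type} [DecidableEq P] (T : Op P) (p q : P) :
    entry T p q = ⟪(lp.single 2 p (1 : ℂ) : L2 P), T (lp.single 2 q (1 : ℂ))⟫_ℂ := by
  rw [lp.inner_single_left]
  simp [entry]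

theorem exists_fresh [Uncountable I] {J : Set I} (hJ : J.Countable) : ∃ j, j ∉ J := by
  by_contra h
  push Not at h
  exact Set.not_countable_univ (hJ.mono fun x _ => h x)

/-- The algebra. -/
def BB (I : Type) [DecidableEq I] (x₀ : X) (Z : Set (Op X)) : Set (Op (MM I x₀)) :=
  BJ x₀ Z (Set.univ : Set I)

include hZ in
theorem BB_calg : IsCAlg (BB I x₀ Z) := BJ_calg x₀ hZ _

include hZ in
/-- The main lemma. -/
theorem main_lemma [Uncountable I] (hflip : HalfFlip Z) {c : Op (MM I x₀)}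
    (hc : c ∈ BB I x₀ Z) (h0 : c ≠ 0) :
    ∃ x ∈ BB I x₀ Z, star (c * x) * (c * x) = 1 := by
  classical
  have hB := BB_calg (I := I) x₀ hZ
  obtain ⟨m, hm⟩ : ∃ m : MM I x₀, c (lp.single 2 m (1 : ℂ)) ≠ 0 := by
    by_contra h
    push Not at h
    apply h0
    apply op_ext_single
    intro p
    rw [h p]
    rfl
  obtain ⟨μ, f⟩ := m
  set b := star (Lw x₀ μ) * (star c * c) * Lw x₀ μ with hb
  have hLμ : Lw x₀ μ ∈ BB I x₀ Z := Lw_mem x₀ fun _ _ => Set.mem_univ _
  have hbB : b ∈ BB I x₀ Z :=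
    hB.mul _ (hB.mul _ (hB.adj _ hLμ) _ (hB.mul _ (hB.adj _ hc) _ hc)) _ hLμ
  set r := ‖c (lp.single 2 ((μ, f) : MM I x₀) (1 : ℂ))‖ ^ 2 with hr
  have hr0 : 0 < r := by
    have := norm_pos_iff.2 hm
    positivity
  have hbr : entry b ([], f) ([], f) = (r : ℂ) := by
    rw [entry_eq_inner]
    have h1 : b (lp.single 2 (([], f) : MM I x₀) (1 : ℂ)) =
        star (c * Lw x₀ μ) (c (lp.single 2 ((μ, f) : MM I x₀) (1 : ℂ))) := by
      have h2 : b = star (c * Lw x₀ μ) * (c * Lw x₀ μ) := by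
        rw [hb, star_mul]; simp only [mul_assoc]
      rw [h2]
      have h3 : (star (c * Lw x₀ μ) * (c * Lw x₀ μ)) (lp.single 2 (([], f) : MM I x₀) (1 : ℂ)) =
          star (c * Lw x₀ μ) (c (Lw x₀ μ (lp.single 2 (([], f) : MM I x₀) (1 : ℂ)))) := rfl
      rw [h3, Lw_single]
      simp
    rw [h1, ContinuousLinearMap.star_eq_adjoint, ContinuousLinearMap.adjoint_inner_right]
    have h4 : (c * Lw x₀ μ) (lp.single 2 (([], f) : MM I x₀) (1 : ℂ)) =
        c (lp.single 2 ((μ, f) : MM I x₀) (1 : ℂ)) := by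
      have h5 : (c * Lw x₀ μ) (lp.single 2 (([], f) : MM I x₀) (1 : ℂ)) =
          c (Lw x₀ μ (lp.single 2 (([], f) : MM I x₀) (1 : ℂ))) := rfl
      rw [h5, Lw_single]
      simp
    rw [h4, inner_self_eq_norm_sq_to_K, hr]
    push_cast
    rfl
  obtain ⟨J, hJ, hbJ⟩ := exists_support x₀ hbB
  obtain ⟨j, hj⟩ := exists_fresh hJ
  obtain ⟨hd, hd2⟩ := slice x₀ hj hbJ hZ
  set d := star (Li x₀ j) * b * Li x₀ j with hdd
  have hdr : entry d ([], f) ([], f) = (r : ℂ) := by rw [hd2, hbr]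
  obtain ⟨ι, hι, A, hA, hA2⟩ := DD_avg x₀ hZ hflip d hd ([], f) r hr0
  rw [hdr] at hA2
  -- distinct letters
  let e : ι ↪ I := (Fintype.equivFin ι).toEmbedding.trans
    (Fin.valEmbedding.trans (Infinite.natEmbedding I))
  set x := ∑ i, Li x₀ (e i) * A i with hx
  have hxd : star x * d * x = ∑ i, star (A i) * d * A i := by
    have h1 : ∀ i, star x * d * (Li x₀ (e i) * A i) = star (A i) * d * A i := by
      intro i
      have h2 : star x * d = ∑ k, star (A k) * d * star (Li x₀ (e k)) := by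
        rw [hx, star_sum, Finset.sum_mul]
        refine Finset.sum_congr rfl fun k _ => ?_
        rw [star_mul, mul_assoc, star_Li_comm_DD x₀ hZ hd, ← mul_assoc]
      rw [h2, Finset.sum_mul]
      rw [Finset.sum_eq_single i]
      · calc star (A i) * d * star (Li x₀ (e i)) * (Li x₀ (e i) * A i) =
              star (A i) * d * (star (Li x₀ (e i)) * Li x₀ (e i)) * A i := by
                simp only [mul_assoc]
          _ = star (A i) * d * A i := by rw [Li_isom, mul_one]
      · intro k _ hk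
        calc star (A k) * d * star (Li x₀ (e k)) * (Li x₀ (e i) * A i) =
              star (A k) * d * (star (Li x₀ (e k)) * Li x₀ (e i)) * A i := by
                simp only [mul_assoc]
          _ = 0 := by
                rw [Li_orth x₀ (fun h => hk (e.injective h)), mul_zero, zero_mul]
      · intro h; exact absurd (Finset.mem_univ i) h
    conv_lhs => rw [hx]
    rw [Finset.mul_sum, ← hx]
    exact Finset.sum_congr rfl fun i _ => h1 i
  set x₁ := Lw x₀ μ * Li x₀ j * x with hx₁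
  have hxB : x ∈ BB I x₀ Z := sum_mem hZ hB _ _ fun i _ =>
    hB.mul _ (Li_mem x₀ (Set.mem_univ _)) _ (DD_sub_BJ x₀ _ (hA i))
  have hx₁B : x₁ ∈ BB I x₀ Z :=
    hB.mul _ (hB.mul _ hLμ _ (Li_mem x₀ (Set.mem_univ _))) _ hxB
  have hcx : star (c * x₁) * (c * x₁) = ∑ i, star (A i) * d * A i := by
    rw [← hxd, hdd, hb, hx₁]
    simp only [star_mul, mul_assoc]
  obtain ⟨k, hk, hk2⟩ := normalise_mem hB (c * x₁) (hB.mul _ hc _ hx₁B) r (by
    rw [hcx]; exact hA2)
  refine ⟨x₁ * k, hB.mul _ hx₁B _ hk, ?_⟩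
  rw [← mul_assoc]
  exact hk2

include hZ in
theorem BB_simple [Uncountable I] (hflip : HalfFlip Z) : IsSimpleAlg (BB I x₀ Z) := by
  intro J hJ
  by_cases h : J ⊆ {0}
  · exact Or.inl h
  · right
    obtain ⟨c, hcJ, hc0⟩ : ∃ c ∈ J, c ≠ 0 := by
      by_contra h2
      push Not at h2
      exact h fun c hc => h2 c hc
    obtain ⟨x, hx, hx2⟩ := main_lemma x₀ hZ hflip (hJ.sub hcJ) hc0
    have hB := BB_calg (I := I) x₀ hZ
    have h1 : (1 : Op (MM I x₀)) ∈ J := by
      rw [← hx2]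
      exact hJ.left _ (hB.adj _ (hB.mul _ (hJ.sub hcJ) _ hx)) _ (hJ.right _ hx _ hcJ)
    apply Set.Subset.antisymm hJ.sub
    intro b hb
    have h2 := hJ.left b hb 1 h1
    rwa [mul_one] at h2

end

end H584Z
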