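import Pool.Agent.H584R3.Z4

/-!
Pure infiniteness and absorption of `Z`.
-/

open scoped InnerProductSpace ComplexConjugate

set_option linter.unusedSectionVars false

noncomputable section

namespace H584Z

open H584Bu
open H584Roe (L2 entry)
open H584BuDefs (cspan tens IsCAlg IsTensor)
open H584ZDefs

section Pos

variable {P : Type} [DecidableEq P]

theorem inner_mul_star (S : Op P) (ξ : L2 P) :
    (⟪ξ, (S * star S) ξ⟫_ℂ).re = ‖star S ξ‖ ^ 2 := by
  have h1 : (S * star S) ξ = S (star S ξ) := rfl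
  rw [h1, ← ContinuousLinearMap.adjoint_inner_left, ← ContinuousLinearMap.star_eq_adjoint,
    inner_self_eq_norm_sq_to_K]
  norm_cast

theorem pos_mul_star (S : Op P) : IsPos (S * star S) where
  adj := by rw [star_mul, star_star]
  nonneg := fun ξ => by rw [inner_mul_star]; positivity

theorem norm_star_apply (x : Op P) (η : L2 P) : ‖star x η‖ ≤ ‖x‖ * ‖η‖ := by
  refine ((star x).le_opNorm η).trans ?_
  rw [ContinuousLinearMap.star_eq_adjoint, LinearIsometryEquiv.norm_map]

end Pos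

section

variable {I X : Type} [DecidableEq I] [DecidableEq X] (x₀ : X) {Z : Set (Op X)} (hZ : IsCAlg Z)

include hZ in
theorem BB_pi [Uncountable I] (hflip : HalfFlip Z) : IsPurelyInf (BB I x₀ Z) := by
  intro A hA hne
  obtain ⟨c, hcA, hc0⟩ : ∃ c ∈ A, c ≠ 0 := by
    by_contra h2
    push Not at h2
    exact hne fun c hc => h2 c hc
  obtain ⟨x, hx, hx2⟩ := main_lemma x₀ hZ hflip (hA.sub hcA) hc0
  have hB := BB_calg (I := I) x₀ hZ
  set w := c * x with hw
  have hwB : w ∈ BB I x₀ Z := hB.mul _ (hA.sub hcA) _ hx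
  set p := w * star w with hp
  have hpB : p ∈ BB I x₀ Z := hB.mul _ hwB _ (hB.adj _ hwB)
  have hpA : p ∈ A := by
    refine hA.her ((((‖x‖ ^ 2 : ℝ) : ℂ)) • (c * star c))
      (hA.subspace.smul _ _ (hA.mul _ hcA _ (hA.adj _ hcA))) p hpB (pos_mul_star w) ?_
    refine ⟨?_, ?_⟩
    · rw [star_sub, star_smul, star_mul, star_star, hp, star_mul, star_star]
      congr 2
      exact Complex.conj_ofReal _
    · intro ξ
      have h1 : (((((‖x‖ ^ 2 : ℝ) : ℂ)) • (c * star c)) - p) ξ =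
          (((‖x‖ ^ 2 : ℝ) : ℂ)) • ((c * star c) ξ) - p ξ := rfl
      rw [h1, inner_sub_right, inner_smul_right, Complex.sub_re, Complex.re_ofReal_mul,
        inner_mul_star, hp, inner_mul_star]
      have h2 : star w ξ = star x (star c ξ) := by rw [hw, star_mul]; rfl
      rw [h2]
      have h3 := norm_star_apply x (star c ξ)
      have h4 : ‖star x (star c ξ)‖ ^ 2 ≤ (‖x‖ * ‖star c ξ‖) ^ 2 :=
        pow_le_pow_left₀ (norm_nonneg _) h3 2
      nlinarith [h4]
  refine ⟨p, hpA, ?_⟩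
  clear_value p w
  obtain ⟨i, _⟩ := exists_fresh (I := I) (J := ∅) Set.countable_empty
  obtain ⟨k, hk⟩ := exists_fresh (I := I) (J := {i}) (Set.countable_singleton i)
  refine ⟨?_, ?_, w * Li x₀ i * star w, ?_, ?_, ?_, ?_⟩
  · calc p * p = w * (star w * w) * star w := by rw [hp]; simp only [mul_assoc]
      _ = p := by rw [hx2, mul_one, hp]
  · rw [hp, star_mul, star_star]
  · exact hB.mul _ (hB.mul _ hwB _ (Li_mem x₀ (Set.mem_univ _))) _ (hB.adj _ hwB)
  · calc star (w * Li x₀ i * star w) * (w * Li x₀ i * star w) =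
          w * (star (Li x₀ i) * (star w * w) * Li x₀ i) * star w := by
            simp only [star_mul, star_star, mul_assoc]
      _ = p := by rw [hx2, mul_one, Li_isom, mul_one, hp]
  · have h1 : w * Li x₀ i * star w * star (w * Li x₀ i * star w) =
        (w * Li x₀ i) * star (w * Li x₀ i) := by
      calc w * Li x₀ i * star w * star (w * Li x₀ i * star w) =
          w * Li x₀ i * (star w * w) * star (Li x₀ i) * star w := by
            simp only [star_mul, star_star, mul_assoc]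
        _ = (w * Li x₀ i) * star (w * Li x₀ i) := by
            rw [hx2, mul_one, star_mul]; simp only [mul_assoc]
    rw [h1]
    refine ⟨?_, ?_⟩
    · rw [star_sub, star_mul (w * Li x₀ i), star_star, hp, star_mul w, star_star]
    · intro ξ
      have h2 : (p - (w * Li x₀ i) * star (w * Li x₀ i)) ξ =
          p ξ - ((w * Li x₀ i) * star (w * Li x₀ i)) ξ := rfl
      rw [h2, inner_sub_right, Complex.sub_re, inner_mul_star, hp, inner_mul_star]
      have h3 : star (w * Li x₀ i) ξ = star (Li x₀ i) (star w ξ) := by rw [star_mul]; rfl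
      have h4 : ‖star (Li x₀ i) (star w ξ)‖ ≤ ‖star w ξ‖ := by
        refine (norm_star_apply _ _).trans ?_
        have h5 : ‖Li x₀ i‖ ≤ 1 := norm_Vc _ _
        calc ‖Li x₀ i‖ * ‖star w ξ‖ ≤ 1 * ‖star w ξ‖ :=
              mul_le_mul_of_nonneg_right h5 (norm_nonneg _)
          _ = ‖star w ξ‖ := one_mul _
      rw [h3]
      have h6 := pow_le_pow_left₀ (norm_nonneg _) h4 2
      linarith
  · intro h
    have h1 : Li x₀ i * star (Li x₀ i) = 1 := by
      calc Li x₀ i * star (Li x₀ i) =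
          (star w * w) * Li x₀ i * (star w * w) * star (Li x₀ i) * (star w * w) := by
            rw [hx2]; simp only [one_mul, mul_one]
        _ = star w * (w * Li x₀ i * star w * star (w * Li x₀ i * star w)) * w := by
            simp only [star_mul, star_star, mul_assoc]
        _ = (star w * w) * (star w * w) := by rw [h, hp]; simp only [mul_assoc]
        _ = 1 := by rw [hx2, mul_one]
    have h2 : star (Li x₀ k) = 0 := by
      calc star (Li x₀ k) = star (Li x₀ k) * (Li x₀ i * star (Li x₀ i)) := by rw [h1, mul_one]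
        _ = 0 := by
          rw [← mul_assoc, Li_orth x₀ (fun h => hk (by rw [h]; rfl)), zero_mul]
    have h3 := Li_isom x₀ k
    rw [h2, zero_mul] at h3
    have h4 : entry (0 : Op (MM I x₀)) ([], y0 x₀) ([], y0 x₀) =
        entry (1 : Op (MM I x₀)) ([], y0 x₀) ([], y0 x₀) := by rw [h3]
    rw [entry_zero, entry_one, if_pos rfl] at h4
    exact zero_ne_one h4

theorem rt_Lw (μ : List I) : rt x₀ (Lw x₀ μ) 1 = Lw x₀ μ := by
  induction μ with
  | nil => rw [Lw_nil, rt_one]
  | cons i μ ih =>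
    rw [Lw_cons]
    calc rt x₀ (Li x₀ i * Lw x₀ μ) 1 = rt x₀ (Li x₀ i) 1 * rt x₀ (Lw x₀ μ) 1 := by
          rw [rt_mul, mul_one]
      _ = Li x₀ i * Lw x₀ μ := by rw [rt_Li, ih]

theorem rt_star_Lw (μ : List I) : rt x₀ (star (Lw x₀ μ)) 1 = star (Lw x₀ μ) := by
  have h := congrArg star (rt_Lw x₀ μ)
  rwa [rt_star, star_one] at h

theorem rt_word (μ ν : List I) (T : Op (MM I x₀)) (a : Op X) :
    rt x₀ (Lw x₀ μ * star (Lw x₀ ν) * T) a = Lw x₀ μ * star (Lw x₀ ν) * rt x₀ T a := by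
  calc rt x₀ (Lw x₀ μ * star (Lw x₀ ν) * T) a =
      rt x₀ (Lw x₀ μ) 1 * rt x₀ (star (Lw x₀ ν)) 1 * rt x₀ T a := by
        rw [rt_mul, rt_mul, one_mul, one_mul]
    _ = _ := by rw [rt_Lw, rt_star_Lw]

theorem rt_mem_BB {T : Op (MM I x₀)} (hT : T ∈ BB I x₀ Z) {a : Op X} (ha : a ∈ Z) :
    rt x₀ T a ∈ BB I x₀ Z := by
  have h : BB I x₀ Z ⊆ {T | rt x₀ T a ∈ BB I x₀ Z} :=
    cspan_le ((cspan_csub _).preimage (fun T => rt x₀ T a) (fun S T => rt_add_left x₀ S T a)
      (fun c T => rt_smul_left x₀ c T a) (rt_continuous_left x₀ a)) (by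
        rintro _ ⟨μ, ν, hμ, hν, _, ⟨l, hl, rfl⟩, rfl⟩
        rw [Set.mem_ofPred_eq, rt_word]
        refine subset_cspan _ ⟨μ, ν, hμ, hν, pw I x₀ (a :: l), ⟨a :: l, ?_, rfl⟩, rfl⟩
        intro b hb
        rcases List.mem_cons.1 hb with rfl | hb
        · exact ha
        · exact hl b hb)
  exact h hT

theorem tens_calg {P Q : Type} [DecidableEq P] [DecidableEq Q] {A : Set (Op P)} {B : Set (Op Q)}
    (hA : IsCAlg A) (hB : IsCAlg B) : IsCAlg (tens A B) := by
  rw [tens_eq]
  refine calg_of_gen ⟨1, hA.one, 1, hB.one, tn_one.symm⟩ ?_ ?_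
  · rintro _ ⟨a, ha, b, hb, rfl⟩ _ ⟨c, hc, d, hd, rfl⟩
    exact ⟨a * c, hA.mul _ ha _ hc, b * d, hB.mul _ hb _ hd, tn_mul _ _ _ _⟩
  · rintro _ ⟨a, ha, b, hb, rfl⟩
    exact ⟨star a, hA.adj _ ha, star b, hB.adj _ hb, tn_star _ _⟩

include hZ in
/-- `B ⊗ Z ≅ B`. -/
theorem BB_absorb : Isom (tens (BB I x₀ Z) Z) (BB I x₀ Z) := by
  refine ⟨re (ee I x₀), ⟨?_, ?_, ?_⟩, ?_, ?_⟩
  · intro T hT
    have h : tens (BB I x₀ Z) Z ⊆ {T | re (ee I x₀) T ∈ BB I x₀ Z} :=
      tens_le ((cspan_csub _).preimage (re (ee I x₀)) (map_add _) (map_smul _)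
        (re (ee I x₀)).continuous) fun a ha b hb => rt_mem_BB x₀ ha hb
    exact h hT
  · exact ⟨fun a _ b _ => map_add _ a b, fun c a _ => map_smul _ c a⟩
  · exact ⟨re_one _, fun a _ b _ => re_mul _ a b, fun a _ => re_star _ a⟩
  · intro a _ b _ h
    rw [← re_symm_re (ee I x₀) a, ← re_symm_re (ee I x₀) b, h]
  · intro b hb
    refine ⟨re (ee I x₀).symm b, ?_, re_re_symm _ _⟩
    have h : BB I x₀ Z ⊆ {T | re (ee I x₀).symm T ∈ tens (BB I x₀ Z) Z} :=
      cspan_le ((tens_csub _ _).preimage (re (ee I x₀).symm) (map_add _) (map_smul _)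
        (re (ee I x₀).symm).continuous) (by
        rintro _ ⟨μ, ν, hμ, hν, _, ⟨l, hl, rfl⟩, rfl⟩
        rw [Set.mem_ofPred_eq]
        cases l with
        | nil =>
          have e : Lw x₀ μ * star (Lw x₀ ν) * pw I x₀ [] =
              rt x₀ (Lw x₀ μ * star (Lw x₀ ν) * 1) 1 := by
            rw [rt_word, rt_one, pw_nil]
          rw [e]
          unfold rt
          rw [re_symm_re]
          exact tn_mem_tens (subset_cspan _ ⟨μ, ν, hμ, hν, 1, DW_one x₀, rfl⟩) hZ.one
        | cons a l =>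
          rw [pw_cons, ← rt_word]
          unfold rt
          rw [re_symm_re]
          exact tn_mem_tens (subset_cspan _ ⟨μ, ν, hμ, hν, _,
            ⟨l, fun b hb => hl b (List.mem_cons_of_mem _ hb), rfl⟩, rfl⟩)
            (hl a (List.mem_cons_self)))
    exact h hb

end

end H584Z
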