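import Pool.Agent.H584R3.Z5

/-!
Words in a Cuntz sequence; traces on the tensor factors.
-/

open scoped InnerProductSpace ComplexConjugate

set_option linter.unusedSectionVars false

noncomputable section

namespace H584Z

open H584Bu
open H584Roe (L2 entry)
open H584BuDefs (cspan tens IsCAlg IsTensor)
open H584ZDefs

section CuntzWords

variable {P : Type} [DecidableEq P]

theorem gen_calg (S : Set (Op P)) : IsCAlg (gen S) where
  subspace :=
    { zero := fun V hV _ => hV.subspace.zero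
      add := fun a ha b hb V hV hS => hV.subspace.add _ (ha V hV hS) _ (hb V hV hS)
      smul := fun c a ha V hV hS => hV.subspace.smul c _ (ha V hV hS)
      closed := by
        have : gen S = ⋂ V ∈ {V : Set (Op P) | IsCAlg V ∧ S ⊆ V}, V := by
          ext T
          simp only [Set.mem_iInter]
          exact ⟨fun h V hV => h V hV.1 hV.2, fun h V hV hS => h V ⟨hV, hS⟩⟩
        rw [this]
        exact isClosed_biInter fun V hV => hV.1.subspace.closed }
  one := fun V hV _ => hV.one
  mul := fun a ha b hb V hV hS => hV.mul _ (ha V hV hS) _ (hb V hV hS)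
  adj := fun a ha V hV hS => hV.adj _ (ha V hV hS)

variable (s : ℕ → Op P)

/-- Words in the isometries `s n`. -/
def sw : List ℕ → Op P
  | [] => 1
  | n :: μ => s n * sw μ

theorem sw_nil : sw s [] = 1 := rfl
theorem sw_cons (n : ℕ) (μ : List ℕ) : sw s (n :: μ) = s n * sw s μ := rfl

theorem sw_append (μ ν : List ℕ) : sw s (μ ++ ν) = sw s μ * sw s ν := by
  induction μ with
  | nil => rw [List.nil_append, sw_nil, one_mul]
  | cons i μ ih => rw [List.cons_append, sw_cons, sw_cons, ih, mul_assoc]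

variable {s} (hs : IsCuntzSeq s)

include hs in
theorem star_sw_sw (ν μ : List ℕ) :
    star (sw s ν) * sw s μ = 0 ∨ (∃ σ, star (sw s ν) * sw s μ = sw s σ) ∨
      ∃ σ, star (sw s ν) * sw s μ = star (sw s σ) := by
  induction ν generalizing μ with
  | nil => right; left; exact ⟨μ, by rw [sw_nil, star_one, one_mul]⟩
  | cons i ν ih =>
    cases μ with
    | nil => right; right; exact ⟨i :: ν, by rw [sw_nil, mul_one]⟩
    | cons k μ =>
      have h1 : star (sw s (i :: ν)) * sw s (k :: μ) =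
          star (sw s ν) * (star (s i) * s k) * sw s μ := by
        rw [sw_cons, sw_cons, star_mul]; simp only [mul_assoc]
      by_cases h : i = k
      · subst h
        rw [h1, hs.isom, mul_one]
        exact ih μ
      · left
        rw [h1, hs.orth i k h, mul_zero, zero_mul]

/-- Spanning set of the Cuntz algebra. -/
def SW (s : ℕ → Op P) : Set (Op P) := {T | T = 0 ∨ ∃ μ ν, T = sw s μ * star (sw s ν)}

include hs in
theorem SW_mul : ∀ a ∈ SW s, ∀ b ∈ SW s, a * b ∈ SW s := by
  rintro a (rfl | ⟨μ, ν, rfl⟩) b (rfl | ⟨μ', ν', rfl⟩)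
  · left; rw [zero_mul]
  · left; rw [zero_mul]
  · left; rw [mul_zero]
  · have h1 : sw s μ * star (sw s ν) * (sw s μ' * star (sw s ν')) =
        sw s μ * (star (sw s ν) * sw s μ') * star (sw s ν') := by simp only [mul_assoc]
    rw [h1]
    rcases star_sw_sw hs ν μ' with h | ⟨σ, h⟩ | ⟨σ, h⟩
    · left; rw [h, mul_zero, zero_mul]
    · right; exact ⟨μ ++ σ, ν', by rw [h, sw_append]⟩
    · right
      refine ⟨μ, ν' ++ σ, ?_⟩
      rw [h, sw_append, star_mul, mul_assoc]

theorem SW_star : ∀ a ∈ SW s, star a ∈ SW s := by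
  rintro a (rfl | ⟨μ, ν, rfl⟩)
  · left; rw [star_zero]
  · right; exact ⟨ν, μ, by rw [star_mul, star_star]⟩

include hs in
theorem gen_sub : gen (Set.range s) ⊆ cspan (SW s) := by
  intro T hT
  refine hT (cspan (SW s)) (calg_of_gen ?_ (SW_mul hs) SW_star) ?_
  · right; exact ⟨[], [], by rw [sw_nil, star_one, mul_one]⟩
  · rintro _ ⟨n, rfl⟩
    refine subset_cspan _ (Or.inr ⟨[n], [], ?_⟩)
    rw [sw_cons, sw_nil, star_one, mul_one, mul_one]

theorem s_mem (n : ℕ) : s n ∈ gen (Set.range s) := fun _ _ hS => hS ⟨n, rfl⟩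

theorem sw_mem (μ : List ℕ) : sw s μ ∈ gen (Set.range s) := by
  induction μ with
  | nil => exact (gen_calg _).one
  | cons n μ ih => exact (gen_calg _).mul _ (s_mem n) _ ih

include hs in
/-- The words `s_μ s_m` are isometries with orthogonal ranges. -/
theorem fresh_orth (m : ℕ) (μ ν : List ℕ) (hμ : ∀ i ∈ μ, i ≠ m) (hν : ∀ i ∈ ν, i ≠ m) :
    star (sw s μ * s m) * (sw s ν * s m) = if μ = ν then 1 else 0 := by
  induction μ generalizing ν with
  | nil =>
    cases ν with
    | nil => rw [sw_nil, one_mul, hs.isom, if_pos rfl]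
    | cons k ν =>
      have hk : m ≠ k := (hν k (List.mem_cons_self)).symm
      rw [sw_nil, one_mul, sw_cons, if_neg (by simp)]
      calc star (s m) * (s k * sw s ν * s m) = (star (s m) * s k) * (sw s ν * s m) := by
            simp only [mul_assoc]
        _ = 0 := by rw [hs.orth m k hk, zero_mul]
  | cons i μ ih =>
    cases ν with
    | nil =>
      have hi : i ≠ m := hμ i (List.mem_cons_self)
      rw [sw_nil, one_mul, sw_cons, if_neg (by simp)]
      calc star (s i * sw s μ * s m) * s m =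
          star (sw s μ * s m) * (star (s i) * s m) := by simp only [star_mul, mul_assoc]
        _ = 0 := by rw [hs.orth i m hi, mul_zero]
    | cons k ν =>
      have h1 : star (sw s (i :: μ) * s m) * (sw s (k :: ν) * s m) =
          star (sw s μ * s m) * (star (s i) * s k) * (sw s ν * s m) := by
        rw [sw_cons, sw_cons]; simp only [star_mul, mul_assoc]
      by_cases h : i = k
      · subst h
        rw [h1, hs.isom, mul_one, ih ν (fun x hx => hμ x (List.mem_cons_of_mem _ hx))
          (fun x hx => hν x (List.mem_cons_of_mem _ hx))]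
        simp
      · rw [h1, hs.orth i k h, mul_zero, zero_mul, if_neg (by simp [h])]

include hs in
theorem star_fresh (m : ℕ) (ν : List ℕ) (hν : ∀ i ∈ ν, i ≠ m) (hne : ν ≠ []) :
    star (sw s ν) * s m = 0 := by
  cases ν with
  | nil => exact absurd rfl hne
  | cons k ν =>
    rw [sw_cons, star_mul, mul_assoc, hs.orth k m (hν k (List.mem_cons_self)), mul_zero]

end CuntzWords

section FW

variable {P Q : Type} [DecidableEq P] [DecidableEq Q]

/-- Approximation of elements of `A ⊗ 𝒪_∞`. -/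
theorem tens_approx {A : Set (Op Q)} (hA : IsCAlg A) {s : ℕ → Op P} (hs : IsCuntzSeq s)
    {T : Op (Q × P)} (hT : T ∈ tens A (gen (Set.range s))) (ε : ℝ) (hε : 0 < ε) :
    ∃ (n : ℕ) (b : Fin n → Op Q) (μ ν : Fin n → List ℕ), (∀ i, b i ∈ A) ∧
      ‖T - ∑ i, tn (b i) (sw s (μ i) * star (sw s (ν i)))‖ < ε := by
  set G : Set (Op (Q × P)) := {T | ∃ b ∈ A, ∃ μ ν, T = tn b (sw s μ * star (sw s ν))} with hG
  have h1 : tens A (gen (Set.range s)) ⊆ cspan G := by
    refine tens_le (cspan_csub G) fun a ha y hy => ?_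
    have h2 : cspan (SW s) ⊆ {y | tn a y ∈ cspan G} :=
      cspan_le ((cspan_csub G).preimage (fun y => tn a y) (fun b b' => tn_add_right a b b')
        (fun c b => tn_smul_right c a b) (tn_continuous_right a)) (by
        rintro y (rfl | ⟨μ, ν, rfl⟩)
        · have h3 : tn a (0 : Op P) = 0 := by
            have h4 : tn a (0 : Op P) = tn a ((0 : ℂ) • (0 : Op P)) := by rw [zero_smul]
            rw [h4, tn_smul_right, zero_smul]
          rw [Set.mem_ofPred_eq, h3]
          exact (cspan_csub G).zero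
        · exact subset_cspan _ ⟨a, ha, μ, ν, rfl⟩)
    exact h2 (gen_sub hs hy)
  have h2 := cspan_sub_closure G (h1 hT)
  obtain ⟨T₀, hT₀, hd⟩ := Metric.mem_closure_iff.1 h2 ε hε
  rw [dist_eq_norm] at hd
  have h3 : ∀ T₀ ∈ Submodule.span ℂ G, ∃ (n : ℕ) (b : Fin n → Op Q) (μ ν : Fin n → List ℕ),
      (∀ i, b i ∈ A) ∧ T₀ = ∑ i, tn (b i) (sw s (μ i) * star (sw s (ν i))) := by
    intro T₀ hT₀
    induction hT₀ using Submodule.span_induction with
    | mem x hx =>
      obtain ⟨b, hb, μ, ν, rfl⟩ := hx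
      exact ⟨1, fun _ => b, fun _ => μ, fun _ => ν, fun _ => hb, by simp⟩
    | zero => exact ⟨0, Fin.elim0, Fin.elim0, Fin.elim0, fun i => i.elim0, by simp⟩
    | add x y _ _ hx hy =>
      obtain ⟨n, b, μ, ν, hb, rfl⟩ := hx
      obtain ⟨m, b', μ', ν', hb', rfl⟩ := hy
      refine ⟨n + m, Fin.append b b', Fin.append μ μ', Fin.append ν ν', ?_, ?_⟩
      · intro i
        refine Fin.addCases (fun i => ?_) (fun i => ?_) i
        · rw [Fin.append_left]; exact hb i
        · rw [Fin.append_right]; exact hb' i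
      · rw [Fin.sum_univ_add]
        simp
    | smul c x _ hx =>
      obtain ⟨n, b, μ, ν, hb, rfl⟩ := hx
      refine ⟨n, fun i => c • b i, μ, ν, fun i => hA.subspace.smul c _ (hb i), ?_⟩
      rw [Finset.smul_sum]
      simp only [tn_smul_left]
  obtain ⟨n, b, μ, ν, hb, rfl⟩ := h3 T₀ hT₀
  exact ⟨n, b, μ, ν, hb, hd⟩

end FW

section Bessel

variable {P : Type} [DecidableEq P]

/-- The adjoints of isometries with orthogonal ranges tend to `0` strongly. -/
theorem cuntz_adj_tendsto {v : ℕ → Op P} (hv : IsCuntzSeq v) (η : L2 P) :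
    Filter.Tendsto (fun n => star (v n) η) Filter.atTop (nhds 0) := by
  have hE : ∀ N : ℕ, ‖∑ n ∈ Finset.range N, v n * star (v n)‖ ≤ 1 := by
    intro N
    set E := ∑ n ∈ Finset.range N, v n * star (v n) with hE
    have h1 : star E * E = E := by
      rw [hE, star_sum, Finset.sum_mul]
      refine Finset.sum_congr rfl fun n hn => ?_
      rw [Finset.mul_sum, Finset.sum_eq_single n]
      · rw [star_mul, star_star]
        calc v n * star (v n) * (v n * star (v n)) =
            v n * (star (v n) * v n) * star (v n) := by simp only [mul_assoc]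
          _ = v n * star (v n) := by rw [hv.isom, mul_one]
      · intro k _ hk
        rw [star_mul, star_star]
        calc v n * star (v n) * (v k * star (v k)) =
            v n * (star (v n) * v k) * star (v k) := by simp only [mul_assoc]
          _ = 0 := by rw [hv.orth n k (Ne.symm hk), mul_zero, zero_mul]
      · intro h; exact absurd hn h
    have h2 : ‖E‖ * ‖E‖ = ‖E‖ := by
      rw [← CStarRing.norm_star_mul_self, h1]
    by_contra h
    push Not at h
    nlinarith [norm_nonneg E]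
  have hsum : ∀ N : ℕ, ∑ n ∈ Finset.range N, ‖star (v n) η‖ ^ 2 ≤ ‖η‖ ^ 2 := by
    intro N
    have h1 : ((∑ n ∈ Finset.range N, ‖star (v n) η‖ ^ 2 : ℝ) : ℂ) =
        ⟪η, (∑ n ∈ Finset.range N, v n * star (v n)) η⟫_ℂ := by
      rw [sum_apply, inner_sum, Complex.ofReal_sum]
      refine Finset.sum_congr rfl fun n _ => ?_
      have h2 : (v n * star (v n)) η = v n (star (v n) η) := rfl
      rw [h2, ← ContinuousLinearMap.adjoint_inner_left, ← ContinuousLinearMap.star_eq_adjoint,
        inner_self_eq_norm_sq_to_K]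
      push_cast
      rfl
    have h3 : |∑ n ∈ Finset.range N, ‖star (v n) η‖ ^ 2| ≤ ‖η‖ ^ 2 := by
      have h4 : |∑ n ∈ Finset.range N, ‖star (v n) η‖ ^ 2| =
          ‖((∑ n ∈ Finset.range N, ‖star (v n) η‖ ^ 2 : ℝ) : ℂ)‖ := by
        rw [Complex.norm_real]; rfl
      rw [h4, h1]
      refine (norm_inner_le_norm _ _).trans ?_
      have h5 : ‖(∑ n ∈ Finset.range N, v n * star (v n)) η‖ ≤ ‖η‖ := by
        refine (ContinuousLinearMap.le_opNorm _ _).trans ?_
        calc _ ≤ 1 * ‖η‖ := mul_le_mul_of_nonneg_right (hE N) (norm_nonneg _)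
          _ = ‖η‖ := one_mul _
      rw [sq]
      exact mul_le_mul_of_nonneg_left h5 (norm_nonneg _)
    exact (le_abs_self _).trans h3
  have hs : Summable fun n => ‖star (v n) η‖ ^ 2 :=
    summable_of_sum_range_le (fun n => by positivity) hsum
  have h1 := hs.tendsto_atTop_zero
  have h2 : Filter.Tendsto (fun n => ‖star (v n) η‖) Filter.atTop (nhds 0) := by
    have h3 := h1.sqrt
    simp only [Real.sqrt_zero] at h3
    refine h3.congr fun n => ?_
    exact Real.sqrt_sq (norm_nonneg _)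
  exact tendsto_zero_iff_norm_tendsto_zero.2 h2

end Bessel

section Trace

variable {I X : Type} [DecidableEq I] [DecidableEq X] (x₀ : X) {Z : Set (Op X)} (hZ : IsCAlg Z)

theorem entry_continuous {P : Type} [DecidableEq P] (p q : P) :
    Continuous fun b : Op P => entry b p q := by
  have h : LipschitzWith 1 fun b : Op P => entry b p q := by
    apply LipschitzWith.of_dist_le_mul
    intro a b
    rw [dist_eq_norm, dist_eq_norm, ← entry_sub']
    simpa using norm_entry_le (a - b) p q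
  exact h.continuous

theorem trace_pw (htr : IsTraceVec Z x₀) (w : List I) (l l' : List (Op X))
    (hl : ∀ a ∈ l, a ∈ Z) (hl' : ∀ a ∈ l', a ∈ Z) :
    entry (pw I x₀ l * pw I x₀ l') (w, y0 x₀) (w, y0 x₀) =
      entry (pw I x₀ l' * pw I x₀ l) (w, y0 x₀) (w, y0 x₀) := by
  induction l generalizing l' with
  | nil => rw [pw_nil, one_mul, mul_one]
  | cons a l ih =>
    cases l' with
    | nil => rw [pw_nil, one_mul, mul_one]
    | cons b l' =>
      rw [pw_cons, pw_cons, rt_mul, rt_mul, rt_entry, rt_entry]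
      have h1 := ih l' (fun x hx => hl x (List.mem_cons_of_mem _ hx))
        (fun x hx => hl' x (List.mem_cons_of_mem _ hx))
      have h2 := htr a (hl a (List.mem_cons_self)) b (hl' b (List.mem_cons_self))
      rw [coeff_eq, coeff_eq] at h2
      change entry (pw I x₀ l * pw I x₀ l') (w, y0 x₀) (w, y0 x₀) * entry (a * b) x₀ x₀ =
        entry (pw I x₀ l' * pw I x₀ l) (w, y0 x₀) (w, y0 x₀) * entry (b * a) x₀ x₀
      rw [h1, h2]

theorem trace_DD (htr : IsTraceVec Z x₀) (w : List I) {a b : Op (MM I x₀)}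
    (ha : a ∈ DD I x₀ Z) (hb : b ∈ DD I x₀ Z) :
    entry (a * b) (w, y0 x₀) (w, y0 x₀) = entry (b * a) (w, y0 x₀) (w, y0 x₀) := by
  have key : ∀ b : Op (MM I x₀), CSub {a : Op (MM I x₀) |
      entry (a * b) (w, y0 x₀) (w, y0 x₀) = entry (b * a) (w, y0 x₀) (w, y0 x₀)} := by
    intro b
    refine ⟨?_, ?_, ?_, ?_⟩
    · rw [Set.mem_ofPred_eq, mul_zero, zero_mul]
    · intro c hc d hd
      rw [Set.mem_ofPred_eq] at hc hd ⊢
      rw [add_mul, mul_add, entry_add, entry_add, hc, hd]
    · intro k c hc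
      rw [Set.mem_ofPred_eq] at hc ⊢
      rw [smul_mul_assoc, mul_smul_comm, entry_smul, entry_smul, hc]
    · exact isClosed_eq ((entry_continuous _ _).comp (continuous_id.mul continuous_const))
        ((entry_continuous _ _).comp (continuous_const.mul continuous_id))
  have h1 : ∀ b ∈ DW I x₀ Z, ∀ a ∈ DD I x₀ Z,
      entry (a * b) (w, y0 x₀) (w, y0 x₀) = entry (b * a) (w, y0 x₀) (w, y0 x₀) := by
    rintro _ ⟨l', hl', rfl⟩ a ha
    refine cspan_le (key _) ?_ ha
    rintro _ ⟨l, hl, rfl⟩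
    exact trace_pw x₀ htr w l l' hl hl'
  exact (cspan_le (key a) (fun b hb => (h1 b hb a ha).symm) hb).symm

theorem entry_star_mul_self {P : Type} [DecidableEq P] (S : Op P) (p : P) :
    entry (star S * S) p p = ((‖S (lp.single 2 p (1 : ℂ))‖ ^ 2 : ℝ) : ℂ) := by
  rw [entry_eq_inner]
  have h1 : (star S * S) (lp.single 2 p (1 : ℂ)) = star S (S (lp.single 2 p (1 : ℂ))) := rfl
  rw [h1, ContinuousLinearMap.star_eq_adjoint, ContinuousLinearMap.adjoint_inner_right,
    inner_self_eq_norm_sq_to_K]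
  push_cast
  rfl

include hZ in
theorem trace_est (htr : IsTraceVec Z x₀) (w : List I) {d x : Op (MM I x₀)}
    (hd : d ∈ DD I x₀ Z) (hx : x ∈ DD I x₀ Z) :
    ‖d (x (lp.single 2 ((w, y0 x₀) : MM I x₀) (1 : ℂ)))‖ ≤
      ‖x‖ * ‖star d (lp.single 2 ((w, y0 x₀) : MM I x₀) (1 : ℂ))‖ := by
  have hD := DD_calg (I := I) x₀ hZ
  have h1 : entry (star (d * x) * (d * x)) (w, y0 x₀) (w, y0 x₀) =
      entry (star (star x * star d) * (star x * star d)) (w, y0 x₀) (w, y0 x₀) := by
    have h2 := trace_DD x₀ htr w (hD.adj _ (hD.mul _ hd _ hx)) (hD.mul _ hd _ hx)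
    rw [h2]
    congr 1
    simp only [star_mul, star_star]
  rw [entry_star_mul_self, entry_star_mul_self] at h1
  have h2 : ‖(d * x) (lp.single 2 ((w, y0 x₀) : MM I x₀) (1 : ℂ))‖ ^ 2 =
      ‖(star x * star d) (lp.single 2 ((w, y0 x₀) : MM I x₀) (1 : ℂ))‖ ^ 2 := by
    exact_mod_cast h1
  have h3 : ‖(d * x) (lp.single 2 ((w, y0 x₀) : MM I x₀) (1 : ℂ))‖ =
      ‖(star x * star d) (lp.single 2 ((w, y0 x₀) : MM I x₀) (1 : ℂ))‖ := by
    have h4 := congrArg Real.sqrt h2
    rwa [Real.sqrt_sq (norm_nonneg _), Real.sqrt_sq (norm_nonneg _)] at h4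
  have h4 : d (x (lp.single 2 ((w, y0 x₀) : MM I x₀) (1 : ℂ))) =
      (d * x) (lp.single 2 ((w, y0 x₀) : MM I x₀) (1 : ℂ)) := rfl
  rw [h4, h3]
  exact norm_star_apply x _

include hZ in
/-- Strong convergence of the adjoints implies strong convergence on the cyclic subspace. -/
theorem strong_conv (htr : IsTraceVec Z x₀) {G : ℕ → Op (MM I x₀)} (hG : ∀ n, G n ∈ DD I x₀ Z)
    (hG1 : ∀ n, ‖G n‖ ≤ 1)
    (hlim : ∀ η, Filter.Tendsto (fun n => star (G n) η) Filter.atTop (nhds 0))
    {b : Op (MM I x₀)} (hb : b ∈ BB I x₀ Z) :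
    Filter.Tendsto (fun n => G n (b (lp.single 2 (([], y0 x₀) : MM I x₀) (1 : ℂ))))
      Filter.atTop (nhds 0) := by
  have h1 : CSub {b : Op (MM I x₀) | Filter.Tendsto
      (fun n => G n (b (lp.single 2 (([], y0 x₀) : MM I x₀) (1 : ℂ))))
      Filter.atTop (nhds 0)} := by
    refine ⟨?_, ?_, ?_, ?_⟩
    · rw [Set.mem_ofPred_eq]
      have e : ∀ n, G n ((0 : Op (MM I x₀)) (lp.single 2 (([], y0 x₀) : MM I x₀) (1 : ℂ))) = 0 :=
        fun n => by
          have : (0 : Op (MM I x₀)) (lp.single 2 (([], y0 x₀) : MM I x₀) (1 : ℂ)) = 0 := rfl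
          rw [this, map_zero]
      simp_rw [e]
      exact tendsto_const_nhds
    · intro c hc d hd
      rw [Set.mem_ofPred_eq] at hc hd ⊢
      have h := hc.add hd
      rw [add_zero] at h
      refine h.congr fun n => ?_
      rw [← map_add]
      rfl
    · intro k c hc
      rw [Set.mem_ofPred_eq] at hc ⊢
      have h := hc.const_smul k
      rw [smul_zero] at h
      refine h.congr fun n => ?_
      rw [← map_smul]
      rfl
    · apply isClosed_of_closure_subset
      intro c hc
      rw [Set.mem_ofPred_eq, Metric.tendsto_atTop]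
      intro ε hε
      obtain ⟨c', hc', hd⟩ := Metric.mem_closure_iff.1 hc (ε / 2) (by positivity)
      rw [Set.mem_ofPred_eq, Metric.tendsto_atTop] at hc'
      obtain ⟨N, hN⟩ := hc' (ε / 2) (by positivity)
      refine ⟨N, fun n hn => ?_⟩
      have h2 := hN n hn
      rw [dist_zero_right] at h2 ⊢
      rw [dist_eq_norm] at hd
      have e : G n (c (lp.single 2 (([], y0 x₀) : MM I x₀) (1 : ℂ))) =
          G n ((c - c') (lp.single 2 (([], y0 x₀) : MM I x₀) (1 : ℂ))) +
            G n (c' (lp.single 2 (([], y0 x₀) : MM I x₀) (1 : ℂ))) := by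
        rw [← map_add]
        congr 1
        have h3 : (c - c') (lp.single 2 (([], y0 x₀) : MM I x₀) (1 : ℂ)) =
          c (lp.single 2 (([], y0 x₀) : MM I x₀) (1 : ℂ)) -
            c' (lp.single 2 (([], y0 x₀) : MM I x₀) (1 : ℂ)) := rfl
        rw [h3]; abel
      rw [e]
      have h4 : ‖G n ((c - c') (lp.single 2 (([], y0 x₀) : MM I x₀) (1 : ℂ)))‖ ≤ ‖c - c'‖ := by
        refine ((G n).le_opNorm _).trans ?_
        have h5 : ‖(c - c') (lp.single 2 (([], y0 x₀) : MM I x₀) (1 : ℂ))‖ ≤ ‖c - c'‖ := by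
          refine ((c - c').le_opNorm _).trans ?_
          rw [lp.norm_single (by norm_num)]
          simp
        calc ‖G n‖ * _ ≤ 1 * ‖c - c'‖ := mul_le_mul (hG1 n) h5 (norm_nonneg _) zero_le_one
          _ = ‖c - c'‖ := one_mul _
      refine (norm_add_le _ _).trans_lt ?_
      linarith
  refine cspan_le h1 ?_ hb
  rintro _ ⟨μ, ν, hμ, hν, T, hT, rfl⟩
  rw [Set.mem_ofPred_eq]
  by_cases hν0 : ν = []
  · subst hν0
    have e : (Lw x₀ μ * star (Lw x₀ ([] : List I)) * T : Op (MM I x₀))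
        (lp.single 2 (([], y0 x₀) : MM I x₀) (1 : ℂ)) =
        T (lp.single 2 ((μ, y0 x₀) : MM I x₀) (1 : ℂ)) := by
      rw [Lw_nil, star_one, mul_one, Lw_comm x₀ hT]
      have h2 : (T * Lw x₀ μ) (lp.single 2 (([], y0 x₀) : MM I x₀) (1 : ℂ)) =
        T (Lw x₀ μ (lp.single 2 (([], y0 x₀) : MM I x₀) (1 : ℂ))) := rfl
      rw [h2, Lw_single]
      simp
    rw [e]
    have h3 : ∀ n, ‖G n (T (lp.single 2 ((μ, y0 x₀) : MM I x₀) (1 : ℂ)))‖ ≤
        ‖T‖ * ‖star (G n) (lp.single 2 ((μ, y0 x₀) : MM I x₀) (1 : ℂ))‖ := fun n =>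
      trace_est x₀ hZ htr μ (hG n) (subset_cspan _ hT)
    have h4 := (hlim (lp.single 2 ((μ, y0 x₀) : MM I x₀) (1 : ℂ))).norm.const_mul ‖T‖
    rw [norm_zero, mul_zero] at h4
    exact squeeze_zero_norm h3 h4
  · have e : (Lw x₀ μ * star (Lw x₀ ν) * T) (lp.single 2 (([], y0 x₀) : MM I x₀) (1 : ℂ)) = 0 := by
      rw [mul_assoc, star_Lw_comm x₀ hZ hT]
      ext1; funext q
      have h2 : ((Lw x₀ μ * (T * star (Lw x₀ ν))) (lp.single 2 (([], y0 x₀) : MM I x₀) (1 : ℂ)) :
          MM I x₀ → ℂ) q = entry (Lw x₀ μ * T * star (Lw x₀ ν)) q ([], y0 x₀) := by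
        rw [← mul_assoc]; rfl
      rw [h2, entry_mul_star_Lw x₀ hν0]
      rfl
    rw [e]
    simp_rw [map_zero]
    exact tendsto_const_nhds

end Trace

end H584Z
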