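import Pool.Agent.H584R3.Z6

/-!
`B ⊗ 𝒪_∞` is not isomorphic to `B`.
-/

open scoped InnerProductSpace ComplexConjugate

set_option linter.unusedSectionVars false

noncomputable section

namespace H584Z

open H584Bu
open H584Roe (L2 entry)
open H584BuDefs (cspan tens IsCAlg IsTensor IsHom)
open H584ZDefs

theorem norm_star' {P : Type} (x : Op P) : ‖star x‖ = ‖x‖ := by
  rw [ContinuousLinearMap.star_eq_adjoint, LinearIsometryEquiv.norm_map]

section IsoNorm

variable {P Q : Type} [DecidableEq P] [DecidableEq Q]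

theorem iso_norm {A : Set (Op P)} {B : Set (Op Q)} (hA : IsCAlg A) (hB : IsCAlg B)
    {Θ : Op P → Op Q} (h : IsIso A B Θ) {T : Op P} (hT : T ∈ A) : ‖Θ T‖ = ‖T‖ := by
  have h0 : Θ 0 = 0 := by
    have := h.hom.lin.smul 0 0 hA.subspace.zero
    simpa using this
  let φ : SS hA →⋆ₐ[ℂ] SS hB :=
    { toFun := fun a => ⟨Θ a, h.hom.maps a a.2⟩
      map_one' := Subtype.ext h.hom.mul.one
      map_mul' := fun a b => Subtype.ext (h.hom.mul.mul a a.2 b b.2)
      map_zero' := Subtype.ext h0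
      map_add' := fun a b => Subtype.ext (h.hom.lin.add a a.2 b b.2)
      commutes' := fun c => Subtype.ext (by
        change Θ (algebraMap ℂ (Op P) c) = algebraMap ℂ (Op Q) c
        rw [Algebra.algebraMap_eq_smul_one, Algebra.algebraMap_eq_smul_one,
          h.hom.lin.smul c 1 hA.one, h.hom.mul.one])
      map_star' := fun a => Subtype.ext (h.hom.mul.adj a a.2) }
  have hinj : Function.Injective φ := fun a b hab =>
    Subtype.ext (h.inj a a.2 b b.2 (congrArg Subtype.val hab))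
  exact NonUnitalStarAlgHom.norm_map φ hinj ⟨T, hT⟩

theorem hom_sum {A : Set (Op P)} {B : Set (Op Q)} (hA : IsCAlg A)
    {Θ : Op P → Op Q} (h : IsHom A B Θ) {ι : Type} (s : Finset ι) (f : ι → Op P)
    (hf : ∀ i ∈ s, f i ∈ A) : Θ (∑ i ∈ s, f i) = ∑ i ∈ s, Θ (f i) := by
  classical
  induction s using Finset.induction_on with
  | empty =>
    rw [Finset.sum_empty, Finset.sum_empty]
    have := h.lin.smul 0 0 hA.subspace.zero
    simpa using this
  | insert a s ha ih =>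
    rw [Finset.sum_insert ha, Finset.sum_insert ha,
      h.lin.add _ (hf a (Finset.mem_insert_self _ _)) _
        (sum_mem hA hA s f fun i hi => hf i (Finset.mem_insert_of_mem hi)),
      ih fun i hi => hf i (Finset.mem_insert_of_mem hi)]

theorem norm_isom_le {S : Op P} (h : star S * S = 1) : ‖S‖ ≤ 1 := by
  have h1 : ‖S‖ * ‖S‖ ≤ 1 := by
    rw [← CStarRing.norm_star_mul_self, h]
    exact norm_one_le
  by_contra h2
  push Not at h2
  nlinarith [norm_nonneg S]

theorem est_abs {Q : Type} [DecidableEq Q] (A R W y : Op Q) (hA : star A * A = 1) (hd : ‖A - R‖ ≤ 1 / 20)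
    (hW : ‖W‖ ≤ 1) (hy : ‖y‖ ≤ 1) (hc : W * R = R * y) :
    ‖star A * W * A - y‖ ≤ 1 / 2 := by
  have hAn : ‖A‖ ≤ 1 := norm_isom_le hA
  have hRn : ‖R‖ ≤ 21 / 20 := by
    have h : R = A - (A - R) := by abel
    rw [h]
    refine (norm_sub_le _ _).trans ?_
    linarith
  have hRR : ‖star R * R - 1‖ ≤ 41 / 400 := by
    have h : star R * R - 1 = -(star A * (A - R) + star (A - R) * R) := by
      rw [← hA]
      rw [mul_sub, star_sub, sub_mul]
      abel
    rw [h, norm_neg]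
    refine (norm_add_le _ _).trans ?_
    have h1 : ‖star A * (A - R)‖ ≤ 1 / 20 := by
      refine (norm_mul_le _ _).trans ?_
      rw [norm_star']
      calc ‖A‖ * ‖A - R‖ ≤ 1 * (1 / 20) :=
            mul_le_mul hAn hd (norm_nonneg _) zero_le_one
        _ = 1 / 20 := one_mul _
    have h2 : ‖star (A - R) * R‖ ≤ 1 / 20 * (21 / 20) := by
      refine (norm_mul_le _ _).trans ?_
      rw [norm_star']
      exact mul_le_mul hd hRn (norm_nonneg _) (by norm_num)
    linarith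
  have e : star A * W * A - y =
      (star A * W * (A - R) + star (A - R) * (W * R)) + (star R * R - 1) * y := by
    have h1 : star R * (W * R) = star R * R * y := by
      rw [hc, mul_assoc]
    have h2 : (star R * R - 1) * y = star R * (W * R) - y := by
      rw [h1, sub_mul, one_mul]
    rw [h2, star_sub, sub_mul, mul_sub]
    simp only [mul_assoc]
    abel
  rw [e]
  have h1 : ‖star A * W * (A - R)‖ ≤ 1 / 20 := by
    refine (norm_mul_le _ _).trans ?_
    have h3 : ‖star A * W‖ ≤ 1 := by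
      refine (norm_mul_le _ _).trans ?_
      rw [norm_star']
      calc ‖A‖ * ‖W‖ ≤ 1 * 1 := mul_le_mul hAn hW (norm_nonneg _) zero_le_one
        _ = 1 := one_mul _
    calc _ ≤ 1 * (1 / 20) := mul_le_mul h3 hd (norm_nonneg _) zero_le_one
      _ = 1 / 20 := one_mul _
  have h2 : ‖star (A - R) * (W * R)‖ ≤ 1 / 20 * (21 / 20) := by
    refine (norm_mul_le _ _).trans ?_
    rw [norm_star']
    have h3 : ‖W * R‖ ≤ 21 / 20 := by
      refine (norm_mul_le _ _).trans ?_
      calc _ ≤ 1 * (21 / 20) := mul_le_mul hW hRn (norm_nonneg _) zero_le_one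
        _ = 21 / 20 := one_mul _
    exact mul_le_mul hd h3 (norm_nonneg _) (by norm_num)
  have h4 : ‖(star R * R - 1) * y‖ ≤ 41 / 400 := by
    refine (norm_mul_le _ _).trans ?_
    calc _ ≤ 41 / 400 * 1 := mul_le_mul hRR hy (norm_nonneg _) (by norm_num)
      _ = 41 / 400 := mul_one _
  refine (norm_add_le _ _).trans ?_
  have h5 := norm_add_le (star A * W * (A - R)) (star (A - R) * (W * R))
  linarith

end IsoNorm

section

variable {I X P : Type} [DecidableEq I] [DecidableEq X] [DecidableEq P] (x₀ : X)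
  {Z : Set (Op X)} (hZ : IsCAlg Z)

/-- The partial isometries `W_n`. -/
def Wn (s : ℕ → Op P) (F : Finset (List ℕ)) (m n : ℕ) : Op P :=
  ∑ μ ∈ F, (sw s μ * s m) * s n * star (sw s μ * s m)

theorem Wn_norm {s : ℕ → Op P} (hs : IsCuntzSeq s) (F : Finset (List ℕ)) (m n : ℕ)
    (hF : ∀ μ ∈ F, ∀ i ∈ μ, i ≠ m) : ‖Wn s F m n‖ ≤ 1 := by
  set E := ∑ μ ∈ F, (sw s μ * s m) * star (sw s μ * s m) with hE
  have h1 : star (Wn s F m n) * Wn s F m n = E := by
    unfold Wn
    rw [hE, star_sum, Finset.sum_mul]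
    refine Finset.sum_congr rfl fun μ hμ => ?_
    rw [Finset.mul_sum, Finset.sum_eq_single μ]
    · calc star (sw s μ * s m * s n * star (sw s μ * s m)) *
          (sw s μ * s m * s n * star (sw s μ * s m)) =
          (sw s μ * s m) * (star (s n) * (star (sw s μ * s m) * (sw s μ * s m)) * s n) *
            star (sw s μ * s m) := by
            simp only [star_mul, star_star, mul_assoc]
        _ = _ := by
            rw [fresh_orth hs m μ μ (hF μ hμ) (hF μ hμ), if_pos rfl, mul_one, hs.isom, mul_one]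
    · intro ν hν hne
      calc star (sw s μ * s m * s n * star (sw s μ * s m)) *
          (sw s ν * s m * s n * star (sw s ν * s m)) =
          (sw s μ * s m) * (star (s n) * (star (sw s μ * s m) * (sw s ν * s m)) * s n) *
            star (sw s ν * s m) := by
            simp only [star_mul, star_star, mul_assoc]
        _ = 0 := by
            rw [fresh_orth hs m μ ν (hF μ hμ) (hF ν hν), if_neg (Ne.symm hne)]
            simp
    · intro h; exact absurd hμ h
  have h2 : star E * E = E := by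
    rw [hE, star_sum, Finset.sum_mul]
    refine Finset.sum_congr rfl fun μ hμ => ?_
    rw [Finset.mul_sum, Finset.sum_eq_single μ]
    · calc star (sw s μ * s m * star (sw s μ * s m)) * (sw s μ * s m * star (sw s μ * s m)) =
          (sw s μ * s m) * (star (sw s μ * s m) * (sw s μ * s m)) * star (sw s μ * s m) := by
            simp only [star_mul, star_star, mul_assoc]
        _ = _ := by rw [fresh_orth hs m μ μ (hF μ hμ) (hF μ hμ), if_pos rfl, mul_one]
    · intro ν hν hne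
      calc star (sw s μ * s m * star (sw s μ * s m)) * (sw s ν * s m * star (sw s ν * s m)) =
          (sw s μ * s m) * (star (sw s μ * s m) * (sw s ν * s m)) * star (sw s ν * s m) := by
            simp only [star_mul, star_star, mul_assoc]
        _ = 0 := by
            rw [fresh_orth hs m μ ν (hF μ hμ) (hF ν hν), if_neg (Ne.symm hne), mul_zero, zero_mul]
    · intro h; exact absurd hμ h
  have h3 : ‖E‖ ≤ 1 := by
    have h4 : ‖E‖ * ‖E‖ = ‖E‖ := by rw [← CStarRing.norm_star_mul_self, h2]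
    by_contra h
    push Not at h
    nlinarith [norm_nonneg E]
  have h5 : ‖Wn s F m n‖ * ‖Wn s F m n‖ ≤ 1 := by
    rw [← CStarRing.norm_star_mul_self, h1]; exact h3
  by_contra h
  push Not at h
  nlinarith [norm_nonneg (Wn s F m n)]

theorem Wn_mul {s : ℕ → Op P} (hs : IsCuntzSeq s) (F : Finset (List ℕ)) (m n : ℕ)
    (hF : ∀ μ ∈ F, ∀ i ∈ μ, i ≠ m) {μ : List ℕ} (hμ : μ ∈ F) :
    Wn s F m n * (sw s μ * s m) = (sw s μ * s m) * s n := by
  unfold Wn
  rw [Finset.sum_mul, Finset.sum_eq_single μ]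
  · rw [mul_assoc, fresh_orth hs m μ μ (hF μ hμ) (hF μ hμ), if_pos rfl, mul_one]
  · intro ν hν hne
    rw [mul_assoc, fresh_orth hs m ν μ (hF ν hν) (hF μ hμ), if_neg hne, mul_zero]
  · intro h; exact absurd hμ h

include hZ in
theorem no_iso [Uncountable I] (htr : IsTraceVec Z x₀) {s : ℕ → Op P} (hs : IsCuntzSeq s) :
    ¬ Isom (tens (BB I x₀ Z) (gen (Set.range s))) (BB I x₀ Z) := by
  classical
  rintro ⟨Θ, hΘ⟩
  have hB := BB_calg (I := I) x₀ hZ
  have hO := gen_calg (Set.range s)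
  have hT := tens_calg hB hO
  set 𝓣 := tens (BB I x₀ Z) (gen (Set.range s)) with h𝓣
  have hmem : ∀ y ∈ gen (Set.range s), tn (1 : Op (MM I x₀)) y ∈ 𝓣 := fun y hy =>
    tn_mem_tens hB.one hy
  have hΘ0 : Θ 0 = 0 := by
    have := hΘ.hom.lin.smul 0 0 hT.subspace.zero
    simpa using this
  have htn0 : tn (1 : Op (MM I x₀)) (0 : Op P) = 0 := by
    have h4 : tn (1 : Op (MM I x₀)) (0 : Op P) = tn 1 ((0 : ℂ) • (0 : Op P)) := by rw [zero_smul]
    rw [h4, tn_smul_right, zero_smul]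
  -- the image of the Cuntz sequence
  set v : ℕ → Op (MM I x₀) := fun n => Θ (tn 1 (s n)) with hv
  have hvB : ∀ n, v n ∈ BB I x₀ Z := fun n => hΘ.hom.maps _ (hmem _ (s_mem n))
  have hmulΘ : ∀ y ∈ gen (Set.range s), ∀ y' ∈ gen (Set.range s),
      Θ (tn 1 (y * y')) = Θ (tn 1 y) * Θ (tn 1 y') := by
    intro y hy y' hy'
    rw [← hΘ.hom.mul.mul _ (hmem y hy) _ (hmem y' hy'), tn_mul, one_mul]
  have hstarΘ : ∀ y ∈ gen (Set.range s), Θ (tn 1 (star y)) = star (Θ (tn 1 y)) := by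
    intro y hy
    rw [← hΘ.hom.mul.adj _ (hmem y hy), tn_star, star_one]
  have hvs : IsCuntzSeq v := by
    refine ⟨fun n => ?_, fun m n hmn => ?_⟩
    · change star (Θ (tn 1 (s n))) * Θ (tn 1 (s n)) = 1
      rw [← hstarΘ _ (s_mem n), ← hmulΘ _ (hO.adj _ (s_mem n)) _ (s_mem n), hs.isom, tn_one,
        hΘ.hom.mul.one]
    · change star (Θ (tn 1 (s m))) * Θ (tn 1 (s n)) = 0
      rw [← hstarΘ _ (s_mem m), ← hmulΘ _ (hO.adj _ (s_mem m)) _ (s_mem n), hs.orth m n hmn,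
        htn0, hΘ0]
  -- support
  have hsup : ∀ n, ∃ J : Set I, J.Countable ∧ v n ∈ BJ x₀ Z J := fun n =>
    exists_support x₀ (hvB n)
  choose K hK hKv using hsup
  set J : Set I := ⋃ n, K n with hJ
  have hJc : J.Countable := Set.countable_iUnion hK
  have hvJ : ∀ n, v n ∈ BJ x₀ Z J := fun n => BJ_mono x₀ (Set.subset_iUnion K n) (hKv n)
  have hJalg := BJ_calg (I := I) x₀ hZ J
  have hswJ : ∀ μ, Θ (tn 1 (sw s μ)) ∈ BJ x₀ Z J := by
    intro μ
    induction μ with
    | nil => rw [sw_nil, tn_one, hΘ.hom.mul.one]; exact hJalg.one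
    | cons n μ ih =>
      rw [sw_cons, hmulΘ _ (s_mem n) _ (sw_mem μ)]
      exact hJalg.mul _ (hvJ n) _ ih
  obtain ⟨j, hj⟩ := exists_fresh hJc
  have hLj : Li x₀ j ∈ BB I x₀ Z := Li_mem x₀ (Set.mem_univ _)
  obtain ⟨T, hT𝓣, hTj⟩ := hΘ.surj _ hLj
  have hTisom : star T * T = 1 := by
    apply hΘ.inj _ (hT.mul _ (hT.adj _ hT𝓣) _ hT𝓣) _ hT.one
    rw [hΘ.hom.mul.mul _ (hT.adj _ hT𝓣) _ hT𝓣, hΘ.hom.mul.adj _ hT𝓣, hTj, Li_isom,
      hΘ.hom.mul.one]
  obtain ⟨N, b, μ, ν, hb, hTb⟩ := tens_approx hB hs hT𝓣 (1 / 20) (by norm_num)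
  -- a fresh letter
  obtain ⟨m, hm⟩ : ∃ m : ℕ, ∀ i, (∀ k ∈ μ i, k ≠ m) ∧ (∀ k ∈ ν i, k ≠ m) := by
    set S : Finset ℕ := (Finset.univ.biUnion fun i => (μ i).toFinset) ∪
      (Finset.univ.biUnion fun i => (ν i).toFinset) with hS
    obtain ⟨m, hm⟩ := Infinite.exists_notMem_finset S
    refine ⟨m, fun i => ⟨fun k hk h => hm ?_, fun k hk h => hm ?_⟩⟩
    · rw [hS, Finset.mem_union, Finset.mem_biUnion]
      left
      exact ⟨i, Finset.mem_univ _, by rw [← h]; exact List.mem_toFinset.2 hk⟩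
    · rw [hS, Finset.mem_union, Finset.mem_biUnion, Finset.mem_biUnion]
      right
      exact ⟨i, Finset.mem_univ _, by rw [← h]; exact List.mem_toFinset.2 hk⟩
  set F : Finset (List ℕ) := Finset.univ.image μ with hF
  have hFm : ∀ σ ∈ F, ∀ i ∈ σ, i ≠ m := by
    intro σ hσ
    obtain ⟨i, _, rfl⟩ := Finset.mem_image.1 hσ
    exact (hm i).1
  obtain ⟨T₀, hT₀⟩ : ∃ T₀ : Op (MM I x₀ × P),
      T₀ = ∑ i, tn (b i) (sw s (μ i) * star (sw s (ν i))) := ⟨_, rfl⟩
  rw [← hT₀] at hTb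
  obtain ⟨z, hz⟩ : ∃ z : Op (MM I x₀ × P), z = tn 1 (s m) := ⟨_, rfl⟩
  have hzisom : star z * z = 1 := by
    rw [hz, tn_star, tn_mul, star_one, one_mul, hs.isom, tn_one]
  have hznorm : ‖z‖ ≤ 1 := norm_isom_le hzisom
  have hTz : star (T * z) * (T * z) = 1 := by
    calc star (T * z) * (T * z) = star z * (star T * T) * z := by
          simp only [star_mul, mul_assoc]
      _ = 1 := by rw [hTisom, mul_one, hzisom]
  have hdiff : ‖T * z - T₀ * z‖ ≤ 1 / 20 := by
    rw [← sub_mul]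
    refine (norm_mul_le _ _).trans ?_
    calc ‖T - T₀‖ * ‖z‖ ≤ 1 / 20 * 1 := mul_le_mul hTb.le hznorm (norm_nonneg _) (by norm_num)
      _ = 1 / 20 := mul_one _
  -- commutation
  have hcomm : ∀ n, tn 1 (Wn s F m n) * (T₀ * z) = (T₀ * z) * tn 1 (s n) := by
    intro n
    rw [hT₀, Finset.sum_mul, Finset.mul_sum, Finset.sum_mul]
    refine Finset.sum_congr rfl fun i _ => ?_
    rw [hz, tn_mul, tn_mul, tn_mul, one_mul, mul_one, mul_one]
    by_cases hν : ν i = []
    · rw [hν, sw_nil, star_one, mul_one,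
        Wn_mul hs F m n hFm (Finset.mem_image.2 ⟨i, Finset.mem_univ _, rfl⟩)]
    · have h1 : star (sw s (ν i)) * s m = 0 := star_fresh hs m (ν i) (hm i).2 hν
      have h2 : sw s (μ i) * star (sw s (ν i)) * s m = 0 := by
        rw [mul_assoc, h1, mul_zero]
      rw [h2, mul_zero, zero_mul]
  have hWn1 : ∀ n, ‖tn (1 : Op (MM I x₀)) (Wn s F m n)‖ ≤ 1 := by
    intro n
    refine (norm_tn _ _).trans ?_
    calc ‖(1 : Op (MM I x₀))‖ * ‖Wn s F m n‖ ≤ 1 * 1 :=
          mul_le_mul norm_one_le (Wn_norm hs F m n hFm) (norm_nonneg _) zero_le_one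
      _ = 1 := one_mul _
  have hsn : ∀ n, ‖tn (1 : Op (MM I x₀)) (s n)‖ ≤ 1 := by
    intro n
    apply norm_isom_le
    rw [tn_star, tn_mul, star_one, one_mul, hs.isom, tn_one]
  have hest : ∀ n, ‖star (T * z) * tn 1 (Wn s F m n) * (T * z) - tn 1 (s n)‖ ≤ 1 / 2 :=
    fun n => est_abs (T * z) (T₀ * z) _ _ hTz hdiff (hWn1 n) (hsn n) (hcomm n)
  -- transport to `B`
  have hzmem : z ∈ 𝓣 := by rw [hz]; exact hmem _ (s_mem m)
  have hqmem : ∀ σ, sw s σ * s m ∈ gen (Set.range s) := fun σ => hO.mul _ (sw_mem σ) _ (s_mem m)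
  have hterm : ∀ σ n, (sw s σ * s m) * s n * star (sw s σ * s m) ∈ gen (Set.range s) :=
    fun σ n => hO.mul _ (hO.mul _ (hqmem σ) _ (s_mem n)) _ (hO.adj _ (hqmem σ))
  have hWmem : ∀ n, Wn s F m n ∈ gen (Set.range s) := fun n =>
    sum_mem hO hO _ _ fun σ _ => hterm σ n
  set q : List ℕ → Op (MM I x₀) := fun σ => Θ (tn 1 (sw s σ * s m)) with hq
  have hqJ : ∀ σ, q σ ∈ BJ x₀ Z J := by
    intro σ
    change Θ (tn 1 (sw s σ * s m)) ∈ _
    rw [hmulΘ _ (sw_mem σ) _ (s_mem m)]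
    exact hJalg.mul _ (hswJ σ) _ (hvJ m)
  have hΘW : ∀ n, Θ (tn 1 (Wn s F m n)) = ∑ σ ∈ F, q σ * v n * star (q σ) := by
    intro n
    have h1 : tn (1 : Op (MM I x₀)) (Wn s F m n) =
        ∑ σ ∈ F, tn 1 ((sw s σ * s m) * s n * star (sw s σ * s m)) := by
      unfold Wn
      exact map_sum (AddMonoidHom.mk' (fun y : Op P => tn (1 : Op (MM I x₀)) y)
        (fun a b => tn_add_right _ a b)) _ _
    rw [h1, hom_sum hT hΘ.hom _ _ fun σ _ => hmem _ (hterm σ n)]
    refine Finset.sum_congr rfl fun σ _ => ?_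
    rw [hmulΘ _ (hO.mul _ (hqmem σ) _ (s_mem n)) _ (hO.adj _ (hqmem σ)),
      hmulΘ _ (hqmem σ) _ (s_mem n), hstarΘ _ (hqmem σ)]
  have hΘWJ : ∀ n, Θ (tn 1 (Wn s F m n)) ∈ BJ x₀ Z J := by
    intro n
    rw [hΘW]
    exact sum_mem hJalg hJalg _ _ fun σ _ =>
      hJalg.mul _ (hJalg.mul _ (hqJ σ) _ (hvJ n)) _ (hJalg.adj _ (hqJ σ))
  set G : ℕ → Op (MM I x₀) := fun n =>
    star (Li x₀ j) * Θ (tn 1 (Wn s F m n)) * Li x₀ j with hG
  have hGD : ∀ n, G n ∈ DD I x₀ Z := fun n => (slice x₀ hj (hΘWJ n) hZ).1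
  have hLn : ‖Li x₀ j‖ ≤ 1 := norm_isom_le (Li_isom x₀ j)
  have hG1 : ∀ n, ‖G n‖ ≤ 1 := by
    intro n
    have h1 : ‖Θ (tn 1 (Wn s F m n))‖ ≤ 1 := by
      rw [iso_norm hT hB hΘ (hmem _ (hWmem n))]
      exact hWn1 n
    refine (norm_mul_le _ _).trans ?_
    have h2 : ‖star (Li x₀ j) * Θ (tn 1 (Wn s F m n))‖ ≤ 1 := by
      refine (norm_mul_le _ _).trans ?_
      rw [norm_star']
      calc _ ≤ (1 : ℝ) * 1 := mul_le_mul hLn h1 (norm_nonneg _) zero_le_one
        _ = 1 := one_mul _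
    calc _ ≤ (1 : ℝ) * 1 := mul_le_mul h2 hLn (norm_nonneg _) zero_le_one
      _ = 1 := one_mul _
  have hlim : ∀ η, Filter.Tendsto (fun n => star (G n) η) Filter.atTop (nhds 0) := by
    intro η
    have e : ∀ n, star (G n) η = star (Li x₀ j) (∑ σ ∈ F, q σ (star (v n)
        (star (q σ) (Li x₀ j η)))) := by
      intro n
      have h1 : star (G n) = star (Li x₀ j) * (∑ σ ∈ F, q σ * star (v n) * star (q σ)) *
          Li x₀ j := by
        change star (star (Li x₀ j) * Θ (tn 1 (Wn s F m n)) * Li x₀ j) = _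
        rw [hΘW, star_mul, star_mul, star_star, star_sum, mul_assoc]
        congr 2
        refine Finset.sum_congr rfl fun σ _ => ?_
        simp only [star_mul, star_star, mul_assoc]
      rw [h1]
      have h2 : (star (Li x₀ j) * (∑ σ ∈ F, q σ * star (v n) * star (q σ)) * Li x₀ j) η =
          star (Li x₀ j) ((∑ σ ∈ F, q σ * star (v n) * star (q σ)) (Li x₀ j η)) := rfl
      rw [h2, sum_apply]
      rfl
    simp_rw [e]
    have h3 : Filter.Tendsto (fun n => ∑ σ ∈ F, q σ (star (v n) (star (q σ) (Li x₀ j η))))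
        Filter.atTop (nhds (∑ σ ∈ F, q σ 0)) :=
      tendsto_finsetSum _ fun σ _ =>
        ((q σ).continuous.tendsto 0).comp (cuntz_adj_tendsto hvs (star (q σ) (Li x₀ j η)))
    have h4 := ((star (Li x₀ j)).continuous.tendsto _).comp h3
    simp only [map_zero, Finset.sum_const_zero] at h4
    exact h4
  have hconv := strong_conv x₀ hZ htr hGD hG1 hlim (hvB m)
  set ξ : L2 (MM I x₀) := lp.single 2 (([], y0 x₀) : MM I x₀) (1 : ℂ) with hξ
  have hξ1 : ‖ξ‖ = 1 := by
    rw [hξ, lp.norm_single (by norm_num)]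
    simp
  have hest2 : ∀ n, ‖star (v m) * G n * v m - v n‖ ≤ 1 / 2 := by
    intro n
    have hWT : tn (1 : Op (MM I x₀)) (Wn s F m n) ∈ 𝓣 := hmem _ (hWmem n)
    have hTzT : T * z ∈ 𝓣 := hT.mul _ hT𝓣 _ hzmem
    have e1 : Θ (T * z) = Li x₀ j * v m := by
      rw [hΘ.hom.mul.mul _ hT𝓣 _ hzmem, hTj, hz]
    have e : Θ (star (T * z) * tn 1 (Wn s F m n) * (T * z) - tn 1 (s n)) =
        star (v m) * G n * v m - v n := by
      have h1 : star (T * z) * tn 1 (Wn s F m n) * (T * z) - tn 1 (s n) =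
          star (T * z) * tn 1 (Wn s F m n) * (T * z) + (-1 : ℂ) • tn 1 (s n) := by
        rw [neg_smul, one_smul, sub_eq_add_neg]
      have m1 : star (T * z) ∈ 𝓣 := hT.adj _ hTzT
      have m2 : star (T * z) * tn 1 (Wn s F m n) ∈ 𝓣 := hT.mul _ m1 _ hWT
      have m3 : star (T * z) * tn 1 (Wn s F m n) * (T * z) ∈ 𝓣 := hT.mul _ m2 _ hTzT
      rw [h1, hΘ.hom.lin.add _ m3 _ (hT.subspace.smul _ _ (hmem _ (s_mem n))),
        hΘ.hom.lin.smul _ _ (hmem _ (s_mem n)), hΘ.hom.mul.mul _ m2 _ hTzT,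
        hΘ.hom.mul.mul _ m1 _ hWT, hΘ.hom.mul.adj _ hTzT, e1, neg_smul, one_smul,
        ← sub_eq_add_neg]
      congr 1
      change star (Li x₀ j * v m) * Θ (tn 1 (Wn s F m n)) * (Li x₀ j * v m) =
        star (v m) * (star (Li x₀ j) * Θ (tn 1 (Wn s F m n)) * Li x₀ j) * v m
      simp only [star_mul, mul_assoc]
    rw [← e]
    have m4 : star (T * z) * tn 1 (Wn s F m n) * (T * z) - tn 1 (s n) ∈ 𝓣 := by
      have h1 : star (T * z) * tn 1 (Wn s F m n) * (T * z) - tn 1 (s n) =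
          star (T * z) * tn 1 (Wn s F m n) * (T * z) + (-1 : ℂ) • tn 1 (s n) := by
        rw [neg_smul, one_smul, sub_eq_add_neg]
      rw [h1]
      exact hT.subspace.add _ (hT.mul _ (hT.mul _ (hT.adj _ hTzT) _ hWT) _ hTzT) _
        (hT.subspace.smul _ _ (hmem _ (s_mem n)))
    rw [iso_norm hT hB hΘ m4]
    exact hest n
  have hfin : ∀ n, 1 ≤ 1 / 2 + ‖G n (v m ξ)‖ := by
    intro n
    have h1 : ‖v n ξ‖ = 1 := by
      have h2 := entry_star_mul_self (v n) (([], y0 x₀) : MM I x₀)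
      rw [hvs.isom, entry_one, if_pos rfl] at h2
      have h3 : ‖v n ξ‖ ^ 2 = 1 := by exact_mod_cast h2.symm
      have h4 : Real.sqrt (‖v n ξ‖ ^ 2) = 1 := by rw [h3, Real.sqrt_one]
      rwa [Real.sqrt_sq (norm_nonneg _)] at h4
    have h2 : v n ξ = star (v m) (G n (v m ξ)) - (star (v m) * G n * v m - v n) ξ := by
      have h3 : (star (v m) * G n * v m - v n) ξ = star (v m) (G n (v m ξ)) - v n ξ := rfl
      rw [h3]; abel
    have h6 : ‖v n ξ‖ ≤ ‖star (v m) (G n (v m ξ))‖ +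
        ‖(star (v m) * G n * v m - v n) ξ‖ := by
      rw [h2]
      exact norm_sub_le _ _
    have h4 : ‖star (v m) (G n (v m ξ))‖ ≤ ‖G n (v m ξ)‖ := by
      refine (norm_star_apply _ _).trans ?_
      calc ‖v m‖ * ‖G n (v m ξ)‖ ≤ 1 * ‖G n (v m ξ)‖ :=
            mul_le_mul_of_nonneg_right (norm_isom_le (hvs.isom m)) (norm_nonneg _)
        _ = ‖G n (v m ξ)‖ := one_mul _
    have h5 : ‖(star (v m) * G n * v m - v n) ξ‖ ≤ 1 / 2 := by
      refine (ContinuousLinearMap.le_opNorm _ _).trans ?_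
      rw [hξ1, mul_one]
      exact hest2 n
    linarith
  have hl : Filter.Tendsto (fun n => 1 / 2 + ‖G n (v m ξ)‖) Filter.atTop (nhds (1 / 2 + 0)) :=
    (tendsto_const_nhds).add (by
      have h := hconv.norm
      rwa [norm_zero] at h)
  have h6 : (1 : ℝ) ≤ 1 / 2 + 0 := ge_of_tendsto' hl hfin
  norm_num at h6

end

end H584Z
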